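import Mathlib

/-! Abelian theorem: Cesàro means to radial limits. -/

set_option autoImplicit false

open Filter Topology Set

namespace Pool.Agent.H723R2.Abel

theorem hasSum_succ_mul {r : ℝ} (h0 : 0 ≤ r) (h1 : r < 1) :
    HasSum (fun n : ℕ => ((n : ℝ) + 1) * r ^ n) (1 / (1 - r) ^ 2) := by
  have hn : ‖r‖ < 1 := by rwa [Real.norm_eq_abs, abs_of_nonneg h0]
  have h2 := hasSum_coe_mul_geometric_of_norm_lt_one hn
  have h3 := hasSum_geometric_of_norm_lt_one hn
  have h4 := h2.add h3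
  have hr : (1 - r) ≠ 0 := by linarith
  have e : r / (1 - r) ^ 2 + (1 - r)⁻¹ = 1 / (1 - r) ^ 2 := by field_simp; ring
  rw [e] at h4
  have e2 : (fun n : ℕ => ((n : ℝ) + 1) * r ^ n) = fun n : ℕ => (n : ℝ) * r ^ n + r ^ n := by
    funext n; ring
  rw [e2]
  exact h4

theorem summable_of_bdd {b : ℕ → ℝ} {C : ℝ} (hb : ∀ n, |b n| ≤ C) {r : ℝ} (h0 : 0 ≤ r)
    (h1 : r < 1) : Summable (fun n : ℕ => ‖b n * r ^ n‖) := by
  have h3 := (summable_geometric_of_lt_one h0 h1).mul_left C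
  refine Summable.of_nonneg_of_le (fun n => norm_nonneg _) (fun n => ?_) h3
  rw [norm_mul, Real.norm_eq_abs, Real.norm_eq_abs, abs_of_nonneg (pow_nonneg h0 n)]
  exact mul_le_mul_of_nonneg_right (hb n) (pow_nonneg h0 n)

/-- `Σ b_n r^n = (1-r) Σ (b_0+…+b_n) r^n`. -/
theorem tsum_eq {b : ℕ → ℝ} {C : ℝ} (hb : ∀ n, |b n| ≤ C) {r : ℝ} (h0 : 0 ≤ r) (h1 : r < 1) :
    ∑' n, b n * r ^ n = (1 - r) * ∑' n, (∑ k ∈ Finset.range (n + 1), b k) * r ^ n := by
  have hs := summable_of_bdd hb h0 h1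
  have hg : Summable (fun n : ℕ => ‖r ^ n‖) := by
    have := summable_geometric_of_lt_one h0 h1
    refine this.congr fun n => ?_
    rw [Real.norm_eq_abs, abs_of_nonneg (pow_nonneg h0 n)]
  have h := tsum_mul_tsum_eq_tsum_sum_range_of_summable_norm hs hg
  rw [tsum_geometric_of_lt_one h0 h1] at h
  have hr : (1 - r) ≠ 0 := by linarith
  have e : ∀ n : ℕ, ∑ k ∈ Finset.range (n + 1), b k * r ^ k * r ^ (n - k) =
      (∑ k ∈ Finset.range (n + 1), b k) * r ^ n := by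
    intro n
    rw [Finset.sum_mul]
    refine Finset.sum_congr rfl fun k hk => ?_
    have hk' : k ≤ n := Nat.lt_succ_iff.1 (Finset.mem_range.1 hk)
    rw [mul_assoc, ← pow_add, Nat.add_sub_cancel' hk']
  rw [tsum_congr e] at h
  rw [← h]
  field_simp

theorem abelian {b : ℕ → ℝ} {C d : ℝ} (hb : ∀ n, |b n| ≤ C)
    (hd : Tendsto (fun N : ℕ => (∑ k ∈ Finset.range N, b k) / N) atTop (𝓝 d)) :
    Tendsto (fun r : ℝ => (1 - r) * ∑' n, b n * r ^ n) (𝓝[<] 1) (𝓝 d) := by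
  have hkey : ∀ ε > 0, ∃ K : ℝ, 0 ≤ K ∧ ∀ n : ℕ,
      |(∑ k ∈ Finset.range (n + 1), b k) - d * (n + 1)| ≤ K + ε * (n + 1) := by
    intro ε hε
    obtain ⟨N0, hN0⟩ := Metric.tendsto_atTop.1 hd ε hε
    refine ⟨∑ n ∈ Finset.range N0, |(∑ k ∈ Finset.range (n + 1), b k) - d * (n + 1)|,
      Finset.sum_nonneg fun _ _ => abs_nonneg _, fun n => ?_⟩
    have hpos : (0:ℝ) < n + 1 := by positivity
    by_cases hn : n < N0
    · have h1 := Finset.single_le_sum
        (f := fun n : ℕ => |(∑ k ∈ Finset.range (n + 1), b k) - d * (n + 1)|)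
        (fun i _ => abs_nonneg _) (Finset.mem_range.2 hn)
      have h2 : 0 ≤ ε * (n + 1) := by positivity
      linarith
    · have h1 := hN0 (n + 1) (by omega)
      rw [Real.dist_eq] at h1
      push_cast at h1
      have h2 : |(∑ k ∈ Finset.range (n + 1), b k) - d * (n + 1)| ≤ ε * (n + 1) := by
        have e : (∑ k ∈ Finset.range (n + 1), b k) - d * (n + 1) =
            ((∑ k ∈ Finset.range (n + 1), b k) / (n + 1) - d) * (n + 1) := by
          field_simp
        rw [e, abs_mul, abs_of_pos hpos]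
        exact mul_le_mul_of_nonneg_right h1.le hpos.le
      have h3 : 0 ≤ ∑ n ∈ Finset.range N0,
          |(∑ k ∈ Finset.range (n + 1), b k) - d * (n + 1)| :=
        Finset.sum_nonneg fun _ _ => abs_nonneg _
      linarith
  have hbound : ∀ ε > 0, ∃ K : ℝ, 0 ≤ K ∧ ∀ r : ℝ, 0 ≤ r → r < 1 →
      |(1 - r) * ∑' n, b n * r ^ n - d| ≤ (1 - r) * K + ε := by
    intro ε hε
    obtain ⟨K, hK0, hK⟩ := hkey ε hε
    refine ⟨K, hK0, fun r h0 h1 => ?_⟩
    have hr : (1 - r) ≠ 0 := by linarith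
    have hr' : 0 < 1 - r := by linarith
    have hs1 := hasSum_succ_mul h0 h1
    have hs0 := hasSum_geometric_of_lt_one h0 h1
    have hmaj : HasSum (fun n : ℕ => (K + ε * (n + 1)) * r ^ n)
        (K * (1 - r)⁻¹ + ε * (1 / (1 - r) ^ 2)) := by
      have h := (hs0.mul_left K).add (hs1.mul_left ε)
      have e2 : (fun n : ℕ => (K + ε * (n + 1)) * r ^ n) =
          fun n : ℕ => K * r ^ n + ε * (((n : ℝ) + 1) * r ^ n) := by
        funext n; ring
      rw [e2]
      exact h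
    have hsmall : Summable (fun n : ℕ =>
        ((∑ k ∈ Finset.range (n + 1), b k) - d * (n + 1)) * r ^ n) := by
      refine Summable.of_norm_bounded hmaj.summable fun n => ?_
      rw [norm_mul, Real.norm_eq_abs, Real.norm_eq_abs, abs_of_nonneg (pow_nonneg h0 n)]
      exact mul_le_mul_of_nonneg_right (hK n) (pow_nonneg h0 n)
    have hbd : |∑' n : ℕ, ((∑ k ∈ Finset.range (n + 1), b k) - d * (n + 1)) * r ^ n| ≤
        K * (1 - r)⁻¹ + ε * (1 / (1 - r) ^ 2) := by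
      have h := tsum_of_norm_bounded hmaj (f := fun n : ℕ =>
        ((∑ k ∈ Finset.range (n + 1), b k) - d * (n + 1)) * r ^ n) (fun n => by
          rw [norm_mul, Real.norm_eq_abs, Real.norm_eq_abs, abs_of_nonneg (pow_nonneg h0 n)]
          exact mul_le_mul_of_nonneg_right (hK n) (pow_nonneg h0 n))
      rwa [Real.norm_eq_abs] at h
    have hA : HasSum (fun n : ℕ => (∑ k ∈ Finset.range (n + 1), b k) * r ^ n)
        (∑' n : ℕ, ((∑ k ∈ Finset.range (n + 1), b k) - d * (n + 1)) * r ^ n +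
          d * (1 / (1 - r) ^ 2)) := by
      have h := hsmall.hasSum.add (hs1.mul_left d)
      have e2 : (fun n : ℕ => (∑ k ∈ Finset.range (n + 1), b k) * r ^ n) =
          fun n : ℕ => ((∑ k ∈ Finset.range (n + 1), b k) - d * (n + 1)) * r ^ n +
            d * (((n : ℝ) + 1) * r ^ n) := by
        funext n; ring
      rw [e2]
      exact h
    rw [tsum_eq hb h0 h1, hA.tsum_eq]
    have e : (1 - r) * ((1 - r) *
        (∑' n : ℕ, ((∑ k ∈ Finset.range (n + 1), b k) - d * (n + 1)) * r ^ n +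
          d * (1 / (1 - r) ^ 2))) - d = (1 - r) ^ 2 *
        ∑' n : ℕ, ((∑ k ∈ Finset.range (n + 1), b k) - d * (n + 1)) * r ^ n := by
      field_simp
      ring
    rw [e, abs_mul, abs_of_nonneg (by positivity : (0:ℝ) ≤ (1 - r) ^ 2)]
    calc (1 - r) ^ 2 * |∑' n : ℕ, ((∑ k ∈ Finset.range (n + 1), b k) - d * (n + 1)) * r ^ n|
        ≤ (1 - r) ^ 2 * (K * (1 - r)⁻¹ + ε * (1 / (1 - r) ^ 2)) :=
          mul_le_mul_of_nonneg_left hbd (by positivity)
      _ = (1 - r) * K + ε := by field_simp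
  rw [Metric.tendsto_nhdsWithin_nhds]
  intro ε hε
  obtain ⟨K, hK0, hK⟩ := hbound (ε / 2) (by positivity)
  refine ⟨min 1 (ε / (2 * (K + 1))), by positivity, fun {r} hr1 hr2 => ?_⟩
  rw [Real.dist_eq] at hr2 ⊢
  have hr1' : r < 1 := hr1
  have h1 : |r - 1| = 1 - r := by rw [abs_sub_comm, abs_of_pos (by linarith)]
  rw [h1] at hr2
  have h2 : 1 - r < 1 := lt_of_lt_of_le hr2 (min_le_left _ _)
  have h3 : 1 - r < ε / (2 * (K + 1)) := lt_of_lt_of_le hr2 (min_le_right _ _)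
  refine lt_of_le_of_lt (hK r (by linarith) hr1') ?_
  have h4 : (1 - r) * (K + 1) < ε / (2 * (K + 1)) * (K + 1) :=
    mul_lt_mul_of_pos_right h3 (by positivity)
  have h5 : ε / (2 * (K + 1)) * (K + 1) = ε / 2 := by field_simp
  nlinarith

end Pool.Agent.H723R2.Abel
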