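import Mathlib
import Pool.Agent.H723R2.Abel

/-! Abelian theorem for complex coefficients. -/

set_option autoImplicit false

open Filter Topology Set

namespace Pool.Agent.H723R2.Abel

theorem abelianC {b : ℕ → ℂ} {C : ℝ} {d : ℂ} (hb : ∀ n, ‖b n‖ ≤ C)
    (hd : Tendsto (fun N : ℕ => (∑ k ∈ Finset.range N, b k) / N) atTop (𝓝 d)) :
    Tendsto (fun r : ℝ => (1 - (r : ℂ)) * ∑' n, b n * (r : ℂ) ^ n) (𝓝[<] 1) (𝓝 d) := by
  have hre : Tendsto (fun N : ℕ => (∑ k ∈ Finset.range N, (b k).re) / N) atTop (𝓝 d.re) := by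
    refine ((Complex.continuous_re.tendsto d).comp hd).congr fun N => ?_
    simp only [Function.comp]
    rw [Complex.div_natCast_re, Complex.re_sum]
  have him : Tendsto (fun N : ℕ => (∑ k ∈ Finset.range N, (b k).im) / N) atTop (𝓝 d.im) := by
    refine ((Complex.continuous_im.tendsto d).comp hd).congr fun N => ?_
    simp only [Function.comp]
    rw [Complex.div_natCast_im, Complex.im_sum]
  have h1 := abelian (C := C) (fun n => (Complex.abs_re_le_norm _).trans (hb n)) hre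
  have h2 := abelian (C := C) (fun n => (Complex.abs_im_le_norm _).trans (hb n)) him
  have h3 : Tendsto (fun r : ℝ => (((1 - r) * ∑' n, (b n).re * r ^ n : ℝ) : ℂ) +
      (((1 - r) * ∑' n, (b n).im * r ^ n : ℝ) : ℂ) * Complex.I) (𝓝[<] 1)
      (𝓝 ((d.re : ℂ) + (d.im : ℂ) * Complex.I)) :=
    ((Complex.continuous_ofReal.tendsto _).comp h1).add
      (((Complex.continuous_ofReal.tendsto _).comp h2).mul_const _)
  rw [Complex.re_add_im] at h3
  refine h3.congr' ?_
  have hev : ∀ᶠ r : ℝ in 𝓝[<] (1 : ℝ), 0 < r ∧ r < 1 := by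
    apply Filter.Eventually.and
    · exact nhdsWithin_le_nhds (lt_mem_nhds (by norm_num))
    · exact self_mem_nhdsWithin
  filter_upwards [hev] with r hr
  obtain ⟨hr0, hr1⟩ := hr
  have s1 : Summable (fun n : ℕ => (b n).re * r ^ n) :=
    (summable_of_bdd (fun n => (Complex.abs_re_le_norm _).trans (hb n)) hr0.le hr1).of_norm
  have s2 : Summable (fun n : ℕ => (b n).im * r ^ n) :=
    (summable_of_bdd (fun n => (Complex.abs_im_le_norm _).trans (hb n)) hr0.le hr1).of_norm
  have s3 : HasSum (fun n : ℕ => ((((b n).re * r ^ n : ℝ) : ℂ) +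
      (((b n).im * r ^ n : ℝ) : ℂ) * Complex.I))
      (((∑' n, (b n).re * r ^ n : ℝ) : ℂ) + ((∑' n, (b n).im * r ^ n : ℝ) : ℂ) * Complex.I) :=
    (Complex.hasSum_ofReal.2 s1.hasSum).add ((Complex.hasSum_ofReal.2 s2.hasSum).mul_right _)
  have e : ∀ n : ℕ, ((((b n).re * r ^ n : ℝ) : ℂ) +
      (((b n).im * r ^ n : ℝ) : ℂ) * Complex.I) = b n * (r : ℂ) ^ n := by
    intro n
    push_cast
    conv_rhs => rw [← Complex.re_add_im (b n)]
    ring
  simp_rw [e] at s3
  rw [s3.tsum_eq]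
  push_cast
  ring

end Pool.Agent.H723R2.Abel
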