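import Pool.Agent.H723R2.Rich

/-! Equivalence classes of characters. -/

set_option autoImplicit false
set_option linter.unusedVariables false

open MeasureTheory Filter Topology
open scoped ENNReal NNReal

noncomputable section

namespace MS723

open SM345 (XX UnifMeas errs J IsLim Koop opP cyc)

variable {P : Par}

/-- multiply the coordinate `i` by `a i ^ t` -/
def ud (i t : ℕ) (d : Dd P) : Dd P := Function.update d i (P.a i ^ t * d i)

theorem ud_supp (i t n : ℕ) (d : Dd P) (hd : supp n d) : supp n (ud i t d) := by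
  intro j hj
  unfold ud
  by_cases h : j = i
  · subst h
    rw [Function.update_self, hd j hj, mul_zero]
  · rw [Function.update_of_ne h, hd j hj]

theorem ud_self (i t : ℕ) (d : Dd P) : ud i t d i = P.a i ^ t * d i := by
  unfold ud; rw [Function.update_self]

theorem ud_ne (i t : ℕ) (d : Dd P) (h : d i ≠ 0) : ud i t d i ≠ 0 := by
  rw [ud_self]
  exact mul_ne_zero (pow_ne_zero _ (a_ne_zero i)) h

theorem ud_ud (i t s : ℕ) (d : Dd P) : ud i s (ud i t d) = ud i (s + t) d := by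
  funext j
  by_cases h : j = i
  · subst h
    rw [ud_self, ud_self, ud_self, pow_add, mul_assoc]
  · unfold ud
    rw [Function.update_of_ne h, Function.update_of_ne h, Function.update_of_ne h]

theorem ud_zero (i : ℕ) (d : Dd P) : ud i 0 d = d := by
  unfold ud
  rw [pow_zero, one_mul, Function.update_eq_self]

theorem ud_mod (i t : ℕ) (d : Dd P) : ud i (t % P.k i) d = ud i t d := by
  unfold ud
  congr 2
  conv_rhs => rw [← Nat.mod_add_div t (P.k i), pow_add, pow_mul, P.ha, one_pow, mul_one]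

theorem ud_succ (i t : ℕ) (d : Dd P) : upd i (ud i t d) = ud i (t + 1) d := by
  have : ∀ e : Dd P, upd i e = ud i 1 e := by
    intro e
    unfold upd ud
    rw [pow_one]
  rw [this, ud_ud, add_comm]

theorem ud_inj (i : ℕ) (d : Dd P) (h : d i ≠ 0) (s t : ℕ) (hs : s < P.k i) (ht : t < P.k i)
    (he : ud i s d = ud i t d) : s = t := by
  have key : ∀ s t, s < P.k i → t < P.k i → s ≤ t → ud i s d = ud i t d → s = t := by
    intro s t hs ht hst he
    by_contra hne
    have h1 := congrFun he i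
    rw [ud_self, ud_self] at h1
    have h2 := mul_right_cancel₀ h h1
    obtain ⟨r, rfl⟩ := Nat.exists_eq_add_of_le hst
    rw [pow_add] at h2
    have h3 : P.a i ^ r = 1 := by
      have h4 : P.a i ^ s * P.a i ^ r = P.a i ^ s * 1 := by rw [mul_one]; exact h2.symm
      exact mul_left_cancel₀ (pow_ne_zero _ (a_ne_zero i)) h4
    exact P.ha' i r (by omega) (by omega) h3
  rcases le_total s t with h1 | h1
  · exact key s t hs ht h1 he
  · exact (key t s ht hs h1 he.symm).symm

/-- nonzero finitely supported labels -/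
def DS (P : Par) : Type := {d : Dd P // d ≠ 0 ∧ ∃ r, supp r d}

/-- the largest nonzero coordinate -/
theorem exists_top (d : DS P) : ∃ i, d.1 i ≠ 0 ∧ supp (i + 1) d.1 := by
  classical
  obtain ⟨d, hne, r, hr⟩ := d
  obtain ⟨j₀, hj₀⟩ := Function.ne_iff.1 hne
  have hj₀r : j₀ < r := by
    by_contra hcon
    exact hj₀ (hr j₀ (not_lt.1 hcon))
  have hne : ((Finset.range r).filter (fun j => d j ≠ 0)).Nonempty :=
    ⟨j₀, Finset.mem_filter.2 ⟨Finset.mem_range.2 hj₀r, hj₀⟩⟩
  refine ⟨((Finset.range r).filter (fun j => d j ≠ 0)).max' hne, ?_, ?_⟩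
  · have him := Finset.max'_mem _ hne
    exact (Finset.mem_filter.1 him).2
  · intro j hj
    by_contra hcon
    have hcon' : d j ≠ 0 := hcon
    have hjr : j < r := by
      by_contra h'
      exact hcon' (hr j (not_lt.1 h'))
    have hjm : j ∈ (Finset.range r).filter (fun j => d j ≠ 0) :=
      Finset.mem_filter.2 ⟨Finset.mem_range.2 hjr, hcon'⟩
    have := Finset.le_max' _ j hjm
    omega

/-- the top coordinate -/
def tp (d : DS P) : ℕ := (exists_top d).choose

theorem tp_ne (d : DS P) : d.1 (tp d) ≠ 0 := (exists_top d).choose_spec.1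
theorem tp_supp (d : DS P) : supp (tp d + 1) d.1 := (exists_top d).choose_spec.2

theorem top_unique (d : Dd P) (i i' : ℕ) (h1 : d i ≠ 0) (h2 : supp (i + 1) d) (h1' : d i' ≠ 0)
    (h2' : supp (i' + 1) d) : i = i' := by
  rcases lt_trichotomy i i' with h | h | h
  · exact absurd (h2 i' h) h1'
  · exact h
  · exact absurd (h2' i h) h1

/-- equivalence of labels -/
def Rel (d d' : DS P) : Prop := ∃ i t, d.1 i ≠ 0 ∧ supp (i + 1) d.1 ∧ d'.1 = ud i t d.1

theorem Rel_refl (d : DS P) : Rel d d := ⟨tp d, 0, tp_ne d, tp_supp d, (ud_zero _ _).symm⟩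

theorem Rel_symm {d d' : DS P} (h : Rel d d') : Rel d' d := by
  obtain ⟨i, t, h1, h2, h3⟩ := h
  refine ⟨i, (P.k i - 1) * t, ?_, ?_, ?_⟩
  · rw [h3]; exact ud_ne i t _ h1
  · rw [h3]; exact ud_supp i t _ _ h2
  · rw [h3, ud_ud]
    have e : (P.k i - 1) * t + t = P.k i * t := by
      have := P.hk i
      obtain ⟨q, hq⟩ : ∃ q, P.k i = q + 1 := ⟨P.k i - 1, by omega⟩
      rw [hq]
      simp only [Nat.add_sub_cancel]
      ring
    rw [e, ← ud_mod, Nat.mul_mod_right, ud_zero]

theorem Rel_trans {d d' d'' : DS P} (h : Rel d d') (h' : Rel d' d'') : Rel d d'' := by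
  obtain ⟨i, t, h1, h2, h3⟩ := h
  obtain ⟨i', t', h1', h2', h3'⟩ := h'
  have e : i = i' := by
    refine top_unique d'.1 i i' ?_ ?_ h1' h2'
    · rw [h3]; exact ud_ne i t _ h1
    · rw [h3]; exact ud_supp i t _ _ h2
  subst e
  exact ⟨i, t' + t, h1, h2, by rw [h3', h3, ud_ud]⟩

instance instSetoidDS (P : Par) : Setoid (DS P) where
  r := Rel
  iseqv := ⟨Rel_refl, Rel_symm, Rel_trans⟩

/-- classes of labels -/
def Cl (P : Par) : Type := Quotient (instSetoidDS P)

instance instCountableCl (P : Par) : Countable (Cl P) := by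
  have h1 : Countable (DS P) := by
    have h2 : Set.Countable {d : Dd P | ∃ r, supp r d} := by
      have e : {d : Dd P | ∃ r, supp r d} = ⋃ r, {d : Dd P | supp r d} := by
        ext d; simp
      rw [e]
      refine Set.countable_iUnion fun r => ?_
      have h3 : Function.Injective (fun d : {d : Dd P | supp r d} =>
          (fun j : Fin r => d.1 j : ∀ j : Fin r, ZMod (P.p j))) := by
        rintro ⟨d, hd⟩ ⟨d', hd'⟩ h
        apply Subtype.ext
        funext j
        by_cases hj : j < r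
        · exact congrFun h ⟨j, hj⟩
        · exact (hd j (not_lt.1 hj)).trans (hd' j (not_lt.1 hj)).symm
      exact Set.countable_coe_iff.1 h3.countable
    have h4 : Set.Countable {d : Dd P | d ≠ 0 ∧ ∃ r, supp r d} :=
      h2.mono fun d hd => hd.2
    exact Set.countable_coe_iff.2 h4
  exact Quotient.countable

/-- representative of a class -/
def rp (l : Cl P) : DS P := Quotient.out l

theorem rp_eq (l : Cl P) : (Quotient.mk (instSetoidDS P) (rp l) : Cl P) = l := Quotient.out_eq l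

/-- multiplicity of a class -/
def mu (l : Cl P) : ℕ := P.k (tp (rp l))

/-- members of a class -/
def mem (l : Cl P) (t : ℕ) : Dd P := ud (tp (rp l)) t (rp l).1

theorem mem_supp (l : Cl P) (t : ℕ) : supp (tp (rp l) + 1) (mem l t) :=
  ud_supp _ _ _ _ (tp_supp (rp l))

theorem mem_ne (l : Cl P) (t : ℕ) : mem l t ≠ 0 := by
  intro h
  have h1 := ud_ne (tp (rp l)) t (rp l).1 (tp_ne (rp l))
  apply h1
  show mem l t (tp (rp l)) = 0
  rw [h]
  rfl

theorem rel_eq (l l' : Cl P) (t t' : ℕ) (h : mem l t = mem l' t') : l = l' := by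
  have h1 : Rel (rp l) ⟨mem l t, mem_ne l t, _, mem_supp l t⟩ :=
    ⟨tp (rp l), t, tp_ne _, tp_supp _, rfl⟩
  have h2 : Rel (rp l') ⟨mem l' t', mem_ne l' t', _, mem_supp l' t'⟩ :=
    ⟨tp (rp l'), t', tp_ne _, tp_supp _, rfl⟩
  have h3 : (⟨mem l t, mem_ne l t, _, mem_supp l t⟩ : DS P) =
      ⟨mem l' t', mem_ne l' t', _, mem_supp l' t'⟩ := Subtype.ext h
  rw [h3] at h1
  have h4 : Rel (rp l) (rp l') := Rel_trans h1 (Rel_symm h2)
  have h5 : (Quotient.mk (instSetoidDS P) (rp l) : Cl P) = Quotient.mk (instSetoidDS P) (rp l') :=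
    Quotient.sound h4
  exact (rp_eq l).symm.trans (h5.trans (rp_eq l'))

theorem mem_inj (l l' : Cl P) (t t' : ℕ) (ht : t < mu l) (ht' : t' < mu l')
    (h : mem l t = mem l' t') : l = l' ∧ t = t' := by
  have h1 := rel_eq l l' t t' h
  subst h1
  exact ⟨rfl, ud_inj _ _ (tp_ne (rp l)) t t' ht ht' h⟩

theorem exists_mem (d : DS P) : ∃ l : Cl P, ∃ t, t < mu l ∧ d.1 = mem l t := by
  refine ⟨⟦d⟧, ?_⟩
  have h1 : Rel (rp ⟦d⟧) d := by
    have : (⟦rp (⟦d⟧ : Cl P)⟧ : Cl P) = ⟦d⟧ := Quotient.out_eq _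
    exact Quotient.exact this
  obtain ⟨i, t, h2, h3, h4⟩ := h1
  have e : i = tp (rp ⟦d⟧) := top_unique _ i _ h2 h3 (tp_ne _) (tp_supp _)
  subst e
  exact ⟨t % mu ⟦d⟧, Nat.mod_lt _ (P.hk _), by unfold mem mu; rw [ud_mod]; exact h4⟩

/-- inequivalent labels are separated -/
theorem sep_cl (l l' : Cl P) (h : l ≠ l') : ∃ r β, supp r (rp l).1 ∧ supp r (rp l').1 ∧
    eta r β (rp l).1 ≠ eta r β (rp l').1 := by
  set r := max (tp (rp l) + 1) (tp (rp l') + 1) with hr
  have h1 : supp r (rp l).1 := supp_mono (le_max_left _ _) (tp_supp _)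
  have h2 : supp r (rp l').1 := supp_mono (le_max_right _ _) (tp_supp _)
  by_contra hcon
  push Not at hcon
  have h3 := sep r (rp l).1 (rp l').1 h1 h2 (fun β => hcon r β h1 h2)
  have h4 : Rel (rp l) (rp l') := by
    rcases h3 with h3 | ⟨i, t, hi, hdi, hsi, hu⟩
    · have : rp l = rp l' := Subtype.ext h3
      rw [this]
      exact Rel_refl _
    · apply Rel_symm
      refine ⟨i, t, ?_, ?_, hu⟩
      · intro h0
        rw [hu, Function.update_self, h0, mul_zero] at hdi
        exact hdi rfl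
      · intro j hj
        have h5 := congrFun hu j
        rw [Function.update_of_ne (by omega)] at h5
        rw [← h5, hsi j hj]
  have h5 : (Quotient.mk (instSetoidDS P) (rp l) : Cl P) = Quotient.mk (instSetoidDS P) (rp l') :=
    Quotient.sound h4
  exact h ((rp_eq l).symm.trans (h5.trans (rp_eq l')))

theorem exists_cl (i : ℕ) : ∃ l : Cl P, mu l = P.k i := by
  classical
  set d : Dd P := Function.update 0 i 1 with hd
  have h1 : d i ≠ 0 := by
    rw [hd, Function.update_self]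
    exact one_ne_zero
  have h2 : supp (i + 1) d := by
    intro j hj
    rw [hd, Function.update_of_ne (by omega)]
    rfl
  have hne : d ≠ 0 := by
    intro h
    rw [h] at h1
    exact h1 rfl
  obtain ⟨l, t, ht, he⟩ := exists_mem (⟨d, hne, _, h2⟩ : DS P)
  refine ⟨l, ?_⟩
  unfold mu
  congr 1
  have he' : d = mem l t := he
  refine top_unique d _ _ ?_ ?_ h1 h2
  · rw [he']; exact ud_ne _ _ _ (tp_ne _)
  · rw [he']; exact mem_supp l t

/-! ### the operators -/

variable (c : Ctx P)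

theorem UR_pow (i : ℕ) (d : Dd P) (hd : supp (i + 1) d) (t : ℕ) :
    (∀ F ∈ Kd c d, ((c.UR i) ^ t) F ∈ Kd c (ud i t d)) ∧
    (∀ F ∈ Kd c d, ((c.UR i) ^ t) (c.UT F) = c.UT (((c.UR i) ^ t) F)) ∧
    (∀ G ∈ Kd c (ud i t d), ∃ F ∈ Kd c d, ((c.UR i) ^ t) F = G) := by
  induction t with
  | zero =>
    rw [ud_zero]
    exact ⟨fun F hF => hF, fun F _ => rfl, fun G hG => ⟨G, hG, rfl⟩⟩
  | succ t ih =>
    obtain ⟨h1, h2, h3⟩ := ih
    have hs : supp (i + 1) (ud i t d) := ud_supp i t _ _ hd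
    have e : ∀ F : Lp ℂ 2 c.μ, ((c.UR i) ^ (t + 1)) F = c.UR i (((c.UR i) ^ t) F) := by
      intro F
      rw [pow_succ']
      rfl
    refine ⟨?_, ?_, ?_⟩
    · intro F hF
      rw [e, ← ud_succ]
      exact UR_Kd c i _ (i + 1) hs _ (h1 F hF)
    · intro F hF
      rw [e, e, h2 F hF]
      exact rel_RT c i _ hs _ (h1 F hF)
    · intro G hG
      rw [← ud_succ] at hG
      have h4 := UR_Kd' c i _ (i + 1) hs G hG
      obtain ⟨F, hF, hF'⟩ := h3 _ h4
      refine ⟨F, hF, ?_⟩
      rw [e, hF']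
      exact (c.UR i).apply_symm_apply G

/-- the spectral pieces of a class -/
theorem cl_spec (hR : Rich P) (l : Cl P) :
    ∃ σ : Measure Circle, IsFiniteMeasure σ ∧ σ ≠ 0 ∧ ∃ V : ℕ → (Lp ℂ 2 σ →ₗᵢ[ℂ] Lp ℂ 2 c.μ),
      (∀ t, Intw c.UT σ (V t)) ∧ (∀ t h, V t h ∈ Kd c (mem l t)) ∧
      (∀ t, ∀ F ∈ Kd c (mem l t), ∃ h, V t h = F) := by
  set i := tp (rp l) with hi
  have hs : supp (i + 1) (rp l).1 := tp_supp _
  obtain ⟨σ, hσ, hne, V, hV, hVK, hVs⟩ := Kd_spec c hR (rp l).1 (i + 1) hs (rp l).2.1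
  refine ⟨σ, hσ, hne, fun t => (((c.UR i) ^ t).toLinearIsometry).comp V, ?_, ?_, ?_⟩
  · intro t f g hfg
    show ((c.UR i) ^ t) (V g) = c.UT (((c.UR i) ^ t) (V f))
    rw [hV f g hfg]
    exact (UR_pow c i _ hs t).2.1 _ (hVK f)
  · intro t h
    exact (UR_pow c i _ hs t).1 _ (hVK h)
  · intro t F hF
    obtain ⟨G, hG, hG'⟩ := (UR_pow c i _ hs t).2.2 F hF
    obtain ⟨h, hh⟩ := hVs G hG
    refine ⟨h, ?_⟩
    show ((c.UR i) ^ t) (V h) = F
    rw [hh, hG']

end MS723
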