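import Pool.Agent.H723R2.VV
import Pool.Agent.H723R2.Cls
import Pool.Agent.Helper345.SM.koop_coe

/-! Totality of the spaces `Kd`, ergodicity, absence of atoms. -/

set_option autoImplicit false
set_option linter.unusedVariables false

open MeasureTheory Filter Topology
open scoped ENNReal NNReal

noncomputable section

namespace MS723

open SM345 (XX UnifMeas errs J IsLim Koop opP cyc)

variable {P : Par} (c : Ctx P)

theorem ch_sub (n : ℕ) (d : Dd P) (z y : Fb P n) :
    ch n d (z - y) = ch n d z * (starRingEnd ℂ) (ch n d y) := by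
  unfold ch
  rw [map_prod, ← Finset.prod_mul_distrib]
  refine Finset.prod_congr rfl fun j _ => ?_
  rw [star_char, ← AddChar.map_add_eq_mul, Pi.sub_apply]
  congr 1
  ring

theorem J_fsum {ι : Type} (n : ℕ) (s : Finset ι) (F : ι → Om P n → ℂ) :
    J c.hμ n (fun z => ∑ i ∈ s, F i z) = ∑ i ∈ s, J c.hμ n (F i) := by
  classical
  refine Finset.induction_on s ?_ fun a s ha ih => ?_
  · have := (SM345.J_basic c.hμ).2.1 n 0 (fun _ => 0)
    simpa using this
  · rw [Finset.sum_insert ha, ← ih, ← (SM345.J_basic c.hμ).1]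
    congr 1
    funext z
    rw [Finset.sum_insert ha]

theorem J_decomp (n : ℕ) (g : Om P n → ℂ) : J c.hμ n g = ∑ b : Fb P n, Jd c (ext n b) n
    (fun u => (1 / (Fintype.card (Fb P n) : ℂ)) *
      ∑ y : Fb P n, g (u, y) * (starRingEnd ℂ) (ch n (ext n b) y)) := by
  classical
  have hF : (Fintype.card (Fb P n) : ℂ) ≠ 0 := by exact_mod_cast Fintype.card_ne_zero
  unfold Jd
  rw [← J_fsum]
  congr 1
  funext z
  obtain ⟨u, x⟩ := z
  unfold bf
  simp only
  have h1 : ∀ b : Fb P n, (1 / (Fintype.card (Fb P n) : ℂ)) *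
      (∑ y : Fb P n, g (u, y) * (starRingEnd ℂ) (ch n (ext n b) y)) * ch n (ext n b) x =
      (1 / (Fintype.card (Fb P n) : ℂ)) * ∑ y : Fb P n, g (u, y) * ch n (ext n b) (x - y) := by
    intro b
    rw [mul_assoc, Finset.sum_mul]
    congr 1
    refine Finset.sum_congr rfl fun y _ => ?_
    rw [ch_sub]
    ring
  rw [Finset.sum_congr rfl fun b _ => h1 b, ← Finset.mul_sum, Finset.sum_comm]
  have h2 : ∀ y : Fb P n, ∑ b : Fb P n, g (u, y) * ch n (ext n b) (x - y) =
      if y = x then g (u, y) * (Fintype.card (Fb P n) : ℂ) else 0 := by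
    intro y
    rw [← Finset.mul_sum, ch_complete]
    by_cases h : y = x
    · rw [if_pos h, if_pos (by rw [h, sub_self])]
    · rw [if_neg h, if_neg, mul_zero]
      intro h'
      exact h (sub_eq_zero.1 h').symm
  rw [Finset.sum_congr rfl fun y _ => h2 y, Finset.sum_ite_eq']
  rw [if_pos (Finset.mem_univ x)]
  field_simp

/-- the functions `Jd` span a dense subspace -/
theorem total (F : Lp ℂ 2 c.μ) (h : ∀ (d : Dd P) (n : ℕ), supp n d → ∀ f,
    inner ℂ (Jd c d n f) F = 0) : F = 0 := by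
  have h1 : ∀ n (g : Om P n → ℂ), inner ℂ (J c.hμ n g) F = 0 := by
    intro n g
    rw [J_decomp c n g, sum_inner]
    exact Finset.sum_eq_zero fun b _ => h _ n (ext_supp n b) _
  by_contra hne
  have hpos : 0 < ‖F‖ := norm_pos_iff.2 hne
  obtain ⟨n, g, hg⟩ := SM345.J_dense c.hμ F (‖F‖ / 2) (by linarith)
  have h2 : inner ℂ (F - J c.hμ n g) F = (‖F‖ : ℂ) ^ 2 := by
    rw [inner_sub_left, h1, sub_zero, inner_self_eq_norm_sq_to_K]
    rfl
  have h3 : ‖F‖ ^ 2 ≤ ‖F - J c.hμ n g‖ * ‖F‖ := by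
    have h4 := norm_inner_le_norm (𝕜 := ℂ) (F - J c.hμ n g) F
    rw [h2, norm_pow, Complex.norm_real, norm_norm] at h4
    exact h4
  nlinarith

/-! ### invariant vectors -/

theorem UT_pow_inv (F : Lp ℂ 2 c.μ) (hF : c.UT F = F) (k : ℕ) : (c.UT ^ k) F = F := by
  induction k with
  | zero => rfl
  | succ k ih =>
    rw [pow_succ']
    show c.UT ((c.UT ^ k) F) = F
    rw [ih, hF]

theorem inner_UT_pow (F : Lp ℂ 2 c.μ) (hF : c.UT F = F) (k : ℕ) (G : Lp ℂ 2 c.μ) :
    inner ℂ ((c.UT ^ k) G) F = inner ℂ G F := by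
  have h := (c.UT ^ k).inner_map_map G F
  rw [UT_pow_inv c F hF] at h
  exact h

theorem inner_QQ (F : Lp ℂ 2 c.μ) (hF : c.UT F = F) (n : ℕ) (G : Lp ℂ 2 c.μ) :
    inner ℂ (opP c.UT (QQ P n) G) F = inner ℂ G F := by
  obtain ⟨o1, -, o3, o4, -⟩ := SM345.opP_basic c.UT
  have hB : (Bn P n : ℂ) ≠ 0 := by exact_mod_cast (Bn_pos P n).ne'
  unfold QQ
  rw [opP_sum, sum_inner]
  have h1 : ∀ i ∈ Finset.range (Bn P n), inner ℂ (opP c.UT (Polynomial.C (1 / (Bn P n : ℂ)) *
    Polynomial.X ^ (LL (Nn P n) (Bn P n) i)) G) F = (1 / (Bn P n : ℂ)) * inner ℂ G F := by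
    intro i _
    rw [o1, o3, o4, inner_smul_left, inner_UT_pow c F hF]
    congr 1
    simp
  rw [Finset.sum_congr rfl h1, Finset.sum_const, Finset.card_range, nsmul_eq_mul]
  field_simp

theorem inv_orth_chi (hR : Rich P) (F : Lp ℂ 2 c.μ) (hF : c.UT F = F) (d : Dd P) (r : ℕ)
    (hd : supp r d) (hne : d ≠ 0) (G : Lp ℂ 2 c.μ) (hG : G ∈ Kd c d) : inner ℂ G F = 0 := by
  obtain ⟨β, hβ⟩ := exists_ne_one r d hd hne
  set η := eta r β d with hη
  have key : ∀ ε : ℝ, 0 < ε → ‖(1 - (starRingEnd ℂ) η) * inner ℂ G F‖ ≤ ε * ‖F‖ := by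
    intro ε hε
    obtain ⟨n, ⟨h1, h2⟩, h3⟩ := ((rich_eta hR r β true).and_eventually
      (lim_QQ c d r hd G hG ε hε)).exists
    have h4 := h3 h1
    rw [h2 d hd, ← hη] at h4
    have e : (1 - (starRingEnd ℂ) η) * inner ℂ G F =
        inner ℂ (opP c.UT (QQ P n) G - η • G) F := by
      rw [inner_sub_left, inner_QQ c F hF, inner_smul_left]
      ring
    rw [e]
    refine (norm_inner_le_norm _ _).trans ?_
    exact mul_le_mul_of_nonneg_right h4.le (norm_nonneg _)
  have h5 : ‖(1 - (starRingEnd ℂ) η) * inner ℂ G F‖ ≤ 0 := by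
    have hlim : Tendsto (fun ε : ℝ => ε * ‖F‖) (𝓝[>] 0) (𝓝 (0 * ‖F‖)) :=
      ((continuous_id.mul continuous_const).tendsto 0).mono_left nhdsWithin_le_nhds
    rw [zero_mul] at hlim
    refine ge_of_tendsto hlim ?_
    filter_upwards [self_mem_nhdsWithin] with ε hε
    exact key ε hε
  have h6 : (1 - (starRingEnd ℂ) η) * inner ℂ G F = 0 := norm_le_zero_iff.1 h5
  rcases mul_eq_zero.1 h6 with h7 | h7
  · exfalso
    apply hβ
    have h8 : (starRingEnd ℂ) η = 1 := (sub_eq_zero.1 h7).symm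
    have h9 := congrArg (starRingEnd ℂ) h8
    rw [Complex.conj_conj, map_one] at h9
    exact h9
  · exact h7

theorem inv_orth_base (F : Lp ℂ 2 c.μ) (hF : c.UT F = F) (m : ℕ) (f : ZMod (Nn P m) → ℂ)
    (hf0 : ∑ u, f u = 0) : inner ℂ (Jd c 0 m f) F = 0 := by
  obtain ⟨C, hC0, hC⟩ := exists_bound f
  have key : ∀ n, m ≤ n → ‖inner ℂ (Jd c 0 m f) F‖ ≤
      C * ((Nn P (n + 1) : ℝ) * dd P (n + 1)) * ‖F‖ := by
    intro n hn
    obtain ⟨g, hg1, hg2, hg3⟩ := Jd_lift' c 0 m n hn (supp_zero m) f C hC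
    have hg0 := hg2 hf0
    set M := Nn P (n + 1) with hM
    have hMpos : 0 < M := Nn_pos P (n + 1)
    have hMC : (M : ℂ) ≠ 0 := by exact_mod_cast hMpos.ne'
    have hMR : (M : ℝ) ≠ 0 := by exact_mod_cast hMpos.ne'
    have hJF : Jd c 0 n g = J c.hμ (n + 1) (bf (n + 1) 0 (lf n g)) := (Jd_lf c 0 n rfl g).symm
    have hlb : ∀ u, ‖lf n g u‖ ≤ C := fun u => hg1 _
    set H := ∑ h ∈ Finset.range M, (1 / (M : ℂ)) • (c.UT ^ h) (J c.hμ (n + 1)
      (bf (n + 1) 0 (lf n g))) with hH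
    have hval : (fun z : Om P (n + 1) => ∑ h ∈ Finset.range M, (1 / (M : ℂ)) *
        bf (n + 1) 0 (lf n g) (((TP P (n + 1)) ^ h) z)) = fun _ => 0 := by
      funext z
      have e0 : ∀ h, bf (n + 1) 0 (lf n g) (((TP P (n + 1)) ^ h) z) =
          g ((St P n).pr (z.1.val + P.m * h) : ℕ) := by
        intro h
        rw [TP_pow]
        unfold bf lf
        simp only [ch_zero, mul_one]
        congr 2
        refine pr_val_congr P n ?_
        rw [ZMod.val_natCast]
        exact Nat.mod_modEq _ _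
      simp only [e0]
      rw [← Finset.mul_sum]
      have h1 : ∑ h ∈ Finset.range M, g ((St P n).pr (z.1.val + P.m * h) : ℕ) =
          ((St P n).low * (St P n).K') • ∑ y : ZMod (Nn P n), g y := (St P n).sum_T z.1.val g
      rw [h1, hg0, smul_zero, mul_zero]
    have hzero : ∑ h ∈ Finset.range M, (1 / (M : ℂ)) • J c.hμ (n + 1) (fun z =>
        bf (n + 1) 0 (lf n g) (((TP P (n + 1)) ^ h) z)) = 0 := by
      rw [J_smul_sum, hval]
      have := (SM345.J_basic c.hμ).2.1 (n + 1) 0 (fun _ => 0)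
      simpa using this
    have hHn : ‖H‖ ≤ C * ((M : ℝ) * dd P (n + 1)) := by
      rw [← sub_zero H, ← hzero, hH, ← Finset.sum_sub_distrib]
      have hterm : ∀ h ∈ Finset.range M, ‖(1 / (M : ℂ)) • (c.UT ^ h) (J c.hμ (n + 1)
          (bf (n + 1) 0 (lf n g))) - (1 / (M : ℂ)) • J c.hμ (n + 1) (fun z =>
          bf (n + 1) 0 (lf n g) (((TP P (n + 1)) ^ h) z))‖ ≤
          (1 / (M : ℝ)) * (C * ((M : ℝ) * dd P (n + 1))) := by
        intro h hh
        rw [← smul_sub, norm_smul, norm_div, norm_one, Complex.norm_natCast]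
        refine mul_le_mul_of_nonneg_left ?_ (by positivity)
        have h1 := SM345.isLim_pow c.hμ (TP P) (dd P) c.UT c.lT (n + 1) h
          (bf (n + 1) 0 (lf n g)) C (bf_bound (n + 1) 0 _ C hlb)
        refine h1.trans ?_
        have h2 : (h : ℝ) ≤ M := by exact_mod_cast (Finset.mem_range.1 hh).le
        have h3 := dd_nonneg P (n + 1)
        calc (h : ℝ) * (C * dd P (n + 1)) ≤ M * (C * dd P (n + 1)) :=
              mul_le_mul_of_nonneg_right h2 (by positivity)
          _ = _ := by ring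
      refine (norm_sum_le _ _).trans ((Finset.sum_le_sum hterm).trans ?_)
      rw [Finset.sum_const, Finset.card_range, nsmul_eq_mul]
      apply le_of_eq
      field_simp
    have hHF : inner ℂ H F = inner ℂ (Jd c 0 m f) F := by
      rw [hH, sum_inner]
      have h1 : ∀ h ∈ Finset.range M, inner ℂ ((1 / (M : ℂ)) • (c.UT ^ h) (J c.hμ (n + 1)
          (bf (n + 1) 0 (lf n g)))) F = (1 / (M : ℂ)) * inner ℂ (Jd c 0 m f) F := by
        intro h _
        rw [inner_smul_left, inner_UT_pow c F hF, ← hJF, hg3]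
        congr 1
        simp
      rw [Finset.sum_congr rfl h1, Finset.sum_const, Finset.card_range, nsmul_eq_mul]
      field_simp
    rw [← hHF]
    exact (norm_inner_le_norm _ _).trans (mul_le_mul_of_nonneg_right hHn (norm_nonneg _))
  rw [← norm_le_zero_iff]
  have h4 : Tendsto (fun n => (Nn P n : ℝ) * dd P n) atTop (𝓝 0) := by
    refine squeeze_zero (fun n => mul_nonneg (by positivity) (dd_nonneg P n)) (fun n => ?_)
      (lim_N2 (P := P))
    refine mul_le_mul_of_nonneg_right ?_ (dd_nonneg P n)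
    have : (1:ℝ) ≤ (Nn P n : ℝ) := by exact_mod_cast (Nn_pos P n)
    nlinarith
  have hlim : Tendsto (fun n => C * ((Nn P (n + 1) : ℝ) * dd P (n + 1)) * ‖F‖) atTop
      (𝓝 (C * 0 * ‖F‖)) := ((h4.comp (tendsto_add_atTop_nat 1)).const_mul C).mul_const _
  rw [mul_zero, zero_mul] at hlim
  refine ge_of_tendsto hlim ?_
  filter_upwards [eventually_ge_atTop m] with n hn
  exact key n hn

theorem Jd0_split (n : ℕ) (f : ZMod (Nn P n) → ℂ) : ∃ g : ZMod (Nn P n) → ℂ, ∃ a : ℂ,
    ∑ u, g u = 0 ∧ Jd c 0 n f = Jd c 0 n g + a • one c := by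
  have hN : (Nn P n : ℂ) ≠ 0 := by exact_mod_cast (Nn_pos P n).ne'
  set α : ℂ := (∑ u, f u) / (Nn P n : ℂ) with hα
  refine ⟨fun u => f u - α, α, ?_, ?_⟩
  · rw [Finset.sum_sub_distrib, Finset.sum_const, Finset.card_univ, ZMod.card, nsmul_eq_mul, hα,
      mul_div_cancel₀ _ hN, sub_self]
  · rw [one_eq c n, ← Jd_smul, ← Jd_add]
    congr 1
    funext u
    ring

theorem inv_zero (hR : Rich P) (F : Lp ℂ 2 c.μ) (hF : c.UT F = F) (h0 : inner ℂ (one c) F = 0) :
    F = 0 := by
  refine total c F fun d n hd f => ?_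
  by_cases hne : d = 0
  · subst hne
    obtain ⟨g, a, hg, e⟩ := Jd0_split c n f
    rw [e, inner_add_left, inner_smul_left, h0, inv_orth_base c F hF n g hg]
    simp
  · exact inv_orth_chi c hR F hF d n hd hne _ (Jd_mem c d n hd f)

theorem one_ae : one c =ᵐ[c.μ] fun _ => (1 : ℂ) := by
  have e : one c = J c.hμ 0 (fun _ => 1) := by
    unfold one Jd
    rw [bf_one]
  rw [e]
  unfold J
  exact MemLp.coeFn_toLp _

theorem T_erg (hR : Rich P) : Ergodic c.G c.μ := by
  have hp : IsProbabilityMeasure c.μ := c.hμ.prob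
  refine { c.hG with aeconst_set := ?_ }
  intro A hA hinv
  set F : Lp ℂ 2 c.μ := indicatorConstLp 2 hA (measure_ne_top c.μ A) (1 : ℂ) with hFdef
  have hF : F =ᵐ[c.μ] A.indicator (fun _ => (1 : ℂ)) := indicatorConstLp_coeFn
  have hUF : c.UT F = F := by
    apply Lp.ext
    have h1 := SM345.koop_coe c.G c.hG F
    have h2 : ∀ᵐ x ∂c.μ, F (c.G x) = A.indicator (fun _ => (1 : ℂ)) (c.G x) :=
      c.hG.quasiMeasurePreserving.ae hF
    filter_upwards [h1, h2, hF] with x e1 e2 e3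
    rw [e1, e2, e3]
    have : c.G x ∈ A ↔ x ∈ A := by
      conv_rhs => rw [← hinv]
      rfl
    by_cases hx : x ∈ A
    · rw [Set.indicator_of_mem hx, Set.indicator_of_mem (this.mpr hx)]
    · rw [Set.indicator_of_notMem hx, Set.indicator_of_notMem (fun h => hx (this.mp h))]
  set a : ℂ := inner ℂ (one c) F with ha'
  have ha : F = a • one c := by
    have h1 : F - a • one c = 0 := by
      refine inv_zero c hR _ ?_ ?_
      · rw [map_sub, map_smul, hUF, fix_one c c.UT (TP P) (dd P) (lim_dd0 P) c.lT]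
      · rw [inner_sub_right, inner_smul_right, inner_one_one]
        ring
    exact sub_eq_zero.1 h1
  have hconst : ∀ᵐ x ∂c.μ, A.indicator (fun _ => (1 : ℂ)) x = a := by
    have h1 : F =ᵐ[c.μ] fun x => a * one c x := by
      rw [ha]
      filter_upwards [Lp.coeFn_smul a (one c)] with x hx
      rw [hx]; rfl
    filter_upwards [h1, hF, one_ae c] with x e1 e2 e3
    rw [← e2, e1, e3, mul_one]
  rw [Filter.eventuallyConst_set]
  by_cases h1 : a = 1
  · left
    filter_upwards [hconst] with x hx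
    by_contra hxA
    rw [Set.indicator_of_notMem hxA, h1] at hx
    exact zero_ne_one hx
  · right
    filter_upwards [hconst] with x hx
    intro hxA
    rw [Set.indicator_of_mem hxA] at hx
    exact h1 hx.symm

/-- the limit measure has no atoms -/
theorem noAtoms (x : X P) : c.μ {x} = 0 := by
  have h1 : ∀ n, c.μ {x} ≤ ((Nn P n : ℕ) : ℝ≥0∞)⁻¹ := by
    intro n
    calc c.μ {x} ≤ c.μ {y : X P | y.1 n = x.1 n} := by
          apply measure_mono
          intro y hy
          rw [Set.mem_singleton_iff] at hy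
          subst hy
          rfl
      _ = (Fintype.card (Om P n) : ℝ≥0∞)⁻¹ := c.hμ.unif n (x.1 n)
      _ ≤ ((Nn P n : ℕ) : ℝ≥0∞)⁻¹ := by
          apply ENNReal.inv_le_inv.2
          have : Nn P n ≤ Fintype.card (Om P n) := by
            rw [cardOm]
            exact Nat.le_mul_of_pos_right _ Fintype.card_pos
          exact_mod_cast this
  have h2 : Tendsto (fun n => ((Nn P n : ℕ) : ℝ≥0∞)⁻¹) atTop (𝓝 0) := by
    have h3 : Tendsto (fun n => Nn P n) atTop atTop :=
      tendsto_atTop_mono (fun n => (Nat.le_succ n).trans (Nn_ge P n)) tendsto_id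
    exact ENNReal.tendsto_inv_nat_nhds_zero.comp h3
  exact le_antisymm (ge_of_tendsto' h2 h1) zero_le

end MS723
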