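import Pool.Agent.H723R2.Rich

/-! Existence of rich parameters. -/

set_option autoImplicit false
set_option linter.unusedVariables false

open MeasureTheory Filter Topology

noncomputable section

namespace MS723

theorem exists_root (k : ℕ) (hk : 0 < k) : ∃ (p : ℕ) (hp : p.Prime) (a : ZMod p), a ^ k = 1 ∧
    ∀ t, 0 < t → t < k → a ^ t ≠ 1 := by
  obtain ⟨p, hp, hgt, hmod⟩ := Nat.exists_prime_gt_modEq_one (k := k) 1 hk.ne'
  have : Fact p.Prime := ⟨hp⟩
  have hdvd : k ∣ p - 1 := (Nat.modEq_iff_dvd' hp.one_le).1 hmod.symm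
  obtain ⟨g, hg⟩ := IsCyclic.exists_ofOrder_eq_natCard (α := (ZMod p)ˣ)
  rw [Nat.card_eq_fintype_card, ZMod.card_units] at hg
  obtain ⟨q, hq⟩ := hdvd
  have hp1 : 0 < p - 1 := by have := hp.one_lt; omega
  have hq0 : q ≠ 0 := by
    rintro rfl
    rw [mul_zero] at hq
    omega
  have ho : orderOf (g ^ q) = k := by
    have h1 : q ∣ orderOf g := by rw [hg, hq]; exact Dvd.intro_left _ rfl
    rw [orderOf_pow_of_dvd hq0 h1, hg, hq]
    exact Nat.mul_div_cancel _ (Nat.pos_of_ne_zero hq0)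
  refine ⟨p, hp, ((g ^ q : (ZMod p)ˣ) : ZMod p), ?_, ?_⟩
  · rw [← Units.val_pow_eq_pow_val, ← ho, pow_orderOf_eq_one, Units.val_one]
  · intro t ht0 htk h
    rw [← Units.val_pow_eq_pow_val] at h
    have h2 : (g ^ q) ^ t = 1 := Units.ext h
    have h3 := Nat.le_of_dvd ht0 (orderOf_dvd_of_pow_eq_one h2)
    rw [ho] at h3
    omega

/-- rich parameters with prescribed `m` and `k` -/
theorem exists_par (m : ℕ) (hm : 0 < m) (k : ℕ → ℕ) (hk : ∀ j, 0 < k j) :
    ∃ P : Par, P.m = m ∧ P.k = k ∧ Rich P := by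
  choose p hp a ha ha' using fun j => exists_root (k j) (hk j)
  obtain ⟨e, he⟩ := exists_surjective_nat (List (List ℕ) × Bool)
  let P : Par :=
    { m := m, hm := hm, k := k, hk := hk, p := p, hp := hp, a := a, ha := ha, ha' := ha',
      β := fun n j t => (((e n.unpair.1).1).getD j []).getD t 0,
      fl := fun n => (e n.unpair.1).2 }
  refine ⟨P, rfl, rfl, ?_⟩
  intro r β b
  rw [Filter.frequently_atTop]
  intro n₀
  obtain ⟨i, hi⟩ := he (List.ofFn (n := r) (fun j => List.ofFn (n := KK P j) (fun t => β j t)), b)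
  refine ⟨Nat.pair i n₀, Nat.right_le_pair _ _, ?_, ?_⟩
  · intro j hj t ht
    show (((e (Nat.pair i n₀).unpair.1).1).getD j []).getD t 0 = β j t
    rw [Nat.unpair_pair, hi]
    simp only
    have h1 : (List.ofFn (n := r) (fun j => List.ofFn (n := KK P j) (fun t => β j t))).getD j [] =
        List.ofFn (n := KK P j) (fun t => β j t) := by
      rw [List.getD_eq_getElem _ _ (by simpa using hj), List.getElem_ofFn]
    rw [h1, List.getD_eq_getElem _ _ (by simpa using ht), List.getElem_ofFn]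
  · show (e (Nat.pair i n₀).unpair.1).2 = b
    rw [Nat.unpair_pair, hi]

end MS723
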