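import Pool.Agent.H723R2.BaseSpec
import Pool.Agent.H723R2.Erg
import Pool.Agent.H723R2.Exist

/-! Assembly of the spectral pieces. -/

set_option autoImplicit false
set_option linter.unusedVariables false

open MeasureTheory Filter Topology
open scoped ENNReal NNReal

noncomputable section

namespace MS723

open SM345 (XX UnifMeas errs J IsLim Koop opP cyc)

variable {P : Par} (c : Ctx P)

/-- multiplicities -/
def mult (P : Par) : Option (Cl P) → ℕ
  | none => P.m
  | some l => mu l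

theorem mult_pos (o : Option (Cl P)) : 0 < mult P o := by
  cases o with
  | none => exact P.hm
  | some l => exact P.hk _

theorem range_mult : Set.range (mult P) = {P.m} ∪ Set.range P.k := by
  ext x
  constructor
  · rintro ⟨o, rfl⟩
    cases o with
    | none => left; rfl
    | some l => right; exact ⟨_, rfl⟩
  · rintro (h | ⟨i, rfl⟩)
    · exact ⟨none, h.symm⟩
    · obtain ⟨l, hl⟩ := exists_cl (P := P) i
      exact ⟨some l, hl⟩

theorem one_const [IsFiniteMeasure c.μ] : one c = Lp.const 2 c.μ (1 : ℂ) := by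
  apply Lp.ext
  filter_upwards [one_ae c, Lp.coeFn_const 2 c.μ (1 : ℂ)] with x h1 h2
  rw [h1, h2]
  rfl

theorem orth_one_Kd (d : Dd P) (r : ℕ) (hd : supp r d) (hne : d ≠ 0) (F : Lp ℂ 2 c.μ)
    (hF : F ∈ Kd c d) : inner ℂ (one c) F = 0 :=
  Kd_orth c 0 d r (supp_zero r) hd hne.symm _ _ (one_Kd c) hF

theorem pieces (hR : Rich P) : ∃ σ : Option (Cl P) → Measure Circle,
    (∀ o, IsFiniteMeasure (σ o)) ∧ (∀ o, σ o ≠ 0) ∧ (Pairwise fun o o' => σ o ⟂ₘ σ o') ∧
    ∃ V : ∀ p : (Σ o : Option (Cl P), Fin (mult P o)), Lp ℂ 2 (σ p.1) →ₗᵢ[ℂ] Lp ℂ 2 c.μ,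
      (∀ p, Intw c.UT (σ p.1) (V p)) ∧ (∀ p h, inner ℂ (one c) (V p h) = 0) ∧
      (∀ p q, p ≠ q → ∀ h k, inner ℂ (V p h) (V q k) = 0) ∧
      (∀ F, inner ℂ (one c) F = 0 → (∀ p h, inner ℂ (V p h) F = 0) → F = 0) := by
  obtain ⟨σ₀, hσ₀, hσ₀ne, V₀, h01, h02, h03, h04⟩ := base_spec c
  choose σ₁ hσ₁ hσ₁ne V₁ h11 h12 h13 using fun l : Cl P => cl_spec c hR l
  let σ : Option (Cl P) → Measure Circle
    | none => σ₀
    | some l => σ₁ l
  let V : ∀ p : (Σ o : Option (Cl P), Fin (mult P o)), Lp ℂ 2 (σ p.1) →ₗᵢ[ℂ] Lp ℂ 2 c.μ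
    | ⟨none, j⟩ => V₀ j
    | ⟨some l, t⟩ => V₁ l t
  have hbase : ∀ i h, V₀ i h ∈ Kd c 0 := fun i h => ((K0_mem c _).1 (h02 i h)).1
  have hmem0 : ∀ l : Cl P, mem l 0 = (rp l).1 := fun l => ud_zero _ _
  -- singularity of the base and a class
  have hs0 : ∀ l : Cl P, σ₀ ⟂ₘ σ₁ l := by
    intro l
    obtain ⟨β, hβ⟩ := exists_ne_one (tp (rp l) + 1) (rp l).1 (tp_supp _) (rp l).2.1
    have := hσ₁ l
    refine sing_dd c hR 0 (rp l).1 (tp (rp l) + 1) (supp_zero _) (tp_supp _) β ?_ σ₀ (σ₁ l)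
      (V₀ ⟨0, P.hm⟩) (h01 _) (V₁ l 0) (h11 l 0) (hbase _) ?_
    · rw [eta_zero]; exact hβ.symm
    · intro h
      have := h12 l 0 h
      rwa [hmem0] at this
  have hs1 : ∀ l l' : Cl P, l ≠ l' → σ₁ l ⟂ₘ σ₁ l' := by
    intro l l' hne
    obtain ⟨r, β, hr, hr', hβ⟩ := sep_cl l l' hne
    have := hσ₁ l
    have := hσ₁ l'
    refine sing_dd c hR (rp l).1 (rp l').1 r hr hr' β hβ (σ₁ l) (σ₁ l') (V₁ l 0) (h11 l 0)
      (V₁ l' 0) (h11 l' 0) ?_ ?_
    · intro h
      have := h12 l 0 h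
      rwa [hmem0] at this
    · intro h
      have := h12 l' 0 h
      rwa [hmem0] at this
  refine ⟨σ, ?_, ?_, ?_, V, ?_, ?_, ?_, ?_⟩
  · rintro (_ | l)
    · exact hσ₀
    · exact hσ₁ l
  · rintro (_ | l)
    · exact hσ₀ne
    · exact hσ₁ne l
  · rintro (_ | l) (_ | l') hne
    · exact absurd rfl hne
    · exact hs0 l'
    · exact (hs0 l).symm
    · exact hs1 l l' (fun h => hne (by rw [h]))
  · rintro ⟨_ | l, j⟩
    · exact h01 j
    · exact h11 l j
  · rintro ⟨_ | l, j⟩ h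
    · exact ((K0_mem c _).1 (h02 j h)).2
    · exact orth_one_Kd c (mem l j) _ (mem_supp l j) (mem_ne l j) _ (h12 l j h)
  · rintro ⟨_ | l, j⟩ ⟨_ | l', j'⟩ hne h k
    · exact h03 j j' (fun h => hne (by rw [h])) h k
    · exact Kd_orth c 0 (mem l' j') _ (supp_zero _) (mem_supp l' j') (mem_ne l' j').symm _ _
        (hbase j h) (h12 l' j' k)
    · exact Kd_orth c (mem l j) 0 _ (mem_supp l j) (supp_zero _) (mem_ne l j) _ _
        (h12 l j h) (hbase j' k)
    · have hne' : mem l j ≠ mem l' j' := by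
        intro he
        apply hne
        obtain ⟨e1, e2⟩ := mem_inj l l' j j' j.2 j'.2 he
        subst e1
        have : j = j' := Fin.ext e2
        rw [this]
      exact Kd_orth c (mem l j) (mem l' j') (max (tp (rp l) + 1) (tp (rp l') + 1))
        (supp_mono (le_max_left _ _) (mem_supp l j))
        (supp_mono (le_max_right _ _) (mem_supp l' j')) hne' _ _ (h12 l j h) (h12 l' j' k)
  · intro F hF1 hF2
    refine total c F fun d n hd f => ?_
    by_cases hd0 : d = 0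
    · subst hd0
      -- the base part
      obtain ⟨g, a, hg, e⟩ := Jd0_split c n f
      have hFK : ∀ G ∈ K0 c, inner ℂ G F = 0 := by
        intro G hG
        -- orthogonal projection of `F` to `K0`
        have hcl : IsClosed (K0 c : Set (Lp ℂ 2 c.μ)) := K0_closed c
        have hco : CompleteSpace (K0 c) := hcl.completeSpace_coe
        have hpr : (K0 c).HasOrthogonalProjection := inferInstance
        set p : Lp ℂ 2 c.μ := (K0 c).starProjection F with hp
        have hpK : p ∈ K0 c := by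
          rw [hp]; exact Submodule.starProjection_apply_mem _ _
        have hperp : ∀ w ∈ K0 c, inner ℂ w (F - p) = 0 := by
          intro w hw
          exact (Submodule.mem_orthogonal _ _).1 (Submodule.sub_starProjection_mem_orthogonal F) w hw
        have hp0 : p = 0 := by
          refine h04 p hpK fun i h => ?_
          have h1 := hperp _ (h02 i h)
          rw [inner_sub_right, sub_eq_zero] at h1
          rw [← h1]
          exact hF2 ⟨none, i⟩ h
        have h2 := hperp G hG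
        rw [hp0, sub_zero] at h2
        exact h2
      have hgK : Jd c 0 n g ∈ K0 c := by
        rw [K0_mem]
        exact ⟨Jd_mem c 0 n (supp_zero n) _, by rw [inner_one_Jd, hg, zero_div]⟩
      rw [e, inner_add_left, inner_smul_left, hF1, hFK _ hgK]
      simp
    · obtain ⟨l, t, ht, he⟩ := exists_mem (⟨d, hd0, n, hd⟩ : DS P)
      have he' : d = mem l t := he
      have hm : Jd c d n f ∈ Kd c (mem l t) := by
        rw [← he']; exact Jd_mem c d n hd f
      obtain ⟨h, hh⟩ := h13 l t _ hm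
      rw [← hh]
      exact hF2 ⟨some l, ⟨t, ht⟩⟩ h

/-- the Koopman operator is a Hilbert sum -/
theorem final_sum (hR : Rich P) [IsFiniteMeasure c.μ] :
    ∃ (σ : Option (Cl P) → Measure Circle), (∀ o, IsFiniteMeasure (σ o)) ∧ (∀ o, σ o ≠ 0) ∧
      (Pairwise fun o o' => σ o ⟂ₘ σ o') ∧
      ∃ W : SM345.L20 c.μ ≃ₗᵢ[ℂ] lp (fun p : (Σ o : Option (Cl P), Fin (mult P o)) =>
          Lp ℂ 2 (σ p.1)) 2, ∀ f f' : SM345.L20 c.μ,
        (f' : X P → ℂ) =ᵐ[c.μ] (fun x => (f : X P → ℂ) (c.G x)) →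
        ∀ p, ((W f' : ∀ p, _) p : Circle → ℂ) =ᵐ[σ p.1] fun z => (z : ℂ) *
          ((W f : ∀ p, _) p : Circle → ℂ) z := by
  obtain ⟨σ, hfin, hne, hsing, V, hV, hV1, horth, htot⟩ := pieces c hR
  have hL : ∀ F : Lp ℂ 2 c.μ, F ∈ SM345.L20 c.μ ↔ inner ℂ (one c) F = 0 := by
    intro F
    unfold SM345.L20
    rw [Submodule.mem_orthogonal_singleton_iff_inner_right, one_const]
  have hcl : IsClosed (SM345.L20 c.μ : Set (Lp ℂ 2 c.μ)) := Submodule.isClosed_orthogonal _
  obtain ⟨W, hW⟩ := hilbert_sum c.UT (SM345.L20 c.μ) hcl (fun p : (Σ o : Option (Cl P),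
    Fin (mult P o)) => σ p.1) V hV (fun p h => (hL _).2 (hV1 p h)) horth
    (fun F hF h => htot F ((hL F).1 hF) h)
  refine ⟨σ, hfin, hne, hsing, W, fun f f' hff p => ?_⟩
  refine hW f f' ?_ p
  refine Lp.ext (hff.trans ?_)
  exact (SM345.koop_coe c.G c.hG (f : Lp ℂ 2 c.μ)).symm

end MS723
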