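import Pool.Agent.H723R2.Dig

/-! The variance estimate (adapted from the one in `Helper345.SM.variance`). -/

set_option autoImplicit false
set_option linter.unusedVariables false

noncomputable section

namespace MS723

theorem var_split (q P k : ℕ) (hq : 0 < q) (hP : 0 < P) (G h : ℕ → ℂ) :
    ∑ x ∈ Finset.range (q * P * k), G (x / P % q) * h (x / (q * P)) =
      P * (∑ ξ ∈ Finset.range q, G ξ) * ∑ z ∈ Finset.range k, h z := by
  rw [sum_block]
  have hqP : 0 < q * P := Nat.mul_pos hq hP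
  have h1 : ∀ z ∈ Finset.range k, ∑ y ∈ Finset.range (q * P),
      G ((q * P * z + y) / P % q) * h ((q * P * z + y) / (q * P)) =
      P * (∑ ξ ∈ Finset.range q, G ξ) * h z := by
    intro z _
    have h2 : ∀ y ∈ Finset.range (q * P),
        G ((q * P * z + y) / P % q) * h ((q * P * z + y) / (q * P)) = G (y / P) * h z := by
      intro y hy
      have hy' := Finset.mem_range.1 hy
      have e1 : (q * P * z + y) / (q * P) = z := by
        rw [Nat.mul_add_div hqP, Nat.div_eq_of_lt hy', add_zero]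
      have e2 : (q * P * z + y) / P % q = y / P := by
        have e3 : q * P * z + y = P * (q * z) + y := by ring
        rw [e3, Nat.mul_add_div hP, Nat.mul_add_mod]
        apply Nat.mod_eq_of_lt
        rw [Nat.div_lt_iff_lt_mul hP]
        exact hy'
      rw [e1, e2]
    rw [Finset.sum_congr rfl h2, ← Finset.sum_mul]
    congr 1
    rw [mul_comm q P, sum_block P q (fun y => G (y / P)), Finset.mul_sum]
    refine Finset.sum_congr rfl fun ξ _ => ?_
    have h4 : ∀ y ∈ Finset.range P, G ((P * ξ + y) / P) = G ξ := by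
      intro y hy
      rw [Nat.mul_add_div hP, Nat.div_eq_of_lt (Finset.mem_range.1 hy), add_zero]
    rw [Finset.sum_congr rfl h4, Finset.sum_const, Finset.card_range, nsmul_eq_mul]
  rw [Finset.sum_congr rfl h1, ← Finset.mul_sum]

theorem var_abs (q : ℕ) (hq : 0 < q) (P : ℕ → ℕ) (W B : ℕ) (g : ℕ → ℂ)
    (hg : ∑ ξ ∈ Finset.range q, g ξ = 0)
    (hP : ∀ i < B, 0 < P i) (hW : ∀ i < B, ∃ k, q * P i * k = W)
    (hPP : ∀ i i', i < i' → i' < B → ∃ k, P i' = q * P i * k) :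
    ∑ x ∈ Finset.range W, ‖∑ i ∈ Finset.range B, g (x / P i % q)‖ ^ 2 =
      B * (W / q * ∑ ξ ∈ Finset.range q, ‖g ξ‖ ^ 2) := by
  have hq0 : (q : ℂ) ≠ 0 := by exact_mod_cast hq.ne'
  have hoff : ∀ i i', i < i' → i' < B →
      ∑ x ∈ Finset.range W, g (x / P i % q) * (starRingEnd ℂ) (g (x / P i' % q)) = 0 := by
    intro i i' h1 h2
    obtain ⟨k, hk⟩ := hW i (h1.trans h2)
    obtain ⟨k', hk'⟩ := hPP i i' h1 h2
    rw [← hk]
    have h3 := var_split q (P i) k hq (hP i (h1.trans h2)) g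
      (fun z => (starRingEnd ℂ) (g (z / k' % q)))
    rw [hg, mul_zero, zero_mul] at h3
    rw [← h3]
    refine Finset.sum_congr rfl fun x _ => ?_
    rw [hk', Nat.div_div_eq_div_mul]
  have hoff2 : ∀ i i', i < i' → i' < B →
      ∑ x ∈ Finset.range W, g (x / P i' % q) * (starRingEnd ℂ) (g (x / P i % q)) = 0 := by
    intro i i' h1 h2
    have h3 := congrArg (starRingEnd ℂ) (hoff i i' h1 h2)
    rw [map_sum, map_zero] at h3
    rw [← h3]
    refine Finset.sum_congr rfl fun x _ => ?_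
    rw [map_mul, Complex.conj_conj, mul_comm]
  have hdiag : ∀ i, i < B →
      ∑ x ∈ Finset.range W, g (x / P i % q) * (starRingEnd ℂ) (g (x / P i % q)) =
        W / q * ∑ ξ ∈ Finset.range q, g ξ * (starRingEnd ℂ) (g ξ) := by
    intro i hi
    obtain ⟨k, hk⟩ := hW i hi
    have h3 := var_split q (P i) k hq (hP i hi) (fun ξ => g ξ * (starRingEnd ℂ) (g ξ))
      (fun _ => 1)
    rw [hk] at h3
    simp only [mul_one, Finset.sum_const, Finset.card_range, nsmul_eq_mul] at h3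
    rw [h3, ← hk]
    push_cast
    field_simp
  have hC : ((∑ x ∈ Finset.range W, ‖∑ i ∈ Finset.range B, g (x / P i % q)‖ ^ 2 : ℝ) : ℂ) =
      ((B * (W / q * ∑ ξ ∈ Finset.range q, ‖g ξ‖ ^ 2) : ℝ) : ℂ) := by
    push_cast
    have h1 : ∀ x ∈ Finset.range W, ((‖∑ i ∈ Finset.range B, g (x / P i % q)‖ : ℂ)) ^ 2 =
        ∑ i ∈ Finset.range B, ∑ i' ∈ Finset.range B,
          g (x / P i % q) * (starRingEnd ℂ) (g (x / P i' % q)) := by
      intro x _
      rw [← Complex.mul_conj', map_sum, Finset.sum_mul_sum]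
    have h2 : ∀ ξ ∈ Finset.range q, ((‖g ξ‖ : ℂ)) ^ 2 = g ξ * (starRingEnd ℂ) (g ξ) := by
      intro ξ _
      rw [← Complex.mul_conj']
    rw [Finset.sum_congr rfl h1, Finset.sum_congr rfl h2, Finset.sum_comm]
    have h3 : ∀ i ∈ Finset.range B, ∑ x ∈ Finset.range W, ∑ i' ∈ Finset.range B,
        g (x / P i % q) * (starRingEnd ℂ) (g (x / P i' % q)) =
        W / q * ∑ ξ ∈ Finset.range q, g ξ * (starRingEnd ℂ) (g ξ) := by
      intro i hi
      rw [Finset.sum_comm, Finset.sum_eq_single i]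
      · exact hdiag i (Finset.mem_range.1 hi)
      · intro i' hi' hne
        rcases lt_or_gt_of_ne hne with h | h
        · exact hoff2 i' i h (Finset.mem_range.1 hi)
        · exact hoff i i' h (Finset.mem_range.1 hi')
      · intro h
        exact absurd hi h
    rw [Finset.sum_congr rfl h3, Finset.sum_const, Finset.card_range, nsmul_eq_mul]
  exact_mod_cast hC

theorem var_sq (q : ℕ) (F : ℕ → ℂ) (c : ℂ) (hF : ∀ ξ, ‖F ξ‖ ≤ 1)
    (hs : ∑ ξ ∈ Finset.range q, F ξ = q * c) :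
    ∑ ξ ∈ Finset.range q, ‖F ξ - c‖ ^ 2 ≤ q := by
  have h1 : ∀ ξ ∈ Finset.range q, ‖F ξ - c‖ ^ 2 ≤
      1 - 2 * ((F ξ) * (starRingEnd ℂ) c).re + ‖c‖ ^ 2 := by
    intro ξ _
    have h2 := hF ξ
    have h3 : ‖F ξ‖ ^ 2 ≤ 1 := by
      have := norm_nonneg (F ξ)
      nlinarith
    have h4 : ‖F ξ - c‖ ^ 2 = ‖F ξ‖ ^ 2 - 2 * ((F ξ) * (starRingEnd ℂ) c).re + ‖c‖ ^ 2 := by
      rw [← Complex.normSq_eq_norm_sq, ← Complex.normSq_eq_norm_sq, ← Complex.normSq_eq_norm_sq,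
        Complex.normSq_sub]
      ring
    rw [h4]
    linarith
  have h5 : ∑ ξ ∈ Finset.range q, ((F ξ) * (starRingEnd ℂ) c).re = q * ‖c‖ ^ 2 := by
    rw [← Complex.re_sum, ← Finset.sum_mul, hs, mul_assoc, Complex.mul_conj', ]
    have : ((q : ℂ) * (‖c‖ : ℂ) ^ 2) = (((q : ℝ) * ‖c‖ ^ 2 : ℝ) : ℂ) := by push_cast; rfl
    rw [this, Complex.ofReal_re]
  calc ∑ ξ ∈ Finset.range q, ‖F ξ - c‖ ^ 2 ≤
      ∑ ξ ∈ Finset.range q, (1 - 2 * ((F ξ) * (starRingEnd ℂ) c).re + ‖c‖ ^ 2) :=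
        Finset.sum_le_sum h1
    _ = q - 2 * (q * ‖c‖ ^ 2) + q * ‖c‖ ^ 2 := by
        rw [Finset.sum_add_distrib, Finset.sum_sub_distrib, ← Finset.mul_sum, h5]
        simp
    _ ≤ q := by
        have : (0 : ℝ) ≤ q * ‖c‖ ^ 2 := by positivity
        linarith

theorem var_main (q : ℕ) (hq : 0 < q) (F : ℕ → ℂ) (c : ℂ) (hF : ∀ ξ, ‖F ξ‖ ≤ 1)
    (hper : ∀ ξ, F (ξ + q) = F ξ)
    (hs : ∑ ξ ∈ Finset.range q, F ξ = q * c) (P : ℕ → ℕ) (W B : ℕ) (hB : 0 < B)
    (hP : ∀ i < B, 0 < P i) (hW : ∀ i < B, ∃ k, q * P i * k = W)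
    (hPP : ∀ i i', i < i' → i' < B → ∃ k, P i' = q * P i * k) :
    ∑ x ∈ Finset.range W, ‖(1 / (B : ℂ)) * ∑ i ∈ Finset.range B, F (x / P i) - c‖ ^ 2 ≤
      (W : ℝ) / B := by
  have hBne : (B : ℂ) ≠ 0 := by exact_mod_cast hB.ne'
  have hBpos : (0 : ℝ) < B := by exact_mod_cast hB
  have hqpos : (0 : ℝ) < q := by exact_mod_cast hq
  have hmod : ∀ x, F (x % q) = F x := per_mod F q hper
  have hterm : ∀ x ∈ Finset.range W,
      ‖(1 / (B : ℂ)) * ∑ i ∈ Finset.range B, F (x / P i) - c‖ ^ 2 =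
      (1 / (B : ℝ) ^ 2) * ‖∑ i ∈ Finset.range B, (F (x / P i % q) - c)‖ ^ 2 := by
    intro x _
    have h1 : (1 / (B : ℂ)) * ∑ i ∈ Finset.range B, F (x / P i) - c =
        (1 / (B : ℂ)) * ∑ i ∈ Finset.range B, (F (x / P i % q) - c) := by
      rw [Finset.sum_sub_distrib, Finset.sum_const, Finset.card_range, nsmul_eq_mul, mul_sub]
      congr 1
      · congr 1
        exact Finset.sum_congr rfl fun i _ => (hmod _).symm
      · field_simp
    rw [h1, norm_mul, mul_pow]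
    congr 1
    rw [norm_div, norm_one, Complex.norm_natCast, div_pow, one_pow]
  rw [Finset.sum_congr rfl hterm, ← Finset.mul_sum]
  have hg0 : ∑ ξ ∈ Finset.range q, (F ξ - c) = 0 := by
    rw [Finset.sum_sub_distrib, hs]
    simp
  have habs := var_abs q hq P W B (fun ξ => F ξ - c) hg0 hP hW hPP
  rw [habs]
  have hsq := var_sq q F c hF hs
  have hWW : (0 : ℝ) ≤ (W : ℝ) := Nat.cast_nonneg _
  have h5 : 1 / (B : ℝ) ^ 2 * ((B : ℝ) * ((W : ℝ) / q *
      ∑ ξ ∈ Finset.range q, ‖F ξ - c‖ ^ 2)) ≤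
      1 / (B : ℝ) ^ 2 * ((B : ℝ) * ((W : ℝ) / q * q)) := by
    apply mul_le_mul_of_nonneg_left _ (by positivity)
    apply mul_le_mul_of_nonneg_left _ hBpos.le
    exact mul_le_mul_of_nonneg_left hsq (by positivity)
  refine h5.trans (le_of_eq ?_)
  field_simp

end MS723
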