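import Pool.Agent.H723R2.Kd
import Pool.Agent.H723R2.Var
import Pool.Agent.Helper345.SM.opP_basic

/-! Averages of the Koopman operator on the spaces `Kd`. -/

set_option autoImplicit false
set_option linter.unusedVariables false

open MeasureTheory Filter Topology
open scoped ENNReal NNReal

noncomputable section

namespace MS723

open SM345 (XX UnifMeas errs J IsLim Koop opP)

variable {P : Par}

/-- the averaging polynomial -/
def QQ (P : Par) (n : ℕ) : Polynomial ℂ :=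
  ∑ i ∈ Finset.range (Bn P n), Polynomial.C (1 / (Bn P n : ℂ)) *
    Polynomial.X ^ (LL (Nn P n) (Bn P n) i)

/-- mean of a character over the test -/
def eta (n : ℕ) (β : ℕ → ℕ → ℕ) (d : Dd P) : ℂ :=
  (1 / (KK P n : ℂ)) * ∑ s ∈ Finset.range (KK P n), ch n d (fun j => kap P β s j)

/-- limit value of the averages -/
def ccv (n : ℕ) (d : Dd P) (ξ : ℕ) : ℂ :=
  1 - ((wt P (P.fl n) ξ : ℕ) : ℂ) / (P.m : ℂ) * (1 - eta n (P.β n) d)

theorem ch_kap_per (n : ℕ) (β : ℕ → ℕ → ℕ) (d : Dd P) (c s : ℕ) :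
    ch n d (fun j => kap P β (c + (s + KK P n)) j) = ch n d (fun j => kap P β (c + s) j) := by
  congr 1
  funext j
  have := kap_per P β j.2 (c + s) 1
  rw [mul_one] at this
  rw [← add_assoc, this]

theorem ch_kap_sum (n : ℕ) (β : ℕ → ℕ → ℕ) (d : Dd P) (c q : ℕ) :
    ∑ s ∈ Finset.range (KK P n * q), ch n d (fun j => kap P β (c + s) j) =
      q * (KK P n * eta n β d) := by
  rw [sum_per_mul (fun s => ch n d (fun j : Fin n => kap P β (c + s) j)) (KK P n) q
    (fun s => ch_kap_per n β d c s)]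
  rw [sum_shift (fun s => ch n d (fun j : Fin n => kap P β s j)) (KK P n)
    (fun s => by have := ch_kap_per n β d 0 s; simpa using this) c]
  unfold eta
  have hK : (KK P n : ℂ) ≠ 0 := by exact_mod_cast (KK_pos P n).ne'
  rw [nsmul_eq_mul]
  field_simp

theorem ch_mean (n : ℕ) (d : Dd P) (ξ c : ℕ) (hξ : ξ < P.m) :
    ∑ s ∈ Finset.range (Pd P n), ch n d (fun j => Del P n (P.β n) (P.fl n) ξ s c j) =
      (Pd P n : ℂ) * ccv n d ξ := by
  set w := wt P (P.fl n) ξ with hw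
  have hle : KK P n * EE P n * w ≤ Pd P n := by
    unfold Pd
    calc KK P n * EE P n * w ≤ KK P n * EE P n * P.m :=
          Nat.mul_le_mul_left _ (wt_le P (P.fl n) ξ hξ)
      _ = P.m * (KK P n * EE P n) := by ring
  obtain ⟨r, hr⟩ := Nat.exists_eq_add_of_le hle
  have h0 : ∑ s ∈ Finset.range (Pd P n), ch n d (fun j => Del P n (P.β n) (P.fl n) ξ s c j) =
      ∑ s ∈ Finset.range (KK P n * EE P n * w), ch n d (fun j => kap P (P.β n) (c + s) j) +
      ∑ s ∈ Finset.range r, (1 : ℂ) := by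
    conv_lhs => rw [hr]
    rw [Finset.sum_range_add]
    congr 1
    · refine Finset.sum_congr rfl fun s hs => ?_
      have hs' := Finset.mem_range.1 hs
      congr 1
      funext j
      unfold Del
      rw [Nat.mod_eq_of_lt (lt_of_lt_of_le hs' hle), if_pos hs']
    · refine Finset.sum_congr rfl fun s hs => ?_
      have hs' := Finset.mem_range.1 hs
      rw [← ch_zero' n d]
      congr 1
      funext j
      unfold Del
      rw [← hw, Nat.mod_eq_of_lt (by omega), if_neg (by omega)]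
  rw [h0, mul_assoc, ch_kap_sum n (P.β n) d c (EE P n * w)]
  rw [Finset.sum_const, Finset.card_range, nsmul_eq_mul, mul_one]
  have hrC : (r : ℂ) = (Pd P n : ℂ) - (KK P n : ℂ) * EE P n * w := by
    rw [hr]; push_cast; ring
  have hm : (P.m : ℂ) ≠ 0 := by exact_mod_cast P.hm.ne'
  rw [hrC]
  unfold ccv Pd
  rw [← hw]
  push_cast
  field_simp
  ring

theorem ccv_zero (n ξ : ℕ) : ccv n (0 : Dd P) ξ = 1 := by
  unfold ccv eta
  have hK : (KK P n : ℂ) ≠ 0 := by exact_mod_cast (KK_pos P n).ne'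
  simp only [ch_zero, Finset.sum_const, Finset.card_range, nsmul_eq_mul, mul_one]
  field_simp
  simp

theorem eta_norm (n : ℕ) (β : ℕ → ℕ → ℕ) (d : Dd P) : ‖eta n β d‖ ≤ 1 := by
  unfold eta
  have hK : (0 : ℝ) < KK P n := by exact_mod_cast KK_pos P n
  rw [norm_mul, norm_div, norm_one, Complex.norm_natCast]
  have h1 : ‖∑ s ∈ Finset.range (KK P n), ch n d (fun j => kap P β s j)‖ ≤ KK P n := by
    refine (norm_sum_le _ _).trans ?_
    simp [ch_norm]
  calc 1 / (KK P n : ℝ) * ‖∑ s ∈ Finset.range (KK P n), ch n d (fun j => kap P β s j)‖ ≤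
      1 / (KK P n : ℝ) * KK P n := mul_le_mul_of_nonneg_left h1 (by positivity)
    _ = 1 := by field_simp

/-! ### powers of the finite permutations -/

theorem TP_pow (n L : ℕ) (z : Om P n) : ((TP P n) ^ L) z =
    (((z.1.val + P.m * L : ℕ) : ZMod (Nn P n)),
      fun j => z.2 j + ∑ h ∈ Finset.range L, ph P n (z.1.val + P.m * h) j) := by
  induction L with
  | zero =>
    refine Prod.ext ?_ ?_
    · simp
    · funext j; simp
  | succ L ih =>
    rw [pow_succ', Equiv.Perm.mul_apply, ih, TP_apply]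
    refine Prod.ext ?_ ?_
    · simp only
      push_cast
      ring
    · funext j
      simp only
      rw [Finset.sum_range_succ, ← add_assoc]
      congr 1
      refine ph_congr P ?_ j
      rw [ZMod.val_natCast]
      exact Nat.mod_modEq _ _

/-! ### norms -/

theorem J_norm_le (c : Ctx P) (m : ℕ) (H : Om P m → ℂ) (g : ℕ → ℝ) (S : ℝ)
    (hH : ∀ z : Om P m, ‖H z‖ ^ 2 ≤ g z.1.val) (hS : ∑ u ∈ Finset.range (Nn P m), g u ≤ S) :
    ‖J c.hμ m H‖ ^ 2 ≤ S / Nn P m := by
  obtain ⟨-, -, -, -, h5⟩ := SM345.J_basic c.hμ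
  rw [h5]
  have hN : (0 : ℝ) < Nn P m := by exact_mod_cast Nn_pos P m
  have hF : (0 : ℝ) < Fintype.card (Fb P m) := by exact_mod_cast Fintype.card_pos
  have h1 : ∑ z : Om P m, ‖H z‖ ^ 2 ≤ Fintype.card (Fb P m) * S := by
    calc ∑ z : Om P m, ‖H z‖ ^ 2 ≤ ∑ z : Om P m, g z.1.val := Finset.sum_le_sum fun z _ => hH z
      _ = ∑ u : ZMod (Nn P m), ∑ k : Fb P m, g u.val := Fintype.sum_prod_type _
      _ = Fintype.card (Fb P m) * ∑ u ∈ Finset.range (Nn P m), g u := by
          rw [← sum_zmod, Finset.mul_sum]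
          apply Finset.sum_congr rfl
          intro u _
          rw [Finset.sum_const, Finset.card_univ, nsmul_eq_mul]
      _ ≤ _ := mul_le_mul_of_nonneg_left hS hF.le
  rw [cardOm]
  rw [div_le_div_iff₀ (by push_cast; positivity) hN]
  push_cast
  nlinarith

theorem sum_le_x0 (n : ℕ) (h : ℕ → ℕ → ℕ → ℝ) (T : ℝ)
    (hT : ∀ ξ < P.m, ∀ c, ∑ x ∈ Finset.range (lev P n).W, h ξ c x ≤ T) :
    ∑ u ∈ Finset.range (Nn P (n + 1)), h ((St P n).pr u % P.m) ((St P n).dc u) ((St P n).x0 u) ≤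
      (Nn P (n + 1) : ℝ) / (lev P n).W * T := by
  obtain ⟨l, hl⟩ := (St P n).W_dvd_low
  have hW0 : (0 : ℝ) < (lev P n).W := by exact_mod_cast (lev P n).W_pos
  have h1 := (St P n).sum_M (fun (y : ZMod (Nn P n)) c z => h (y.val % P.m) c (z % (lev P n).W))
  have h2 : ∑ u ∈ Finset.range (St P n).M,
      h ((((St P n).pr u : ℕ) : ZMod (Nn P n)).val % P.m) ((St P n).dc u)
        (u % (St P n).low % (lev P n).W) =
      ∑ u ∈ Finset.range (St P n).M, h ((St P n).pr u % P.m) ((St P n).dc u) ((St P n).x0 u) := by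
    refine Finset.sum_congr rfl fun u _ => ?_
    rw [ZMod.val_natCast, Nat.mod_mod_of_dvd _ (m_dvd_Nn P n)]
    congr 1
    exact (St P n).x0_low u
  have h3 : ∀ c : ℕ, ∀ y : ZMod (Nn P n), ∑ z ∈ Finset.range (St P n).low,
      h (y.val % P.m) c (z % (lev P n).W) ≤ l * T := by
    intro c y
    have e : (St P n).low = (lev P n).W * l := hl
    rw [e, sum_per_mul (fun z => h (y.val % P.m) c (z % (lev P n).W)) (lev P n).W l
      (fun s => by simp only [Nat.add_mod_right])]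
    rw [nsmul_eq_mul]
    refine mul_le_mul_of_nonneg_left ?_ (by positivity)
    refine le_trans (le_of_eq ?_) (hT (y.val % P.m) (Nat.mod_lt _ P.hm) c)
    refine Finset.sum_congr rfl fun x hx => ?_
    rw [Nat.mod_eq_of_lt (Finset.mem_range.1 hx)]
  rw [Nn_succ, ← h2]
  refine (le_of_eq h1).trans ?_
  have h4 : ∑ z ∈ Finset.range (St P n).low, ∑ c ∈ Finset.range (St P n).K',
      ∑ y : ZMod (Nn P n), h (y.val % P.m) c (z % (lev P n).W) ≤
      ∑ c ∈ Finset.range (St P n).K', ∑ y : ZMod (Nn P n), l * T := by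
    rw [Finset.sum_comm]
    refine Finset.sum_le_sum fun c _ => ?_
    rw [Finset.sum_comm]
    exact Finset.sum_le_sum fun y _ => h3 c y
  refine h4.trans (le_of_eq ?_)
  rw [Finset.sum_const, Finset.sum_const, Finset.card_range, Finset.card_univ, ZMod.card,
    nsmul_eq_mul, nsmul_eq_mul]
  have hM : ((St P n).M : ℝ) = (lev P n).W * l * (Nn P n * (St P n).K') := by
    have : (St P n).M = (lev P n).W * l * (Nn P n * (St P n).K') := by
      have e : (St P n).low = (lev P n).W * l := hl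
      unfold Stp.M
      rw [e]
      rfl
    rw [this]
    push_cast
    ring
  rw [hM]
  field_simp

theorem bad_count (n i : ℕ) (hi : i < Bn P n) :
    ∑ u ∈ Finset.range (Nn P (n + 1)), (if P.m * LL (Nn P n) (Bn P n) (i + 1) ≤
      (St P n).x0 u % (P.m * LL (Nn P n) (Bn P n) (i + 1)) + P.m * LL (Nn P n) (Bn P n) i
        then (1 : ℝ) else 0) ≤ (Nn P (n + 1) : ℝ) / Bn P n := by
  set D := P.m * LL (Nn P n) (Bn P n) (i + 1) with hD
  set k := P.m * LL (Nn P n) (Bn P n) i with hk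
  have hB0 := Bn_pos P n
  have hDpos : 0 < D := Nat.mul_pos P.hm (LL_pos P (lev P n) (i + 1))
  have hkD : D = k * Bn P n := by
    rw [hD, hk]; unfold LL; ring
  have hkle : k ≤ D := by
    rw [hkD]; exact Nat.le_mul_of_pos_right _ hB0
  have hDW : D ∣ (lev P n).W := LL_dvd_W P (lev P n) (show i + 1 ≤ (lev P n).B from hi)
  have h1 := cnt (St P n).M D k hDpos hkle (hDW.trans (W_dvd_M (St P n)))
  have h2 : ∀ u ∈ Finset.range (Nn P (n + 1)), (if D ≤ (St P n).x0 u % D + k then (1 : ℝ) else 0) =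
      (if D ≤ u % D + k then (1 : ℝ) else 0) := by
    intro u _
    have : (St P n).x0 u % D = u % D := Nat.mod_mod_of_dvd _ hDW
    rw [this]
  rw [Finset.sum_congr rfl h2, Finset.sum_boole, Nn_succ, h1]
  have hk0 : (0 : ℝ) < k := by
    have : 0 < k := Nat.mul_pos P.hm (LL_pos P (lev P n) i)
    exact_mod_cast this
  have hB0' : (0 : ℝ) < Bn P n := by exact_mod_cast hB0
  refine le_of_eq ?_
  have : (D : ℝ) = k * Bn P n := by rw [hkD]; push_cast; ring
  rw [this]
  field_simp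

theorem var_u (n : ℕ) (d : Dd P) :
    ∑ u ∈ Finset.range (Nn P (n + 1)), ‖(1 / (Bn P n : ℂ)) * ∑ i ∈ Finset.range (Bn P n),
      ch n d (fun j => Del P n (P.β n) (P.fl n) ((St P n).pr u % P.m)
        ((St P n).x0 u / (P.m * LL (Nn P n) (Bn P n) i)) ((St P n).dc u) j) -
      ccv n d ((St P n).pr u % P.m)‖ ^ 2 ≤ (Nn P (n + 1) : ℝ) / Bn P n := by
  have hW0 : (0 : ℝ) < (lev P n).W := by exact_mod_cast (lev P n).W_pos
  have h := sum_le_x0 n (fun ξ c x => ‖(1 / (Bn P n : ℂ)) * ∑ i ∈ Finset.range (Bn P n),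
      ch n d (fun j => Del P n (P.β n) (P.fl n) ξ (x / (P.m * LL (Nn P n) (Bn P n) i)) c j) -
      ccv n d ξ‖ ^ 2) (((lev P n).W : ℝ) / Bn P n) (fun ξ hξ c => by
    refine var_main (Pd P n) (Pd_pos P n)
      (fun s => ch n d (fun j : Fin n => Del P n (P.β n) (P.fl n) ξ s c j)) (ccv n d ξ)
      (fun s => (ch_norm n d _).le) (fun s => ?_) (ch_mean n d ξ c hξ)
      (fun i => P.m * LL (Nn P n) (Bn P n) i) (lev P n).W (Bn P n) (Bn_pos P n) ?_ ?_ ?_
    · congr 1
      funext j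
      exact Del_per P n _ _ _ _ _ _ j.2
    · intro i hi
      exact Nat.mul_pos P.hm (LL_pos P (lev P n) i)
    · intro i hi
      obtain ⟨q, hq⟩ := Pd_dvd_B P n
      refine ⟨KK P (n + 1) * q * Bn P n ^ (Bn P n - i), ?_⟩
      show _ = P.m * KK P (n + 1) * Nn P n * Bn P n ^ (Bn P n + 2)
      have e : Bn P n + 2 = (i + 1) + 1 + (Bn P n - i) := by omega
      rw [e, pow_add, pow_succ]
      unfold LL
      calc _ = P.m * KK P (n + 1) * Nn P n * (Bn P n ^ (i + 1) * (Pd P n * q) *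
          Bn P n ^ (Bn P n - i)) := by ring
        _ = _ := by rw [← hq]
    · intro i i' h h'
      obtain ⟨q, hq⟩ := Pd_dvd_B P n
      refine ⟨q * Bn P n ^ (i' - i - 1), ?_⟩
      unfold LL
      have e : i' + 1 = (i + 1) + 1 + (i' - i - 1) := by omega
      rw [e, pow_add, pow_succ]
      calc _ = P.m * (Nn P n * (Bn P n ^ (i + 1) * (Pd P n * q) *
          Bn P n ^ (i' - i - 1))) := by rw [← hq]
        _ = _ := by ring)
  refine h.trans (le_of_eq ?_)
  field_simp

theorem good_W (n u i : ℕ) (hi : i < Bn P n)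
    (h : (St P n).x0 u % (P.m * LL (Nn P n) (Bn P n) (i + 1)) + P.m * LL (Nn P n) (Bn P n) i <
      P.m * LL (Nn P n) (Bn P n) (i + 1)) :
    (St P n).x0 u + P.m * LL (Nn P n) (Bn P n) i < (lev P n).W := by
  have := mod_add_lt (Nat.mul_pos P.hm (LL_pos P (lev P n) (i + 1))) (lev P n).W_pos
    (LL_dvd_W P (lev P n) (show i + 1 ≤ (lev P n).B from hi)) h
  rwa [Nat.mod_eq_of_lt (show (St P n).x0 u < (lev P n).W from Nat.mod_lt _ (lev P n).W_pos)] at this

/-! ### the averages -/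

theorem opP_sum (c : Ctx P) (s : Finset ℕ) (R : ℕ → Polynomial ℂ) (f : Lp ℂ 2 c.μ) :
    opP c.UT (∑ i ∈ s, R i) f = ∑ i ∈ s, opP c.UT (R i) f := by
  obtain ⟨-, h2, h3, -⟩ := SM345.opP_basic c.UT
  classical
  induction s using Finset.induction_on with
  | empty =>
    simp only [Finset.sum_empty]
    have h4 := h3 0 f
    rw [zero_smul, map_zero] at h4
    exact h4
  | insert i s hi ih =>
    rw [Finset.sum_insert hi, Finset.sum_insert hi, h2, ih]

theorem J_sub (c : Ctx P) (m : ℕ) (f g : Om P m → ℂ) :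
    J c.hμ m f - J c.hμ m g = J c.hμ m (fun y => f y - g y) := by
  obtain ⟨h1, h2, -⟩ := SM345.J_basic c.hμ
  have e : (fun y => f y - g y) = fun y => f y + (fun y => (-1 : ℂ) * g y) y := by
    funext y
    ring
  rw [e, h1, h2, neg_one_smul, sub_eq_add_neg]

theorem J_smul_sum (c : Ctx P) (m : ℕ) (s : Finset ℕ) (a : ℂ) (f : ℕ → Om P m → ℂ) :
    ∑ i ∈ s, a • J c.hμ m (f i) = J c.hμ m (fun y => ∑ i ∈ s, a * f i y) := by
  obtain ⟨h1, h2, -⟩ := SM345.J_basic c.hμ
  classical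
  induction s using Finset.induction_on with
  | empty =>
    simp only [Finset.sum_empty]
    have h3 := h2 m 0 (fun _ => (0 : ℂ))
    rw [zero_smul] at h3
    rw [← h3]
    congr 1
    funext y
    ring
  | insert i s hi ih =>
    rw [Finset.sum_insert hi, ih, ← h2, ← h1]
    congr 1
    funext y
    rw [Finset.sum_insert hi]

theorem avg (c : Ctx P) (n : ℕ) (d : Dd P) (hd : supp n d) (f : ZMod (Nn P n) → ℂ) (C : ℝ)
    (hf : ∀ u, ‖f u‖ ≤ C) :
    ‖opP c.UT (QQ P n) (Jd c d n f) - Jd c d n (fun u => ccv n d (u.val % P.m) * f u)‖ ≤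
      C * th P n := by
  have hN0 := Nn_pos P n
  have hB : 0 < Bn P n := Bn_pos P n
  have hBR : (0 : ℝ) < Bn P n := by exact_mod_cast hB
  have hC : 0 ≤ C := (norm_nonneg _).trans (hf 0)
  have hN' : (0 : ℝ) < Nn P (n + 1) := by exact_mod_cast Nn_pos P (n + 1)
  set rB : ℝ := 1 / Real.sqrt (Bn P n) with hrB
  have hsq : rB ^ 2 = 1 / Bn P n := by
    rw [hrB, div_pow, Real.sq_sqrt hBR.le, one_pow]
  have hrB0 : 0 ≤ rB := by positivity
  let p : ZMod (Nn P (n + 1)) → ZMod (Nn P n) := fun u => ((St P n).pr u.val : ℕ)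
  let De : ℕ → ℕ → Fb P n := fun i u => fun j => Del P n (P.β n) (P.fl n) ((St P n).pr u % P.m)
        ((St P n).x0 u / (P.m * LL (Nn P n) (Bn P n) i)) ((St P n).dc u) j
  let F : Om P (n + 1) → ℂ := bf (n + 1) d (lf n f)
  let G : Om P (n + 1) → ℂ := bf (n + 1) d (lf n (fun u => ccv n d (u.val % P.m) * f u))
  let E : ℕ → Om P (n + 1) → ℂ := fun i z => F z * ch n d (De i z.1.val)
  have hF : ∀ z, ‖F z‖ ≤ C := by
    intro z
    show ‖bf (n + 1) d (lf n f) z‖ ≤ C
    rw [bf_abs]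
    exact hf _
  have hE : ∀ i z, ‖E i z‖ ≤ C := by
    intro i z
    show ‖F z * ch n d (De i z.1.val)‖ ≤ C
    rw [norm_mul, ch_norm, mul_one]
    exact hF _
  -- claim 1
  have hc1 : ∀ i < Bn P n, ∀ z, ‖F (((TP P (n + 1)) ^ (LL (Nn P n) (Bn P n) i)) z) - E i z‖ ^ 2 ≤
      4 * C ^ 2 * (if P.m * LL (Nn P n) (Bn P n) (i + 1) ≤
      (St P n).x0 z.1.val % (P.m * LL (Nn P n) (Bn P n) (i + 1)) + P.m * LL (Nn P n) (Bn P n) i
        then (1 : ℝ) else 0) := by
    intro i hi z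
    split_ifs with hbad
    · have g1 : ‖F (((TP P (n + 1)) ^ (LL (Nn P n) (Bn P n) i)) z) - E i z‖ ≤ 2 * C :=
        (norm_sub_le _ _).trans (by
          linarith [hF (((TP P (n + 1)) ^ (LL (Nn P n) (Bn P n) i)) z), hE i z])
      have g2 := pow_le_pow_left₀ (norm_nonneg _) g1 2
      calc _ ≤ (2 * C) ^ 2 := g2
        _ = _ := by ring
    · push Not at hbad
      have g0 := good_W n z.1.val i hi hbad
      have g5 : F (((TP P (n + 1)) ^ (LL (Nn P n) (Bn P n) i)) z) = E i z := by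
        rw [TP_pow]
        show lf n f (((z.1.val + P.m * LL (Nn P n) (Bn P n) i : ℕ)) : ZMod (Nn P (n + 1))) *
          ch (n + 1) d (fun j => z.2 j + ∑ h ∈ Finset.range (LL (Nn P n) (Bn P n) i),
            ph P (n + 1) (z.1.val + P.m * h) j) = lf n f z.1 * ch (n + 1) d z.2 *
              ch n d (De i z.1.val)
        rw [ch_add (n + 1) d z.2 (fun j => ∑ h ∈ Finset.range (LL (Nn P n) (Bn P n) i),
            ph P (n + 1) (z.1.val + P.m * h) j)]
        have e1 : lf n f (((z.1.val + P.m * LL (Nn P n) (Bn P n) i : ℕ)) : ZMod (Nn P (n + 1))) =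
            lf n f z.1 := by
          unfold lf
          congr 1
          have e2 := pr_val_congr P n (u := (((z.1.val + P.m * LL (Nn P n) (Bn P n) i : ℕ)) :
            ZMod (Nn P (n + 1))).val) (v := z.1.val + P.m * LL (Nn P n) (Bn P n) i) (by
              rw [ZMod.val_natCast]; exact Nat.mod_modEq _ _)
          rw [e2]
          exact (ZMod.natCast_eq_natCast_iff _ _ _).2 (pr_LL P n z.1.val i g0)
        rw [e1, ch_succ n d (hd n le_rfl), ch_succ n d (hd n le_rfl), ← mul_assoc]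
        congr 1
        congr 1
        funext j
        exact ph_LL P n z.1.val i j j.2 hi hbad
      rw [g5, sub_self, norm_zero]
      simp
  have hc1' : ∀ i < Bn P n, ‖J c.hμ (n + 1) (fun z => F (((TP P (n + 1)) ^
      (LL (Nn P n) (Bn P n) i)) z)) - J c.hμ (n + 1) (E i)‖ ≤ 2 * C * rB := by
    intro i hi
    rw [J_sub]
    have g1 := J_norm_le c (n + 1) _ (fun u => 4 * C ^ 2 *
        (if P.m * LL (Nn P n) (Bn P n) (i + 1) ≤
      (St P n).x0 u % (P.m * LL (Nn P n) (Bn P n) (i + 1)) + P.m * LL (Nn P n) (Bn P n) i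
          then (1 : ℝ) else 0)) (4 * C ^ 2 * ((Nn P (n + 1) : ℝ) / Bn P n)) (hc1 i hi) (by
      rw [← Finset.mul_sum]
      apply mul_le_mul_of_nonneg_left _ (by positivity)
      exact bad_count n i hi)
    rw [← pow_le_pow_iff_left₀ (norm_nonneg _) (by positivity) two_ne_zero]
    refine g1.trans (le_of_eq ?_)
    rw [mul_pow, hsq]
    field_simp
    ring
  -- claim 2
  have hc2 : ‖∑ i ∈ Finset.range (Bn P n), (1 / (Bn P n : ℂ)) • J c.hμ (n + 1) (E i) -
      J c.hμ (n + 1) G‖ ≤ C * rB := by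
    rw [J_smul_sum, J_sub]
    have g1 := J_norm_le c (n + 1)
      (fun z => ∑ i ∈ Finset.range (Bn P n), (1 / (Bn P n : ℂ)) * E i z - G z)
      (fun u => C ^ 2 * ‖(1 / (Bn P n : ℂ)) * ∑ i ∈ Finset.range (Bn P n),
        ch n d (De i u) - ccv n d ((St P n).pr u % P.m)‖ ^ 2)
      (C ^ 2 * ((Nn P (n + 1) : ℝ) / Bn P n)) (by
        intro z
        have g2 : G z = F z * ccv n d ((St P n).pr z.1.val % P.m) := by
          show ccv n d ((((St P n).pr z.1.val : ℕ) : ZMod (Nn P n)).val % P.m) *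
            f ((St P n).pr z.1.val : ℕ) * ch (n + 1) d z.2 =
            f ((St P n).pr z.1.val : ℕ) * ch (n + 1) d z.2 * ccv n d ((St P n).pr z.1.val % P.m)
          rw [ZMod.val_natCast, Nat.mod_mod_of_dvd _ (m_dvd_Nn P n)]
          ring
        have g3 : ∑ i ∈ Finset.range (Bn P n), (1 / (Bn P n : ℂ)) * E i z - G z =
            F z * ((1 / (Bn P n : ℂ)) * ∑ i ∈ Finset.range (Bn P n), ch n d (De i z.1.val) -
              ccv n d ((St P n).pr z.1.val % P.m)) := by
          rw [g2]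
          show ∑ i ∈ Finset.range (Bn P n), (1 / (Bn P n : ℂ)) * (F z * ch n d (De i z.1.val)) -
            _ = _
          rw [mul_sub, ← Finset.mul_sum, ← Finset.mul_sum]
          ring
        rw [g3, norm_mul, mul_pow]
        apply mul_le_mul_of_nonneg_right _ (sq_nonneg _)
        exact pow_le_pow_left₀ (norm_nonneg _) (hF z) 2) (by
      rw [← Finset.mul_sum]
      apply mul_le_mul_of_nonneg_left _ (by positivity)
      exact var_u n d)
    rw [← pow_le_pow_iff_left₀ (norm_nonneg _) (by positivity) two_ne_zero]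
    refine g1.trans (le_of_eq ?_)
    rw [mul_pow, hsq]
    field_simp
  -- claim 0
  have hδ : 0 ≤ dd P (n + 1) := dd_nonneg P _
  have hc0 : ∀ i < Bn P n, ‖(c.UT ^ (LL (Nn P n) (Bn P n) i)) (J c.hμ (n + 1) F) -
      J c.hμ (n + 1) (fun z => F (((TP P (n + 1)) ^ (LL (Nn P n) (Bn P n) i)) z))‖ ≤
        C * ((LL (Nn P n) (Bn P n) (Bn P n) : ℝ) * dd P (n + 1)) := by
    intro i hi
    refine (SM345.isLim_pow c.hμ (TP P) (dd P) c.UT c.lT (n + 1) (LL (Nn P n) (Bn P n) i) F C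
      hF).trans ?_
    have g1 : (LL (Nn P n) (Bn P n) i : ℝ) ≤ LL (Nn P n) (Bn P n) (Bn P n) := by
      have : LL (Nn P n) (Bn P n) i ≤ LL (Nn P n) (Bn P n) (Bn P n) := by
        unfold LL
        apply Nat.mul_le_mul_left
        exact Nat.pow_le_pow_right hB (by omega)
      exact_mod_cast this
    have g2 := mul_le_mul_of_nonneg_right g1 (mul_nonneg hC hδ)
    calc _ ≤ (LL (Nn P n) (Bn P n) (Bn P n) : ℝ) * (C * dd P (n + 1)) := g2
      _ = _ := by ring
  have hJF : J c.hμ (n + 1) F = Jd c d n f := Jd_lf c d n (hd n le_rfl) f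
  have hJG : J c.hμ (n + 1) G = Jd c d n (fun u => ccv n d (u.val % P.m) * f u) :=
    Jd_lf c d n (hd n le_rfl) _
  rw [← hJF, ← hJG]
  have hQ : opP c.UT (QQ P n) (J c.hμ (n + 1) F) = ∑ i ∈ Finset.range (Bn P n),
      (1 / (Bn P n : ℂ)) • (c.UT ^ (LL (Nn P n) (Bn P n) i)) (J c.hμ (n + 1) F) := by
    obtain ⟨o1, -, o3, o4, -⟩ := SM345.opP_basic c.UT
    unfold QQ
    rw [opP_sum]
    apply Finset.sum_congr rfl
    intro i _
    rw [o1, o4, o3]
  have hnB : ‖(1 / (Bn P n : ℂ))‖ = 1 / (Bn P n : ℝ) := by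
    rw [norm_div, norm_one, Complex.norm_natCast]
  have hsumle : ∀ (v : ℕ → Lp ℂ 2 c.μ) (K : ℝ), (∀ i < Bn P n, ‖v i‖ ≤ K) →
      ‖∑ i ∈ Finset.range (Bn P n), (1 / (Bn P n : ℂ)) • v i‖ ≤ K := by
    intro v K hv
    calc ‖∑ i ∈ Finset.range (Bn P n), (1 / (Bn P n : ℂ)) • v i‖
        ≤ ∑ i ∈ Finset.range (Bn P n), ‖(1 / (Bn P n : ℂ)) • v i‖ := norm_sum_le _ _
      _ ≤ ∑ i ∈ Finset.range (Bn P n), (1 / (Bn P n : ℝ)) * K := by
          apply Finset.sum_le_sum
          intro i hi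
          rw [norm_smul, hnB]
          exact mul_le_mul_of_nonneg_left (hv i (Finset.mem_range.1 hi)) (by positivity)
      _ = K := by
          rw [Finset.sum_const, Finset.card_range, nsmul_eq_mul]
          field_simp
  have hs0 := hsumle (fun i => (c.UT ^ (LL (Nn P n) (Bn P n) i)) (J c.hμ (n + 1) F) -
      J c.hμ (n + 1) (fun z => F (((TP P (n + 1)) ^ (LL (Nn P n) (Bn P n) i)) z))) _ hc0
  have hs1 := hsumle (fun i => J c.hμ (n + 1) (fun z => F (((TP P (n + 1)) ^
    (LL (Nn P n) (Bn P n) i)) z)) - J c.hμ (n + 1) (E i)) _ hc1'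
  rw [hQ]
  have hdec : ∑ i ∈ Finset.range (Bn P n), (1 / (Bn P n : ℂ)) •
      (c.UT ^ (LL (Nn P n) (Bn P n) i)) (J c.hμ (n + 1) F) - J c.hμ (n + 1) G =
      ∑ i ∈ Finset.range (Bn P n), (1 / (Bn P n : ℂ)) •
        ((c.UT ^ (LL (Nn P n) (Bn P n) i)) (J c.hμ (n + 1) F) -
          J c.hμ (n + 1) (fun z => F (((TP P (n + 1)) ^ (LL (Nn P n) (Bn P n) i)) z))) +
      ∑ i ∈ Finset.range (Bn P n), (1 / (Bn P n : ℂ)) •
        (J c.hμ (n + 1) (fun z => F (((TP P (n + 1)) ^ (LL (Nn P n) (Bn P n) i)) z)) -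
          J c.hμ (n + 1) (E i)) +
      (∑ i ∈ Finset.range (Bn P n), (1 / (Bn P n : ℂ)) • J c.hμ (n + 1) (E i) -
        J c.hμ (n + 1) G) := by
    simp only [smul_sub, Finset.sum_sub_distrib]
    abel
  rw [hdec]
  refine (norm_add₃_le).trans ?_
  refine (add_le_add (add_le_add hs0 hs1) hc2).trans ?_
  unfold th
  have hLL : 0 ≤ (LL (Nn P n) (Bn P n) (Bn P n) : ℝ) * dd P (n + 1) := by positivity
  have k1 := mul_nonneg hC hLL
  have k3 := mul_nonneg hC hrB0
  rw [← hrB]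
  nlinarith

end MS723
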