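import Mathlib
import Pool.Agent.H499R2.NDClass2

/-!
Corollaries of helper499's structure theorem: the density of a set invariant under the Collatz map
vanishes only if the set is empty, and equals one only if the set is everything.
-/

set_option autoImplicit false

open Filter Topology Set

namespace Pool.Agent.H723R2.InvDens

open Pool.Agent.H499R2.ND (Ci IsRep)

theorem exists_rep {s : ℤ} {x : ℤ} (hx : 0 < s * x) :
    ∃ a, IsRep s a ∧ ∃ i j : ℕ, Ci^[i] x = Ci^[j] a := by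
  classical
  have h1 : ∃ k : ℕ, ∃ b, 0 < s * b ∧ (∃ i j : ℕ, Ci^[i] x = Ci^[j] b) ∧ s * b = k :=
    ⟨(s * x).toNat, x, hx, ⟨0, 0, rfl⟩, by omega⟩
  obtain ⟨b, hb, ⟨i, j, hij⟩, hk⟩ := Nat.find_spec h1
  refine ⟨b, ⟨hb, ?_⟩, i, j, hij⟩
  rintro c hc ⟨k, l, hkl⟩
  have h2 := Nat.find_min' h1 (m := (s * c).toNat) ⟨c, hc, ⟨k + i, j + l, ?_⟩, by omega⟩
  · omega
  · rw [Function.iterate_add_apply, hij, ← Function.iterate_add_apply, add_comm k j,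
      Function.iterate_add_apply, hkl, ← Function.iterate_add_apply]

theorem inv_density {s : ℤ} (hs : s = 1 ∨ s = -1) {S : Set ℤ} (hS : ∀ x : ℤ, x ∈ S ↔ Ci x ∈ S) :
    ∃ d : ℝ, Tendsto (fun N : ℕ => ({n : ℤ | 0 < s * n ∧ s * n ≤ N ∧ n ∈ S}.ncard : ℝ) / N) atTop
        (𝓝 d) ∧ 0 ≤ d ∧ d ≤ 1 ∧ (d = 0 ↔ ∀ n : ℤ, 0 < s * n → n ∉ S) ∧
        (d = 1 ↔ ∀ n : ℤ, 0 < s * n → n ∈ S) := by
  classical
  obtain ⟨δ, h1, h2, h3⟩ := Pool.Agent.H499R2.ND.structure_full hs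
  have hsumm : Summable (fun a : {a : ℤ // IsRep s a} => δ a) := h3.summable
  have hsub : ∀ U : Set ℤ, Summable (fun a : {a : ℤ // IsRep s a ∧ a ∈ U} => δ a) := by
    intro U
    have hinj : Function.Injective (fun a : {a : ℤ // IsRep s a ∧ a ∈ U} =>
        (⟨a.1, a.2.1⟩ : {a : ℤ // IsRep s a})) := by
      intro a b hab
      apply Subtype.ext
      simpa using hab
    exact hsumm.comp_injective hinj
  have hnn : ∀ (U : Set ℤ) (a : {a : ℤ // IsRep s a ∧ a ∈ U}), 0 ≤ δ a := fun U a =>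
    (h1 a a.2.1.1).1.le
  have hzero : ∀ U : Set ℤ, (∀ x : ℤ, x ∈ U ↔ Ci x ∈ U) →
      (∑' a : {a : ℤ // IsRep s a ∧ a ∈ U}, δ a = 0 ↔ ∀ n : ℤ, 0 < s * n → n ∉ U) := by
    intro U hU
    constructor
    · intro h0 n hn hnU
      obtain ⟨a, ha, i, j, hij⟩ := exists_rep hn
      have haU : a ∈ U := (Pool.Agent.H499R2.ND.mem_of_merge hU
        (show n ∈ Pool.Agent.H499R2.ND.Kc a from ⟨i, j, hij⟩)).1 hnU
      have h5 := (hsub U).le_tsum ⟨a, ha, haU⟩ (fun b _ => hnn U b)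
      have h6 := (h1 a ha.1).1
      rw [h0] at h5
      exact absurd h5 (not_le.2 h6)
    · intro hno
      have : IsEmpty {a : ℤ // IsRep s a ∧ a ∈ U} := ⟨fun a => hno a a.2.1.1 a.2.2⟩
      exact tsum_empty
  have hsplit : ∑' a : {a : ℤ // IsRep s a ∧ a ∈ S}, δ a +
      ∑' a : {a : ℤ // IsRep s a ∧ a ∈ Sᶜ}, δ a = 1 := by
    set A : Set {a : ℤ // IsRep s a} := {a | a.1 ∈ S} with hA
    set f : {a : ℤ // IsRep s a} → ℝ := fun a => δ a with hf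
    have hAs : HasSum (f ∘ (↑) : A → ℝ) (∑' a : {a : ℤ // IsRep s a ∧ a ∈ S}, δ a) := by
      let e1 : A ≃ {a : ℤ // IsRep s a ∧ a ∈ S} :=
        Equiv.subtypeSubtypeEquivSubtypeInter (IsRep s) (fun a => a ∈ S)
      exact e1.hasSum_iff.2 (hsub S).hasSum
    have hBs : HasSum (f ∘ (↑) : (Aᶜ : Set _) → ℝ)
        (∑' a : {a : ℤ // IsRep s a ∧ a ∈ Sᶜ}, δ a) := by
      let e2 : (Aᶜ : Set {a : ℤ // IsRep s a}) ≃ {a : ℤ // IsRep s a ∧ a ∈ Sᶜ} :=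
        Equiv.subtypeSubtypeEquivSubtypeInter (IsRep s) (fun a => a ∈ Sᶜ)
      exact e2.hasSum_iff.2 (hsub Sᶜ).hasSum
    exact (hAs.add_compl hBs).unique h3
  have hS' : ∀ x : ℤ, x ∈ Sᶜ ↔ Ci x ∈ Sᶜ := fun x => not_congr (hS x)
  have hd0 : 0 ≤ ∑' a : {a : ℤ // IsRep s a ∧ a ∈ S}, δ a := tsum_nonneg (hnn S)
  have hd0' : 0 ≤ ∑' a : {a : ℤ // IsRep s a ∧ a ∈ Sᶜ}, δ a := tsum_nonneg (hnn Sᶜ)
  refine ⟨_, h2 S hS, hd0, by linarith, hzero S hS, ?_⟩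
  constructor
  · intro h n hn
    have h0 : ∑' a : {a : ℤ // IsRep s a ∧ a ∈ Sᶜ}, δ a = 0 := by linarith
    have := (hzero Sᶜ hS').1 h0 n hn
    simpa using this
  · intro h
    have h0 : ∑' a : {a : ℤ // IsRep s a ∧ a ∈ Sᶜ}, δ a = 0 :=
      (hzero Sᶜ hS').2 fun n hn hn' => hn' (h n hn)
    linarith

end Pool.Agent.H723R2.InvDens
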