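import Mathlib
import Pool.Agent.H723R2.InvDens
import Pool.Agent.H397R2.Inv

/-!
Level sets of a function on the positive integers that is constant along Collatz orbits have
natural densities, and the density vanishes only for an empty level set.
-/

set_option autoImplicit false

open Filter Topology Set

namespace Pool.Agent.H723R2.Level

open Pool.Agent.H499R2.ND (Ci)
open Pool.Agent.H397R2 (CInv)

theorem ci_inv {α : Type*} {c : ℕ → α} (hc : CInv c) (P : α → Prop) (x : ℤ) :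
    x ∈ {x : ℤ | 0 < x ∧ P (c x.toNat)} ↔ Ci x ∈ {x : ℤ | 0 < x ∧ P (c x.toNat)} := by
  simp only [mem_setOf_eq]
  unfold Pool.Agent.H499R2.ND.Ci
  by_cases h2 : x % 2 = 0
  · rw [if_pos h2]
    obtain ⟨y, rfl⟩ : ∃ y, x = 2 * y := ⟨x / 2, by omega⟩
    have e : (2 * y) / 2 = y := by omega
    rw [e]
    by_cases hy : 0 < y
    · have e1 : (2 * y).toNat = 2 * y.toNat := by omega
      rw [e1, hc.even]
      constructor
      · rintro ⟨_, h⟩; exact ⟨hy, h⟩
      · rintro ⟨_, h⟩; exact ⟨by omega, h⟩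
    · constructor
      · rintro ⟨h, _⟩; omega
      · rintro ⟨h, _⟩; omega
  · rw [if_neg h2]
    obtain ⟨y, rfl⟩ : ∃ y, x = 2 * y + 1 := ⟨x / 2, by omega⟩
    by_cases hy : 0 ≤ y
    · have e1 : (3 * (2 * y + 1) + 1).toNat = 2 * (3 * y.toNat + 2) := by omega
      have e2 : (2 * y + 1).toNat = 2 * y.toNat + 1 := by omega
      rw [e1, hc.even, hc.odd, e2]
      constructor
      · rintro ⟨_, h⟩; exact ⟨by omega, h⟩
      · rintro ⟨_, h⟩; exact ⟨by omega, h⟩
    · constructor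
      · rintro ⟨h, _⟩; omega
      · rintro ⟨h, _⟩; omega

theorem level {α : Type*} {c : ℕ → α} (hc : CInv c) (P : α → Prop) :
    ∃ d : ℝ, Tendsto (fun N : ℕ => (({n : ℕ | P (c n)} ∩ Set.Icc 1 N).ncard : ℝ) / N) atTop
        (𝓝 d) ∧ 0 ≤ d ∧ d ≤ 1 ∧ (d = 0 ↔ ∀ n : ℕ, 1 ≤ n → ¬ P (c n)) ∧
        (d = 1 ↔ ∀ n : ℕ, 1 ≤ n → P (c n)) := by
  obtain ⟨d, h1, h2, h3, h4, h5⟩ := Pool.Agent.H723R2.InvDens.inv_density (s := 1) (Or.inl rfl)
    (ci_inv hc P)
  refine ⟨d, ?_, h2, h3, ?_, ?_⟩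
  · refine h1.congr fun N => ?_
    congr 2
    symm
    apply Set.ncard_congr (fun (n : ℕ) _ => (n : ℤ))
    · rintro n ⟨hn, hn1, hn2⟩
      refine ⟨?_, ?_, ?_, ?_⟩
      · rw [one_mul]; omega
      · rw [one_mul]; exact_mod_cast hn2
      · exact_mod_cast hn1
      · simpa using hn
    · intro a b _ _ hab
      exact_mod_cast hab
    · rintro x ⟨hx1, hx2, hx3, hx4⟩
      rw [one_mul] at hx1 hx2
      refine ⟨x.toNat, ⟨hx4, ?_, ?_⟩, by omega⟩
      · omega
      · omega
  · rw [h4]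
    constructor
    · intro h n hn hP
      refine h (n : ℤ) (by omega) ⟨by omega, ?_⟩
      simpa using hP
    · rintro h x hx ⟨hx0, hP⟩
      exact h x.toNat (by omega) hP
  · rw [h5]
    constructor
    · intro h n hn
      have := (h (n : ℤ) (by omega)).2
      simpa using this
    · intro h x hx
      exact ⟨by omega, h x.toNat (by omega)⟩

end Pool.Agent.H723R2.Level
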