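import Mathlib
import Pool.Agent.H723R2.Level
import Pool.Agent.H723R2.AbelC

/-!
Bounded functions constant along Collatz orbits have mean values.
-/

set_option autoImplicit false

open Filter Topology Set

namespace Pool.Agent.H723R2.Mean

open Pool.Agent.H397R2 (CInv)

theorem count_eq {α : Type*} (c : ℕ → α) (P : α → Prop) [DecidablePred P] (N : ℕ) :
    ({n : ℕ | P (c n)} ∩ Set.Icc 1 N).ncard =
      ((Finset.range N).filter (fun k => P (c (k + 1)))).card := by
  rw [← Set.ncard_coe_finset]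
  symm
  apply Set.ncard_congr (fun n _ => n + 1)
  · intro n hn
    rw [Finset.mem_coe, Finset.mem_filter, Finset.mem_range] at hn
    exact ⟨hn.2, by simp, by omega⟩
  · intro x y _ _ hxy
    simpa using hxy
  · rintro m ⟨hm, hm1, hm2⟩
    obtain ⟨n, rfl⟩ : ∃ n, m = n + 1 := ⟨m - 1, by omega⟩
    refine ⟨n, ?_, rfl⟩
    rw [Finset.mem_coe, Finset.mem_filter, Finset.mem_range]
    exact ⟨by omega, hm⟩

theorem count_level {α : Type*} {c : ℕ → α} (hc : CInv c) (P : α → Prop) [DecidablePred P] :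
    ∃ d : ℝ, Tendsto (fun N : ℕ =>
        ((((Finset.range N).filter (fun k => P (c (k + 1)))).card : ℕ) : ℝ) / N) atTop (𝓝 d) ∧
        0 ≤ d ∧ d ≤ 1 ∧ (d = 0 ↔ ∀ n : ℕ, 1 ≤ n → ¬ P (c n)) ∧
        (d = 1 ↔ ∀ n : ℕ, 1 ≤ n → P (c n)) := by
  obtain ⟨d, h1, h2⟩ := Pool.Agent.H723R2.Level.level hc P
  refine ⟨d, ?_, h2⟩
  refine h1.congr fun N => ?_
  rw [count_eq c P N]

theorem mean_finite {α : Type*} {c : ℕ → α} (hc : CInv c) (F : α → ℂ) (V : Finset ℂ)
    (hV : ∀ k, F (c (k + 1)) ∈ V) :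
    ∃ l : ℂ, Tendsto (fun N : ℕ => (∑ k ∈ Finset.range N, F (c (k + 1))) / N) atTop (𝓝 l) := by
  classical
  choose d hd using fun v : ℂ => count_level hc (fun x => F x = v)
  refine ⟨∑ v ∈ V, v * (d v : ℂ), ?_⟩
  have h1 : Tendsto (fun N : ℕ => ∑ v ∈ V, v * (((((Finset.range N).filter
      (fun k => F (c (k + 1)) = v)).card : ℕ) : ℝ) / N : ℝ)) atTop
      (𝓝 (∑ v ∈ V, v * (d v : ℂ))) := by
    refine tendsto_finsetSum _ fun v _ => ?_
    exact ((Complex.continuous_ofReal.tendsto _).comp (hd v).1).const_mul v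
  refine h1.congr fun N => ?_
  have h2 : ∑ k ∈ Finset.range N, F (c (k + 1)) =
      ∑ v ∈ V, v * ((((Finset.range N).filter (fun k => F (c (k + 1)) = v)).card : ℕ) : ℂ) := by
    rw [← Finset.sum_fiberwise_of_maps_to (s := Finset.range N) (t := V)
      (g := fun k => F (c (k + 1))) (fun k _ => hV k)]
    refine Finset.sum_congr rfl fun v _ => ?_
    rw [Finset.sum_congr rfl (g := fun _ => v) (fun k hk => (Finset.mem_filter.1 hk).2),
      Finset.sum_const, nsmul_eq_mul, mul_comm]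
  rw [h2, Finset.sum_div]
  refine Finset.sum_congr rfl fun v _ => ?_
  push_cast
  ring

/-- rounding to a grid -/
noncomputable def q (K : ℕ) (z : ℂ) : ℂ :=
  (((⌊(K : ℝ) * z.re⌋ : ℤ) : ℂ) + ((⌊(K : ℝ) * z.im⌋ : ℤ) : ℂ) * Complex.I) / K

theorem q_close {K : ℕ} (hK : 0 < K) (z : ℂ) : ‖z - q K z‖ ≤ 2 / K := by
  have hK' : (0 : ℝ) < K := by exact_mod_cast hK
  have h1 : z - q K z = ((((K : ℝ) * z.re - ⌊(K : ℝ) * z.re⌋ : ℝ) : ℂ) +
      (((K : ℝ) * z.im - ⌊(K : ℝ) * z.im⌋ : ℝ) : ℂ) * Complex.I) / K := by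
    unfold q
    conv_lhs => rw [← Complex.re_add_im z]
    have : (K : ℂ) ≠ 0 := by exact_mod_cast hK.ne'
    simp only [Complex.add_re, Complex.ofReal_re, Complex.mul_re, Complex.I_re, mul_zero,
      Complex.ofReal_im, Complex.I_im, mul_one, sub_self, add_zero, Complex.add_im, Complex.mul_im,
      zero_add]
    push_cast
    field_simp
    ring
  rw [h1, norm_div, Complex.norm_natCast]
  apply div_le_div_of_nonneg_right _ hK'.le
  refine (norm_add_le _ _).trans ?_
  rw [norm_mul, Complex.norm_I, mul_one, Complex.norm_real, Complex.norm_real, Real.norm_eq_abs,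
    Real.norm_eq_abs, Int.self_sub_floor, Int.self_sub_floor, Int.abs_fract, Int.abs_fract]
  have := (Int.fract_lt_one ((K : ℝ) * z.re)).le
  have := (Int.fract_lt_one ((K : ℝ) * z.im)).le
  linarith

theorem mean_bdd {c : ℕ → ℂ} (hc : CInv c) {M : ℝ} (hM : ∀ n, 1 ≤ n → ‖c n‖ ≤ M) :
    ∃ l : ℂ, Tendsto (fun N : ℕ => (∑ k ∈ Finset.range N, c (k + 1)) / N) atTop (𝓝 l) := by
  classical
  have hmean : ∀ K : ℕ, ∃ l : ℂ,
      Tendsto (fun N : ℕ => (∑ k ∈ Finset.range N, q K (c (k + 1))) / N) atTop (𝓝 l) := by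
    intro K
    set B : ℤ := ⌈(K : ℝ) * M⌉ + 1 with hB
    set V : Finset ℂ := ((Finset.Icc (-B) B) ×ˢ (Finset.Icc (-B) B)).image
      (fun p : ℤ × ℤ => ((p.1 : ℂ) + (p.2 : ℂ) * Complex.I) / K) with hV
    refine mean_finite hc (q K) V fun k => ?_
    rw [hV, Finset.mem_image]
    refine ⟨(⌊(K : ℝ) * (c (k + 1)).re⌋, ⌊(K : ℝ) * (c (k + 1)).im⌋), ?_, rfl⟩
    have hb : ∀ x : ℝ, |x| ≤ M → ⌊(K : ℝ) * x⌋ ∈ Finset.Icc (-B) B := by
      intro x hx
      have h1 := abs_le.1 hx
      have hK0 : (0 : ℝ) ≤ K := Nat.cast_nonneg K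
      have h2 : (K : ℝ) * x ≤ K * M := mul_le_mul_of_nonneg_left h1.2 hK0
      have h3 : -((K : ℝ) * M) ≤ K * x := by
        have := mul_le_mul_of_nonneg_left h1.1 hK0
        linarith
      have h4 := Int.le_ceil ((K : ℝ) * M)
      rw [Finset.mem_Icc]
      constructor
      · rw [Int.le_floor, hB]
        push_cast
        linarith
      · have h5 : ⌊(K : ℝ) * x⌋ ≤ ⌈(K : ℝ) * M⌉ := by
          have h6 := Int.floor_le ((K : ℝ) * x)
          exact_mod_cast (h6.trans (h2.trans h4))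
        omega
    rw [Finset.mem_product]
    exact ⟨hb _ ((Complex.abs_re_le_norm _).trans (hM _ (by omega))),
      hb _ ((Complex.abs_im_le_norm _).trans (hM _ (by omega)))⟩
  have hcau : CauchySeq (fun N : ℕ => (∑ k ∈ Finset.range N, c (k + 1)) / N) := by
    rw [Metric.cauchySeq_iff']
    intro ε hε
    obtain ⟨K, hK⟩ := exists_nat_gt (8 / ε)
    have hKpos : (0 : ℝ) < K := lt_trans (by positivity) hK
    have hKpos' : 0 < K := by exact_mod_cast hKpos
    obtain ⟨l, hl⟩ := hmean K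
    obtain ⟨N0, hN0⟩ := Metric.tendsto_atTop.1 hl (ε / 4) (by positivity)
    have hclose : ∀ N : ℕ, ‖(∑ k ∈ Finset.range N, c (k + 1)) / (N : ℂ) -
        (∑ k ∈ Finset.range N, q K (c (k + 1))) / (N : ℂ)‖ ≤ 2 / K := by
      intro N
      rcases Nat.eq_zero_or_pos N with h | h
      · subst h
        simp
        positivity
      · have hN : (0 : ℝ) < N := by exact_mod_cast h
        rw [← sub_div, ← Finset.sum_sub_distrib, norm_div, Complex.norm_natCast,
          div_le_iff₀ hN]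
        refine (norm_sum_le _ _).trans ?_
        refine (Finset.sum_le_sum fun k _ => q_close hKpos' (c (k + 1))).trans ?_
        rw [Finset.sum_const, Finset.card_range, nsmul_eq_mul, mul_comm]
    have h2K : 2 / (K : ℝ) < ε / 4 := by
      rw [div_lt_iff₀ hKpos]
      rw [div_lt_iff₀ hε] at hK
      linarith
    refine ⟨N0, fun n hn => ?_⟩
    have h1 := hclose n
    have h2 := hclose N0
    have h3 := hN0 n hn
    have h4 := hN0 N0 le_rfl
    rw [← dist_eq_norm] at h1 h2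
    calc dist ((∑ k ∈ Finset.range n, c (k + 1)) / (n : ℂ))
          ((∑ k ∈ Finset.range N0, c (k + 1)) / (N0 : ℂ))
        ≤ dist ((∑ k ∈ Finset.range n, c (k + 1)) / (n : ℂ))
            ((∑ k ∈ Finset.range n, q K (c (k + 1))) / (n : ℂ)) +
          dist ((∑ k ∈ Finset.range n, q K (c (k + 1))) / (n : ℂ)) l +
          (dist ((∑ k ∈ Finset.range N0, q K (c (k + 1))) / (N0 : ℂ)) l +
          dist ((∑ k ∈ Finset.range N0, c (k + 1)) / (N0 : ℂ))
            ((∑ k ∈ Finset.range N0, q K (c (k + 1))) / (N0 : ℂ))) := by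
          refine (dist_triangle _ l _).trans ?_
          refine add_le_add (dist_triangle _ _ _) ?_
          rw [dist_comm l, add_comm]
          exact dist_triangle _ _ _
      _ < ε := by linarith
  exact cauchySeq_tendsto_of_complete hcau

theorem zero_mean (c : ℕ → ℂ) {C : ℝ} (hC : ∀ n, ‖c (n + 1) - c n‖ ≤ C) (hz : CInv c) :
    Tendsto (fun N : ℕ => (∑ k ∈ Finset.range N, ‖c (k + 1) - c k‖) / N) atTop (𝓝 0) := by
  classical
  have hC0 : 0 ≤ C := (norm_nonneg _).trans (hC 0)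
  have hs : ∀ N : ℕ, (∑ k ∈ Finset.range N, ‖c (k + 1) - c k‖) ≤
      C * ((({n | c n ≠ c (n + 1)} ∩ Set.Icc 1 N).ncard : ℝ) + 1) := by
    intro N
    have h0 : (∑ k ∈ Finset.range N, ‖c (k + 1) - c k‖) ≤
        ∑ k ∈ (Finset.range N).filter (fun k => c k ≠ c (k + 1)), C := by
      rw [Finset.sum_filter]
      refine Finset.sum_le_sum fun k _ => ?_
      split_ifs with h
      · exact hC k
      · push Not at h
        rw [h, sub_self, norm_zero]
    rw [Finset.sum_const, nsmul_eq_mul, mul_comm] at h0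
    refine h0.trans (mul_le_mul_of_nonneg_left ?_ hC0)
    have h1 : (Finset.range N).filter (fun k => c k ≠ c (k + 1)) ⊆
        insert 0 ((Finset.Icc 1 N).filter (fun k => c k ≠ c (k + 1))) := by
      intro k hk
      rw [Finset.mem_filter, Finset.mem_range] at hk
      rw [Finset.mem_insert, Finset.mem_filter, Finset.mem_Icc]
      by_cases h : k = 0
      · exact Or.inl h
      · exact Or.inr ⟨⟨by omega, by omega⟩, hk.2⟩
    have h2 := (Finset.card_le_card h1).trans (Finset.card_insert_le _ _)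
    have h3 : ({n | c n ≠ c (n + 1)} ∩ Set.Icc 1 N) =
        (((Finset.Icc 1 N).filter (fun k => c k ≠ c (k + 1)) : Finset ℕ) : Set ℕ) := by
      ext n
      simp only [Set.mem_inter_iff, Set.mem_ofPred_eq, Set.mem_Icc, Finset.coe_filter,
        Finset.mem_Icc]
      tauto
    rw [h3, Set.ncard_coe_finset]
    exact_mod_cast h2
  have hzd := hz.zd
  rw [Metric.tendsto_atTop]
  intro ε hε
  obtain ⟨N0, hN0⟩ := hzd (ε / (2 * (C + 1))) (by positivity)
  obtain ⟨N1, hN1⟩ := exists_nat_gt (2 * (C + 1) / ε)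
  refine ⟨max N0 (N1 + 1), fun N hN => ?_⟩
  have hN0' : N0 ≤ N := le_trans (le_max_left _ _) hN
  have hN1' : N1 + 1 ≤ N := le_trans (le_max_right _ _) hN
  have hNpos : (0 : ℝ) < N := by exact_mod_cast (by omega : 0 < N)
  rw [Real.dist_eq, sub_zero, abs_of_nonneg (by positivity), div_lt_iff₀ hNpos]
  have h1 := hN0 N hN0'
  have h2 : (N1 : ℝ) < N := by exact_mod_cast (by omega : N1 < N)
  have h3 : 2 * (C + 1) / ε < N := hN1.trans h2
  rw [div_lt_iff₀ hε] at h3
  have h4 := hs N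
  have h5 : C * ((({n | c n ≠ c (n + 1)} ∩ Set.Icc 1 N).ncard : ℝ) + 1) ≤
      C * (ε / (2 * (C + 1)) * N + 1) :=
    mul_le_mul_of_nonneg_left (by linarith) hC0
  have h6 : C * (ε / (2 * (C + 1)) * N + 1) ≤ (C + 1) * (ε / (2 * (C + 1)) * N + 1) :=
    mul_le_mul_of_nonneg_right (by linarith) (by positivity)
  have h7 : (C + 1) * (ε / (2 * (C + 1)) * N + 1) = ε * N / 2 + (C + 1) := by
    field_simp
  nlinarith

end Pool.Agent.H723R2.Mean
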