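import Mathlib
import Pool.Agent.H723R2.Mean
import Pool.Agent.H397R2.BM2

/-! Growth of the solutions of the Berg-Meinardus equation. -/

set_option autoImplicit false

open Filter Topology Set

namespace Pool.Agent.H723R2.BMGrow

open Pool.Agent.H397R2

theorem ev_near : ∀ᶠ r : ℝ in 𝓝[<] (1 : ℝ), 1 / 2 < r ∧ r < 1 := by
  apply Filter.Eventually.and
  · exact nhdsWithin_le_nhds (lt_mem_nhds (by norm_num))
  · exact self_mem_nhdsWithin

theorem tendsto_cast : Tendsto (fun r : ℝ => (r : ℂ)) (𝓝[<] (1 : ℝ)) (𝓝 1) := by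
  have h := (Complex.continuous_ofReal.tendsto (1 : ℝ)).mono_left
    (nhdsWithin_le_nhds (s := Set.Iio (1 : ℝ)))
  simpa using h

/-- a solution all of whose coefficients (from index one on) are equal is trivial -/
theorem triv {h : ℂ → ℂ} (hd : DifferentiableOn ℂ h (Metric.ball 0 1)) {m : ℂ}
    (hm : ∀ n, 1 ≤ n → tc h n = m) :
    ∃ c₀ : ℂ, ∀ z : ℂ, ‖z‖ < 1 → h z = c₀ + m * (z / (1 - z)) := by
  refine ⟨tc h 0, fun z hz => ?_⟩
  have s1 := hasSum_tc hd hz
  have s2 : HasSum (fun n : ℕ => m * z * z ^ n) (m * z * (1 - z)⁻¹) :=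
    (hasSum_geometric_of_norm_lt_one hz).mul_left _
  have s3 : HasSum (fun n : ℕ => tc h (n + 1) * z ^ (n + 1)) (m * z * (1 - z)⁻¹) := by
    refine hs_congr s2 (fun n => ?_)
    rw [hm (n + 1) (by omega), pow_succ]; ring
  have s4 := (hasSum_nat_add_iff (f := fun n : ℕ => tc h n * z ^ n) 1).mp s3
  rw [s1.unique s4]
  simp only [Finset.range_one, Finset.sum_singleton, pow_zero, mul_one]
  rw [div_eq_mul_inv]; ring

/-- lower bound for the quadratic means -/
theorem quad {c : ℕ → ℂ} (hc : CInv c) {m : ℂ} {a : ℕ} (ha : 1 ≤ a) (ham : c a ≠ m)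
    {f : ℕ → ℂ} (hf : ∀ n, 1 ≤ n → f n = c n - m)
    (hsum : ∀ r : ℝ, 0 ≤ r → r < 1 → Summable fun n => ‖f n‖ * r ^ n) :
    ∃ κ : ℝ, 0 < κ ∧ ∀ᶠ r : ℝ in 𝓝[<] (1 : ℝ),
      κ ≤ (1 - r) * ∫ θ in (0 : ℝ)..(2 * Real.pi), ‖ser f r θ‖ ^ 2 := by
  classical
  obtain ⟨d, h1, h2, h3, h4, h5⟩ := Pool.Agent.H723R2.Mean.count_level hc (fun x => x = c a)
  have hd : 0 < d := by
    refine lt_of_le_of_ne h2 fun h => ?_
    exact h4.1 h.symm a ha rfl
  set b : ℕ → ℝ := fun k => if c (k + 1) = c a then 1 else 0 with hb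
  have hb01 : ∀ k, 0 ≤ b k ∧ b k ≤ 1 := by
    intro k
    simp only [hb]
    split_ifs <;> norm_num
  have hbd : ∀ k, |b k| ≤ 1 := fun k => by
    rw [abs_of_nonneg (hb01 k).1]; exact (hb01 k).2
  have hbm : Tendsto (fun N : ℕ => (∑ k ∈ Finset.range N, b k) / N) atTop (𝓝 d) := by
    refine h1.congr fun N => ?_
    congr 1
    rw [Finset.card_filter]
    push_cast
    rfl
  have hA := Pool.Agent.H723R2.Abel.abelian hbd hbm
  set e : ℝ := ‖c a - m‖ ^ 2 with he
  have hepos : 0 < e := by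
    have : 0 < ‖c a - m‖ := norm_pos_iff.2 (sub_ne_zero.2 ham)
    positivity
  -- pass to r^2
  have hsq : Tendsto (fun r : ℝ => r ^ 2) (𝓝[<] (1 : ℝ)) (𝓝[<] (1 : ℝ)) := by
    refine tendsto_nhdsWithin_iff.2 ⟨?_, ?_⟩
    · have : Tendsto (fun r : ℝ => r ^ 2) (𝓝 (1 : ℝ)) (𝓝 (1 ^ 2)) :=
        (continuous_pow 2).tendsto 1
      rw [one_pow] at this
      exact this.mono_left nhdsWithin_le_nhds
    · filter_upwards [ev_near] with r hr
      have : r ^ 2 < 1 := by nlinarith [hr.1, hr.2]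
      exact this
  have hA2 := hA.comp hsq
  have hev : ∀ᶠ r : ℝ in 𝓝[<] (1 : ℝ), d / 2 < (1 - r ^ 2) * ∑' n, b n * (r ^ 2) ^ n :=
    (hA2.eventually (lt_mem_nhds (by linarith : d / 2 < d)))
  refine ⟨2 * Real.pi * (e * (d / 16)), by positivity, ?_⟩
  filter_upwards [hev, ev_near] with r hr1 hr2
  obtain ⟨hr0, hr1'⟩ := hr2
  have hr0' : 0 ≤ r := by linarith
  have hr2' : r ^ 2 < 1 := by nlinarith
  have hsb : Summable (fun n => b n * (r ^ 2) ^ n) :=
    (Pool.Agent.H723R2.Abel.summable_of_bdd hbd (sq_nonneg r) hr2').of_norm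
  set I := ∫ θ in (0 : ℝ)..(2 * Real.pi), ‖ser f r θ‖ ^ 2 with hI
  have hpart : ∀ N : ℕ, ∑ n ∈ Finset.range N, e * r ^ 2 * (b n * (r ^ 2) ^ n) ≤
      (2 * Real.pi)⁻¹ * I := by
    intro N
    refine le_trans ?_ (bessel hr0' (hsum r hr0' hr1') (N + 1))
    rw [Finset.sum_range_succ']
    have : 0 ≤ ‖f 0‖ ^ 2 * r ^ (2 * 0) := by positivity
    refine le_trans (Finset.sum_le_sum fun n _ => ?_) (le_add_of_nonneg_right this)
    simp only [hb]
    split_ifs with h
    · rw [hf (n + 1) (by omega), h, he]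
      apply le_of_eq
      ring
    · rw [zero_mul, mul_zero]
      positivity
  have htot : e * r ^ 2 * ∑' n, b n * (r ^ 2) ^ n ≤ (2 * Real.pi)⁻¹ * I := by
    rw [← tsum_mul_left]
    exact (hsb.mul_left _).tsum_le_of_sum_range_le hpart
  have hpos : 0 < 2 * Real.pi := Real.two_pi_pos
  rw [inv_mul_eq_div, le_div_iff₀ hpos] at htot
  set S := ∑' n, b n * (r ^ 2) ^ n with hS
  have hS0 : 0 ≤ S := tsum_nonneg fun n => mul_nonneg (hb01 n).1 (by positivity)
  have h6 : (1 - r ^ 2) * S ≤ 2 * ((1 - r) * S) := by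
    have : (1 - r ^ 2) ≤ 2 * (1 - r) := by nlinarith
    nlinarith
  have h7 : d / 4 < (1 - r) * S := by linarith
  have h8 : (1 : ℝ) / 4 ≤ r ^ 2 := by nlinarith
  have h1r : 0 < 1 - r := by linarith
  calc 2 * Real.pi * (e * (d / 16)) = e * (1 / 4) * (d / 4) * (2 * Real.pi) := by ring
    _ ≤ e * r ^ 2 * ((1 - r) * S) * (2 * Real.pi) := by
        apply mul_le_mul_of_nonneg_right _ hpos.le
        apply mul_le_mul _ h7.le (by positivity) (by positivity)
        exact mul_le_mul_of_nonneg_left h8 hepos.le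
    _ = (1 - r) * (e * r ^ 2 * S * (2 * Real.pi)) := by ring
    _ ≤ (1 - r) * I := mul_le_mul_of_nonneg_left htot h1r.le

theorem part1 {h : ℂ → ℂ} (hd : DifferentiableOn ℂ h (Metric.ball 0 1)) (hc : CInv (tc h))
    (m : ℂ) : (∃ c₀ : ℂ, ∀ z : ℂ, ‖z‖ < 1 → h z = c₀ + m * (z / (1 - z))) ∨
      ∃ κ : ℝ, 0 < κ ∧ ∀ᶠ r : ℝ in 𝓝[<] (1 : ℝ),
        κ ≤ (1 - r) * ∫ θ in (0 : ℝ)..(2 * Real.pi),
          ‖h (cp r θ) - m * (cp r θ / (1 - cp r θ))‖ ^ 2 := by
  by_cases hall : ∀ n, 1 ≤ n → tc h n = m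
  · exact Or.inl (triv hd hall)
  · push Not at hall
    obtain ⟨a, ha, ham⟩ := hall
    right
    set f : ℕ → ℂ := fun n => if n = 0 then tc h 0 else tc h n - m with hf
    have hsumz : ∀ z : ℂ, ‖z‖ < 1 → HasSum (fun n => f n * z ^ n) (h z - m * (z / (1 - z))) := by
      intro z hz
      have s1 := hasSum_tc hd hz
      have s2 : HasSum (fun n : ℕ => m * z * z ^ n) (m * z * (1 - z)⁻¹) :=
        (hasSum_geometric_of_norm_lt_one hz).mul_left _
      have s3 : HasSum (fun n : ℕ => (fun n : ℕ => if n = 0 then (0 : ℂ) else m * z ^ n) (n + 1))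
          (m * z * (1 - z)⁻¹) := by
        refine hs_congr s2 (fun n => ?_)
        simp only [Nat.add_eq_zero_iff, one_ne_zero, and_false, if_false]
        ring
      have s4 := (hasSum_nat_add_iff (f := fun n : ℕ => if n = 0 then (0 : ℂ) else m * z ^ n)
        1).mp s3
      simp only [Finset.range_one, Finset.sum_singleton, if_true, add_zero] at s4
      have s5 := s1.sub s4
      rw [show h z - m * z * (1 - z)⁻¹ = h z - m * (z / (1 - z)) by
        rw [div_eq_mul_inv]; ring] at s5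
      refine hs_congr s5 (fun n => ?_)
      simp only [hf]
      split_ifs with h0
      · rw [sub_zero, h0]
      · ring
    have hsum : ∀ r : ℝ, 0 ≤ r → r < 1 → Summable fun n => ‖f n‖ * r ^ n := by
      intro r hr0 hr1
      have h1 := (hsumz (cp r 0) (by rw [norm_cp hr0]; exact hr1)).summable.norm
      simpa only [norm_term hr0] using h1
    obtain ⟨κ, hκ, hev⟩ := quad hc ha ham (f := f) (fun n hn => by
      simp only [hf]; rw [if_neg (by omega)]) hsum
    refine ⟨κ, hκ, ?_⟩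
    filter_upwards [hev, ev_near] with r h1 h2
    have hr0 : 0 ≤ r := by linarith [h2.1]
    have e : ∀ θ, ser f r θ = h (cp r θ) - m * (cp r θ / (1 - cp r θ)) := fun θ =>
      (hasSum_ser hr0 (hsum r hr0 h2.2) θ).unique (hsumz _ (by rw [norm_cp hr0]; exact h2.2))
    simp_rw [e] at h1
    exact h1

theorem part2 {h : ℂ → ℂ} (hd : DifferentiableOn ℂ h (Metric.ball 0 1)) (hc : CInv (tc h))
    {M : ℝ} (hM : ∀ n, 1 ≤ n → ‖tc h n‖ ≤ M) :
    ∃ m : ℂ, Tendsto (fun r : ℝ => (1 - (r : ℂ)) * h r) (𝓝[<] (1 : ℝ)) (𝓝 m) ∧ ‖m‖ ≤ M ∧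
      (‖m‖ = M → ∃ c₀ : ℂ, ∀ z : ℂ, ‖z‖ < 1 → h z = c₀ + m * (z / (1 - z))) ∧
      ∀ w : ℂ, ‖w‖ = 1 → w ≠ 1 →
        Tendsto (fun r : ℝ => (1 - (r : ℂ)) * h ((r : ℂ) * w)) (𝓝[<] (1 : ℝ)) (𝓝 0) := by
  classical
  obtain ⟨m, hm⟩ := Pool.Agent.H723R2.Mean.mean_bdd hc hM
  have hA := Pool.Agent.H723R2.Abel.abelianC (b := fun k => tc h (k + 1)) (C := M)
    (fun k => hM _ (by omega)) hm
  have hone : Tendsto (fun r : ℝ => (1 - (r : ℂ))) (𝓝[<] (1 : ℝ)) (𝓝 0) := by
    have := (tendsto_const_nhds (x := (1 : ℂ))).sub tendsto_cast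
    rwa [sub_self] at this
  have hMnn : 0 ≤ M := (norm_nonneg _).trans (hM 1 le_rfl)
  refine ⟨m, ?_, ?_, ?_, ?_⟩
  · have h1 : Tendsto (fun r : ℝ => (1 - (r : ℂ)) * tc h 0 +
        (r : ℂ) * ((1 - (r : ℂ)) * ∑' n, tc h (n + 1) * (r : ℂ) ^ n)) (𝓝[<] (1 : ℝ))
        (𝓝 (0 * tc h 0 + 1 * m)) := (hone.mul_const _).add (tendsto_cast.mul hA)
    rw [zero_mul, zero_add, one_mul] at h1
    refine h1.congr' ?_
    filter_upwards [ev_near] with r hr
    have hz : ‖(r : ℂ)‖ < 1 := by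
      rw [Complex.norm_real, Real.norm_eq_abs, abs_of_pos (by linarith [hr.1])]
      exact hr.2
    have s1 := hasSum_tc hd hz
    have s2 := (hasSum_nat_add_iff' 1).mpr s1
    simp only [Finset.range_one, Finset.sum_singleton, pow_zero, mul_one] at s2
    have s3 : (r : ℂ) * ∑' n, tc h (n + 1) * (r : ℂ) ^ n = h r - tc h 0 := by
      rw [← s2.tsum_eq, ← tsum_mul_left]
      exact tsum_congr fun n => by ring
    linear_combination (1 - (r : ℂ)) * s3
  · refine le_of_tendsto hm.norm ?_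
    filter_upwards [eventually_gt_atTop 0] with N hN
    have hN' : (0 : ℝ) < N := by exact_mod_cast hN
    rw [norm_div, Complex.norm_natCast, div_le_iff₀ hN']
    refine (norm_sum_le _ _).trans ((Finset.sum_le_sum fun k _ => hM (k + 1) (by omega)).trans ?_)
    rw [Finset.sum_const, Finset.card_range, nsmul_eq_mul, mul_comm]
  · intro hmM
    apply triv hd
    intro a ha
    by_contra ham
    -- M > 0
    have hMpos : 0 < M := by
      refine lt_of_le_of_ne hMnn fun h0 => ham ?_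
      have h1 := hM a ha
      rw [← h0] at h1 hmM
      rw [norm_eq_zero.1 hmM]
      exact norm_le_zero_iff.1 h1
    obtain ⟨d, h1, h2, h3, h4, h5⟩ :=
      Pool.Agent.H723R2.Mean.count_level hc (fun x => x = tc h a)
    have hdpos : 0 < d := by
      refine lt_of_le_of_ne h2 fun h => ?_
      exact h4.1 h.symm a ha rfl
    -- the defect
    set g : ℂ → ℝ := fun x => M ^ 2 - ((starRingEnd ℂ) m * x).re with hg
    have hgnn : ∀ x : ℂ, ‖x‖ ≤ M → 0 ≤ g x := by
      intro x hx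
      have h6 := (Complex.re_le_norm ((starRingEnd ℂ) m * x))
      rw [norm_mul, Complex.norm_conj, hmM] at h6
      have h7 : M * ‖x‖ ≤ M * M := mul_le_mul_of_nonneg_left hx hMpos.le
      simp only [hg]
      nlinarith
    have hgpos : 0 < g (tc h a) := by
      refine lt_of_le_of_ne (hgnn _ (hM a ha)) fun h0 => ham ?_
      have h6 : ((starRingEnd ℂ) m * tc h a).re = M ^ 2 := by
        simp only [hg] at h0; linarith
      -- |a - m|^2 = |a|^2 - 2 Re + |m|^2 ≤ 0
      have h7 : ‖tc h a - m‖ ^ 2 ≤ 0 := by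
        have e1 : ‖tc h a - m‖ ^ 2 = ‖tc h a‖ ^ 2 + ‖m‖ ^ 2 -
            2 * ((starRingEnd ℂ) m * tc h a).re := by
          rw [← Complex.normSq_eq_norm_sq, ← Complex.normSq_eq_norm_sq,
            ← Complex.normSq_eq_norm_sq, Complex.normSq_sub, mul_comm ((starRingEnd ℂ) m)]
        rw [e1, h6, hmM]
        have h8 := hM a ha
        have h9 : 0 ≤ ‖tc h a‖ := norm_nonneg _
        nlinarith
      have h8 : ‖tc h a - m‖ = 0 := by
        have := sq_nonneg ‖tc h a - m‖
        have h9 : ‖tc h a - m‖ ^ 2 = 0 := le_antisymm h7 this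
        exact pow_eq_zero_iff (two_ne_zero) |>.1 h9
      exact sub_eq_zero.1 (norm_eq_zero.1 h8)
    -- mean of g along the sequence tends to 0
    have hgm : Tendsto (fun N : ℕ => (∑ k ∈ Finset.range N, g (tc h (k + 1))) / N) atTop
        (𝓝 0) := by
      have h6 : Tendsto (fun N : ℕ => M ^ 2 - ((starRingEnd ℂ) m *
          ((∑ k ∈ Finset.range N, tc h (k + 1)) / N)).re) atTop
          (𝓝 (M ^ 2 - ((starRingEnd ℂ) m * m).re)) :=
        tendsto_const_nhds.sub
          ((Complex.continuous_re.tendsto _).comp (hm.const_mul ((starRingEnd ℂ) m)))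
      have e1 : M ^ 2 - ((starRingEnd ℂ) m * m).re = 0 := by
        rw [← Complex.normSq_eq_conj_mul_self, Complex.ofReal_re, Complex.normSq_eq_norm_sq, hmM,
          sub_self]
      rw [e1] at h6
      refine h6.congr' ?_
      filter_upwards [eventually_gt_atTop 0] with N hN
      have hN' : (N : ℝ) ≠ 0 := by exact_mod_cast hN.ne'
      simp only [hg]
      rw [Finset.sum_sub_distrib, Finset.sum_const, Finset.card_range, nsmul_eq_mul, sub_div,
        mul_div_cancel_left₀ _ hN', ← Complex.re_sum, ← Finset.mul_sum, ← mul_div_assoc,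
        Complex.div_natCast_re]
    have hlow : Tendsto (fun N : ℕ => g (tc h a) * (((((Finset.range N).filter
        (fun k => tc h (k + 1) = tc h a)).card : ℕ) : ℝ) / N)) atTop (𝓝 (g (tc h a) * d)) :=
      h1.const_mul _
    have hle : g (tc h a) * d ≤ 0 := by
      refine le_of_tendsto_of_tendsto hlow hgm (Eventually.of_forall fun N => ?_)
      simp only
      rw [← mul_div_assoc]
      apply div_le_div_of_nonneg_right _ (Nat.cast_nonneg N)
      rw [mul_comm, ← nsmul_eq_mul, ← Finset.sum_const]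
      calc ∑ _k ∈ (Finset.range N).filter (fun k => tc h (k + 1) = tc h a), g (tc h a)
          = ∑ k ∈ (Finset.range N).filter (fun k => tc h (k + 1) = tc h a), g (tc h (k + 1)) :=
            Finset.sum_congr rfl fun k hk => by rw [(Finset.mem_filter.1 hk).2]
        _ ≤ ∑ k ∈ Finset.range N, g (tc h (k + 1)) :=
            Finset.sum_le_sum_of_subset_of_nonneg (Finset.filter_subset _ _)
              fun k _ _ => hgnn _ (hM _ (by omega))
    nlinarith
  · intro w hw hw1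
    set C : ℝ := 2 * M + ‖tc h 1 - tc h 0‖ with hC
    have hCb : ∀ n, ‖tc h (n + 1) - tc h n‖ ≤ C := by
      intro n
      rcases Nat.eq_zero_or_pos n with h0 | h0
      · subst h0
        rw [hC, zero_add]; linarith
      · have h6 := norm_sub_le (tc h (n + 1)) (tc h n)
        have h7 := hM (n + 1) (by omega)
        have h8 := hM n h0
        have h9 : 0 ≤ ‖tc h 1 - tc h 0‖ := norm_nonneg _
        linarith
    have hab := Pool.Agent.H723R2.Abel.abelian (b := fun n => ‖tc h (n + 1) - tc h n‖) (C := C)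
      (fun n => by rw [abs_of_nonneg (norm_nonneg _)]; exact hCb n)
      (Pool.Agent.H723R2.Mean.zero_mean (tc h) hCb hc)
    have hupper : Tendsto (fun r : ℝ => (1 - r) * ‖tc h 0‖ +
        (1 - r) * ∑' n, ‖tc h (n + 1) - tc h n‖ * r ^ n) (𝓝[<] (1 : ℝ)) (𝓝 0) := by
      have h6 : Tendsto (fun r : ℝ => (1 - r)) (𝓝[<] (1 : ℝ)) (𝓝 (1 - 1)) :=
        (tendsto_const_nhds.sub tendsto_id).mono_left nhdsWithin_le_nhds
      rw [sub_self] at h6
      have h7 := (h6.mul_const ‖tc h 0‖).add hab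
      rwa [zero_mul, zero_add] at h7
    have hf : Tendsto (fun r : ℝ => (1 - (r : ℂ)) * ((1 - (r : ℂ) * w) * h ((r : ℂ) * w)))
        (𝓝[<] (1 : ℝ)) (𝓝 0) := by
      refine squeeze_zero_norm' ?_ hupper
      filter_upwards [ev_near] with r hr
      obtain ⟨hr0', hr1⟩ := hr
      have hr0 : 0 < r := by linarith
      have hzn : ‖(r : ℂ) * w‖ = r := by
        rw [norm_mul, hw, mul_one, Complex.norm_real, Real.norm_eq_abs, abs_of_pos hr0]
      have hz : ‖(r : ℂ) * w‖ < 1 := by rw [hzn]; exact hr1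
      set z := (r : ℂ) * w with hzdef
      have s1 := hasSum_tc hd hz
      have s2 := (hasSum_nat_add_iff' 1).mpr s1
      simp only [Finset.range_one, Finset.sum_singleton, pow_zero, mul_one] at s2
      have s3 := s2.sub (s1.mul_left z)
      have e1 : h z - tc h 0 - z * h z = (1 - z) * h z - tc h 0 := by ring
      rw [e1] at s3
      have s4 : HasSum (fun n => z * ((tc h (n + 1) - tc h n) * z ^ n))
          ((1 - z) * h z - tc h 0) := hs_congr s3 (fun n => by ring)
      have hn1 : ‖(1 : ℂ) - (r : ℂ)‖ = 1 - r := by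
        rw [← Complex.ofReal_one, ← Complex.ofReal_sub, Complex.norm_real, Real.norm_eq_abs,
          abs_of_pos (by linarith)]
      rw [norm_mul, hn1, ← mul_add]
      refine mul_le_mul_of_nonneg_left ?_ (by linarith)
      have hsm : Summable (fun n : ℕ => ‖tc h (n + 1) - tc h n‖ * r ^ n) := by
        have h6 := Pool.Agent.H723R2.Abel.summable_of_bdd
          (b := fun n => ‖tc h (n + 1) - tc h n‖) (C := C)
          (fun n => by rw [abs_of_nonneg (norm_nonneg _)]; exact hCb n) hr0.le hr1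
        exact h6.of_norm
      have h7 : ‖(1 - z) * h z - tc h 0‖ ≤ ∑' n, ‖tc h (n + 1) - tc h n‖ * r ^ n := by
        rw [← s4.tsum_eq]
        refine tsum_of_norm_bounded hsm.hasSum fun n => ?_
        rw [norm_mul z ((tc h (n + 1) - tc h n) * z ^ n), norm_mul (tc h (n + 1) - tc h n) (z ^ n),
          norm_pow, hzn]
        have h8 : 0 ≤ ‖tc h (n + 1) - tc h n‖ * r ^ n := by positivity
        nlinarith
      calc ‖(1 - z) * h z‖ = ‖tc h 0 + ((1 - z) * h z - tc h 0)‖ := by congr 1; ring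
        _ ≤ ‖tc h 0‖ + ‖(1 - z) * h z - tc h 0‖ := norm_add_le _ _
        _ ≤ _ := by linarith
    have hg : Tendsto (fun r : ℝ => (1 - (r : ℂ) * w)) (𝓝[<] (1 : ℝ)) (𝓝 (1 - 1 * w)) :=
      tendsto_const_nhds.sub (tendsto_cast.mul_const w)
    have hne : 1 - 1 * w ≠ 0 := by
      rw [one_mul]
      exact sub_ne_zero.2 (Ne.symm hw1)
    have hq := hf.div hg hne
    rw [zero_div] at hq
    refine hq.congr' ?_
    filter_upwards [hg.eventually_ne hne] with r hr
    simp only [Pi.div_apply]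
    rw [div_eq_iff hr]
    ring

end Pool.Agent.H723R2.BMGrow
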