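import Pool.Agent.H499R2.NDBM
import Pool.Agent.H397R2.BM2

set_option autoImplicit false

/-! Means and quadratic means of the solutions of the Berg-Meinardus equation with bounded
coefficients (written by helper499, formerly the hand-in MP_a34bfb_nt.QuadraticMeans). -/

namespace Pool.Agent.H723R2.BMQuad

open Filter Topology Pool.Agent.H397R2

theorem inv_of_cinv {c : ℕ → ℂ} (hc : CInv c) (n : ℕ) : c n = c (Pool.Agent.H499R2.ND.Tn n) := by
  simp only [Pool.Agent.H499R2.ND.Tn]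
  by_cases h : n % 2 = 0
  · rw [if_pos h]
    obtain ⟨m, rfl⟩ : ∃ m, n = 2 * m := ⟨n / 2, by omega⟩
    rw [hc.even]
    congr 1
    omega
  · rw [if_neg h]
    obtain ⟨m, rfl⟩ : ∃ m, n = 2 * m + 1 := ⟨n / 2, by omega⟩
    rw [← hc.odd]
    congr 1
    omega

theorem form_of_const {h : ℂ → ℂ} (hd : DifferentiableOn ℂ h (Metric.ball 0 1)) {L : ℂ}
    (hconst : ∀ n, 1 ≤ n → tc h n = L) {z : ℂ} (hz : ‖z‖ < 1) :
    h z = tc h 0 + L * (z / (1 - z)) := by
  have h1 := hasSum_tc hd hz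
  have h2 : HasSum (fun n : ℕ => tc h (n + 1) * z ^ (n + 1)) (h z - tc h 0) := by
    have := (hasSum_nat_add_iff' 1).mpr h1
    simpa using this
  have h3 : HasSum (fun n : ℕ => L * z * z ^ n) (L * z * (1 - z)⁻¹) :=
    (hasSum_geometric_of_norm_lt_one hz).mul_left (L * z)
  have e : (fun n : ℕ => tc h (n + 1) * z ^ (n + 1)) = fun n : ℕ => L * z * z ^ n := by
    funext n
    rw [hconst (n + 1) (by omega), pow_succ]; ring
  rw [e] at h2
  have h4 := h2.unique h3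
  have h5 : h z = tc h 0 + L * z * (1 - z)⁻¹ := by rw [← h4]; ring
  rw [h5]
  ring

/-- Let `h` be analytic on the open unit disk, satisfy the Berg-Meinardus equation there, and have
bounded Taylor coefficients `c_n = h^(n)(0) / n!`. Then, as `r` tends to `1` from below,
`(1 - r) h(r)` has a limit `L` and `(1 - r) ∑ |c_n|² r^n` has a limit `V`; moreover `|L|² ≤ V`, and
equality holds exactly when `h` has the form `c₀ + c₁ z / (1 - z)`. -/
theorem quadMeans (h : ℂ → ℂ) (hd : AnalyticOnNhd ℂ h (Metric.ball (0 : ℂ) 1))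
    (hfe : ∀ z : ℂ, z ≠ 0 → ‖z‖ < 1 →
      h (z ^ 3) = h (z ^ 6) + (1 / (3 * z)) *
        ∑ j ∈ Finset.range 3,
          (Complex.exp (2 * (Real.pi : ℂ) * Complex.I / 3)) ^ j *
            h ((Complex.exp (2 * (Real.pi : ℂ) * Complex.I / 3)) ^ j * z ^ 2))
    (M : ℝ) (hM : ∀ n : ℕ, ‖(n.factorial : ℂ)⁻¹ * iteratedDeriv n h 0‖ ≤ M) :
    ∃ (L : ℂ) (V : ℝ),
      Tendsto (fun r : ℝ => (1 - (r : ℂ)) * h r) (𝓝[<] 1) (𝓝 L) ∧
      Tendsto (fun r : ℝ => (1 - r) * ∑' n : ℕ, ‖(n.factorial : ℂ)⁻¹ * iteratedDeriv n h 0‖ ^ 2 * r ^ n)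
        (𝓝[<] 1) (𝓝 V) ∧
      ‖L‖ ^ 2 ≤ V ∧
      (V = ‖L‖ ^ 2 ↔ ∃ c₀ c₁ : ℂ, ∀ z : ℂ, ‖z‖ < 1 → h z = c₀ + c₁ * (z / (1 - z))) := by
  have hdiff := hd.differentiableOn
  have hfe' : ∀ z : ℂ, ‖z‖ < 1 → 3 * z * (h (z ^ 3) - h (z ^ 6)) =
      h (z ^ 2) + om * h (om * z ^ 2) + om ^ 2 * h (om ^ 2 * z ^ 2) := by
    intro z hz
    by_cases hz0 : z = 0
    · subst hz0
      have h1 := om_sum
      simp only [mul_zero, ne_eq, OfNat.ofNat_ne_zero, not_false_eq_true, zero_pow, sub_self]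
      linear_combination (-h 0) * h1
    · rw [hfe z hz0 hz]
      simp only [Finset.sum_range_succ, Finset.sum_range_zero, pow_zero, one_mul, zero_add, pow_one]
      show 3 * z * (h (z ^ 6) + 1 / (3 * z) * (h (z ^ 2) + om * h (om * z ^ 2) +
        om ^ 2 * h (om ^ 2 * z ^ 2)) - h (z ^ 6)) = _
      field_simp
      ring
  have hc : CInv (tc h) := cinv_of_bm (fun z hz => hasSum_tc hdiff hz) hfe'
  obtain ⟨L, V, hL, hV, hle, hconst⟩ := Pool.Agent.H499R2.ND.quad_means (c := tc h) (M := M)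
    (fun n => hM n) (fun n _ => inv_of_cinv hc n)
  have hL' : Tendsto (fun r : ℝ => (1 - (r : ℂ)) * h r) (𝓝[<] 1) (𝓝 L) := by
    refine hL.congr' ?_
    have h1 : ∀ᶠ r in 𝓝[<] (1 : ℝ), 0 < r ∧ r < 1 := by
      apply Filter.Eventually.and
      · exact nhdsWithin_le_nhds (lt_mem_nhds (by norm_num))
      · exact self_mem_nhdsWithin
    filter_upwards [h1] with r hr
    have h2 : ‖(r : ℂ)‖ < 1 := by
      rw [Complex.norm_real, Real.norm_of_nonneg hr.1.le]; exact hr.2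
    rw [(hasSum_tc hdiff h2).tsum_eq]
  refine ⟨L, V, hL', hV, hle, ?_, ?_⟩
  · intro h1
    exact ⟨tc h 0, L, fun z hz => form_of_const hdiff (hconst h1) hz⟩
  · rintro ⟨c₀, c₁, hform⟩
    -- all coefficients of index `≥ 1` equal `c₁`
    have hcoef : ∀ n, 1 ≤ n → tc h n = c₁ := by
      have hz : ∀ w : ℂ, w ≠ 0 → ‖w‖ < 1 →
          HasSum (fun n => (tc h n - (if n = 0 then c₀ else c₁)) * w ^ n) 0 := by
        intro w _ hw
        have a1 := hasSum_tc hdiff hw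
        have a2 : HasSum (fun n : ℕ => (if n = 0 then c₀ else c₁) * w ^ n) (c₀ + c₁ * (w / (1 - w))) := by
          have b1 : HasSum (fun n : ℕ => c₁ * w * w ^ n) (c₁ * w * (1 - w)⁻¹) :=
            (hasSum_geometric_of_norm_lt_one hw).mul_left (c₁ * w)
          have b2 : HasSum (fun n : ℕ => (if n + 1 = 0 then c₀ else c₁) * w ^ (n + 1)) (c₁ * w * (1 - w)⁻¹) := by
            refine hs_congr b1 (fun n => ?_)
            rw [if_neg (by omega), pow_succ]; ring
          have b3 := (hasSum_nat_add_iff (f := fun n : ℕ => (if n = 0 then c₀ else c₁) * w ^ n) 1).mp b2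
          have e : c₁ * w * (1 - w)⁻¹ + ∑ i ∈ Finset.range 1, (if i = 0 then c₀ else c₁) * w ^ i
              = c₀ + c₁ * (w / (1 - w)) := by
            simp; ring
          rw [e] at b3
          exact b3
        have a3 := a1.sub a2
        rw [hform w hw, sub_self] at a3
        refine hs_congr a3 (fun n => by ring)
      intro n hn
      have := coeff_zero hz n
      rw [if_neg (by omega)] at this
      exact sub_eq_zero.1 this
    have hI : ∀ᶠ r in 𝓝[<] (1 : ℝ), 0 < r ∧ r < 1 := by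
      apply Filter.Eventually.and
      · exact nhdsWithin_le_nhds (lt_mem_nhds (by norm_num))
      · exact self_mem_nhdsWithin
    have hLc : L = c₁ := by
      have h1 : Tendsto (fun r : ℝ => (1 - (r : ℂ)) * c₀ + c₁ * r) (𝓝[<] 1) (𝓝 ((1 - ((1 : ℝ) : ℂ)) * c₀ + c₁ * ((1 : ℝ) : ℂ))) := by
        apply Tendsto.mono_left _ nhdsWithin_le_nhds
        apply Continuous.tendsto
        fun_prop
      have e : (1 - ((1 : ℝ) : ℂ)) * c₀ + c₁ * ((1 : ℝ) : ℂ) = c₁ := by simp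
      rw [e] at h1
      refine tendsto_nhds_unique hL' (h1.congr' ?_)
      filter_upwards [hI] with r hr
      have h2 : ‖(r : ℂ)‖ < 1 := by
        rw [Complex.norm_real, Real.norm_of_nonneg hr.1.le]; exact hr.2
      rw [hform r h2]
      have hne : (1 : ℂ) - r ≠ 0 := by
        intro h0
        have : (r : ℂ) = 1 := by linear_combination -h0
        rw [this, norm_one] at h2
        exact lt_irrefl _ h2
      field_simp
    have hVc : V = ‖c₁‖ ^ 2 := by
      have h1 : Tendsto (fun r : ℝ => (1 - r) * ‖tc h 0‖ ^ 2 + ‖c₁‖ ^ 2 * r) (𝓝[<] 1)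
          (𝓝 ((1 - 1) * ‖tc h 0‖ ^ 2 + ‖c₁‖ ^ 2 * 1)) := by
        apply Tendsto.mono_left _ nhdsWithin_le_nhds
        apply Continuous.tendsto
        fun_prop
      have e : (1 - 1 : ℝ) * ‖tc h 0‖ ^ 2 + ‖c₁‖ ^ 2 * 1 = ‖c₁‖ ^ 2 := by ring
      rw [e] at h1
      refine tendsto_nhds_unique hV (h1.congr' ?_)
      filter_upwards [hI] with r hr
      have b1 : HasSum (fun n : ℕ => ‖c₁‖ ^ 2 * r * r ^ n) (‖c₁‖ ^ 2 * r * (1 - r)⁻¹) :=
        (hasSum_geometric_of_lt_one hr.1.le hr.2).mul_left (‖c₁‖ ^ 2 * r)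
      have b2 : HasSum (fun n : ℕ => ‖tc h (n + 1)‖ ^ 2 * r ^ (n + 1)) (‖c₁‖ ^ 2 * r * (1 - r)⁻¹) := by
        have e : (fun n : ℕ => ‖tc h (n + 1)‖ ^ 2 * r ^ (n + 1)) = fun n : ℕ => ‖c₁‖ ^ 2 * r * r ^ n := by
          funext n
          rw [hcoef (n + 1) (by omega), pow_succ]; ring
        rw [e]; exact b1
      have b3 := (hasSum_nat_add_iff (f := fun n : ℕ => ‖tc h n‖ ^ 2 * r ^ n) 1).mp b2
      rw [b3.tsum_eq]
      have hne : 1 - r ≠ 0 := by linarith [hr.2]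
      simp only [Finset.sum_range_one, pow_zero, mul_one]
      field_simp
      ring
    rw [hVc, hLc]

end Pool.Agent.H723R2.BMQuad
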