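import Pool.Agent.H723R2.Cyc

/-! The base: the constant function, the space `K0`, cyclicity of `US` on `K0`. -/

set_option autoImplicit false
set_option linter.unusedVariables false

open MeasureTheory Filter Topology
open scoped ENNReal NNReal

noncomputable section

namespace MS723

open SM345 (XX UnifMeas errs J IsLim Koop opP cyc)

variable {P : Par} (c : Ctx P)

/-- the function with constant value 1 -/
def one : Lp ℂ 2 c.μ := Jd c 0 0 (fun _ => 1)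

theorem supp_zero (n : ℕ) : supp n (0 : Dd P) := fun _ _ => rfl

theorem one_eq (n : ℕ) : one c = Jd c 0 n (fun _ => 1) := by
  unfold one
  induction n with
  | zero => rfl
  | succ n ih =>
    rw [ih, ← Jd_lf c 0 n rfl]
    rfl

theorem bf_one (n : ℕ) : bf n (0 : Dd P) (fun _ => 1) = fun _ => 1 := by
  funext z
  unfold bf
  rw [ch_zero, mul_one]

theorem fix_one (U : Lp ℂ 2 c.μ ≃ₗᵢ[ℂ] Lp ℂ 2 c.μ) (g : ∀ n, Equiv.Perm (Om P n)) (δ : ℕ → ℝ)
    (hδ : Tendsto δ atTop (𝓝 0)) (h : IsLim c.hμ g δ U) : U (one c) = one c := by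
  rw [← sub_eq_zero, ← norm_le_zero_iff]
  refine ge_of_tendsto hδ (Eventually.of_forall fun n => ?_)
  have h1 := h n (fun _ => 1) 1 (fun _ => by simp)
  rw [one_mul] at h1
  have e : one c = J c.hμ n (fun _ => 1) := by
    rw [one_eq c n]
    unfold Jd
    rw [bf_one]
  rw [e]
  exact h1

theorem one_Kd : one c ∈ Kd c 0 := Jd_mem c 0 0 (supp_zero 0) _

theorem norm_one' : ‖one c‖ = 1 := by
  have h := Jd_norm c 0 0 (fun _ => 1)
  simp only [norm_one, one_pow, Finset.sum_const, Finset.card_univ, ZMod.card, nsmul_eq_mul,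
    mul_one] at h
  have hN : (Nn P 0 : ℝ) ≠ 0 := by exact_mod_cast (Nn_pos P 0).ne'
  rw [div_self hN] at h
  have h0 := norm_nonneg (Jd c 0 0 (fun _ => 1))
  show ‖Jd c 0 0 (fun _ => 1)‖ = 1
  nlinarith

theorem inner_one_one : inner ℂ (one c) (one c) = (1 : ℂ) := by
  rw [inner_self_eq_norm_sq_to_K, norm_one']
  simp

theorem inner_one_Jd (n : ℕ) (f : ZMod (Nn P n) → ℂ) :
    inner ℂ (one c) (Jd c 0 n f) = (∑ u, f u) / (Nn P n : ℂ) := by
  rw [one_eq c n, Jd_inner]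
  simp

/-- base functions with integral zero -/
def K0 : Submodule ℂ (Lp ℂ 2 c.μ) := Kd c 0 ⊓ (Submodule.span ℂ {one c})ᗮ

theorem K0_mem (f : Lp ℂ 2 c.μ) : f ∈ K0 c ↔ f ∈ Kd c 0 ∧ inner ℂ (one c) f = 0 := by
  unfold K0
  rw [Submodule.mem_inf, Submodule.mem_orthogonal_singleton_iff_inner_right]

theorem K0_closed : IsClosed (K0 c : Set (Lp ℂ 2 c.μ)) := by
  have e : (K0 c : Set (Lp ℂ 2 c.μ)) = (Kd c 0 : Set (Lp ℂ 2 c.μ)) ∩ {f | inner ℂ (one c) f = 0} := by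
    ext f
    exact K0_mem c f
  rw [e]
  exact (Kd_closed c 0).inter (isClosed_eq (continuous_const.inner continuous_id) continuous_const)

/-- invariance of `K0` under limit operators -/
theorem K0_map (U : Lp ℂ 2 c.μ ≃ₗᵢ[ℂ] Lp ℂ 2 c.μ) (g : ∀ n, Equiv.Perm (Om P n)) (δ : ℕ → ℝ)
    (hδ : Tendsto δ atTop (𝓝 0)) (h : IsLim c.hμ g δ U) (hK : ∀ F ∈ Kd c 0, U F ∈ Kd c 0)
    (F : Lp ℂ 2 c.μ) (hF : F ∈ K0 c) : U F ∈ K0 c := by
  rw [K0_mem] at hF ⊢
  refine ⟨hK F hF.1, ?_⟩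
  have h1 := U.inner_map_map (one c) F
  rw [fix_one c U g δ hδ h, hF.2] at h1
  exact h1

theorem US_K0 (F : Lp ℂ 2 c.μ) (hF : F ∈ K0 c) : c.US F ∈ K0 c :=
  K0_map c c.US (sP P) (dd P) (lim_dd0 P) c.lS (US_Kd c 0 0 (supp_zero 0)) F hF

theorem US_K0' (F : Lp ℂ 2 c.μ) (hF : F ∈ K0 c) : c.US⁻¹ F ∈ K0 c :=
  K0_map c c.US⁻¹ (fun n => (sP P n)⁻¹) (dd P) (lim_dd0 P)
    (SM345.isLim_symm c.hμ (sP P) (dd P) c.US c.lS) (US_Kd' c 0 0 (supp_zero 0)) F hF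

theorem UT_K0 (F : Lp ℂ 2 c.μ) (hF : F ∈ K0 c) : c.UT F ∈ K0 c :=
  K0_map c c.UT (TP P) (dd P) (lim_dd0 P) c.lT (UT_Kd c 0 0 (supp_zero 0)) F hF

theorem Ut_K0 (j : ℕ) (F : Lp ℂ 2 c.μ) (hF : F ∈ K0 c) : c.Ut j F ∈ K0 c :=
  K0_map c (c.Ut j) (tP P j) (dd P) (lim_dd0 P) (c.lt j) (Ut_Kd c j 0 0 (supp_zero 0)) F hF

/-- approximation by functions with mean zero -/
theorem K0_approx (F : Lp ℂ 2 c.μ) (hF : F ∈ K0 c) (ε : ℝ) (hε : 0 < ε) :
    ∃ n, ∃ f : ZMod (Nn P n) → ℂ, ∑ u, f u = 0 ∧ ‖F - Jd c 0 n f‖ < ε := by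
  rw [K0_mem] at hF
  obtain ⟨n, -, f, hf⟩ := Kd_approx c 0 0 (supp_zero 0) F hF.1 (ε / 2) (by linarith)
  have hN : (Nn P n : ℂ) ≠ 0 := by exact_mod_cast (Nn_pos P n).ne'
  set α : ℂ := (∑ u, f u) / (Nn P n : ℂ) with hα
  refine ⟨n, fun u => f u - α, ?_, ?_⟩
  · rw [Finset.sum_sub_distrib, Finset.sum_const, Finset.card_univ, ZMod.card, nsmul_eq_mul, hα,
      mul_div_cancel₀ _ hN, sub_self]
  · have e1 : Jd c 0 n (fun u => f u - α) = Jd c 0 n f - α • one c := by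
      rw [one_eq c n, ← Jd_smul, Jd_sub]
      simp
    have e2 : α = inner ℂ (one c) (Jd c 0 n f - F) := by
      rw [inner_sub_right, hF.2, sub_zero, inner_one_Jd]
    have e3 : ‖α‖ ≤ ‖F - Jd c 0 n f‖ := by
      rw [e2]
      calc ‖inner ℂ (one c) (Jd c 0 n f - F)‖ ≤ ‖one c‖ * ‖Jd c 0 n f - F‖ := norm_inner_le_norm _ _
        _ = _ := by rw [norm_one', one_mul, norm_sub_rev]
    rw [e1]
    calc ‖F - (Jd c 0 n f - α • one c)‖ = ‖(F - Jd c 0 n f) + α • one c‖ := by congr 1; abel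
      _ ≤ ‖F - Jd c 0 n f‖ + ‖α • one c‖ := norm_add_le _ _
      _ ≤ ‖F - Jd c 0 n f‖ + ‖F - Jd c 0 n f‖ := by
          rw [norm_smul, norm_one', mul_one]; linarith
      _ < ε := by linarith

/-! ### cyclicity of `US` -/

theorem sP_pow (n k : ℕ) (z : Om P n) : ((sP P n) ^ k) z = (z.1 + (k : ZMod (Nn P n)), z.2) := by
  induction k with
  | zero => simp
  | succ k ih =>
    rw [pow_succ', Equiv.Perm.mul_apply, ih, sP_apply]
    refine Prod.ext ?_ rfl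
    simp only
    push_cast
    ring

theorem base_cyc_err (n : ℕ) (f : ZMod (Nn P n) → ℂ) (C : ℝ) (hC0 : 0 ≤ C)
    (hC : ∀ u, ‖f u‖ ≤ C) : ∃ R : Polynomial ℂ,
    ‖Jd c 0 n f - opP c.US R (Jd c 0 n (fun u => if u = 0 then 1 else 0))‖ ≤
      C * ((Nn P n : ℝ) ^ 2 * dd P n) := by
  obtain ⟨o1, o2, o3, o4, -⟩ := SM345.opP_basic c.US
  have hopsum : ∀ (s : Finset (ZMod (Nn P n))) (R : ZMod (Nn P n) → Polynomial ℂ) (f : Lp ℂ 2 c.μ),
      opP c.US (∑ i ∈ s, R i) f = ∑ i ∈ s, opP c.US (R i) f := by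
    intro s R f
    refine Finset.induction_on s (by simp [opP]) fun a s ha ih => ?_
    rw [Finset.sum_insert ha, Finset.sum_insert ha, o2, ih]
  refine ⟨∑ y : ZMod (Nn P n), Polynomial.C (f y) * Polynomial.X ^ ((-y).val), ?_⟩
  rw [hopsum, Jd_delta c n 0 f, ← Finset.sum_sub_distrib]
  have hterm : ∀ y : ZMod (Nn P n), ‖f y • Jd c 0 n (fun u => if u = y then (1:ℂ) else 0) -
      opP c.US (Polynomial.C (f y) * Polynomial.X ^ ((-y).val))
        (Jd c 0 n (fun u => if u = 0 then 1 else 0))‖ ≤ C * ((Nn P n : ℝ) * dd P n) := by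
    intro y
    rw [o1, o3, o4, ← smul_sub, norm_smul, norm_sub_rev]
    have h1 := SM345.isLim_pow c.hμ (sP P) (dd P) c.US c.lS n ((-y).val)
      (bf n 0 (fun u => if u = 0 then 1 else 0)) 1
      (bf_bound n 0 _ 1 (fun u => by split_ifs <;> simp))
    have e1 : (fun z : Om P n => bf n 0 (fun u => if u = 0 then 1 else 0)
        (((sP P n) ^ ((-y).val)) z)) = bf n 0 (fun u => if u = y then 1 else 0) := by
      funext z
      rw [sP_pow]
      unfold bf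
      rw [ZMod.natCast_zmod_val]
      have h : (z.1 + -y = 0) ↔ (z.1 = y) := by
        rw [← sub_eq_add_neg, sub_eq_zero]
      simp only [h]
    rw [e1, one_mul] at h1
    have h2 : (((-y).val : ℕ) : ℝ) ≤ (Nn P n : ℝ) := by
      exact_mod_cast (ZMod.val_lt (-y)).le
    have h3 := dd_nonneg P n
    calc _ ≤ C * ((((-y).val : ℕ) : ℝ) * dd P n) := by
          exact mul_le_mul (hC y) h1 (norm_nonneg _) hC0
      _ ≤ _ := by gcongr
  refine (norm_sum_le _ _).trans ((Finset.sum_le_sum fun y _ => hterm y).trans ?_)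
  rw [Finset.sum_const, Finset.card_univ, ZMod.card, nsmul_eq_mul]
  apply le_of_eq
  ring

theorem lim_N2 : Tendsto (fun n => (Nn P n : ℝ) ^ 2 * dd P n) atTop (𝓝 0) := by
  have hN1 : ∀ n, (1:ℝ) ≤ (Nn P n : ℝ) := fun n => by exact_mod_cast (Nn_pos P n)
  refine squeeze_zero (fun n => mul_nonneg (by positivity) (dd_nonneg P n)) (fun n => ?_)
    (lim_dd P)
  exact mul_le_mul_of_nonneg_right (pow_le_pow_right₀ (hN1 n) (by norm_num)) (dd_nonneg P n)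

theorem base_cyc (m : ℕ) (f : ZMod (Nn P m) → ℂ) (ε : ℝ) (hε : 0 < ε) :
    ∀ᶠ n in atTop, ∃ R : Polynomial ℂ,
      ‖Jd c 0 m f - opP c.US R (Jd c 0 n (fun u => if u = 0 then 1 else 0))‖ < ε := by
  obtain ⟨C, hC0, hC⟩ := exists_bound f
  have hlim : Tendsto (fun n => C * ((Nn P n : ℝ) ^ 2 * dd P n)) atTop (𝓝 0) := by
    have h := (lim_N2 (P := P)).const_mul C
    rwa [mul_zero] at h
  filter_upwards [hlim.eventually (gt_mem_nhds hε), eventually_ge_atTop m] with n hn hmn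
  obtain ⟨g, hg1, -, hg2⟩ := Jd_lift' c 0 m n hmn (supp_zero m) f C hC
  obtain ⟨R, hR⟩ := base_cyc_err c n g C hC0 hg1
  refine ⟨R, lt_of_le_of_lt ?_ hn⟩
  rw [← hg2]
  exact hR

theorem US_pow_K0 (f : Lp ℂ 2 c.μ) (hf : f ∈ K0 c) (k : ℕ) : (c.US ^ k) f ∈ K0 c := by
  induction k with
  | zero => exact hf
  | succ k ih =>
    rw [pow_succ']
    exact US_K0 c _ ih

theorem US_pow_one (k : ℕ) : (c.US ^ k) (one c) = one c := by
  induction k with
  | zero => rfl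
  | succ k ih =>
    rw [pow_succ']
    show c.US ((c.US ^ k) (one c)) = _
    rw [ih, fix_one c c.US (sP P) (dd P) (lim_dd0 P) c.lS]

theorem K0_opP (f : Lp ℂ 2 c.μ) (hf : f ∈ K0 c) (R : Polynomial ℂ) : opP c.US R f ∈ K0 c := by
  unfold opP
  exact Submodule.sum_mem _ (fun k _ => Submodule.smul_mem _ _ (US_pow_K0 c f hf k))

theorem opP_one (R : Polynomial ℂ) : ∃ β : ℂ, opP c.US R (one c) = β • one c := by
  refine ⟨∑ k ∈ R.support, R.coeff k, ?_⟩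
  unfold opP
  rw [Finset.sum_smul]
  apply Finset.sum_congr rfl
  intro k _
  rw [US_pow_one]

theorem K0_cyc : ∃ g ∈ K0 c, cyc c.US g = K0 c := by
  have := sep_Lp c
  apply SM345.cyc_exists c.US (K0 c) (K0_closed c) (US_K0 c) (US_K0' c)
  intro f₁ hf₁ f₂ hf₂ ε hε
  obtain ⟨n₁, F₁, -, hF₁⟩ := K0_approx c f₁ hf₁ (ε / 2) (by linarith)
  obtain ⟨n₂, F₂, -, hF₂⟩ := K0_approx c f₂ hf₂ (ε / 2) (by linarith)
  obtain ⟨n, ⟨P₁, hP₁⟩, ⟨P₂, hP₂⟩⟩ := ((base_cyc c n₁ F₁ (ε / 2) (by linarith)).and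
    (base_cyc c n₂ F₂ (ε / 2) (by linarith))).exists
  set g' := Jd c 0 n (fun u => if u = 0 then 1 else 0) with hg'
  have hg'K : g' ∈ Kd c 0 := Jd_mem c 0 n (supp_zero n) _
  set α : ℂ := inner ℂ (one c) g' with hα
  have hg : g' - α • one c ∈ K0 c := by
    rw [K0_mem]
    constructor
    · exact Submodule.sub_mem _ hg'K (Submodule.smul_mem _ _ (one_Kd c))
    · rw [inner_sub_right, inner_smul_right, inner_one_one, ← hα]
      ring
  have key : ∀ (f : Lp ℂ 2 c.μ) (_ : f ∈ K0 c) (P : Polynomial ℂ),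
      ‖f - opP c.US P (g' - α • one c)‖ ≤ ‖f - opP c.US P g'‖ := by
    intro f hf P
    obtain ⟨β, hβ⟩ := opP_one c P
    obtain ⟨-, -, -, -, hadd, hsm, -, -⟩ := SM345.opP_basic c.US
    have e1 : opP c.US P g' = opP c.US P (g' - α • one c) + (α * β) • one c := by
      have e0 : g' = (g' - α • one c) + α • one c := by abel
      conv_lhs => rw [e0]
      rw [hadd, hsm, hβ, smul_smul]
    have e2 : f - opP c.US P g' = (f - opP c.US P (g' - α • one c)) + (-(α * β)) • one c := by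
      rw [e1, neg_smul]
      abel
    have hx : f - opP c.US P (g' - α • one c) ∈ K0 c :=
      Submodule.sub_mem _ hf (K0_opP c _ hg P)
    rw [K0_mem] at hx
    have h0 : inner ℂ (f - opP c.US P (g' - α • one c)) ((-(α * β)) • one c) = (0 : ℂ) := by
      rw [inner_smul_right, inner_eq_zero_symm.1 hx.2, mul_zero]
    have h3 := norm_add_sq_eq_norm_sq_add_norm_sq_of_inner_eq_zero _ _ h0
    rw [← e2] at h3
    have h4 := mul_self_nonneg ‖(-(α * β)) • one c‖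
    by_contra hcon
    push Not at hcon
    have h5 := mul_self_lt_mul_self (norm_nonneg _) hcon
    linarith
  refine ⟨g' - α • one c, hg, P₁, P₂, ?_, ?_⟩
  · calc ‖f₁ - opP c.US P₁ (g' - α • one c)‖ ≤ ‖f₁ - opP c.US P₁ g'‖ := key f₁ hf₁ P₁
      _ = ‖(f₁ - Jd c 0 n₁ F₁) + (Jd c 0 n₁ F₁ - opP c.US P₁ g')‖ := by
        congr 1; abel
      _ ≤ ‖f₁ - Jd c 0 n₁ F₁‖ + ‖Jd c 0 n₁ F₁ - opP c.US P₁ g'‖ :=
        norm_add_le _ _
      _ < ε := by linarith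
  · calc ‖f₂ - opP c.US P₂ (g' - α • one c)‖ ≤ ‖f₂ - opP c.US P₂ g'‖ := key f₂ hf₂ P₂
      _ = ‖(f₂ - Jd c 0 n₂ F₂) + (Jd c 0 n₂ F₂ - opP c.US P₂ g')‖ := by
        congr 1; abel
      _ ≤ ‖f₂ - Jd c 0 n₂ F₂‖ + ‖Jd c 0 n₂ F₂ - opP c.US P₂ g'‖ :=
        norm_add_le _ _
      _ < ε := by linarith

end MS723
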