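import Pool.Agent.Helper345.SM.Defs
import Pool.Agent.Helper345.SM.opP_basic

/-! Isometries from `L²(σ)` intertwining multiplication by `z` with a unitary operator. -/

set_option autoImplicit false
set_option linter.unusedVariables false

open MeasureTheory Filter Topology
open scoped ENNReal NNReal

noncomputable section

namespace MS723

open SM345 (opP)

section

variable {H : Type} [NormedAddCommGroup H] [InnerProductSpace ℂ H]

/-- `V` intertwines multiplication by `z` with `U` -/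
def Intw (U : H ≃ₗᵢ[ℂ] H) (σ : Measure Circle) (V : Lp ℂ 2 σ →ₗᵢ[ℂ] H) : Prop :=
  ∀ f g : Lp ℂ 2 σ, (g : Circle → ℂ) =ᵐ[σ] (fun z => (z : ℂ) * (f : Circle → ℂ) z) → V g = U (V f)

theorem mul_exists (σ : Measure Circle) (φ : Circle → ℂ) (hφ : Continuous φ) (f : Lp ℂ 2 σ) :
    ∃ g : Lp ℂ 2 σ, (g : Circle → ℂ) =ᵐ[σ] fun z => φ z * (f : Circle → ℂ) z := by
  obtain ⟨C, hC⟩ := (isCompact_range hφ).isBounded.exists_norm_le
  have h : MemLp (fun z => φ z * (f : Circle → ℂ) z) 2 σ := by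
    refine MemLp.of_le_mul (c := C) (Lp.memLp f) ?_ (Eventually.of_forall fun z => ?_)
    · exact hφ.aestronglyMeasurable.mul (Lp.aestronglyMeasurable f)
    · rw [norm_mul]
      exact mul_le_mul_of_nonneg_right (hC _ ⟨z, rfl⟩) (norm_nonneg _)
  exact ⟨h.toLp _, h.coeFn_toLp⟩

theorem poly_cont (R : Polynomial ℂ) : Continuous fun z : Circle => R.eval (z : ℂ) :=
  R.continuous.comp continuous_subtype_val

theorem intw_poly (U : H ≃ₗᵢ[ℂ] H) (σ : Measure Circle) (V : Lp ℂ 2 σ →ₗᵢ[ℂ] H)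
    (hV : Intw U σ V) (R : Polynomial ℂ) (f g : Lp ℂ 2 σ)
    (h : (g : Circle → ℂ) =ᵐ[σ] fun z => R.eval (z : ℂ) * (f : Circle → ℂ) z) :
    V g = opP U R (V f) := by
  obtain ⟨hmul, hadd, hC, hX, -, -, -, -⟩ := SM345.opP_basic U
  induction R using Polynomial.induction_on generalizing g with
  | C a =>
    have h1 : g = a • f := by
      apply Lp.ext
      filter_upwards [h, Lp.coeFn_smul a f] with z hz1 hz2
      rw [hz1, hz2]
      simp
    rw [h1, map_smul, hC]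
  | add p q ihp ihq =>
    obtain ⟨g₁, hg₁⟩ := mul_exists σ _ (poly_cont p) f
    obtain ⟨g₂, hg₂⟩ := mul_exists σ _ (poly_cont q) f
    have h1 : g = g₁ + g₂ := by
      apply Lp.ext
      filter_upwards [h, Lp.coeFn_add g₁ g₂, hg₁, hg₂] with z hz1 hz2 hz3 hz4
      rw [hz1, hz2, Pi.add_apply, hz3, hz4, Polynomial.eval_add]
      ring
    rw [h1, map_add, hadd, ihp g₁ hg₁, ihq g₂ hg₂]
  | monomial n a ih =>
    obtain ⟨g', hg'⟩ := mul_exists σ _ (poly_cont (Polynomial.C a * Polynomial.X ^ n)) f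
    have h0 : (Polynomial.C a * Polynomial.X ^ (n + 1) : Polynomial ℂ) =
        Polynomial.X ^ 1 * (Polynomial.C a * Polynomial.X ^ n) := by ring
    have h1 := hV g' g (by
      filter_upwards [h, hg'] with z hz1 hz2
      rw [hz1, hz2]
      simp only [Polynomial.eval_mul, Polynomial.eval_C, Polynomial.eval_pow, Polynomial.eval_X]
      ring)
    rw [h1, h0, hmul, ih g' hg', hX, pow_one]

/-- limits of polynomials on different pieces give mutual singularity -/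
theorem sing (U : H ≃ₗᵢ[ℂ] H) (σ σ' : Measure Circle) [IsFiniteMeasure σ] [IsFiniteMeasure σ']
    (V : Lp ℂ 2 σ →ₗᵢ[ℂ] H) (hV : Intw U σ V) (V' : Lp ℂ 2 σ' →ₗᵢ[ℂ] H) (hV' : Intw U σ' V')
    (Q : ℕ → Polynomial ℂ) (a b : ℂ) (hab : a ≠ b)
    (h1 : Tendsto (fun n => ‖opP U (Q n) (V (Lp.const 2 σ 1)) - a • V (Lp.const 2 σ 1)‖) atTop
      (𝓝 0))
    (h2 : Tendsto (fun n => ‖opP U (Q n) (V' (Lp.const 2 σ' 1)) - b • V' (Lp.const 2 σ' 1)‖) atTop
      (𝓝 0)) : σ ⟂ₘ σ' := by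
  have key : ∀ (σ : Measure Circle) [IsFiniteMeasure σ] (V : Lp ℂ 2 σ →ₗᵢ[ℂ] H) (hV : Intw U σ V)
      (Q : ℕ → Polynomial ℂ) (a : ℂ) (h1 : Tendsto (fun n => ‖opP U (Q n) (V (Lp.const 2 σ 1)) -
        a • V (Lp.const 2 σ 1)‖) atTop (𝓝 0)), ∃ ns : ℕ → ℕ, StrictMono ns ∧
      ∀ᵐ z : Circle ∂σ, Tendsto (fun k => (Q (ns k)).eval (z : ℂ)) atTop (𝓝 a) := by
    intro σ hσ V hV Q a h1
    choose q hq using fun n => mul_exists σ _ (poly_cont (Q n)) (Lp.const 2 σ (1 : ℂ))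
    have h3 : ∀ n, ‖opP U (Q n) (V (Lp.const 2 σ 1)) - a • V (Lp.const 2 σ 1)‖ =
        ‖q n - a • Lp.const 2 σ (1 : ℂ)‖ := by
      intro n
      rw [← intw_poly U σ V hV (Q n) _ _ (hq n), ← map_smul, ← map_sub,
        LinearIsometry.norm_map]
    simp_rw [h3] at h1
    have h4 : Tendsto q atTop (𝓝 (a • Lp.const 2 σ (1 : ℂ))) :=
      tendsto_iff_norm_sub_tendsto_zero.2 h1
    obtain ⟨ns, hns, hae⟩ := (tendstoInMeasure_of_tendsto_Lp h4).exists_seq_tendsto_ae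
    refine ⟨ns, hns, ?_⟩
    have hall : ∀ᵐ z ∂σ, ∀ n, (q n : Circle → ℂ) z = (Q n).eval (z : ℂ) *
        (Lp.const 2 σ (1 : ℂ) : Circle → ℂ) z := ae_all_iff.2 fun n => hq n
    have hone : (Lp.const 2 σ (1 : ℂ) : Circle → ℂ) =ᵐ[σ] fun _ => 1 := Lp.coeFn_const 2 σ 1
    filter_upwards [hae, hall, hone, Lp.coeFn_smul a (Lp.const 2 σ (1 : ℂ))] with z z1 z2 z3 z4
    rw [z4, Pi.smul_apply, z3, smul_eq_mul, mul_one] at z1
    refine z1.congr fun k => ?_
    rw [z2, z3, mul_one]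
  obtain ⟨ns, hns, hae⟩ := key σ V hV Q a h1
  obtain ⟨ms, hms, hae'⟩ := key σ' V' hV' (fun n => Q (ns n)) b (h2.comp hns.tendsto_atTop)
  refine Measure.MutuallySingular.mk (s := {z : Circle | ¬ Tendsto
    (fun k => (Q (ns (ms k))).eval (z : ℂ)) atTop (𝓝 a)}) (t := {z : Circle | ¬ Tendsto
    (fun k => (Q (ns (ms k))).eval (z : ℂ)) atTop (𝓝 b)}) ?_ ?_ ?_
  · rw [← ae_iff]
    filter_upwards [hae] with z hz
    exact hz.comp hms.tendsto_atTop
  · rw [← ae_iff]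
    exact hae'
  · intro z _
    by_contra hcon
    simp only [Set.mem_union, Set.mem_ofPred_eq, not_or, not_not] at hcon
    exact hab (tendsto_nhds_unique hcon.1 hcon.2)

/-- a Hilbert sum decomposition from orthogonal total pieces -/
theorem hilbert_sum [CompleteSpace H] (U : H ≃ₗᵢ[ℂ] H) (K : Submodule ℂ H)
    (hK : IsClosed (K : Set H)) {I : Type} (σ : I → Measure Circle)
    (V : ∀ p, Lp ℂ 2 (σ p) →ₗᵢ[ℂ] H) (hV : ∀ p, Intw U (σ p) (V p)) (hVK : ∀ p h, V p h ∈ K)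
    (horth : ∀ p q, p ≠ q → ∀ h k, inner ℂ (V p h) (V q k) = 0)
    (htot : ∀ F ∈ K, (∀ p h, inner ℂ (V p h) F = 0) → F = 0) :
    ∃ W : K ≃ₗᵢ[ℂ] lp (fun p => Lp ℂ 2 (σ p)) 2, ∀ f f' : K, (f' : H) = U f →
      ∀ p, ((W f' : ∀ p, Lp ℂ 2 (σ p)) p : Circle → ℂ) =ᵐ[σ p] fun z => (z : ℂ) *
        ((W f : ∀ p, Lp ℂ 2 (σ p)) p : Circle → ℂ) z := by
  classical
  have hKc : CompleteSpace K := hK.completeSpace_coe
  let V' : ∀ p, Lp ℂ 2 (σ p) →ₗᵢ[ℂ] K := fun p =>
    { toLinearMap := (V p).toLinearMap.codRestrict K (fun h => hVK p h)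
      norm_map' := fun h => (V p).norm_map h }
  have hV' : ∀ p h, ((V' p h : K) : H) = V p h := fun p h => rfl
  have hO : OrthogonalFamily ℂ (fun p => Lp ℂ 2 (σ p)) V' := by
    intro p q hpq h k
    exact horth p q hpq h k
  have hT : ⊤ ≤ (⨆ p, LinearMap.range (V' p).toLinearMap).topologicalClosure := by
    rw [top_le_iff, Submodule.topologicalClosure_eq_top_iff, Submodule.eq_bot_iff]
    intro F hF
    apply Subtype.ext
    apply htot F F.2
    intro p h
    have h1 : V' p h ∈ ⨆ p, LinearMap.range (V' p).toLinearMap :=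
      (le_iSup (fun p => LinearMap.range (V' p).toLinearMap) p) ⟨h, rfl⟩
    exact (Submodule.mem_orthogonal _ F).1 hF _ h1
  have hS : IsHilbertSum ℂ (fun p => Lp ℂ 2 (σ p)) V' := IsHilbertSum.mk hO hT
  refine ⟨hS.linearIsometryEquiv, ?_⟩
  have hcoord : ∀ (f : K) (p : I) (h : Lp ℂ 2 (σ p)),
      inner ℂ h ((hS.linearIsometryEquiv f : ∀ p, Lp ℂ 2 (σ p)) p) = inner ℂ (V p h) (f : H) := by
    intro f p h
    have h1 : hS.linearIsometryEquiv.symm (lp.single 2 p h) = V' p h :=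
      hS.linearIsometryEquiv_symm_apply_single h
    have h2 : inner ℂ (V p h) (f : H) = inner ℂ (V' p h) f := rfl
    rw [h2, ← h1]
    have h3 := hS.linearIsometryEquiv.inner_map_map (hS.linearIsometryEquiv.symm (lp.single 2 p h)) f
    rw [← h3, LinearIsometryEquiv.apply_symm_apply, lp.inner_single_left]
  intro f f' hff p
  set x := (hS.linearIsometryEquiv f : ∀ p, Lp ℂ 2 (σ p)) p with hx
  set x' := (hS.linearIsometryEquiv f' : ∀ p, Lp ℂ 2 (σ p)) p with hx'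
  obtain ⟨m, hm⟩ := mul_exists (σ p) (fun z => (z : ℂ)) continuous_subtype_val x
  suffices h : x' = m by rw [h]; exact hm
  refine ext_inner_left ℂ fun h => ?_
  obtain ⟨h', hh'⟩ := mul_exists (σ p) (fun z => (starRingEnd ℂ) (z : ℂ))
    (Complex.continuous_conj.comp continuous_subtype_val) h
  have e1 : V p h = U (V p h') := by
    refine hV p h' h ?_
    filter_upwards [hh'] with z hz
    rw [hz, ← mul_assoc, Complex.mul_conj']
    rw [Circle.norm_coe]
    simp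
  rw [hcoord f' p h, hff, e1, LinearIsometryEquiv.inner_map_map, ← hcoord f p h']
  rw [L2.inner_def, L2.inner_def]
  refine integral_congr_ae ?_
  filter_upwards [hh', hm] with z hz1 hz2
  rw [hz1, hz2]
  simp only [RCLike.inner_apply, map_mul, Complex.conj_conj]
  ring

end

end MS723
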