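import Pool.Agent.Helper345.SM.cube_split

/-! `L²(σ)` as a sum of `m` copies of a space on which `z ^ m` acts as multiplication by `z`
(adapted from `Helper345.SM.cube_split`). -/

set_option autoImplicit false
set_option linter.unusedVariables false

open MeasureTheory Filter Topology
open scoped ENNReal NNReal

noncomputable section

namespace MS723

open SM345 (rot)

theorem msp_stepB (m : ℕ) (σ τ : Measure Circle) [IsFiniteMeasure σ] [IsFiniteMeasure τ]
    (s : Fin m → Circle → Circle) (E : Fin m → Set Circle) (φ : Circle → Circle)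
    (hEm : ∀ i, MeasurableSet (E i)) (hEd : Pairwise (Function.onFun Disjoint E))
    (hEu : ⋃ i, E i = Set.univ)
    (hs : ∀ i, MeasurePreserving (s i) τ (σ.restrict (E i)))
    (hφ : ∀ i, MeasurePreserving φ (σ.restrict (E i)) τ)
    (hφs : ∀ i w, φ (s i w) = w) (hsE : ∀ i j w, s i w ∈ E j ↔ i = j) :
    ∃ W : Lp ℂ 2 σ ≃ₗᵢ[ℂ] (PiLp 2 fun _ : Fin m => Lp ℂ 2 τ), ∀ (f : Lp ℂ 2 σ) (i : Fin m),
      (W f i : Circle → ℂ) =ᵐ[τ] fun w => (f : Circle → ℂ) (s i w) := by
  have hq : ∀ i (P : Circle → Prop), (∀ᵐ z ∂σ, P z) → ∀ᵐ w ∂τ, P (s i w) := by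
    intro i P hP
    exact (hs i).quasiMeasurePreserving.ae (ae_restrict_of_ae hP)
  have hmem : ∀ (i : Fin m) (f : Circle → ℂ), MemLp f 2 σ → MemLp (fun w => f (s i w)) 2 τ := by
    intro i f hf
    exact (hf.restrict (E i)).comp_measurePreserving (hs i)
  have hnorm : ∀ (i : Fin m) (f : Circle → ℂ), MemLp f 2 σ →
      eLpNorm (fun w => f (s i w)) 2 τ = eLpNorm f 2 (σ.restrict (E i)) := by
    intro i f hf
    exact eLpNorm_comp_measurePreserving (hf.restrict (E i)).1 (hs i)
  let L : Lp ℂ 2 σ →ₗ[ℂ] (PiLp 2 fun _ : Fin m => Lp ℂ 2 τ) :=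
    { toFun := fun f => WithLp.toLp 2 (fun i => (hmem i _ (Lp.memLp f)).toLp _)
      map_add' := by
        intro f f'
        ext1 i
        apply Lp.ext
        show ((hmem i _ (Lp.memLp (f + f'))).toLp _ : Circle → ℂ) =ᵐ[τ]
          (((hmem i _ (Lp.memLp f)).toLp _ + (hmem i _ (Lp.memLp f')).toLp _ : Lp ℂ 2 τ) :
            Circle → ℂ)
        filter_upwards [(hmem i _ (Lp.memLp (f + f'))).coeFn_toLp,
          (hmem i _ (Lp.memLp f)).coeFn_toLp,
          (hmem i _ (Lp.memLp f')).coeFn_toLp, hq i _ (Lp.coeFn_add f f'),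
          Lp.coeFn_add ((hmem i _ (Lp.memLp f)).toLp _) ((hmem i _ (Lp.memLp f')).toLp _)]
          with z e1 e2 e3 e4 e5
        rw [e1, e5, Pi.add_apply, e2, e3, e4, Pi.add_apply]
      map_smul' := by
        intro c f
        ext1 i
        apply Lp.ext
        show ((hmem i _ (Lp.memLp (c • f))).toLp _ : Circle → ℂ) =ᵐ[τ]
          ((c • (hmem i _ (Lp.memLp f)).toLp _ : Lp ℂ 2 τ) : Circle → ℂ)
        filter_upwards [(hmem i _ (Lp.memLp (c • f))).coeFn_toLp,
          (hmem i _ (Lp.memLp f)).coeFn_toLp,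
          hq i _ (Lp.coeFn_smul c f),
          Lp.coeFn_smul c ((hmem i _ (Lp.memLp f)).toLp _)]
          with z e1 e2 e3 e4
        rw [e1, e4, Pi.smul_apply, e2, e3, Pi.smul_apply] }
  have hL : ∀ (f : Lp ℂ 2 σ) (i : Fin m), (L f i : Circle → ℂ) =ᵐ[τ]
      fun w => (f : Circle → ℂ) (s i w) := fun f i => (hmem i _ (Lp.memLp f)).coeFn_toLp
  have hsum : ∀ f : Circle → ℂ, ∑ i, eLpNorm f 2 (σ.restrict (E i)) ^ (2 : ℝ) =
      eLpNorm f 2 σ ^ (2 : ℝ) := by
    intro f
    rw [SM345.csp_eL2_sq]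
    have : ∀ i, eLpNorm f 2 (σ.restrict (E i)) ^ (2 : ℝ) =
        ∫⁻ x in E i, ‖f x‖ₑ ^ (2 : ℝ) ∂σ := fun i => SM345.csp_eL2_sq _ _
    rw [Finset.sum_congr rfl (fun i _ => this i)]
    have h1 := lintegral_iUnion (μ := σ) hEm hEd (fun x => ‖f x‖ₑ ^ (2 : ℝ))
    rw [hEu, Measure.restrict_univ, tsum_fintype] at h1
    exact h1.symm
  let Li : Lp ℂ 2 σ →ₗᵢ[ℂ] (PiLp 2 fun _ : Fin m => Lp ℂ 2 τ) :=
    { toLinearMap := L
      norm_map' := by
        intro f
        have h2 : ‖L f‖ ^ 2 = ‖f‖ ^ 2 := by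
          rw [PiLp.norm_sq_eq_of_L2]
          have h3 : ∀ i, ‖L f i‖ ^ 2 = (eLpNorm f 2 (σ.restrict (E i)) ^ (2 : ℝ)).toReal := by
            intro i
            rw [Lp.norm_def, eLpNorm_congr_ae (hL f i), hnorm i _ (Lp.memLp f),
              ← ENNReal.toReal_rpow, Real.rpow_two]
          rw [Finset.sum_congr rfl (fun i _ => h3 i), ← ENNReal.toReal_sum]
          · rw [hsum, Lp.norm_def, ← ENNReal.toReal_rpow, Real.rpow_two]
          · intro i _
            exact ENNReal.rpow_ne_top_of_nonneg (by norm_num) ((Lp.memLp f).restrict (E i)).2.ne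
        exact (pow_left_inj₀ (norm_nonneg _) (norm_nonneg _) two_ne_zero).1 h2 }
  have hsurj : Function.Surjective Li := by
    intro h
    obtain ⟨F, hF⟩ : ∃ F : Circle → ℂ, F = fun z => ∑ i, (E i).indicator
      (fun z => (h i : Circle → ℂ) (φ z)) z := ⟨_, rfl⟩
    have hFm : MemLp F 2 σ := by
      rw [hF]
      apply memLp_finsetSum
      intro i _
      rw [memLp_indicator_iff_restrict (hEm i)]
      exact (Lp.memLp (h i)).comp_measurePreserving (hφ i)
    refine ⟨hFm.toLp _, ?_⟩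
    ext1 i
    apply Lp.ext
    have h1 := hL (hFm.toLp _) i
    have h2 := hq i _ hFm.coeFn_toLp
    show (L (hFm.toLp _) i : Circle → ℂ) =ᵐ[τ] _
    filter_upwards [h1, h2] with w e1 e2
    rw [e1, e2, hF]
    simp only
    rw [Finset.sum_eq_single i]
    · rw [Set.indicator_of_mem ((hsE i i w).2 rfl), hφs]
    · intro j _ hj
      rw [Set.indicator_of_notMem]
      rw [hsE]
      exact fun h => hj h.symm
    · intro hi
      exact absurd (Finset.mem_univ i) hi
  exact ⟨LinearIsometryEquiv.ofSurjective Li hsurj, fun f i => hL f i⟩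



/-- a measurable `m`-th root -/
def msp_s0 (m : ℕ) (w : Circle) : Circle := Circle.exp (Complex.arg (w : ℂ) / m)

theorem msp_s0_meas (m : ℕ) : Measurable (msp_s0 m) := by
  unfold msp_s0
  have hc : Continuous (fun w : Circle => (w : ℂ)) := by fun_prop
  have h1 : Measurable (fun w : Circle => Complex.arg (w : ℂ) / m) :=
    (Complex.measurable_arg.comp hc.measurable).div_const _
  exact Circle.exp.continuous.measurable.comp h1

theorem msp_s0_pow (m : ℕ) (hm : 0 < m) (w : Circle) : msp_s0 m w ^ m = w := by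
  unfold msp_s0
  apply Circle.ext
  have hm' : (m : ℂ) ≠ 0 := by exact_mod_cast hm.ne'
  have h1 : ((Circle.exp (Complex.arg (w : ℂ) / m) ^ m : Circle) : ℂ) =
      Complex.exp (Complex.arg (w : ℂ) * Complex.I) := by
    rw [Circle.coe_pow, Circle.coe_exp, ← Complex.exp_nat_mul]
    congr 1
    push_cast
    field_simp
  rw [h1]
  have h2 := Complex.norm_mul_exp_arg_mul_I (w : ℂ)
  rw [Circle.norm_coe, Complex.ofReal_one, one_mul] at h2
  exact h2

theorem msp_root (m : ℕ) (hm : 0 < m) (a : Circle) (ha : IsPrimitiveRoot (a : ℂ) m) (u : Circle)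
    (hu : u ^ m = 1) : ∃ i : Fin m, u = a ^ (i : ℕ) := by
  have hu' : (u : ℂ) ^ m = 1 := by
    rw [← Circle.coe_pow, hu, Circle.coe_one]
  haveI : NeZero m := ⟨hm.ne'⟩
  obtain ⟨i, hi, h⟩ := ha.eq_pow_of_pow_eq_one hu'
  refine ⟨⟨i, hi⟩, ?_⟩
  apply Circle.ext
  rw [Circle.coe_pow]
  exact h.symm

theorem msp_pow_inj (m : ℕ) (a : Circle) (ha : IsPrimitiveRoot (a : ℂ) m) (i j : Fin m)
    (h : a ^ (i : ℕ) = a ^ (j : ℕ)) : i = j := by
  apply Fin.ext
  apply ha.pow_inj i.2 j.2
  rw [← Circle.coe_pow, ← Circle.coe_pow, h]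

theorem map_sum_range (k : ℕ) (μ : ℕ → Measure Circle) (f : Circle → Circle) (hf : Measurable f) :
    (∑ i ∈ Finset.range k, μ i).map f = ∑ i ∈ Finset.range k, (μ i).map f := by
  induction k with
  | zero => simp
  | succ k ih => rw [Finset.sum_range_succ, Finset.sum_range_succ, Measure.map_add _ _ hf, ih]

theorem finite_sum_range (k : ℕ) (μ : ℕ → Measure Circle) (h : ∀ i, IsFiniteMeasure (μ i)) :
    IsFiniteMeasure (∑ i ∈ Finset.range k, μ i) := by
  induction k with
  | zero => simp only [Finset.range_zero, Finset.sum_empty]; infer_instance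
  | succ k ih =>
    rw [Finset.sum_range_succ]
    infer_instance

theorem ac_sum_range (k : ℕ) (μ : ℕ → Measure Circle) (σ : Measure Circle) (h : ∀ i, μ i ≪ σ) :
    (∑ i ∈ Finset.range k, μ i) ≪ σ := by
  induction k with
  | zero => simp only [Finset.range_zero, Finset.sum_empty]; exact Measure.AbsolutelyContinuous.zero _
  | succ k ih =>
    rw [Finset.sum_range_succ]
    exact ih.add_left (h k)

theorem msplit (m : ℕ) (hm : 0 < m) (σ : Measure Circle) [IsFiniteMeasure σ] (a : Circle)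
    (ha : IsPrimitiveRoot (a : ℂ) m) (h : σ.map (rot a) ≪ σ) :
    ∃ σ₁ : Measure Circle, IsFiniteMeasure σ₁ ∧ (σ ≠ 0 → σ₁ ≠ 0) ∧
      ∃ W : Lp ℂ 2 σ ≃ₗᵢ[ℂ] (PiLp 2 fun _ : Fin m => Lp ℂ 2 σ₁),
        ∀ f f' : Lp ℂ 2 σ, (f' : Circle → ℂ) =ᵐ[σ] (fun z => (z : ℂ) ^ m * (f : Circle → ℂ) z) →
          ∀ i, (W f' i : Circle → ℂ) =ᵐ[σ₁] fun z => (z : ℂ) * (W f i : Circle → ℂ) z := by
  have hrm : ∀ b : Circle, Measurable (rot b) := fun b => (continuous_const_mul b).measurable
  have hcm : Measurable (fun z : Circle => z ^ m) := (continuous_pow m).measurable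
  have ham : a ^ m = 1 := by
    apply Circle.ext
    rw [Circle.coe_pow, ha.pow_eq_one, Circle.coe_one]
  obtain ⟨σ', hσ'⟩ : ∃ σ' : Measure Circle, σ' = ∑ i ∈ Finset.range m, σ.map (rot (a ^ i)) :=
    ⟨_, rfl⟩
  have hfin : IsFiniteMeasure σ' := by
    rw [hσ']; exact finite_sum_range m _ fun i => inferInstance
  have hcomp : ∀ i, rot (a ^ (i + 1)) = rot a ∘ rot (a ^ i) := by
    intro i
    funext z
    simp only [rot, Function.comp]
    rw [pow_succ', mul_assoc]
  have hi : ∀ i, σ.map (rot (a ^ i)) ≪ σ := by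
    intro i
    induction i with
    | zero =>
      have : rot (a ^ 0) = id := by
        funext z
        simp [rot]
      rw [this, Measure.map_id]
    | succ i ih =>
      rw [hcomp, ← Measure.map_map (hrm _) (hrm _)]
      exact (ih.map (hrm a)).trans h
  have hac1 : σ ≪ σ' := by
    obtain ⟨k, hk⟩ : ∃ k, m = k + 1 := ⟨m - 1, by omega⟩
    rw [hσ', hk, Finset.sum_range_succ']
    have : rot (a ^ 0) = id := by
      funext z
      simp [rot]
    rw [this, Measure.map_id, add_comm]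
    exact Measure.absolutelyContinuous_of_le (Measure.le_add_right le_rfl)
  have hac2 : σ' ≪ σ := by
    rw [hσ']
    exact ac_sum_range m _ σ hi
  have hinv : σ'.map (rot a) = σ' := by
    rw [hσ', map_sum_range m _ _ (hrm a)]
    have e1 : ∀ i ∈ Finset.range m, (σ.map (rot (a ^ i))).map (rot a) =
        σ.map (rot (a ^ (i + 1))) := by
      intro i _
      rw [Measure.map_map (hrm _) (hrm _), hcomp]
    rw [Finset.sum_congr rfl e1]
    have e2 := Finset.sum_range_succ' (fun i => σ.map (rot (a ^ i))) m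
    have e3 := Finset.sum_range_succ (fun i => σ.map (rot (a ^ i))) m
    rw [e3, ham, pow_zero] at e2
    have hfin1 : IsFiniteMeasure (∑ i ∈ Finset.range m, σ.map (rot (a ^ (i + 1)))) :=
      finite_sum_range m _ fun i => inferInstance
    have hfin2 : IsFiniteMeasure (∑ i ∈ Finset.range m, σ.map (rot (a ^ i))) :=
      finite_sum_range m _ fun i => inferInstance
    apply Measure.ext
    intro A hA
    have e4 := congrArg (fun μ : Measure Circle => μ A) e2
    simp only [Measure.add_apply] at e4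
    exact ((ENNReal.add_left_inj (measure_ne_top _ _)).1 e4).symm
  -- the sections
  obtain ⟨s, hs⟩ : ∃ s : Fin m → Circle → Circle, s = fun (i : Fin m) w => a ^ (i : ℕ) * msp_s0 m w :=
    ⟨_, rfl⟩
  obtain ⟨E, hE⟩ : ∃ E : Fin m → Set Circle,
      E = fun (i : Fin m) => {z | a ^ (i : ℕ) * msp_s0 m (z ^ m) = z} := ⟨_, rfl⟩
  have hsm : ∀ i, Measurable (s i) := by
    intro i
    rw [hs]
    exact (continuous_const_mul _).measurable.comp (msp_s0_meas m)
  have hEm : ∀ i, MeasurableSet (E i) := by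
    intro i
    rw [hE]
    exact measurableSet_eq_fun ((continuous_const_mul _).measurable.comp ((msp_s0_meas m).comp hcm))
      measurable_id
  have ha3 : ∀ i : ℕ, (a ^ i) ^ m = 1 := by
    intro i
    rw [← pow_mul, mul_comm, pow_mul, ham, one_pow]
  have hφs : ∀ i w, (s i w) ^ m = w := by
    intro i w
    rw [hs]
    simp only
    rw [mul_pow, ha3, one_mul, msp_s0_pow m hm]
  have hsE : ∀ i j w, s i w ∈ E j ↔ i = j := by
    intro i j w
    have e : s i w ∈ E j ↔ a ^ (j : ℕ) * msp_s0 m ((s i w) ^ m) = s i w := by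
      rw [hE]; rfl
    rw [e, hφs, hs]
    simp only
    constructor
    · intro h
      exact (msp_pow_inj m a ha j i (mul_right_cancel h)).symm
    · intro h
      rw [h]
  have hEd : Pairwise (Function.onFun Disjoint E) := by
    intro i j hij
    rw [Function.onFun, Set.disjoint_left]
    intro z hz hz'
    rw [hE] at hz hz'
    have h1 : a ^ (i : ℕ) * msp_s0 m (z ^ m) = a ^ (j : ℕ) * msp_s0 m (z ^ m) := by
      rw [show a ^ (i : ℕ) * msp_s0 m (z ^ m) = z from hz,
        show a ^ (j : ℕ) * msp_s0 m (z ^ m) = z from hz']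
    exact hij (msp_pow_inj m a ha i j (mul_right_cancel h1))
  have hEu : ⋃ i, E i = Set.univ := by
    rw [Set.eq_univ_iff_forall]
    intro z
    rw [Set.mem_iUnion]
    have : (z * (msp_s0 m (z ^ m))⁻¹) ^ m = 1 := by
      rw [mul_pow, inv_pow, msp_s0_pow m hm, mul_inv_cancel]
    obtain ⟨i, hi⟩ := msp_root m hm a ha _ this
    refine ⟨i, ?_⟩
    rw [hE]
    show a ^ (i : ℕ) * msp_s0 m (z ^ m) = z
    rw [← hi]
    group
  let i0 : Fin m := ⟨0, hm⟩
  obtain ⟨τ, hτ⟩ : ∃ τ : Measure Circle, τ = (σ'.restrict (E i0)).map (fun z => z ^ m) := ⟨_, rfl⟩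
  have hτfin : IsFiniteMeasure τ := by rw [hτ]; infer_instance
  have hsp : ∀ i, MeasurePreserving (s i) τ (σ'.restrict (E i)) := by
    intro i
    refine ⟨hsm i, ?_⟩
    rw [hτ, Measure.map_map (hsm i) hcm]
    have e1 : (σ'.restrict (E i0)).map (s i ∘ fun z => z ^ m) =
        (σ'.restrict (E i0)).map (rot (a ^ (i : ℕ))) := by
      apply Measure.map_congr
      filter_upwards [ae_restrict_mem (hEm i0)] with z hz
      rw [hE] at hz
      have hz' : a ^ (0 : ℕ) * msp_s0 m (z ^ m) = z := hz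
      simp only [pow_zero, one_mul] at hz'
      rw [hs]
      simp only [Function.comp, rot]
      rw [hz']
    rw [e1]
    have e2 : E i0 = rot (a ^ (i : ℕ)) ⁻¹' (E i) := by
      ext z
      rw [hE]
      simp only [Set.mem_ofPred_eq, Set.mem_preimage, rot, mul_pow, ha3, one_mul]
      constructor
      · intro hz
        have hz' : a ^ (0 : ℕ) * msp_s0 m (z ^ m) = z := hz
        simp only [pow_zero, one_mul] at hz'
        rw [hz']
      · intro hz
        have := mul_left_cancel hz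
        show a ^ (0 : ℕ) * msp_s0 m (z ^ m) = z
        simpa using this
    rw [e2, ← Measure.restrict_map (hrm _) (hEm i), SM345.csp_rot_comp a i σ' hinv]
  have hφp : ∀ i, MeasurePreserving (fun z : Circle => z ^ m) (σ'.restrict (E i)) τ := by
    intro i
    refine ⟨hcm, ?_⟩
    rw [← (hsp i).map_eq, Measure.map_map hcm (hsm i)]
    have : (fun z : Circle => z ^ m) ∘ s i = id := by
      funext w
      exact hφs i w
    rw [this, Measure.map_id]
  refine ⟨τ, hτfin, ?_, ?_⟩
  · intro hne h0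
    apply hne
    have h3 : σ' Set.univ = 0 := by
      rw [← hEu]
      apply nonpos_iff_eq_zero.1
      refine (measure_iUnion_le _).trans ?_
      rw [tsum_fintype]
      apply le_of_eq
      apply Finset.sum_eq_zero
      intro i _
      have : σ'.restrict (E i) = 0 := by
        rw [← (hsp i).map_eq, h0, Measure.map_zero]
      rw [← Measure.restrict_apply_univ, this]
      rfl
    have h4 : σ Set.univ = 0 := hac1 h3
    exact Measure.measure_univ_eq_zero.1 h4
  · obtain ⟨g, WA, hWA⟩ := SM345.csp_stepA σ σ' hac1 hac2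
    obtain ⟨WB, hWB⟩ := msp_stepB m σ' τ s E (fun z => z ^ m) hEm hEd hEu hsp hφp hφs hsE
    have hq : ∀ i (P : Circle → Prop), (∀ᵐ z ∂σ', P z) → ∀ᵐ w ∂τ, P (s i w) := by
      intro i P hP
      exact (hsp i).quasiMeasurePreserving.ae (ae_restrict_of_ae hP)
    refine ⟨WA.trans WB, ?_⟩
    intro f f' hff i
    have h1 : (WA f' : Circle → ℂ) =ᵐ[σ'] fun z => (z : ℂ) ^ m * (WA f : Circle → ℂ) z := by
      filter_upwards [hWA f, hWA f', hac2.ae_le hff] with z e1 e2 e3
      rw [e1, e2, e3]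
      ring
    have h2 := hWB (WA f) i
    have h3 := hWB (WA f') i
    have h4 := hq i _ h1
    show (WB (WA f') i : Circle → ℂ) =ᵐ[τ] fun z => (z : ℂ) * (WB (WA f) i : Circle → ℂ) z
    filter_upwards [h2, h3, h4] with w e1 e2 e3
    rw [e1, e2, e3]
    congr 1
    rw [← Circle.coe_pow, hφs]

end MS723
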