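import Pool.Agent.H723R2.VV
import Pool.Agent.H723R2.Split
import Pool.Agent.H723R2.Piece
import Pool.Agent.Helper345.SM.spec

/-! The spectral decomposition of `UT` on the base. -/

set_option autoImplicit false
set_option linter.unusedVariables false

open MeasureTheory Filter Topology
open scoped ENNReal NNReal

noncomputable section

namespace MS723

open SM345 (XX UnifMeas errs J IsLim Koop opP cyc rot)

variable {P : Par} (c : Ctx P)

theorem K0_ne : ∃ F ∈ K0 c, F ≠ 0 := by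
  classical
  have hN2 := Nn_two P 0
  have : Fact (1 < Nn P 0) := ⟨by omega⟩
  set f : ZMod (Nn P 0) → ℂ := fun u => (if u = 0 then 1 else 0) - (if u = 1 then 1 else 0) with hf
  have hf0 : ∑ u, f u = 0 := by
    rw [hf]
    simp only [Finset.sum_sub_distrib, Finset.sum_ite_eq', Finset.mem_univ, if_true, sub_self]
  refine ⟨Jd c 0 0 f, ?_, ?_⟩
  · rw [K0_mem]
    exact ⟨Jd_mem c 0 0 (supp_zero 0) _, by rw [inner_one_Jd, hf0, zero_div]⟩
  · intro h
    have h1 := Jd_norm c 0 0 f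
    rw [h, norm_zero] at h1
    have hN : (0 : ℝ) < Nn P 0 := by exact_mod_cast Nn_pos P 0
    have h2 : ∑ u, ‖f u‖ ^ 2 = 0 := by
      have h3 : (∑ u, ‖f u‖ ^ 2) / (Nn P 0 : ℝ) = 0 := by
        rw [← h1]; norm_num
      rcases div_eq_zero_iff.1 h3 with h4 | h4
      · exact h4
      · exact absurd h4 hN.ne'
    have h5 := (Finset.sum_eq_zero_iff_of_nonneg (fun u _ => by positivity)).1 h2 0
      (Finset.mem_univ 0)
    have h6 : f 0 = 1 := by
      rw [hf]
      simp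
    rw [h6] at h5
    norm_num at h5

/-- coordinate embedding -/
def emb (m : ℕ) (σ : Measure Circle) (i : Fin m) :
    Lp ℂ 2 σ →ₗᵢ[ℂ] (PiLp 2 fun _ : Fin m => Lp ℂ 2 σ) where
  toFun := fun h => PiLp.single 2 i h
  map_add' := fun h k => PiLp.single_add 2 i
  map_smul' := by
    intro a h
    ext1 j
    by_cases hj : j = i
    · subst hj
      simp
    · simp [hj]
  norm_map' := by
    intro h
    show ‖(PiLp.single 2 i h : PiLp 2 fun _ : Fin m => Lp ℂ 2 σ)‖ = ‖h‖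
    simp

theorem emb_same (m : ℕ) (σ : Measure Circle) (i : Fin m) (h : Lp ℂ 2 σ) :
    (emb m σ i h) i = h :=
  PiLp.single_eq_same (β := fun _ : Fin m => Lp ℂ 2 σ) 2 i h

theorem emb_ne (m : ℕ) (σ : Measure Circle) (i j : Fin m) (hj : j ≠ i) (h : Lp ℂ 2 σ) :
    (emb m σ i h) j = 0 :=
  PiLp.single_eq_of_ne (β := fun _ : Fin m => Lp ℂ 2 σ) 2 hj h

theorem inner_emb (m : ℕ) (σ : Measure Circle) (i : Fin m) (h : Lp ℂ 2 σ)
    (x : PiLp 2 fun _ : Fin m => Lp ℂ 2 σ) : inner ℂ (emb m σ i h) x = inner ℂ h (x i) := by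
  rw [PiLp.inner_apply, Finset.sum_eq_single i]
  · rw [emb_same]
  · intro j _ hj
    rw [emb_ne m σ i j hj, inner_zero_left]
  · intro h
    exact absurd (Finset.mem_univ i) h

theorem base_spec : ∃ σ : Measure Circle, IsFiniteMeasure σ ∧ σ ≠ 0 ∧
    ∃ V : Fin P.m → (Lp ℂ 2 σ →ₗᵢ[ℂ] Lp ℂ 2 c.μ), (∀ i, Intw c.UT σ (V i)) ∧
      (∀ i h, V i h ∈ K0 c) ∧ (∀ i j, i ≠ j → ∀ h k, inner ℂ (V i h) (V j k) = 0) ∧
      (∀ F ∈ K0 c, (∀ i h, inner ℂ (V i h) F = 0) → F = 0) := by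
  obtain ⟨g, hg, hgc⟩ := K0_cyc c
  obtain ⟨σ, hσ, W, hWg, hW⟩ := SM345.spec c.US (K0 c) g hg hgc
  have hq : σ.map (rot (zt P)) ≪ σ := by
    refine qinv c.US (K0 c) (US_K0 c) (US_K0' c) σ W ⟨g, hg⟩ hWg hW (V c) (fun _ => 2 * P.m)
      (V_norm c) (V_K0 c) (zt P) ?_ ?_
    · intro n f hf
      exact V_US c n f ((K0_mem c f).1 hf).1
    · intro F hF h
      refine V'_inj c F hF fun n => ?_
      have h1 := h n (V' c n F) (V'_K0 c n F hF)
      rw [V_adj] at h1
      exact inner_self_eq_zero.1 h1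
  obtain ⟨σ₁, hσ₁, hne, W₁, hW₁⟩ := msplit P.m P.hm σ (zt P) zt_prim hq
  have hσne : σ ≠ 0 := by
    rintro rfl
    obtain ⟨F, hF, hF0⟩ := K0_ne c
    apply hF0
    have h1 : W ⟨F, hF⟩ = 0 := by
      apply Lp.ext
      simp only [ae_zero]
      exact Filter.eventually_bot
    have h2 : (⟨F, hF⟩ : K0 c) = 0 := by
      rw [← W.map_eq_zero_iff]
      exact h1
    exact congrArg Subtype.val h2
  refine ⟨σ₁, hσ₁, hne hσne, fun i => (K0 c).subtypeₗᵢ.comp
    (W.symm.toLinearIsometry.comp (W₁.symm.toLinearIsometry.comp (emb P.m σ₁ i))), ?_, ?_, ?_, ?_⟩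
  · intro i h k hhk
    -- powers of `US` on `K0`
    have hpow : ∀ (n : ℕ) (F : K0 c), (W ⟨(c.US ^ n) F, US_pow_K0 c F F.2 n⟩ : Circle → ℂ) =ᵐ[σ]
        fun z => (z : ℂ) ^ n * (W F : Circle → ℂ) z := by
      intro n F
      induction n with
      | zero =>
        have : (⟨(c.US ^ 0) F, US_pow_K0 c F F.2 0⟩ : K0 c) = F := Subtype.ext rfl
        rw [this]
        exact Eventually.of_forall fun z => by simp
      | succ n ih =>
        have h1 := hW ⟨(c.US ^ n) F, US_pow_K0 c F F.2 n⟩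
          ⟨(c.US ^ (n + 1)) F, US_pow_K0 c F F.2 (n + 1)⟩ (by
            show (c.US ^ (n + 1)) (F : Lp ℂ 2 c.μ) = c.US ((c.US ^ n) (F : Lp ℂ 2 c.μ))
            rw [pow_succ']; rfl)
        filter_upwards [h1, ih] with z z1 z2
        rw [z1, z2]
        ring
    set F : K0 c := W.symm (W₁.symm (emb P.m σ₁ i h)) with hF
    set F' : K0 c := W.symm (W₁.symm (emb P.m σ₁ i k)) with hF'
    show ((F' : K0 c) : Lp ℂ 2 c.μ) = c.UT (F : Lp ℂ 2 c.μ)
    rw [rel_TS c F ((K0_mem c _).1 F.2).1]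
    have h2 := hW₁ (W F) (W ⟨(c.US ^ P.m) F, US_pow_K0 c F F.2 P.m⟩) (hpow P.m F)
    have h3 : W₁ (W ⟨(c.US ^ P.m) F, US_pow_K0 c F F.2 P.m⟩) = emb P.m σ₁ i k := by
      ext1 j
      apply Lp.ext
      refine (h2 j).trans ?_
      have e1 : W₁ (W F) = emb P.m σ₁ i h := by
        rw [hF, W.apply_symm_apply, W₁.apply_symm_apply]
      rw [e1]
      by_cases hj : j = i
      · subst hj
        have e2 : (emb P.m σ₁ j h) j = h := emb_same _ _ _ _
        have e3 : (emb P.m σ₁ j k) j = k := emb_same _ _ _ _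
        rw [e2, e3]
        exact hhk.symm
      · have e2 : (emb P.m σ₁ i h) j = 0 := emb_ne _ _ _ _ hj _
        have e3 : (emb P.m σ₁ i k) j = 0 := emb_ne _ _ _ _ hj _
        rw [e2, e3]
        filter_upwards [Lp.coeFn_zero ℂ 2 σ₁] with z hz
        rw [hz]
        simp
    have h4 : F' = ⟨(c.US ^ P.m) F, US_pow_K0 c F F.2 P.m⟩ := by
      rw [hF', ← h3, W₁.symm_apply_apply, W.symm_apply_apply]
    exact congrArg Subtype.val h4
  · intro i h
    exact (W.symm (W₁.symm (emb P.m σ₁ i h))).2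
  · intro i j hij h k
    show inner ℂ (W.symm (W₁.symm (emb P.m σ₁ i h)) : K0 c) (W.symm (W₁.symm (emb P.m σ₁ j k))) = 0
    rw [W.symm.inner_map_map, W₁.symm.inner_map_map, inner_emb]
    have : (emb P.m σ₁ j k) i = 0 := emb_ne _ _ _ _ hij _
    rw [this, inner_zero_right]
  · intro F hF h
    have h1 : W₁ (W ⟨F, hF⟩) = 0 := by
      ext1 i
      have h2 : ∀ k, inner ℂ k ((W₁ (W ⟨F, hF⟩)) i) = 0 := by
        intro k
        rw [← inner_emb]
        have h3 := h i k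
        have h4 : inner ℂ (W.symm (W₁.symm (emb P.m σ₁ i k)) : K0 c) (⟨F, hF⟩ : K0 c) = 0 := h3
        rw [← h4, ← W.inner_map_map, ← W₁.inner_map_map, W.apply_symm_apply, W₁.apply_symm_apply]
      have h5 := h2 ((W₁ (W ⟨F, hF⟩)) i)
      rw [inner_self_eq_zero] at h5
      rw [h5]
      rfl
    have h6 : W ⟨F, hF⟩ = 0 := (W₁.map_eq_zero_iff).1 h1
    have h7 : (⟨F, hF⟩ : K0 c) = 0 := (W.map_eq_zero_iff).1 h6
    exact congrArg Subtype.val h7

end MS723
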