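import Pool.Agent.H723R2.Fib

/-! Conversion of a Hilbert sum decomposition to a direct integral. -/

set_option autoImplicit false
set_option linter.unusedVariables false

open MeasureTheory Filter Topology
open scoped ENNReal NNReal

noncomputable section

namespace MS723

theorem slices_orth (σ : Measure Circle) [IsFiniteMeasure σ] (m : Circle → ℕ∞)
    (E E' : Set Circle) (l l' : ℕ) (hd : Disjoint (E ×ˢ ({l} : Set ℕ)) (E' ×ˢ ({l'} : Set ℕ)))
    (f g : Lp ℂ 2 (fibred σ m)) (f₀ g₀ : Circle → ℂ)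
    (hf : (f : Circle × ℕ → ℂ) =ᵐ[fibred σ m]
      (E ×ˢ ({l} : Set ℕ)).indicator (fun p : Circle × ℕ => f₀ p.1))
    (hg : (g : Circle × ℕ → ℂ) =ᵐ[fibred σ m]
      (E' ×ˢ ({l'} : Set ℕ)).indicator (fun p : Circle × ℕ => g₀ p.1)) : inner ℂ f g = 0 := by
  rw [L2.inner_def]
  refine integral_eq_zero_of_ae ?_
  filter_upwards [hf, hg] with p e1 e2
  rw [e1, e2]
  by_cases hp : p ∈ E ×ˢ ({l} : Set ℕ)
  · have hp' : p ∉ E' ×ˢ ({l'} : Set ℕ) := Set.disjoint_left.1 hd hp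
    rw [Set.indicator_of_notMem hp', inner_zero_right]
    rfl
  · rw [Set.indicator_of_notMem hp, inner_zero_left]
    rfl

theorem slice_zero (σ : Measure Circle) [IsFiniteMeasure σ] (m : Circle → ℕ∞)
    (hm : ∀ k, MeasurableSet (m ⁻¹' {k})) (E : Set Circle) (hE : MeasurableSet E) (l : ℕ)
    (hEl : ∀ z ∈ E, (l : ℕ∞) < m z)
    (V : Lp ℂ 2 (σ.restrict E) →ₗᵢ[ℂ] Lp ℂ 2 (fibred σ m))
    (hV : ∀ f, (V f : Circle × ℕ → ℂ) =ᵐ[fibred σ m]
      (E ×ˢ ({l} : Set ℕ)).indicator (fun p : Circle × ℕ => (f : Circle → ℂ) p.1))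
    (F : Lp ℂ 2 (fibred σ m)) (h : ∀ f, inner ℂ (V f) F = 0) :
    ∀ᵐ p ∂(fibred σ m), p ∈ E ×ˢ ({l} : Set ℕ) → (F : Circle × ℕ → ℂ) p = 0 := by
  have hS : MeasurableSet (E ×ˢ ({l} : Set ℕ)) := hE.prod (measurableSet_singleton l)
  have hFm : MemLp (fun z => (F : Circle × ℕ → ℂ) (z, l)) 2 (σ.restrict E) :=
    ((Lp.memLp F).restrict (E ×ˢ ({l} : Set ℕ))).comp_measurePreserving (mp_mk σ m hm E hE l hEl)
  have h1 := h (hFm.toLp _)
  rw [L2.inner_def] at h1
  have h2 := hV (hFm.toLp _)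
  have h3 : ∀ᵐ p ∂(fibred σ m), p ∈ E ×ˢ ({l} : Set ℕ) →
      (hFm.toLp _ : Circle → ℂ) p.1 = (F : Circle × ℕ → ℂ) (p.1, l) := by
    have h1 := (mp_fst σ m hm E hE l hEl).quasiMeasurePreserving.ae hFm.coeFn_toLp
    rwa [ae_restrict_iff' hS] at h1
  have h4 : ∫ p, inner ℂ ((V (hFm.toLp _) : Circle × ℕ → ℂ) p) ((F : Circle × ℕ → ℂ) p)
      ∂(fibred σ m) = ((∫ p in E ×ˢ ({l} : Set ℕ), ‖(F : Circle × ℕ → ℂ) p‖ ^ 2 ∂(fibred σ m) :
        ℝ) : ℂ) := by
    rw [← integral_complex_ofReal, ← integral_indicator hS]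
    refine integral_congr_ae ?_
    filter_upwards [h2, h3] with p e1 e2
    rw [e1]
    by_cases hp : p ∈ E ×ˢ ({l} : Set ℕ)
    · rw [Set.indicator_of_mem hp, Set.indicator_of_mem hp, e2 hp]
      have hpl : (p.1, l) = p := by
        have : p.2 = l := hp.2
        rw [← this]
      rw [hpl]
      rw [inner_self_eq_norm_sq_to_K]
      simp
    · rw [Set.indicator_of_notMem hp, Set.indicator_of_notMem hp, inner_zero_left]
  rw [h4] at h1
  have h5 : ∫ p in E ×ˢ ({l} : Set ℕ), ‖(F : Circle × ℕ → ℂ) p‖ ^ 2 ∂(fibred σ m) = 0 := by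
    exact_mod_cast h1
  have hint : Integrable (fun p => ‖(F : Circle × ℕ → ℂ) p‖ ^ 2)
      ((fibred σ m).restrict (E ×ˢ ({l} : Set ℕ))) := by
    have h6 := ((Lp.memLp F).restrict (E ×ˢ ({l} : Set ℕ))).integrable_norm_pow (by norm_num)
    simpa using h6
  rw [integral_eq_zero_iff_of_nonneg (fun p => by positivity) hint] at h5
  have h6 := (ae_restrict_iff' hS).1 h5
  filter_upwards [h6] with p hp hpS
  have h7 : ‖(F : Circle × ℕ → ℂ) p‖ ^ 2 = 0 := hp hpS
  have h8 := pow_eq_zero_iff (two_ne_zero) |>.1 h7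
  exact norm_eq_zero.1 h8

/-- conversion of a decomposition into pieces to the direct integral -/
theorem to_fibred {H : Type} [NormedAddCommGroup H] [InnerProductSpace ℂ H] [CompleteSpace H]
    (U : H ≃ₗᵢ[ℂ] H) (K : Submodule ℂ H) (hK : IsClosed (K : Set H)) {ι : Type} [Countable ι]
    (σ : ι → Measure Circle) (hfin : ∀ i, IsFiniteMeasure (σ i)) (hne : ∀ i, σ i ≠ 0)
    (hsing : Pairwise fun i j => σ i ⟂ₘ σ j) (n : ι → ℕ) (hn : ∀ i, 0 < n i)
    (V : ∀ p : (Σ i, Fin (n i)), Lp ℂ 2 (σ p.1) →ₗᵢ[ℂ] H) (hV : ∀ p, Intw U (σ p.1) (V p))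
    (hVK : ∀ p h, V p h ∈ K) (horth : ∀ p q, p ≠ q → ∀ h k, inner ℂ (V p h) (V q k) = 0)
    (htot : ∀ F ∈ K, (∀ p h, inner ℂ (V p h) F = 0) → F = 0) :
    ∃ (τ : Measure Circle) (m : Circle → ℕ∞), IsFiniteMeasure τ ∧
      (∀ k, MeasurableSet (m ⁻¹' {k})) ∧ (∀ z, 1 ≤ m z) ∧
      {k | τ (m ⁻¹' {k}) ≠ 0} = Set.range (fun i => (n i : ℕ∞)) ∧
      ∃ W : K ≃ₗᵢ[ℂ] Lp ℂ 2 (fibred τ m), ∀ f f' : K, (f' : H) = U f →
        (W f' : Circle × ℕ → ℂ) =ᵐ[fibred τ m] fun p => (p.1 : ℂ) *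
          (W f : Circle × ℕ → ℂ) p := by
  classical
  obtain ⟨E, hEm, hEd, hE0⟩ := exists_supports σ hsing
  obtain ⟨δ, hδ0, hδ⟩ := ENNReal.exists_pos_tsum_mul_lt_of_countable (ε := 1) one_ne_zero
    (fun i => σ i Set.univ) (fun i => measure_ne_top _ _)
  set τ : Measure Circle := Measure.sum fun i => (δ i : ℝ≥0∞) • σ i with hτ
  have hτapp : ∀ A, MeasurableSet A → τ A = ∑' i, (δ i : ℝ≥0∞) * σ i A := by
    intro A hA
    rw [hτ, Measure.sum_apply _ hA]
    rfl
  have hτfin : IsFiniteMeasure τ := by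
    constructor
    rw [hτapp _ MeasurableSet.univ]
    refine lt_of_le_of_lt (le_of_eq ?_) (hδ.trans ENNReal.one_lt_top)
    exact tsum_congr fun i => mul_comm _ _
  -- measure of pieces
  have hτE : ∀ i A, MeasurableSet A → τ (A ∩ E i) = (δ i : ℝ≥0∞) * σ i A := by
    intro i A hA
    rw [hτapp _ (hA.inter (hEm i)), tsum_eq_single i]
    · congr 1
      have h1 := measure_inter_add_sdiff (μ := σ i) A (hEm i)
      have h2 : σ i (A \ E i) = 0 := measure_mono_null (fun z hz => hz.2) (hE0 i)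
      rw [h2, add_zero] at h1
      exact h1
    · intro j hj
      have h1 : σ j (A ∩ E i) = 0 := by
        refine measure_mono_null (fun z hz => ?_) (hE0 j)
        exact Set.disjoint_left.1 (hEd hj.symm) hz.2
      rw [h1, mul_zero]
  have hδ0' : ∀ i, (δ i : ℝ≥0∞) ≠ 0 := fun i => by
    have := hδ0 i
    exact_mod_cast this.ne'
  have hcompl : τ (⋃ i, E i)ᶜ = 0 := by
    rw [hτapp _ (MeasurableSet.iUnion hEm).compl, ENNReal.tsum_eq_zero]
    intro i
    have h1 : σ i (⋃ i, E i)ᶜ = 0 := by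
      refine measure_mono_null (fun z hz => ?_) (hE0 i)
      intro hz'
      exact hz (Set.mem_iUnion.2 ⟨i, hz'⟩)
    rw [h1, mul_zero]
  -- the multiplicity function
  let m : Circle → ℕ∞ := fun z => if h : ∃ i, z ∈ E i then (n h.choose : ℕ∞) else 1
  have hmE : ∀ i, ∀ z ∈ E i, m z = n i := by
    intro i z hz
    have h : ∃ i, z ∈ E i := ⟨i, hz⟩
    have h1 := h.choose_spec
    have h2 : h.choose = i := by
      by_contra hcon
      exact Set.disjoint_left.1 (hEd hcon) h1 hz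
    show (if h : ∃ i, z ∈ E i then (n h.choose : ℕ∞) else 1) = n i
    rw [dif_pos h, h2]
  have hmN : ∀ z, z ∉ (⋃ i, E i) → m z = 1 := by
    intro z hz
    show (if h : ∃ i, z ∈ E i then (n h.choose : ℕ∞) else 1) = 1
    rw [dif_neg]
    rintro ⟨i, hi⟩
    exact hz (Set.mem_iUnion.2 ⟨i, hi⟩)
  have hpre : ∀ k : ℕ∞, m ⁻¹' {k} = (⋃ i ∈ {i | (n i : ℕ∞) = k}, E i) ∪
      (if (1 : ℕ∞) = k then (⋃ i, E i)ᶜ else ∅) := by
    intro k
    ext z
    simp only [Set.mem_preimage, Set.mem_singleton_iff, Set.mem_union, Set.mem_iUnion,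
      Set.mem_ofPred_eq, exists_prop]
    by_cases hz : z ∈ ⋃ i, E i
    · obtain ⟨i, hi⟩ := Set.mem_iUnion.1 hz
      rw [hmE i z hi]
      constructor
      · intro h
        exact Or.inl ⟨i, h, hi⟩
      · rintro (⟨j, hj, hjz⟩ | h)
        · have : j = i := by
            by_contra hcon
            exact Set.disjoint_left.1 (hEd hcon) hjz hi
          rw [← this]; exact hj
        · split_ifs at h with h1
          · exact absurd hz h
          · exact absurd h (Set.notMem_empty _)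
    · rw [hmN z hz]
      constructor
      · intro h
        right
        rw [if_pos h]
        exact hz
      · rintro (⟨j, hj, hjz⟩ | h)
        · exact absurd (Set.mem_iUnion.2 ⟨j, hjz⟩) hz
        · split_ifs at h with h1
          · exact h1
          · exact absurd h (Set.notMem_empty _)
  have hmm : ∀ k, MeasurableSet (m ⁻¹' {k}) := by
    intro k
    rw [hpre k]
    refine (MeasurableSet.biUnion (Set.to_countable _) fun i _ => hEm i).union ?_
    split_ifs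
    · exact (MeasurableSet.iUnion hEm).compl
    · exact MeasurableSet.empty
  have hm1 : ∀ z, 1 ≤ m z := by
    intro z
    by_cases hz : z ∈ ⋃ i, E i
    · obtain ⟨i, hi⟩ := Set.mem_iUnion.1 hz
      rw [hmE i z hi]
      exact_mod_cast hn i
    · rw [hmN z hz]
  have hess : {k | τ (m ⁻¹' {k}) ≠ 0} = Set.range (fun i => (n i : ℕ∞)) := by
    ext k
    simp only [Set.mem_ofPred_eq, Set.mem_range]
    constructor
    · intro h
      by_contra hcon
      push Not at hcon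
      apply h
      refine measure_mono_null (fun z hz => ?_) hcompl
      intro hz'
      obtain ⟨i, hi⟩ := Set.mem_iUnion.1 hz'
      have h1 : m z = k := hz
      rw [hmE i z hi] at h1
      exact hcon i h1
    · rintro ⟨i, rfl⟩ h
      have h1 : τ (E i) = 0 := by
        refine measure_mono_null (fun z hz => ?_) h
        exact hmE i z hz
      have h2 := hτE i Set.univ MeasurableSet.univ
      rw [Set.univ_inter, h1] at h2
      rcases mul_eq_zero.1 h2.symm with h3 | h3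
      · exact hδ0' i h3
      · exact hne i (Measure.measure_univ_eq_zero.1 h3)
  -- equivalence of the measures
  have hac1 : ∀ i, σ i ≪ τ.restrict (E i) := by
    intro i
    refine Measure.AbsolutelyContinuous.mk fun A hA h => ?_
    rw [Measure.restrict_apply hA, hτE i A hA] at h
    exact (mul_eq_zero.1 h).resolve_left (hδ0' i)
  have hac2 : ∀ i, τ.restrict (E i) ≪ σ i := by
    intro i
    refine Measure.AbsolutelyContinuous.mk fun A hA h => ?_
    rw [Measure.restrict_apply hA, hτE i A hA, h, mul_zero]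
  choose g A hA using fun i => SM345.csp_stepA (σ i) (τ.restrict (E i)) (hac1 i) (hac2 i)
  -- pieces in `H`
  let V₁ : ∀ p : (Σ i, Fin (n i)), Lp ℂ 2 (τ.restrict (E p.1)) →ₗᵢ[ℂ] H := fun p =>
    (V p).comp (A p.1).symm.toLinearIsometry
  have hV₁ : ∀ p, Intw U (τ.restrict (E p.1)) (V₁ p) := by
    intro p f f' hff
    show V p ((A p.1).symm f') = U (V p ((A p.1).symm f))
    refine hV p _ _ ?_
    obtain ⟨h', hh'⟩ := mul_exists (σ p.1) (fun z => (z : ℂ)) continuous_subtype_val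
      ((A p.1).symm f)
    have e : A p.1 h' = f' := by
      apply Lp.ext
      have e1 := hA p.1 ((A p.1).symm f)
      rw [LinearIsometryEquiv.apply_symm_apply] at e1
      filter_upwards [hA p.1 h', hff, e1, (hac2 p.1).ae_le hh'] with z z1 z2 z3 z4
      rw [z1, z2, z3, z4]
      ring
    have e' : (A p.1).symm f' = h' := by rw [← e, LinearIsometryEquiv.symm_apply_apply]
    rw [e']
    exact hh'
  obtain ⟨W₁, hW₁⟩ := hilbert_sum U K hK (fun p : (Σ i, Fin (n i)) => τ.restrict (E p.1)) V₁ hV₁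
    (fun p h => hVK p _) (fun p q hpq h k => horth p q hpq _ _) (by
      intro F hF h
      refine htot F hF fun p k => ?_
      have h1 := h p (A p.1 k)
      have h2 : V₁ p (A p.1 k) = V p k := by
        show V p ((A p.1).symm (A p.1 k)) = V p k
        rw [LinearIsometryEquiv.symm_apply_apply]
      rwa [h2] at h1)
  -- pieces in the direct integral
  have hlt : ∀ p : (Σ i, Fin (n i)), ∀ z ∈ E p.1, ((p.2 : ℕ) : ℕ∞) < m z := by
    intro p z hz
    rw [hmE p.1 z hz]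
    exact_mod_cast p.2.2
  choose V₂ hV₂ using fun p : (Σ i, Fin (n i)) => exists_slice τ m hmm (E p.1) (hEm p.1) p.2 (hlt p)
  obtain ⟨U', hU'⟩ := exists_mulz (fibred τ m) (fun p => (p.1 : ℂ))
    (by
      have hc : Continuous (fun w : Circle => (w : ℂ)) := by fun_prop
      exact hc.measurable.comp measurable_fst) (fun p => Circle.norm_coe _)
  have hV₂i : ∀ p, Intw U' (τ.restrict (E p.1)) (V₂ p) := by
    intro p f f' hff
    apply Lp.ext
    have h1 := (mp_fst τ m hmm (E p.1) (hEm p.1) p.2 (hlt p)).quasiMeasurePreserving.ae hff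
    rw [ae_restrict_iff' ((hEm p.1).prod (measurableSet_singleton _))] at h1
    filter_upwards [hV₂ p f, hV₂ p f', hU' (V₂ p f), h1] with x x1 x2 x3 x4
    rw [x2, x3, x1]
    by_cases hx : x ∈ E p.1 ×ˢ ({(p.2 : ℕ)} : Set ℕ)
    · rw [Set.indicator_of_mem hx, Set.indicator_of_mem hx, x4 hx]
    · rw [Set.indicator_of_notMem hx, Set.indicator_of_notMem hx, mul_zero]
  have hdisj : ∀ p q : (Σ i, Fin (n i)), p ≠ q →
      Disjoint (E p.1 ×ˢ ({(p.2 : ℕ)} : Set ℕ)) (E q.1 ×ˢ ({(q.2 : ℕ)} : Set ℕ)) := by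
    rintro ⟨i, a⟩ ⟨j, b⟩ hpq
    rw [Set.disjoint_left]
    rintro x ⟨h1, h2⟩ ⟨h3, h4⟩
    have hij : i = j := by
      by_contra hcon
      exact Set.disjoint_left.1 (hEd hcon) h1 h3
    subst hij
    apply hpq
    have h5 : x.2 = (a : ℕ) := h2
    have h6 : x.2 = (b : ℕ) := h4
    have : a = b := Fin.ext (h5.symm.trans h6)
    rw [this]
  obtain ⟨W₂, hW₂⟩ := hilbert_sum U' ⊤ isClosed_univ
    (fun p : (Σ i, Fin (n i)) => τ.restrict (E p.1)) V₂ hV₂i (fun p h => trivial)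
    (fun p q hpq h k => slices_orth τ m _ _ _ _ (hdisj p q hpq) _ _ _ _ (hV₂ p h) (hV₂ q k)) (by
      intro F _ h
      apply Lp.ext
      have h1 : ∀ᵐ x ∂(fibred τ m), ∀ p : (Σ i, Fin (n i)),
          x ∈ E p.1 ×ˢ ({(p.2 : ℕ)} : Set ℕ) → (F : Circle × ℕ → ℂ) x = 0 :=
        ae_all_iff.2 fun p => slice_zero τ m hmm (E p.1) (hEm p.1) p.2 (hlt p) (V₂ p) (hV₂ p) F (h p)
      have h2 : ∀ᵐ x ∂(fibred τ m), x.1 ∈ ⋃ i, E i := by
        have h3 : ∀ᵐ x ∂(τ.prod (Measure.count : Measure ℕ)), x.1 ∈ ⋃ i, E i := by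
          have h4 : ∀ᵐ z ∂τ, z ∈ ⋃ i, E i := by
            rw [ae_iff]
            exact hcompl
          exact Measure.quasiMeasurePreserving_fst.ae h4
        exact ae_restrict_of_ae h3
      have h3 : ∀ᵐ x ∂(fibred τ m), (x.2 : ℕ∞) < m x.1 := by
        unfold fibred
        exact ae_restrict_mem (meas_region m hmm)
      filter_upwards [h1, h2, h3, Lp.coeFn_zero ℂ 2 (fibred τ m)] with x x1 x2 x3 x4
      rw [x4]
      obtain ⟨i, hi⟩ := Set.mem_iUnion.1 x2
      rw [hmE i x.1 hi] at x3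
      have h5 : x.2 < n i := by exact_mod_cast x3
      exact x1 ⟨i, ⟨x.2, h5⟩⟩ ⟨hi, rfl⟩)
  -- composition
  let T : (⊤ : Submodule ℂ (Lp ℂ 2 (fibred τ m))) ≃ₗᵢ[ℂ] Lp ℂ 2 (fibred τ m) :=
    LinearIsometryEquiv.mk Submodule.topEquiv (fun x => rfl)
  refine ⟨τ, m, hτfin, hmm, hm1, hess, (W₁.trans W₂.symm).trans T, ?_⟩
  intro f f' hff
  set x : (⊤ : Submodule ℂ (Lp ℂ 2 (fibred τ m))) := W₂.symm (W₁ f) with hx
  set x' : (⊤ : Submodule ℂ (Lp ℂ 2 (fibred τ m))) := W₂.symm (W₁ f') with hx'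
  have h1 := hW₂ x ⟨U' x, trivial⟩ rfl
  have h2 := hW₁ f f' hff
  have h3 : W₂ ⟨U' x, trivial⟩ = W₁ f' := by
    apply lp.ext
    funext p
    apply Lp.ext
    refine (h1 p).trans ?_
    rw [hx, W₂.apply_symm_apply]
    exact (h2 p).symm
  have h4 : x' = ⟨U' x, trivial⟩ := by
    rw [hx', ← h3, W₂.symm_apply_apply]
  show ((x' : (⊤ : Submodule ℂ (Lp ℂ 2 (fibred τ m)))) : Lp ℂ 2 (fibred τ m)) =ᵐ[fibred τ m] _
  rw [h4]
  exact hU' (x : Lp ℂ 2 (fibred τ m))

end MS723
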