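import Pool.Agent.H723R2.Om
import Pool.Agent.Helper345.SM.exists_unif
import Pool.Agent.Helper345.SM.exists_lim
import Pool.Agent.Helper345.SM.isLim_koop

/-! Error estimates and existence of the limit objects. -/

set_option autoImplicit false
set_option linter.unusedVariables false

open MeasureTheory Filter Topology
open scoped ENNReal NNReal

noncomputable section

namespace MS723

open SM345 (XX UnifMeas errs J IsLim Koop)

variable (P : Par)

/-- speed of approximation -/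
def dd (n : ℕ) : ℝ := 2 * Real.sqrt (∑' m, ee P (n + m))

theorem NnR (n : ℕ) : (2 : ℝ) ≤ Nn P n := by exact_mod_cast Nn_two P n
theorem BnR (n : ℕ) : (4096 : ℝ) ≤ Bn P n := by exact_mod_cast B_ge2 P n

theorem ee_pos (n : ℕ) : 0 < ee P n := by
  unfold ee
  have h1 := NnR P n
  have h2 := BnR P n
  positivity

theorem Bn_mono (n : ℕ) : Bn P n ≤ Bn P (n + 1) := by
  show Pd P n * (Nn P n * (n + 1)) ^ 12 ≤ Pd P (n + 1) * (Nn P (n + 1) * (n + 1 + 1)) ^ 12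
  have h1 : Pd P n ≤ Pd P (n + 1) := by
    unfold Pd
    have h2 : KK P n ≤ KK P (n + 1) := Nat.le_of_dvd (KK_pos P _) (KK_dvd P (Nat.le_succ n))
    have h3 : EE P n ≤ EE P (n + 1) := by
      unfold EE
      rw [Finset.prod_range_succ]
      exact Nat.le_mul_of_pos_right _ (P.hp n).pos
    exact Nat.mul_le_mul_left _ (Nat.mul_le_mul h2 h3)
  have h4 := Nn_two_mul P n
  exact Nat.mul_le_mul h1 (Nat.pow_le_pow_left (Nat.mul_le_mul (by omega) (by omega)) _)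

theorem ee_half (n : ℕ) : ee P (n + 1) ≤ ee P n * (1 / 2) := by
  unfold ee
  have h1 := NnR P n
  have h2 := BnR P n
  have h3 : (2:ℝ) * (Nn P n : ℝ) ≤ (Nn P (n+1) : ℝ) := by exact_mod_cast Nn_two_mul P n
  have h4 : (Bn P n : ℝ) ≤ (Bn P (n+1) : ℝ) := by exact_mod_cast Bn_mono P n
  have h5 : (2 * (Nn P n : ℝ)) * (Bn P n : ℝ) ≤ (Nn P (n+1) : ℝ) * (Bn P (n+1) : ℝ) := by
    apply mul_le_mul h3 h4 (by linarith) (by linarith)
  have h6 : 0 < (2 * (Nn P n : ℝ)) * (Bn P n : ℝ) := by positivity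
  calc (4:ℝ) / ((Nn P (n+1) : ℝ) * (Bn P (n+1) : ℝ)) ≤ 4 / ((2 * (Nn P n : ℝ)) * (Bn P n : ℝ)) := by
        apply div_le_div_of_nonneg_left (by norm_num) h6 h5
    _ = 4 / ((Nn P n : ℝ) * (Bn P n : ℝ)) * (1 / 2) := by
        field_simp

theorem ee_geo (n m : ℕ) : ee P (n + m) ≤ ee P n * (1 / 2) ^ m := by
  induction m with
  | zero => simp
  | succ m ih =>
    have := ee_half P (n + m)
    calc ee P (n + (m + 1)) = ee P (n + m + 1) := by rw [add_assoc]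
      _ ≤ ee P (n + m) * (1 / 2) := this
      _ ≤ ee P n * (1 / 2) ^ m * (1 / 2) := by
          apply mul_le_mul_of_nonneg_right ih (by norm_num)
      _ = ee P n * (1 / 2) ^ (m + 1) := by ring

theorem ee_sum (n : ℕ) : Summable (fun m => ee P (n + m)) := by
  apply Summable.of_nonneg_of_le (fun m => (ee_pos P (n + m)).le) (ee_geo P n)
  exact (summable_geometric_of_lt_one (by norm_num) (by norm_num)).mul_left _

theorem ee_summable : Summable (ee P) := by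
  have := ee_sum P 0
  simpa using this

theorem ee_tsum (n : ℕ) : (∑' m, ee P (n + m)) ≤ 2 * ee P n := by
  have hs : Summable (fun m : ℕ => ee P n * (1 / 2 : ℝ) ^ m) :=
    (summable_geometric_of_lt_one (by norm_num) (by norm_num)).mul_left _
  calc (∑' m, ee P (n + m)) ≤ ∑' m : ℕ, ee P n * (1 / 2 : ℝ) ^ m :=
        Summable.tsum_le_tsum (ee_geo P n) (ee_sum P n) hs
    _ = ee P n * 2 := by
        rw [tsum_mul_left, tsum_geometric_two]
    _ = 2 * ee P n := by ring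

theorem dd_nonneg (n : ℕ) : 0 ≤ dd P n := by
  unfold dd; positivity

theorem dd_le (n : ℕ) : dd P n ≤ 2 * Real.sqrt (8 / ((Nn P n : ℝ) * (Bn P n : ℝ))) := by
  unfold dd
  have h := ee_tsum P n
  have h2 : 2 * ee P n = 8 / ((Nn P n : ℝ) * (Bn P n : ℝ)) := by
    unfold ee; ring
  rw [h2] at h
  exact mul_le_mul_of_nonneg_left (Real.sqrt_le_sqrt h) (by norm_num)

/-- the growth variable -/
def XX1 (n : ℕ) : ℝ := (Nn P n : ℝ) * ((n : ℝ) + 1)

theorem XX1_pos (n : ℕ) : 0 < XX1 P n := by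
  unfold XX1
  have := NnR P n
  positivity

theorem XX1_B (n : ℕ) : XX1 P n ^ 12 ≤ Bn P n := by
  have := Bn_two P n
  unfold XX1
  exact_mod_cast this

theorem dd1 (n : ℕ) : dd P n ≤ 4 / XX1 P n ^ 6 := by
  have hN := NnR P n
  have hX := XX1_pos P n
  have hB := XX1_B P n
  have hk : Real.sqrt (8 / ((Nn P n : ℝ) * (Bn P n : ℝ))) ≤ 2 / XX1 P n ^ 6 := by
    apply Real.sqrt_le_iff.2
    refine ⟨by positivity, ?_⟩
    rw [div_pow, ← pow_mul]
    have h3 : (0:ℝ) < XX1 P n ^ 12 := by positivity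
    have h4 : (0:ℝ) < Bn P n := by linarith
    rw [div_le_div_iff₀ (by positivity) (by positivity)]
    norm_num
    nlinarith
  calc dd P n ≤ 2 * Real.sqrt (8 / ((Nn P n : ℝ) * (Bn P n : ℝ))) := dd_le P n
    _ ≤ 2 * (2 / XX1 P n ^ 6) := mul_le_mul_of_nonneg_left hk (by norm_num)
    _ = _ := by ring

theorem dd2 (n : ℕ) : dd P (n + 1) ≤ 2 / ((lev P n).W : ℝ) := by
  have hW : (0:ℝ) < ((lev P n).W : ℝ) := by exact_mod_cast (lev P n).W_pos
  have hB := BnR P (n + 1)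
  have hNW : ((lev P n).W : ℝ) ^ 2 ≤ (Nn P (n+1) : ℝ) := by exact_mod_cast W_sq_le P n
  have hk : Real.sqrt (8 / ((Nn P (n+1) : ℝ) * (Bn P (n+1) : ℝ))) ≤ 1 / ((lev P n).W : ℝ) := by
    apply Real.sqrt_le_iff.2
    refine ⟨by positivity, ?_⟩
    have hN1 : (0:ℝ) < (Nn P (n+1) : ℝ) := by have := NnR P (n+1); linarith
    rw [div_pow, one_pow, div_le_div_iff₀ (mul_pos hN1 (by linarith)) (by positivity)]
    nlinarith [mul_nonneg (sub_nonneg.2 hNW) (by linarith : (0:ℝ) ≤ (Bn P (n+1) : ℝ)),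
      mul_nonneg (sub_nonneg.2 hB) (by positivity : (0:ℝ) ≤ ((lev P n).W : ℝ) ^ 2)]
  calc dd P (n+1) ≤ 2 * Real.sqrt (8 / ((Nn P (n+1) : ℝ) * (Bn P (n+1) : ℝ))) := dd_le P (n+1)
    _ ≤ 2 * (1 / ((lev P n).W : ℝ)) := mul_le_mul_of_nonneg_left hk (by norm_num)
    _ = _ := by ring

theorem lim_of_le (f : ℕ → ℝ) (h0 : ∀ n, 0 ≤ f n) (h1 : ∀ n, f n ≤ 4 / ((n:ℝ) + 1)) :
    Tendsto f atTop (𝓝 0) := by
  have h : Tendsto (fun n : ℕ => (4:ℝ) / ((n:ℝ) + 1)) atTop (𝓝 0) := by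
    have := (tendsto_one_div_add_atTop_nhds_zero_nat (𝕜 := ℝ)).const_mul 4
    simp only [mul_zero] at this
    refine this.congr (fun n => ?_)
    ring
  exact squeeze_zero h0 h1 h

theorem pow_ratio (n : ℕ) : (Nn P n : ℝ) ^ 5 / XX1 P n ^ 6 ≤ 1 / ((n : ℝ) + 1) := by
  have hN := NnR P n
  have h1 : (1:ℝ) ≤ (n:ℝ) + 1 := by
    have : (0:ℝ) ≤ (n:ℝ) := Nat.cast_nonneg n
    linarith
  unfold XX1
  rw [mul_pow, div_le_div_iff₀ (by positivity) (by linarith), one_mul]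
  have h2 : (n:ℝ) + 1 ≤ ((n:ℝ) + 1) ^ 6 := le_self_pow₀ h1 (by norm_num)
  have h3 : (Nn P n : ℝ) ^ 5 ≤ (Nn P n : ℝ) ^ 6 := pow_le_pow_right₀ (by linarith) (by norm_num)
  exact mul_le_mul h3 h2 (by linarith) (by positivity)

theorem lim_dd : Tendsto (fun n => (Nn P n : ℝ) ^ 5 * dd P n) atTop (𝓝 0) := by
  apply lim_of_le _ (fun n => mul_nonneg (by positivity) (dd_nonneg P n))
  intro n
  calc (Nn P n : ℝ) ^ 5 * dd P n ≤ (Nn P n : ℝ) ^ 5 * (4 / XX1 P n ^ 6) :=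
        mul_le_mul_of_nonneg_left (dd1 P n) (by positivity)
    _ = 4 * ((Nn P n : ℝ) ^ 5 / XX1 P n ^ 6) := by ring
    _ ≤ 4 * (1 / ((n : ℝ) + 1)) := mul_le_mul_of_nonneg_left (pow_ratio P n) (by norm_num)
    _ = _ := by ring

theorem one_le_N5 (n : ℕ) : (1 : ℝ) ≤ (Nn P n : ℝ) ^ 5 :=
  one_le_pow₀ (by have := NnR P n; linarith)

theorem lim_dd0 : Tendsto (dd P) atTop (𝓝 0) := by
  refine squeeze_zero (dd_nonneg P) (fun n => ?_) (lim_dd P)
  exact le_mul_of_one_le_left (dd_nonneg P n) (one_le_N5 P n)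

theorem lim_LL : Tendsto (fun n => (Nn P n : ℝ) ^ 5 *
    ((LL (Nn P n) (Bn P n) (Bn P n) : ℝ) * dd P (n+1))) atTop (𝓝 0) := by
  apply lim_of_le _ (fun n => mul_nonneg (by positivity) (mul_nonneg (by positivity) (dd_nonneg P _)))
  intro n
  have hN := NnR P n
  have hB : (0:ℝ) < (Bn P n : ℝ) := by have := BnR P n; linarith
  have hX := XX1_pos P n
  have eL : (LL (Nn P n) (Bn P n) (Bn P n) : ℝ) = (Nn P n : ℝ) * (Bn P n : ℝ) ^ (Bn P n + 1) := by
    unfold LL; push_cast; ring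
  have hW : (LL (Nn P n) (Bn P n) (Bn P n) : ℝ) * Bn P n ≤ ((lev P n).W : ℝ) := by
    have h1 : 1 ≤ P.m * KK P (n + 1) := Nat.mul_pos P.hm (KK_pos P _)
    have h2 : LL (Nn P n) (Bn P n) (Bn P n) * Bn P n ≤ (lev P n).W := by
      unfold LL Lev.W
      calc Nn P n * Bn P n ^ (Bn P n + 1) * Bn P n = 1 * (Nn P n * Bn P n ^ (Bn P n + 2)) := by ring
        _ ≤ P.m * KK P (n + 1) * (Nn P n * Bn P n ^ (Bn P n + 2)) := Nat.mul_le_mul_right _ h1
        _ = _ := by ring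
    exact_mod_cast h2
  have hW0 : (0:ℝ) < ((lev P n).W : ℝ) := by exact_mod_cast (lev P n).W_pos
  have hL0 : (0:ℝ) ≤ (LL (Nn P n) (Bn P n) (Bn P n) : ℝ) := by positivity
  have hq : (LL (Nn P n) (Bn P n) (Bn P n) : ℝ) * dd P (n+1) ≤ 2 / Bn P n := by
    calc _ ≤ (LL (Nn P n) (Bn P n) (Bn P n) : ℝ) * (2 / ((lev P n).W : ℝ)) :=
          mul_le_mul_of_nonneg_left (dd2 P n) hL0
      _ ≤ 2 / Bn P n := by
          rw [← mul_div_assoc, div_le_div_iff₀ hW0 hB]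
          nlinarith
  have h6 : (2 : ℝ) / Bn P n ≤ 2 / XX1 P n ^ 6 := by
    apply div_le_div_of_nonneg_left (by norm_num) (by positivity)
    refine le_trans ?_ (XX1_B P n)
    have h1 : (1:ℝ) ≤ XX1 P n := by
      unfold XX1
      have : (0:ℝ) ≤ (n:ℝ) := Nat.cast_nonneg n
      nlinarith
    exact pow_le_pow_right₀ h1 (by norm_num)
  calc _ ≤ (Nn P n : ℝ) ^ 5 * (2 / XX1 P n ^ 6) :=
        mul_le_mul_of_nonneg_left (hq.trans h6) (by positivity)
    _ = 2 * ((Nn P n : ℝ) ^ 5 / XX1 P n ^ 6) := by ring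
    _ ≤ 4 * (1 / ((n : ℝ) + 1)) := by
        have := pow_ratio P n
        have h0 : (0:ℝ) ≤ 1 / ((n : ℝ) + 1) := by positivity
        linarith
    _ = _ := by ring

theorem lim_B : Tendsto (fun n => (Nn P n : ℝ) ^ 5 * (1 / Real.sqrt (Bn P n))) atTop (𝓝 0) := by
  apply lim_of_le _ (fun n => by positivity)
  intro n
  have hX := XX1_pos P n
  have hsq : XX1 P n ^ 6 ≤ Real.sqrt (Bn P n) := by
    apply Real.le_sqrt_of_sq_le
    rw [← pow_mul]
    exact XX1_B P n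
  calc (Nn P n : ℝ) ^ 5 * (1 / Real.sqrt (Bn P n)) ≤ (Nn P n : ℝ) ^ 5 * (1 / XX1 P n ^ 6) := by
        apply mul_le_mul_of_nonneg_left _ (by positivity)
        exact div_le_div_of_nonneg_left (by norm_num) (by positivity) hsq
    _ = (Nn P n : ℝ) ^ 5 / XX1 P n ^ 6 := by ring
    _ ≤ 1 / ((n : ℝ) + 1) := pow_ratio P n
    _ ≤ 4 / ((n : ℝ) + 1) := by
        apply div_le_div_of_nonneg_right (by norm_num)
        positivity

/-- error rate of the averages -/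
def th (n : ℕ) : ℝ := (LL (Nn P n) (Bn P n) (Bn P n) : ℝ) * dd P (n+1) + 4 * (1 / Real.sqrt (Bn P n))

theorem th_nonneg (n : ℕ) : 0 ≤ th P n := by
  unfold th
  have := dd_nonneg P (n + 1)
  positivity

theorem lim_th5 : Tendsto (fun n => (Nn P n : ℝ) ^ 5 * th P n) atTop (𝓝 0) := by
  have h := (lim_LL P).add ((lim_B P).const_mul 4)
  simp only [mul_zero, add_zero] at h
  refine h.congr fun n => ?_
  unfold th
  ring

theorem lim_th : Tendsto (th P) atTop (𝓝 0) := by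
  refine squeeze_zero (th_nonneg P) (fun n => ?_) (lim_th5 P)
  exact le_mul_of_one_le_left (th_nonneg P n) (one_le_N5 P n)

/-- the limit space -/
abbrev X : Type := XX (Om P) (pP P)

/-- everything constructed from the levels -/
structure Ctx where
  μ : Measure (X P)
  hμ : UnifMeas μ
  G : X P ≃ᵐ X P
  hG : MeasurePreserving G μ μ
  US : Lp ℂ 2 μ ≃ₗᵢ[ℂ] Lp ℂ 2 μ
  Ut : ℕ → Lp ℂ 2 μ ≃ₗᵢ[ℂ] Lp ℂ 2 μ
  UR : ℕ → Lp ℂ 2 μ ≃ₗᵢ[ℂ] Lp ℂ 2 μ
  lS : IsLim hμ (sP P) (dd P) US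
  lt : ∀ j, IsLim hμ (tP P j) (dd P) (Ut j)
  lT : IsLim hμ (TP P) (dd P) (Koop G hG)
  lR : ∀ i, IsLim hμ (rP P i) (dd P) (UR i)

/-- the Koopman operator of the automorphism -/
abbrev Ctx.UT {P : Par} (c : Ctx P) : Lp ℂ 2 c.μ ≃ₗᵢ[ℂ] Lp ℂ 2 c.μ := Koop c.G c.hG

theorem ctx_exists : Nonempty (Ctx P) := by
  obtain ⟨μ, hμ⟩ := SM345.exists_unif (pP P)
    (fun n => (St P n).low * (St P n).K' * P.p n) (fiber_card P)
  have key : ∀ g : ∀ n, Equiv.Perm (Om P n), (∀ n, errs (pP P) g n ≤ ee P n) →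
      ∃ (G : X P ≃ᵐ X P) (hG : MeasurePreserving G μ μ), IsLim hμ g (dd P) (Koop G hG) := by
    intro g hg
    obtain ⟨G, hG, h⟩ := SM345.exists_lim hμ g (ee P) hg (ee_summable P)
    exact ⟨G, hG, SM345.isLim_koop hμ g (fun n => ∑' m, ee P (n + m)) G hG h⟩
  obtain ⟨Gs, hGs, ls⟩ := key (sP P) (errs_s P)
  obtain ⟨GT, hGT, lT⟩ := key (TP P) (errs_T P)
  choose Gr hGr lr using fun j => key (rP P j) (errs_r P j)
  choose Gt hGt lt using fun j => key (tP P j) (errs_t P j)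
  exact ⟨{ μ := μ, hμ := hμ, G := GT, hG := hGT, US := Koop Gs hGs, Ut := fun j => Koop (Gt j) (hGt j), UR := fun j => Koop (Gr j) (hGr j), lS := ls, lt := lt, lT := lT, lR := lr }⟩

end MS723
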