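import Pool.Agent.H723R2.Ops
import Pool.Agent.Helper345.SM.cyc_exists
import Pool.Agent.Helper345.SM.spec

/-! Cyclicity of `UT` on the spaces `Kd`, `d ≠ 0`. -/

set_option autoImplicit false
set_option linter.unusedVariables false

open MeasureTheory Filter Topology
open scoped ENNReal NNReal

noncomputable section

namespace MS723

open SM345 (XX UnifMeas errs J IsLim Koop opP cyc)

variable {P : Par} (c : Ctx P)

theorem QQ_contr (n : ℕ) (F : Lp ℂ 2 c.μ) : ‖opP c.UT (QQ P n) F‖ ≤ ‖F‖ := by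
  obtain ⟨omul, oadd, oC, oX, _, _, _, _⟩ := SM345.opP_basic c.UT
  have hB : 0 < Bn P n := Bn_pos P n
  rw [QQ, opP_sum]
  have h1 : ∀ i ∈ Finset.range (Bn P n),
      ‖opP c.UT (Polynomial.C (1 / (Bn P n : ℂ)) *
        Polynomial.X ^ (LL (Nn P n) (Bn P n) i)) F‖ ≤ (1 / (Bn P n : ℝ)) * ‖F‖ := by
    intro i _
    rw [omul, oC, oX, norm_smul, LinearIsometryEquiv.norm_map]
    apply le_of_eq
    congr 1
    rw [norm_div, norm_one, Complex.norm_natCast]
  refine (norm_sum_le _ _).trans ((Finset.sum_le_sum h1).trans ?_)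
  rw [Finset.sum_const, Finset.card_range, nsmul_eq_mul]
  have hB' : (Bn P n : ℝ) ≠ 0 := by exact_mod_cast hB.ne'
  rw [← mul_assoc, mul_one_div_cancel hB', one_mul]

theorem ccv_norm (n : ℕ) (d : Dd P) (ξ : ℕ) (hξ : ξ < P.m) : ‖ccv n d ξ‖ ≤ 1 := by
  set t : ℝ := ((wt P (P.fl n) ξ : ℕ) : ℝ) / (P.m : ℝ) with ht
  have hm : (0 : ℝ) < P.m := by exact_mod_cast P.hm
  have ht0 : 0 ≤ t := by positivity
  have ht1 : t ≤ 1 := by
    rw [ht, div_le_one hm]
    exact_mod_cast wt_le P (P.fl n) ξ hξ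
  have e : ccv n d ξ = ((1 - t : ℝ) : ℂ) + (t : ℂ) * eta n (P.β n) d := by
    unfold ccv
    rw [ht]
    push_cast
    ring
  rw [e]
  calc ‖((1 - t : ℝ) : ℂ) + (t : ℂ) * eta n (P.β n) d‖ ≤
      ‖((1 - t : ℝ) : ℂ)‖ + ‖(t : ℂ) * eta n (P.β n) d‖ := norm_add_le _ _
    _ ≤ (1 - t) + t * 1 := by
        rw [norm_mul, Complex.norm_real, Complex.norm_real, Real.norm_of_nonneg (by linarith),
          Real.norm_of_nonneg ht0]
        have := eta_norm n (P.β n) d
        gcongr
    _ = 1 := by ring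

/-- polynomials in the averages -/
theorem poly_avg (R : Polynomial ℂ) : ∃ D : ℝ, 0 ≤ D ∧ (∀ z : ℂ, ‖z‖ ≤ 1 → ‖R.eval z‖ ≤ D) ∧
    ∀ (n : ℕ) (d : Dd P) (hd : supp n d) (f : ZMod (Nn P n) → ℂ) (C : ℝ) (hf : ∀ u, ‖f u‖ ≤ C),
    ‖opP c.UT (R.comp (QQ P n)) (Jd c d n f) -
      Jd c d n (fun u => R.eval (ccv n d (u.val % P.m)) * f u)‖ ≤ D * (C * th P n) := by
  obtain ⟨omul, oadd, oC, oX, _, _, _, _⟩ := SM345.opP_basic c.UT
  induction R using Polynomial.induction_on with
  | C a =>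
    refine ⟨‖a‖, norm_nonneg _, fun z _ => by rw [Polynomial.eval_C], ?_⟩
    intro n d hd f C hf
    have hC : 0 ≤ C := (norm_nonneg _).trans (hf 0)
    rw [Polynomial.C_comp, oC]
    simp only [Polynomial.eval_C]
    rw [Jd_smul, sub_self, norm_zero]
    have := th_nonneg P n
    positivity
  | add p q ihp ihq =>
    obtain ⟨D, h0, h1, h2⟩ := ihp
    obtain ⟨D', h0', h1', h2'⟩ := ihq
    refine ⟨D + D', by positivity, fun z hz => ?_, ?_⟩
    · rw [Polynomial.eval_add]
      exact (norm_add_le _ _).trans (add_le_add (h1 z hz) (h1' z hz))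
    · intro n d hd f C hf
      rw [Polynomial.add_comp, oadd]
      have e : Jd c d n (fun u => (p + q).eval (ccv n d (u.val % P.m)) * f u) =
          Jd c d n (fun u => p.eval (ccv n d (u.val % P.m)) * f u) +
          Jd c d n (fun u => q.eval (ccv n d (u.val % P.m)) * f u) := by
        rw [← Jd_add]
        congr 1
        funext u
        rw [Polynomial.eval_add]
        ring
      rw [e]
      calc _ = ‖(opP c.UT (p.comp (QQ P n)) (Jd c d n f) -
            Jd c d n (fun u => p.eval (ccv n d (u.val % P.m)) * f u)) +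
            (opP c.UT (q.comp (QQ P n)) (Jd c d n f) -
            Jd c d n (fun u => q.eval (ccv n d (u.val % P.m)) * f u))‖ := by
            congr 1; abel
        _ ≤ D * (C * th P n) + D' * (C * th P n) :=
            (norm_add_le _ _).trans (add_le_add (h2 n d hd f C hf) (h2' n d hd f C hf))
        _ = _ := by ring
  | monomial k a ih =>
    obtain ⟨D, h0, h1, h2⟩ := ih
    refine ⟨2 * D, by positivity, fun z hz => ?_, ?_⟩
    · have h3 := h1 z hz
      rw [Polynomial.eval_mul, Polynomial.eval_C, Polynomial.eval_pow, Polynomial.eval_X] at h3 ⊢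
      rw [pow_succ, ← mul_assoc, norm_mul]
      calc ‖a * z ^ k‖ * ‖z‖ ≤ D * 1 := mul_le_mul h3 hz (norm_nonneg _) h0
        _ ≤ 2 * D := by linarith
    · intro n d hd f C hf
      have hC : 0 ≤ C := (norm_nonneg _).trans (hf 0)
      set S : Polynomial ℂ := Polynomial.C a * Polynomial.X ^ k with hS
      have e0 : (Polynomial.C a * Polynomial.X ^ (k + 1) : Polynomial ℂ).comp (QQ P n) =
          QQ P n * S.comp (QQ P n) := by
        have : (Polynomial.C a * Polynomial.X ^ (k + 1) : Polynomial ℂ) = Polynomial.X * S := by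
          rw [hS]; ring
        rw [this, Polynomial.mul_comp, Polynomial.X_comp]
      rw [e0, omul]
      set G : ZMod (Nn P n) → ℂ := fun u => S.eval (ccv n d (u.val % P.m)) * f u with hG
      have hGb : ∀ u, ‖G u‖ ≤ D * C := by
        intro u
        rw [hG]
        simp only
        rw [norm_mul]
        exact mul_le_mul (h1 _ (ccv_norm n d _ (Nat.mod_lt _ P.hm))) (hf u) (norm_nonneg _) h0
      have e1 : (fun u : ZMod (Nn P n) => (Polynomial.C a * Polynomial.X ^ (k + 1) :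
          Polynomial ℂ).eval (ccv n d (u.val % P.m)) * f u) =
          fun u => ccv n d (u.val % P.m) * G u := by
        funext u
        rw [hG, hS]
        simp only [Polynomial.eval_mul, Polynomial.eval_C, Polynomial.eval_pow, Polynomial.eval_X]
        ring
      rw [e1]
      have k1 := avg c n d hd G (D * C) hGb
      have k2 := QQ_contr c n (opP c.UT (S.comp (QQ P n)) (Jd c d n f) - Jd c d n G)
      have k3 := h2 n d hd f C hf
      have hsub : ∀ F G : Lp ℂ 2 c.μ, opP c.UT (QQ P n) F - opP c.UT (QQ P n) G =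
          opP c.UT (QQ P n) (F - G) := by
        intro F G
        simp only [opP, map_sub, smul_sub, Finset.sum_sub_distrib]
      have e2 : opP c.UT (QQ P n) (opP c.UT (S.comp (QQ P n)) (Jd c d n f)) -
          Jd c d n (fun u => ccv n d (u.val % P.m) * G u) =
          opP c.UT (QQ P n) (opP c.UT (S.comp (QQ P n)) (Jd c d n f) - Jd c d n G) +
          (opP c.UT (QQ P n) (Jd c d n G) - Jd c d n (fun u => ccv n d (u.val % P.m) * G u)) := by
        rw [← hsub]; abel
      rw [e2]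
      calc _ ≤ ‖opP c.UT (QQ P n) (opP c.UT (S.comp (QQ P n)) (Jd c d n f) - Jd c d n G)‖ +
            ‖opP c.UT (QQ P n) (Jd c d n G) - Jd c d n (fun u => ccv n d (u.val % P.m) * G u)‖ :=
            norm_add_le _ _
        _ ≤ D * (C * th P n) + D * C * th P n := add_le_add (k2.trans k3) k1
        _ = _ := by ring

/-! ### delta functions -/

/-- delta function at the class of `y` -/
def dl (n j : ℕ) : ZMod (Nn P n) → ℂ := fun u =>
  if u.val % P.m = j then (if u.val < P.m then 1 else 0) else 0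

theorem cyc_one (n : ℕ) (d : Dd P) (y : ZMod (Nn P n)) : ∃ (k : ℕ) (w : ℂ), ‖w‖ = 1 ∧
    ‖Jd c d n (fun u => if u = y then 1 else 0) - w • (c.UT ^ k) (Jd c d n
      (dl n (y.val % P.m)))‖ ≤ (Nn P n : ℝ) * dd P n := by
  obtain ⟨q, hq⟩ := m_dvd_Nn P n
  have hm := P.hm
  have hyv := ZMod.val_lt y
  have hj : y.val % P.m < P.m := Nat.mod_lt _ hm
  have hdec := Nat.mod_add_div y.val P.m
  have hyq : y.val / P.m < q := by
    rw [Nat.div_lt_iff_lt_mul hm, mul_comm q P.m, ← hq]
    exact hyv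
  have hmN : P.m ≤ Nn P n := by
    rw [hq]
    exact Nat.le_mul_of_pos_right _ ((Nat.zero_le _).trans_lt hyq)
  set k := q - y.val / P.m with hk
  have hyk : y.val + P.m * k = y.val % P.m + Nn P n := by
    have e0 : P.m * k = P.m * q - P.m * (y.val / P.m) := by rw [hk, Nat.mul_sub]
    have : P.m * (y.val / P.m) ≤ P.m * q := Nat.mul_le_mul_left _ hyq.le
    omega
  have hkN : k ≤ Nn P n := by
    have : q ≤ Nn P n := by rw [hq]; exact Nat.le_mul_of_pos_left _ hm
    exact (Nat.sub_le _ _).trans this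
  have hyk' : y + ((P.m * k : ℕ) : ZMod (Nn P n)) = ((y.val % P.m : ℕ) : ZMod (Nn P n)) := by
    have h1 : ((y.val + P.m * k : ℕ) : ZMod (Nn P n)) =
        ((y.val % P.m + Nn P n : ℕ) : ZMod (Nn P n)) := by rw [hyk]
    rw [Nat.cast_add, Nat.cast_add, ZMod.natCast_self, add_zero, ZMod.natCast_zmod_val] at h1
    exact h1
  have hg : ∀ u : ZMod (Nn P n), dl n (y.val % P.m) u =
      if u = ((y.val % P.m : ℕ) : ZMod (Nn P n)) then (1:ℂ) else 0 := by
    intro u
    unfold dl
    have hv : (((y.val % P.m : ℕ) : ZMod (Nn P n))).val = y.val % P.m :=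
      ZMod.val_cast_of_lt (by omega)
    have hu : u = ((y.val % P.m : ℕ) : ZMod (Nn P n)) ↔ u.val = y.val % P.m := by
      constructor
      · intro h; rw [h, hv]
      · intro h; apply ZMod.val_injective; rw [hv, h]
    by_cases h1 : u.val = y.val % P.m
    · rw [if_pos (hu.mpr h1), if_pos (by rw [h1, Nat.mod_mod]), if_pos (by omega)]
    · rw [if_neg (fun h => h1 (hu.mp h))]
      by_cases h2 : u.val % P.m = y.val % P.m
      · rw [if_pos h2, if_neg]
        intro h3
        rw [Nat.mod_eq_of_lt h3] at h2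
        exact h1 h2
      · rw [if_neg h2]
  set a : ℂ := ch n d (fun j => ∑ h ∈ Finset.range k, ph P n (y.val + P.m * h) j) with ha
  have han : ‖a‖ = 1 := ch_norm _ _ _
  have ha0 : a ≠ 0 := by intro h; rw [h, norm_zero] at han; exact zero_ne_one han
  refine ⟨k, a⁻¹, by rw [norm_inv, han, inv_one], ?_⟩
  have hpow := SM345.isLim_pow c.hμ (TP P) (dd P) c.UT c.lT n k (bf n d (dl n (y.val % P.m))) 1
    (bf_bound n d _ 1 (fun u => by unfold dl; split_ifs <;> simp))
  have hcomp : (fun z => bf n d (dl n (y.val % P.m)) (((TP P n) ^ k) z)) =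
      fun z => a * bf n d (fun u => if u = y then (1:ℂ) else 0) z := by
    funext z
    rw [TP_pow]
    unfold bf
    simp only
    rw [hg, ch_add n d z.2 (fun j => ∑ h ∈ Finset.range k, ph P n (z.1.val + P.m * h) j)]
    by_cases hz : z.1 = y
    · rw [if_pos, if_pos hz, ha, hz]
      · ring
      · rw [hz, Nat.cast_add, ZMod.natCast_zmod_val, hyk']
    · rw [if_neg, if_neg hz]
      · ring
      · intro h
        apply hz
        rw [Nat.cast_add, ZMod.natCast_zmod_val, ← hyk'] at h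
        exact add_right_cancel h
  rw [hcomp, (SM345.J_basic c.hμ).2.1] at hpow
  have hfin : Jd c d n (fun u => if u = y then (1:ℂ) else 0) -
      a⁻¹ • (c.UT ^ k) (Jd c d n (dl n (y.val % P.m))) =
      a⁻¹ • (a • J c.hμ n (bf n d (fun u => if u = y then (1:ℂ) else 0))
          - (c.UT ^ k) (J c.hμ n (bf n d (dl n (y.val % P.m))))) := by
    rw [smul_sub, smul_smul, inv_mul_cancel₀ ha0, one_smul]
    rfl
  rw [hfin, norm_smul, norm_inv, han, inv_one, one_mul, norm_sub_rev]
  refine hpow.trans ?_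
  rw [one_mul]
  refine mul_le_mul_of_nonneg_right ?_ (dd_nonneg P n)
  exact_mod_cast hkN

theorem Jd_delta (n : ℕ) (d : Dd P) (f : ZMod (Nn P n) → ℂ) :
    Jd c d n f = ∑ y, f y • Jd c d n (fun u => if u = y then (1:ℂ) else 0) := by
  have h1 : ∀ y : ZMod (Nn P n), f y • Jd c d n (fun u => if u = y then (1:ℂ) else 0) =
      Jd c d n (fun u => f y * (if u = y then (1:ℂ) else 0)) := fun y => (Jd_smul c d n _ _).symm
  rw [Finset.sum_congr rfl fun y _ => h1 y, Jd_sum]
  congr 1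
  funext u
  simp

/-- approximation by polynomials in `UT` applied to one vector -/
theorem chi_cyc (d : Dd P) (η : ℂ) (hη : η ≠ 1) (m : ℕ) (hd : supp m d) (f : ZMod (Nn P m) → ℂ)
    (ε : ℝ) (hε : 0 < ε) :
    ∀ᶠ n in atTop, (P.fl n = false ∧ eta n (P.β n) d = η) → ∃ R : Polynomial ℂ,
      ‖Jd c d m f - opP c.UT R (Jd c d n (fun u => if u.val < P.m then 1 else 0))‖ < ε := by
  classical
  -- the values of `ccv`
  set v : ℕ → ℂ := fun ξ => 1 - ((ξ + 1 : ℕ) : ℂ) / (P.m : ℂ) * (1 - η) with hv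
  have hmC : (P.m : ℂ) ≠ 0 := by exact_mod_cast P.hm.ne'
  have hvinj : ∀ ξ ξ', v ξ = v ξ' → ξ = ξ' := by
    intro ξ ξ' h
    simp only [hv] at h
    have h1 : (1 - η) ≠ 0 := sub_ne_zero.2 (Ne.symm hη)
    have h2 : ((ξ + 1 : ℕ) : ℂ) / (P.m : ℂ) * (1 - η) = ((ξ' + 1 : ℕ) : ℂ) / (P.m : ℂ) * (1 - η) := by
      linear_combination -h
    have h3 := mul_right_cancel₀ h1 h2
    have h4 : ((ξ + 1 : ℕ) : ℂ) = ((ξ' + 1 : ℕ) : ℂ) := by
      field_simp at h3
      exact h3
    have h5 : ξ + 1 = ξ' + 1 := by exact_mod_cast h4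
    omega
  let R : ℕ → Polynomial ℂ := fun j => Lagrange.basis (Finset.range P.m) v j
  have hR : ∀ j < P.m, ∀ ξ < P.m, (R j).eval (v ξ) = if ξ = j then 1 else 0 := by
    intro j hj ξ hξ
    have hinj : Set.InjOn v (Finset.range P.m : Set ℕ) := fun a _ b _ h => hvinj a b h
    by_cases h : ξ = j
    · rw [if_pos h, h]
      exact Lagrange.eval_basis_self hinj (Finset.mem_range.2 hj)
    · rw [if_neg h]
      exact Lagrange.eval_basis_of_ne (fun h' => h h'.symm) (Finset.mem_range.2 hξ)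
  choose D hD0 hD1 hD2 using fun j => poly_avg c (R j)
  obtain ⟨C, hC0, hC⟩ := exists_bound f
  set DD : ℝ := ∑ j ∈ Finset.range P.m, D j with hDD
  have hDle : ∀ j < P.m, D j ≤ DD := fun j hj =>
    Finset.single_le_sum (f := D) (fun i _ => hD0 i) (Finset.mem_range.2 hj)
  have hDD0 : 0 ≤ DD := Finset.sum_nonneg fun i _ => hD0 i
  have hN1 : ∀ n, (1:ℝ) ≤ (Nn P n : ℝ) := fun n => by exact_mod_cast (Nn_pos P n)
  have hA : Tendsto (fun n => (Nn P n : ℝ) * th P n) atTop (𝓝 0) := by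
    refine squeeze_zero (fun n => mul_nonneg (by linarith [hN1 n]) (th_nonneg P n)) (fun n => ?_)
      (lim_th5 P)
    refine mul_le_mul_of_nonneg_right ?_ (th_nonneg P n)
    calc (Nn P n : ℝ) = (Nn P n : ℝ) ^ 1 := (pow_one _).symm
      _ ≤ (Nn P n : ℝ) ^ 5 := pow_le_pow_right₀ (hN1 n) (by norm_num)
  have hB : Tendsto (fun n => (Nn P n : ℝ) ^ 2 * dd P n) atTop (𝓝 0) := by
    refine squeeze_zero (fun n => mul_nonneg (by positivity) (dd_nonneg P n)) (fun n => ?_)
      (lim_dd P)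
    exact mul_le_mul_of_nonneg_right (pow_le_pow_right₀ (hN1 n) (by norm_num)) (dd_nonneg P n)
  have hlim : Tendsto (fun n => (Nn P n : ℝ) * (C * ((Nn P n : ℝ) * dd P n + DD * (1 * th P n))))
      atTop (𝓝 0) := by
    have h := ((hB.const_mul C).add (hA.const_mul (C * DD)))
    simp only [mul_zero, add_zero] at h
    refine h.congr fun n => ?_
    ring
  filter_upwards [hlim.eventually (gt_mem_nhds hε), eventually_ge_atTop m] with n hn hmn hgood
  obtain ⟨hfl, hηn⟩ := hgood
  obtain ⟨fn, hfn, -, hJ⟩ := Jd_lift' c d m n hmn hd f C hC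
  choose k w hw hk using cyc_one c n d
  have hcc : ∀ ξ, ccv n d ξ = v ξ := by
    intro ξ
    unfold ccv wt
    rw [hfl, hηn]
    simp [hv]
  obtain ⟨o1, o2, o3, o4, -⟩ := SM345.opP_basic c.UT
  set g := Jd c d n (fun u => if u.val < P.m then (1:ℂ) else 0) with hg
  refine ⟨∑ y, Polynomial.C (fn y * w y) * (Polynomial.X ^ (k y) * (R (y.val % P.m)).comp (QQ P n)), ?_⟩
  have hopsum : ∀ (s : Finset (ZMod (Nn P n))) (R : ZMod (Nn P n) → Polynomial ℂ) (f : Lp ℂ 2 c.μ),
      opP c.UT (∑ i ∈ s, R i) f = ∑ i ∈ s, opP c.UT (R i) f := by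
    intro s R f
    refine Finset.induction_on s (by simp [opP]) fun a s ha ih => ?_
    rw [Finset.sum_insert ha, Finset.sum_insert ha, o2, ih]
  rw [← hJ, hopsum, Jd_delta c n d fn, ← Finset.sum_sub_distrib]
  refine lt_of_le_of_lt (norm_sum_le _ _) (lt_of_le_of_lt ?_ hn)
  have hb : ∀ y : ZMod (Nn P n), ‖fn y • Jd c d n (fun u => if u = y then (1:ℂ) else 0) -
      opP c.UT (Polynomial.C (fn y * w y) * (Polynomial.X ^ (k y) *
        (R (y.val % P.m)).comp (QQ P n))) g‖ ≤ C * ((Nn P n : ℝ) * dd P n + DD * (1 * th P n)) := by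
    intro y
    have hj : y.val % P.m < P.m := Nat.mod_lt _ P.hm
    rw [o1, o1, o3, o4, mul_smul, ← smul_sub, norm_smul]
    refine mul_le_mul (hfn y) ?_ (norm_nonneg _) hC0
    have hs := hD2 (y.val % P.m) n d (supp_mono hmn hd)
      (fun u => if u.val < P.m then (1:ℂ) else 0) 1 (fun u => by split_ifs <;> simp)
    have e1 : (fun u : ZMod (Nn P n) => (R (y.val % P.m)).eval (ccv n d (u.val % P.m)) *
        (if u.val < P.m then (1:ℂ) else 0)) = dl n (y.val % P.m) := by
      funext u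
      rw [hcc, hR _ hj _ (Nat.mod_lt _ P.hm)]
      unfold dl
      split_ifs <;> simp
    rw [e1] at hs
    calc ‖Jd c d n (fun u => if u = y then (1:ℂ) else 0) -
          w y • (c.UT ^ k y) (opP c.UT ((R (y.val % P.m)).comp (QQ P n)) g)‖
        = ‖(Jd c d n (fun u => if u = y then (1:ℂ) else 0) -
            w y • (c.UT ^ k y) (Jd c d n (dl n (y.val % P.m))))
          - w y • (c.UT ^ k y) (opP c.UT ((R (y.val % P.m)).comp (QQ P n)) g -
            Jd c d n (dl n (y.val % P.m)))‖ := by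
          rw [map_sub, smul_sub]; congr 1; abel
      _ ≤ (Nn P n : ℝ) * dd P n + DD * (1 * th P n) := by
          refine (norm_sub_le _ _).trans (add_le_add (hk y) ?_)
          rw [norm_smul, hw, one_mul, LinearIsometryEquiv.norm_map]
          refine hs.trans ?_
          have := th_nonneg P n
          exact mul_le_mul_of_nonneg_right (hDle _ hj) (by positivity)
  refine (Finset.sum_le_sum fun y _ => hb y).trans ?_
  rw [Finset.sum_const, Finset.card_univ, ZMod.card, nsmul_eq_mul]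

theorem sep_Lp : TopologicalSpace.SeparableSpace (Lp ℂ 2 c.μ) := by
  have hp := c.hμ.prob
  have h1 : ∀ n, MeasurableSpace.CountablyGenerated (Om P n) := fun n => inferInstance
  have h2 : MeasurableSpace.CountablyGenerated (X P) := by
    show MeasurableSpace.CountablyGenerated {v : ∀ n, Om P n // ∀ n, pP P n (v (n+1)) = v n}
    infer_instance
  have h3 : MeasureTheory.IsSeparable c.μ := inferInstance
  have hf2 : Fact ((2:ℝ≥0∞) ≠ ∞) := ⟨by simp⟩
  have h4 : SecondCountableTopology (Lp ℂ 2 c.μ) := inferInstance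
  infer_instance

/-- `UT` is cyclic on `Kd` -/
theorem Kd_cyc (d : Dd P) (r : ℕ) (hd : supp r d) (η : ℂ) (hη : η ≠ 1)
    (hfreq : ∃ᶠ n in atTop, P.fl n = false ∧ eta n (P.β n) d = η) :
    ∃ g ∈ Kd c d, cyc c.UT g = Kd c d := by
  have hsep := sep_Lp c
  apply SM345.cyc_exists c.UT (Kd c d)
  · exact Kd_closed c d
  · exact UT_Kd c d r hd
  · exact UT_Kd' c d r hd
  · intro f₁ hf₁ f₂ hf₂ ε hε
    obtain ⟨n₁, hn₁, φ₁, h₁⟩ := Kd_approx c d r hd f₁ hf₁ (ε / 2) (by linarith)
    obtain ⟨n₂, hn₂, φ₂, h₂⟩ := Kd_approx c d r hd f₂ hf₂ (ε / 2) (by linarith)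
    obtain ⟨n, hgood, ⟨hP₁, hP₂⟩, hrn⟩ := (hfreq.and_eventually
      (((chi_cyc c d η hη n₁ (supp_mono hn₁ hd) φ₁ (ε / 2) (by linarith)).and
      (chi_cyc c d η hη n₂ (supp_mono hn₂ hd) φ₂ (ε / 2) (by linarith))).and
        (eventually_ge_atTop r))).exists
    obtain ⟨P₁, hP₁⟩ := hP₁ hgood
    obtain ⟨P₂, hP₂⟩ := hP₂ hgood
    refine ⟨_, Jd_mem c d n (supp_mono hrn hd) (fun u => if u.val < P.m then 1 else 0), P₁, P₂, ?_, ?_⟩
    · calc _ ≤ ‖f₁ - Jd c d n₁ φ₁‖ + ‖Jd c d n₁ φ₁ -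
            opP c.UT P₁ (Jd c d n (fun u => if u.val < P.m then 1 else 0))‖ :=
            norm_sub_le_norm_sub_add_norm_sub _ _ _
        _ < ε := by linarith
    · calc _ ≤ ‖f₂ - Jd c d n₂ φ₂‖ + ‖Jd c d n₂ φ₂ -
            opP c.UT P₂ (Jd c d n (fun u => if u.val < P.m then 1 else 0))‖ :=
            norm_sub_le_norm_sub_add_norm_sub _ _ _
        _ < ε := by linarith

end MS723
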