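import Mathlib

/-! Mixed radix digits and the projection from one level to the previous one. -/

set_option autoImplicit false

namespace MS723

/-! ### sums of periodic functions -/

theorem sum_block {M : Type} [AddCommMonoid M] (a b : ℕ) (f : ℕ → M) :
    ∑ x ∈ Finset.range (a * b), f x =
      ∑ z ∈ Finset.range b, ∑ y ∈ Finset.range a, f (a * z + y) := by
  induction b with
  | zero => simp
  | succ b ih => rw [Nat.mul_succ, Finset.sum_range_add, ih, Finset.sum_range_succ]

theorem per_mul {α : Type} (f : ℕ → α) (P : ℕ) (h : ∀ s, f (s + P) = f s) (s q : ℕ) :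
    f (s + P * q) = f s := by
  induction q with
  | zero => simp
  | succ q ih => rw [Nat.mul_succ, ← add_assoc, h, ih]

theorem per_mod {α : Type} (f : ℕ → α) (P : ℕ) (h : ∀ s, f (s + P) = f s) (s : ℕ) :
    f (s % P) = f s := by
  conv_rhs => rw [← Nat.mod_add_div s P]
  rw [per_mul f P h]

theorem sum_shift {M : Type} [AddCommMonoid M] (f : ℕ → M) (P : ℕ) (h : ∀ s, f (s + P) = f s)
    (a : ℕ) : ∑ s ∈ Finset.range P, f (a + s) = ∑ s ∈ Finset.range P, f s := by
  induction a with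
  | zero => simp
  | succ a ih =>
    rw [← ih]
    have h1 : ∑ s ∈ Finset.range (P + 1), f (a + s) =
        f a + ∑ s ∈ Finset.range P, f (a + 1 + s) := by
      rw [Finset.sum_range_succ', add_comm]
      congr 1
      exact Finset.sum_congr rfl fun s _ => by congr 1; ring
    have h2 : ∑ s ∈ Finset.range (P + 1), f (a + s) =
        f a + ∑ s ∈ Finset.range P, f (a + s) := by
      rw [Finset.sum_range_succ, h a, add_comm]
    cases P with
    | zero => simp
    | succ P =>
      rw [Finset.sum_range_succ, Finset.sum_range_succ' (fun s => f (a + s))]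
      have e : a + 1 + P = a + (P + 1) := by ring
      rw [e, h a, add_zero]
      congr 1
      exact Finset.sum_congr rfl fun s _ => by congr 1; ring

theorem sum_per_mul {M : Type} [AddCommMonoid M] (f : ℕ → M) (P q : ℕ)
    (h : ∀ s, f (s + P) = f s) :
    ∑ s ∈ Finset.range (P * q), f s = q • ∑ s ∈ Finset.range P, f s := by
  rw [sum_block]
  have : ∀ z ∈ Finset.range q, ∑ y ∈ Finset.range P, f (P * z + y) =
      ∑ s ∈ Finset.range P, f s := by
    intro z _
    refine Finset.sum_congr rfl fun y _ => ?_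
    rw [add_comm, per_mul f P h]
  rw [Finset.sum_congr rfl this, Finset.sum_const, Finset.card_range]

/-- numerical data of one step -/
structure Stp where
  m : ℕ
  N : ℕ
  w : ℕ
  W : ℕ
  K : ℕ
  k : ℕ
  hm : 0 < m
  hN : 0 < N
  hW : 0 < W
  hK : 0 < K
  hk : 0 < k
  mw : m ∣ w
  mW : m ∣ W
  mKN : m * K ∣ N

namespace Stp

variable (S : Stp)

def low : ℕ := S.W ^ (S.m + 1)
def K' : ℕ := S.K * S.k
def Q : ℕ := S.N * S.K'
/-- the new modulus -/
def M : ℕ := S.low * S.Q
def x0 (u : ℕ) : ℕ := u % S.W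
def da (u : ℕ) : ℕ := u / S.low % S.N
def dc (u : ℕ) : ℕ := u / S.low / S.N % S.K'
/-- projection as a function of the digits -/
def pf (z a c : ℕ) : ℕ :=
  z % S.W + a + S.N / S.K * c +
    ∑ i ∈ Finset.range S.m, S.w ^ ((i + a) % S.m + 1) * (z / S.W ^ (i + 1) % S.W)
/-- the projection -/
def pr (u : ℕ) : ℕ := S.pf (u % S.low) (S.da u) (S.dc u)

theorem low_pos : 0 < S.low := Nat.pow_pos S.hW
theorem K'_pos : 0 < S.K' := Nat.mul_pos S.hK S.hk
theorem Q_pos : 0 < S.Q := Nat.mul_pos S.hN S.K'_pos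
theorem M_pos : 0 < S.M := Nat.mul_pos S.low_pos S.Q_pos
theorem W_dvd_low : S.W ∣ S.low := dvd_pow_self _ (Nat.succ_ne_zero _)
theorem m_dvd_low : S.m ∣ S.low := S.mW.trans S.W_dvd_low
theorem m_dvd_M : S.m ∣ S.M := S.m_dvd_low.trans (Dvd.intro _ rfl)
theorem m_dvd_N : S.m ∣ S.N := (Dvd.intro _ rfl).trans S.mKN
theorem K_dvd_N : S.K ∣ S.N := (Dvd.intro_left _ rfl).trans S.mKN
theorem m_dvd_NK : S.m ∣ S.N / S.K := by
  obtain ⟨q, hq⟩ := S.mKN
  have : S.N / S.K = S.m * q := by
    rw [hq, show S.m * S.K * q = S.K * (S.m * q) by ring]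
    exact Nat.mul_div_cancel_left _ S.hK
  rw [this]
  exact Dvd.intro _ rfl

/-- digits of `low * q + z` -/
theorem dig (q z : ℕ) (hz : z < S.low) : (S.low * q + z) % S.low = z ∧ (S.low * q + z) / S.low = q := by
  constructor
  · rw [Nat.mul_add_mod, Nat.mod_eq_of_lt hz]
  · rw [Nat.mul_add_div S.low_pos, Nat.div_eq_of_lt hz, add_zero]

theorem pr_dig (q z : ℕ) (hz : z < S.low) :
    S.pr (S.low * q + z) = S.pf z (q % S.N) (q / S.N % S.K') := by
  unfold pr da dc
  rw [(S.dig q z hz).1, (S.dig q z hz).2]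

theorem per_da (u : ℕ) : S.da (u + S.M) = S.da u := by
  unfold da M
  rw [Nat.add_mul_div_left _ _ S.low_pos]
  unfold Q
  rw [Nat.add_mul_mod_self_left]

theorem per_dc (u : ℕ) : S.dc (u + S.M) = S.dc u := by
  unfold dc M
  rw [Nat.add_mul_div_left _ _ S.low_pos]
  unfold Q
  rw [Nat.add_mul_div_left _ _ S.hN, Nat.add_mod_right]

theorem per_low (u : ℕ) : (u + S.M) % S.low = u % S.low := by
  unfold M
  rw [Nat.add_mul_mod_self_left]

theorem per_x0 (u : ℕ) : S.x0 (u + S.M) = S.x0 u := by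
  unfold x0
  have : S.W ∣ S.M := S.W_dvd_low.trans (Dvd.intro _ rfl)
  obtain ⟨q, hq⟩ := this
  rw [hq, Nat.add_mul_mod_self_left]

theorem per_pr (u : ℕ) : S.pr (u + S.M) = S.pr u := by
  unfold pr
  rw [per_da, per_dc, per_low]

theorem x0_low (u : ℕ) : (u % S.low) % S.W = S.x0 u :=
  Nat.mod_mod_of_dvd _ S.W_dvd_low

/-- the class of the projection -/
theorem pf_mod (z a c : ℕ) : S.pf z a c ≡ z % S.W + a [MOD S.m] := by
  unfold pf
  have h1 : S.N / S.K * c ≡ 0 [MOD S.m] :=
    (Nat.modEq_zero_iff_dvd.2 (S.m_dvd_NK.trans (Dvd.intro _ rfl)))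
  have h2 : ∑ i ∈ Finset.range S.m, S.w ^ ((i + a) % S.m + 1) * (z / S.W ^ (i + 1) % S.W) ≡ 0
      [MOD S.m] := by
    refine Nat.modEq_zero_iff_dvd.2 (Finset.dvd_sum fun i _ => ?_)
    exact (S.mw.trans (dvd_pow_self _ (Nat.succ_ne_zero _))).mul_right _
  simpa using ((Nat.ModEq.refl (z % S.W + a)).add h1).add h2

theorem pr_mod (u : ℕ) : S.pr u % S.m = (S.x0 u + S.da u) % S.m := by
  have := S.pf_mod (u % S.low) (S.da u) (S.dc u)
  rw [x0_low] at this
  exact this

theorem x0_mod (u : ℕ) : S.x0 u % S.m = u % S.m := Nat.mod_mod_of_dvd _ S.mW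

theorem pf_inj (z c a a' : ℕ) (ha : a < S.N) (ha' : a' < S.N)
    (h : (S.pf z a c : ZMod S.N) = (S.pf z a' c : ZMod S.N)) : a = a' := by
  have h1 : S.pf z a c ≡ S.pf z a' c [MOD S.N] := (ZMod.natCast_eq_natCast_iff _ _ _).1 h
  have h2 : S.pf z a c ≡ S.pf z a' c [MOD S.m] := h1.of_dvd S.m_dvd_N
  have h3 : z % S.W + a ≡ z % S.W + a' [MOD S.m] :=
    ((S.pf_mod z a c).symm.trans h2).trans (S.pf_mod z a' c)
  have h4 : a ≡ a' [MOD S.m] := Nat.ModEq.add_left_cancel' _ h3
  have h5 : ∀ i, (i + a) % S.m = (i + a') % S.m := fun i => h4.add_left i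
  unfold pf at h1
  simp only [h5] at h1
  have h6 : z % S.W + a ≡ z % S.W + a' [MOD S.N] :=
    Nat.ModEq.add_right_cancel' _ (Nat.ModEq.add_right_cancel' _ h1)
  have h7 : a ≡ a' [MOD S.N] := Nat.ModEq.add_left_cancel' _ h6
  unfold Nat.ModEq at h7
  rwa [Nat.mod_eq_of_lt ha, Nat.mod_eq_of_lt ha'] at h7

instance : NeZero S.N := ⟨S.hN.ne'⟩
instance : NeZero S.M := ⟨S.M_pos.ne'⟩

theorem sum_a {E : Type} [AddCommMonoid E] (z c : ℕ) (g : ZMod S.N → E) :
    ∑ a ∈ Finset.range S.N, g (S.pf z a c : ZMod S.N) = ∑ y : ZMod S.N, g y := by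
  classical
  have hinj : Set.InjOn (fun a : ℕ => (S.pf z a c : ZMod S.N)) (Finset.range S.N : Set ℕ) := by
    intro a ha a' ha' h
    exact S.pf_inj z c a a' (Finset.mem_range.1 (Finset.mem_coe.1 ha))
      (Finset.mem_range.1 (Finset.mem_coe.1 ha')) h
  have himg : (Finset.range S.N).image (fun a : ℕ => (S.pf z a c : ZMod S.N)) = Finset.univ := by
    apply Finset.eq_univ_of_card
    rw [Finset.card_image_of_injOn hinj, Finset.card_range, ZMod.card]
  rw [← himg, Finset.sum_image hinj]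

/-- the fundamental summation formula -/
theorem sum_q {E : Type} [AddCommMonoid E] (z : ℕ) (g : ZMod S.N → ℕ → E) :
    ∑ q ∈ Finset.range S.Q, g (S.pf z (q % S.N) (q / S.N % S.K') : ZMod S.N) (q / S.N % S.K') =
      ∑ c ∈ Finset.range S.K', ∑ y : ZMod S.N, g y c := by
  unfold Q
  rw [sum_block]
  refine Finset.sum_congr rfl fun c hc => ?_
  rw [← S.sum_a z c]
  refine Finset.sum_congr rfl fun a ha => ?_
  have h1 : (S.N * c + a) % S.N = a := by
    rw [Nat.mul_add_mod, Nat.mod_eq_of_lt (Finset.mem_range.1 ha)]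
  have h2 : (S.N * c + a) / S.N = c := by
    rw [Nat.mul_add_div S.hN, Nat.div_eq_of_lt (Finset.mem_range.1 ha), add_zero]
  rw [h1, h2, Nat.mod_eq_of_lt (Finset.mem_range.1 hc)]

theorem sum_M {E : Type} [AddCommMonoid E] (g : ZMod S.N → ℕ → ℕ → E) :
    ∑ u ∈ Finset.range S.M, g (S.pr u : ZMod S.N) (S.dc u) (u % S.low) =
      ∑ z ∈ Finset.range S.low, ∑ c ∈ Finset.range S.K', ∑ y : ZMod S.N, g y c z := by
  unfold M
  rw [sum_block, Finset.sum_comm]
  refine Finset.sum_congr rfl fun z hz => ?_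
  rw [← S.sum_q z (fun y c => g y c z)]
  refine Finset.sum_congr rfl fun q _ => ?_
  have hz' := Finset.mem_range.1 hz
  rw [S.pr_dig q z hz']
  unfold dc
  rw [(S.dig q z hz').1, (S.dig q z hz').2]

/-- averaging over the top digits -/
theorem sum_top {E : Type} [AddCommMonoid E] (u : ℕ) (f : ZMod S.N → E) :
    ∑ r ∈ Finset.range S.Q, f (S.pr (u + S.low * r) : ZMod S.N) =
      S.K' • ∑ y : ZMod S.N, f y := by
  set z := u % S.low with hz
  set q := u / S.low with hq
  set G : ℕ → E := fun s => f (S.pf z (s % S.N) (s / S.N % S.K') : ZMod S.N) with hG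
  have hper : ∀ s, G (s + S.Q) = G s := by
    intro s
    simp only [hG]
    unfold Q
    rw [Nat.add_mul_mod_self_left, Nat.add_mul_div_left _ _ S.hN, Nat.add_mod_right]
  have h1 : ∀ r, f (S.pr (u + S.low * r) : ZMod S.N) = G (q + r) := by
    intro r
    have e : u + S.low * r = S.low * (q + r) + z := by
      rw [hq, hz, mul_add]
      have := Nat.div_add_mod u S.low
      omega
    rw [e, S.pr_dig _ _ (Nat.mod_lt _ S.low_pos)]
  simp only [h1]
  rw [sum_shift G S.Q hper]
  have := S.sum_q z (fun y _ => f y)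
  simp only [hG]
  rw [this, Finset.sum_const, Finset.card_range]

theorem sum_T {E : Type} [AddCommMonoid E] (u : ℕ) (f : ZMod S.N → E) :
    ∑ h ∈ Finset.range S.M, f (S.pr (u + S.m * h) : ZMod S.N) =
      (S.low * S.K') • ∑ y : ZMod S.N, f y := by
  obtain ⟨l, hl⟩ := S.m_dvd_low
  have hl0 : 0 < l := by
    rcases Nat.eq_zero_or_pos l with h | h
    · rw [h, mul_zero] at hl
      exact absurd hl S.low_pos.ne'
    · exact h
  have hM : S.M = l * S.Q * S.m := by
    unfold M
    rw [hl]; ring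
  set ξ := u % S.m with hξ
  set F : ℕ → E := fun h => f (S.pr (ξ + S.m * h) : ZMod S.N) with hF
  have hFper : ∀ s, F (s + l * S.Q) = F s := by
    intro s
    simp only [hF]
    have e : ξ + S.m * (s + l * S.Q) = (ξ + S.m * s) + S.M := by
      rw [hM]; ring
    rw [e, S.per_pr]
  have hFu : ∀ h, f (S.pr (u + S.m * h) : ZMod S.N) = F (u / S.m + h) := by
    intro h
    simp only [hF]
    congr 3
    rw [mul_add]
    have := Nat.mod_add_div u S.m
    omega
  simp only [hFu]
  have h1 : ∑ h ∈ Finset.range S.M, F (u / S.m + h) =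
      S.m • ∑ h ∈ Finset.range (l * S.Q), F h := by
    rw [hM, sum_per_mul (fun h => F (u / S.m + h)) (l * S.Q) S.m, sum_shift F _ hFper]
    intro s
    show F (u / S.m + (s + l * S.Q)) = F (u / S.m + s)
    rw [← add_assoc, hFper]
  have h2 : ∑ h ∈ Finset.range (l * S.Q), F h = l • (S.K' • ∑ y : ZMod S.N, f y) := by
    rw [sum_block, Finset.sum_comm]
    have h3 : ∀ y ∈ Finset.range l, ∑ q ∈ Finset.range S.Q, F (l * q + y) =
        S.K' • ∑ y : ZMod S.N, f y := by
      intro y _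
      rw [← S.sum_top (ξ + S.m * y) f]
      refine Finset.sum_congr rfl fun q _ => ?_
      simp only [hF]
      congr 3
      rw [hl]; ring
    rw [Finset.sum_congr rfl h3, Finset.sum_const, Finset.card_range]
  rw [h1, h2, smul_smul, smul_smul]
  congr 1
  rw [hl]

/-! ### shifts -/

theorem shift_x0 (u t : ℕ) (h : S.x0 u + t < S.W) :
    S.x0 (u + t) = S.x0 u + t ∧ (u + t) % S.low = u % S.low + t ∧ (u + t) / S.low = u / S.low ∧
    S.da (u + t) = S.da u ∧ S.dc (u + t) = S.dc u ∧ S.pr (u + t) = S.pr u + t := by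
  have hx : S.x0 (u + t) = S.x0 u + t := by
    unfold x0 at *
    rw [Nat.add_mod, Nat.mod_eq_of_lt (show t < S.W by omega), Nat.mod_eq_of_lt h]
  have key : u % S.low + t < S.low := by
    obtain ⟨l, hl⟩ := S.W_dvd_low
    have h1 : (u % S.low) % S.W = S.x0 u := S.x0_low u
    have h2 := Nat.mod_add_div (u % S.low) S.W
    have h3 : (u % S.low) / S.W < l := by
      rw [Nat.div_lt_iff_lt_mul S.hW]
      calc u % S.low < S.low := Nat.mod_lt _ S.low_pos
        _ = l * S.W := by rw [hl]; ring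
    have h4 : S.W * ((u % S.low) / S.W) + S.W ≤ S.low := by
      conv_rhs => rw [hl]
      calc S.W * ((u % S.low) / S.W) + S.W = S.W * ((u % S.low) / S.W + 1) := by ring
        _ ≤ S.W * l := Nat.mul_le_mul_left _ h3
    rw [h1] at h2
    omega
  have hlow : (u + t) % S.low = u % S.low + t := by
    conv_lhs => rw [← Nat.mod_add_div u S.low]
    rw [show u % S.low + S.low * (u / S.low) + t = (u % S.low + t) + S.low * (u / S.low) by ring,
      Nat.add_mul_mod_self_left, Nat.mod_eq_of_lt key]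
  have hdiv : (u + t) / S.low = u / S.low := by
    conv_lhs => rw [← Nat.mod_add_div u S.low]
    rw [show u % S.low + S.low * (u / S.low) + t = (u % S.low + t) + S.low * (u / S.low) by ring,
      Nat.add_mul_div_left _ _ S.low_pos, Nat.div_eq_of_lt key, zero_add]
  have hda : S.da (u + t) = S.da u := by unfold da; rw [hdiv]
  have hdc : S.dc (u + t) = S.dc u := by unfold dc; rw [hdiv]
  refine ⟨hx, hlow, hdiv, hda, hdc, ?_⟩
  unfold pr
  rw [hda, hdc]
  have hv : (u % S.low) % S.W + t < S.W := by rw [S.x0_low]; exact h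
  rw [hlow]
  generalize u % S.low = v at hv
  unfold pf
  have h1 : (v + t) % S.W = v % S.W + t := by
    rw [Nat.add_mod, Nat.mod_eq_of_lt (show t < S.W by omega), Nat.mod_eq_of_lt hv]
  have h2 : (v + t) / S.W = v / S.W := by
    conv_lhs => rw [← Nat.mod_add_div v S.W]
    rw [show v % S.W + S.W * (v / S.W) + t = (v % S.W + t) + S.W * (v / S.W) by ring,
      Nat.add_mul_div_left _ _ S.hW, Nat.div_eq_of_lt hv, zero_add]
  have h3 : ∀ i, (v + t) / S.W ^ (i + 1) = v / S.W ^ (i + 1) := by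
    intro i
    rw [pow_succ', ← Nat.div_div_eq_div_mul, ← Nat.div_div_eq_div_mul, h2]
  simp only [h1, h3]
  ring

theorem shift_e (u e : ℕ) (he1 : 1 ≤ e) (he : e ≤ S.m) (h : u / S.W ^ e % S.W + 1 < S.W) :
    S.pr (u + S.W ^ e) = S.pr u + S.w ^ ((e - 1 + S.da u) % S.m + 1) ∧
      S.da (u + S.W ^ e) = S.da u := by
  set v := u % S.low with hv
  have hWe : 0 < S.W ^ e := Nat.pow_pos S.hW
  -- digits of v
  have hdigs : ∀ i, i ≤ S.m → v / S.W ^ i % S.W = u / S.W ^ i % S.W := by
    intro i hi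
    obtain ⟨j, hj⟩ : ∃ j, S.m = i + j := ⟨S.m - i, by omega⟩
    have h1 : S.low = S.W ^ i * (S.W * S.W ^ j) := by
      unfold low; rw [hj]; ring
    have h2 : v = u % (S.W ^ i * (S.W * S.W ^ j)) := by rw [hv, h1]
    rw [h2, Nat.mod_mul_right_div_self, Nat.mod_mul_right_mod]
  have hve : v / S.W ^ e % S.W + 1 < S.W := by rw [hdigs e he]; exact h
  have hdivlow : (v + S.W ^ e) / S.W ^ (e + 1) = v / S.W ^ (e + 1) := by
    rw [pow_succ, ← Nat.div_div_eq_div_mul, ← Nat.div_div_eq_div_mul, Nat.add_div_right _ hWe]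
    generalize v / S.W ^ e = x at hve
    conv_lhs => rw [← Nat.mod_add_div x S.W]
    rw [show x % S.W + S.W * (x / S.W) + 1 = (x % S.W + 1) + S.W * (x / S.W) by ring,
      Nat.add_mul_div_left _ _ S.hW, Nat.div_eq_of_lt hve, zero_add]
  have hhigh : ∀ i, e < i → (v + S.W ^ e) / S.W ^ i = v / S.W ^ i := by
    intro i hi
    obtain ⟨j, hj⟩ : ∃ j, i = e + 1 + j := ⟨i - (e + 1), by omega⟩
    rw [hj, pow_add, ← Nat.div_div_eq_div_mul, ← Nat.div_div_eq_div_mul, hdivlow]
  have hlowdig : ∀ i, i < e → (v + S.W ^ e) / S.W ^ i % S.W = v / S.W ^ i % S.W := by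
    intro i hi
    obtain ⟨j, hj⟩ : ∃ j, e = i + 1 + j := ⟨e - (i + 1), by omega⟩
    have : S.W ^ e = S.W ^ i * (S.W * S.W ^ j) := by rw [hj]; ring
    rw [this, Nat.add_mul_div_left _ _ (Nat.pow_pos S.hW), Nat.add_mul_mod_self_left]
  have hmid : (v + S.W ^ e) / S.W ^ e % S.W = v / S.W ^ e % S.W + 1 := by
    rw [Nat.add_div_right _ hWe, Nat.add_mod,
      Nat.mod_eq_of_lt (show 1 < S.W by omega), Nat.mod_eq_of_lt hve]
  have hvlt : v + S.W ^ e < S.low := by
    have h1 := hhigh (S.m + 1) (by omega)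
    have h2 : v / S.W ^ (S.m + 1) = 0 := Nat.div_eq_of_lt (Nat.mod_lt _ S.low_pos)
    rw [h2] at h1
    rcases (Nat.div_eq_zero_iff).1 h1 with h3 | h3
    · exact absurd h3 S.low_pos.ne'
    · exact h3
  have hlow : (u + S.W ^ e) % S.low = v + S.W ^ e := by
    conv_lhs => rw [← Nat.mod_add_div u S.low]
    rw [show u % S.low + S.low * (u / S.low) + S.W ^ e = (v + S.W ^ e) + S.low * (u / S.low) by
      rw [hv]; ring, Nat.add_mul_mod_self_left, Nat.mod_eq_of_lt hvlt]
  have hdiv : (u + S.W ^ e) / S.low = u / S.low := by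
    conv_lhs => rw [← Nat.mod_add_div u S.low]
    rw [show u % S.low + S.low * (u / S.low) + S.W ^ e = (v + S.W ^ e) + S.low * (u / S.low) by
      rw [hv]; ring, Nat.add_mul_div_left _ _ S.low_pos, Nat.div_eq_of_lt hvlt, zero_add]
  have hda : S.da (u + S.W ^ e) = S.da u := by unfold da; rw [hdiv]
  have hdc : S.dc (u + S.W ^ e) = S.dc u := by unfold dc; rw [hdiv]
  refine ⟨?_, hda⟩
  unfold pr
  rw [hda, hdc, hlow]
  unfold pf
  have hx : (v + S.W ^ e) % S.W = v % S.W := by
    have := hlowdig 0 (by omega)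
    simpa using this
  rw [← hv, hx]
  have hsum : ∑ i ∈ Finset.range S.m, S.w ^ ((i + S.da u) % S.m + 1) *
      ((v + S.W ^ e) / S.W ^ (i + 1) % S.W) =
      ∑ i ∈ Finset.range S.m, (S.w ^ ((i + S.da u) % S.m + 1) * (v / S.W ^ (i + 1) % S.W) +
        if i = e - 1 then S.w ^ ((i + S.da u) % S.m + 1) else 0) := by
    refine Finset.sum_congr rfl fun i _ => ?_
    rcases lt_trichotomy (i + 1) e with h1 | h1 | h1
    · rw [hlowdig _ h1, if_neg (by omega), add_zero]
    · rw [h1, hmid, if_pos (by omega)]; ring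
    · rw [hhigh _ h1, if_neg (by omega), add_zero]
  rw [hsum, Finset.sum_add_distrib, Finset.sum_ite_eq' (Finset.range S.m) (e - 1)]
  rw [if_pos (Finset.mem_range.2 (by omega))]
  ring

/-- shift of the digit `c` -/
theorem shift_c (u t : ℕ) :
    (u + S.low * S.N * t) % S.low = u % S.low ∧ S.da (u + S.low * S.N * t) = S.da u ∧
    S.dc (u + S.low * S.N * t) = (S.dc u + t) % S.K' ∧
    S.pr (u + S.low * S.N * t) ≡ S.pr u + S.N / S.K * t [MOD S.N] := by
  have h1 : (u + S.low * S.N * t) % S.low = u % S.low := by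
    rw [mul_assoc, Nat.add_mul_mod_self_left]
  have h2 : (u + S.low * S.N * t) / S.low = u / S.low + S.N * t := by
    rw [mul_assoc, Nat.add_mul_div_left _ _ S.low_pos]
  have h3 : S.da (u + S.low * S.N * t) = S.da u := by
    unfold da
    rw [h2, Nat.add_mul_mod_self_left]
  have h4 : S.dc (u + S.low * S.N * t) = (S.dc u + t) % S.K' := by
    unfold dc
    rw [h2, Nat.add_mul_div_left _ _ S.hN, Nat.mod_add_mod]
  refine ⟨h1, h3, h4, ?_⟩
  unfold pr
  rw [h1, h3, h4]
  unfold pf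
  have h5 : S.N / S.K * ((S.dc u + t) % S.K') ≡ S.N / S.K * (S.dc u + t) [MOD S.N] := by
    have h6 : S.N / S.K * S.K' = S.N * S.k := by
      unfold K'
      rw [← mul_assoc, Nat.div_mul_cancel S.K_dvd_N]
    have h7 := Nat.mod_add_div (S.dc u + t) S.K'
    conv_rhs => rw [← h7]
    rw [mul_add, ← mul_assoc, h6]
    have : S.N / S.K * ((S.dc u + t) % S.K') + S.N * S.k * ((S.dc u + t) / S.K') ≡
        S.N / S.K * ((S.dc u + t) % S.K') + 0 [MOD S.N] := by
      refine Nat.ModEq.add_left _ ?_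
      rw [mul_assoc]
      exact (Nat.modEq_zero_iff_dvd.2 (Dvd.intro _ rfl))
    simpa using this.symm
  have h8 := (Nat.ModEq.add_left (u % S.low % S.W + S.da u) h5).add_right
    (∑ i ∈ Finset.range S.m, S.w ^ ((i + S.da u) % S.m + 1) * (u % S.low / S.W ^ (i + 1) % S.W))
  refine h8.trans ?_
  unfold Nat.ModEq
  congr 1
  ring

end Stp

end MS723
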