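import Pool.Agent.H723R2.Stmt
import Pool.Agent.H723R2.Piece
import Pool.Agent.Helper345.SM.cube_split

/-! From a Hilbert sum over a countable family of mutually singular measures to the
direct integral. -/

set_option autoImplicit false
set_option linter.unusedVariables false

open MeasureTheory Filter Topology
open scoped ENNReal NNReal

noncomputable section

namespace MS723

section disj

variable {ι : Type} [Countable ι] (σ : ι → Measure Circle)

/-- disjoint supports -/
theorem exists_supports (h : Pairwise fun i j => σ i ⟂ₘ σ j) : ∃ E : ι → Set Circle,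
    (∀ i, MeasurableSet (E i)) ∧ (Pairwise fun i j => Disjoint (E i) (E j)) ∧
      ∀ i, σ i (E i)ᶜ = 0 := by
  classical
  have h1 : ∀ i j, ∃ s : Set Circle, MeasurableSet s ∧ (i ≠ j → σ i s = 0 ∧ σ j sᶜ = 0) := by
    intro i j
    by_cases hij : i = j
    · exact ⟨∅, MeasurableSet.empty, fun h => absurd hij h⟩
    · obtain ⟨s, hs, h1, h2⟩ := h hij
      exact ⟨s, hs, fun _ => ⟨h1, h2⟩⟩
  choose s hs hs' using h1
  refine ⟨fun i => ⋂ j, {z | i ≠ j → z ∉ s i j ∧ z ∈ s j i}, ?_, ?_, ?_⟩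
  · intro i
    refine MeasurableSet.iInter fun j => ?_
    by_cases hij : i = j
    · have : {z | i ≠ j → z ∉ s i j ∧ z ∈ s j i} = Set.univ := by
        ext z
        simp [hij]
      rw [this]
      exact MeasurableSet.univ
    · have : {z | i ≠ j → z ∉ s i j ∧ z ∈ s j i} = (s i j)ᶜ ∩ s j i := by
        ext z
        simp [hij]
      rw [this]
      exact (hs i j).compl.inter (hs j i)
  · intro i j hij
    rw [Set.disjoint_left]
    intro z hz hz'
    have h1 := (Set.mem_iInter.1 hz j) hij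
    have h2 := (Set.mem_iInter.1 hz' i) hij.symm
    exact h1.1 h2.2
  · intro i
    rw [Set.compl_iInter]
    refine measure_iUnion_null fun j => ?_
    by_cases hij : i = j
    · have : {z | i ≠ j → z ∉ s i j ∧ z ∈ s j i}ᶜ = ∅ := by
        ext z
        simp [hij]
      rw [this]
      exact measure_empty
    · have : {z | i ≠ j → z ∉ s i j ∧ z ∈ s j i}ᶜ = s i j ∪ (s j i)ᶜ := by
        ext z
        simp only [Set.mem_compl_iff, Set.mem_ofPred_eq, Set.mem_union]
        constructor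
        · intro hz
          by_contra hcon
          apply hz
          intro _
          push Not at hcon
          exact ⟨hcon.1, by simpa using hcon.2⟩
        · intro hz hcon
          obtain ⟨h1, h2⟩ := hcon hij
          rcases hz with hz | hz
          · exact h1 hz
          · exact hz h2
      rw [this]
      exact measure_union_null (hs' i j hij).1 (hs' j i (Ne.symm hij)).2

end disj

section fib

variable (σ : Measure Circle) (m : Circle → ℕ∞)

theorem meas_lt (hm : ∀ k, MeasurableSet (m ⁻¹' {k})) (l : ℕ) :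
    MeasurableSet {z | (l : ℕ∞) < m z} := by
  have : {z | (l : ℕ∞) < m z} = ⋃ k ∈ {k : ℕ∞ | (l : ℕ∞) < k}, m ⁻¹' {k} := by
    ext z
    simp
  rw [this]
  exact MeasurableSet.biUnion (Set.to_countable _) fun k _ => hm k

theorem meas_region (hm : ∀ k, MeasurableSet (m ⁻¹' {k})) :
    MeasurableSet {p : Circle × ℕ | (p.2 : ℕ∞) < m p.1} := by
  have : {p : Circle × ℕ | (p.2 : ℕ∞) < m p.1} = ⋃ l : ℕ, {z | (l : ℕ∞) < m z} ×ˢ {l} := by
    ext p
    simp
  rw [this]
  exact MeasurableSet.iUnion fun l => (meas_lt m hm l).prod (measurableSet_singleton l)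

/-- measure of slices -/
theorem fibred_slice [SFinite σ] (hm : ∀ k, MeasurableSet (m ⁻¹' {k})) (A : Set Circle)
    (hA : MeasurableSet A) (l : ℕ) (h : ∀ z ∈ A, (l : ℕ∞) < m z) :
    fibred σ m (A ×ˢ {l}) = σ A := by
  unfold fibred
  rw [Measure.restrict_apply (hA.prod (measurableSet_singleton l))]
  have : A ×ˢ {l} ∩ {p : Circle × ℕ | (p.2 : ℕ∞) < m p.1} = A ×ˢ {l} := by
    ext p
    simp only [Set.mem_inter_iff, Set.mem_prod, Set.mem_singleton_iff, Set.mem_ofPred_eq,
      and_iff_left_iff_imp]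
    rintro ⟨h1, h2⟩
    rw [h2]
    exact h _ h1
  rw [this, Measure.prod_prod, Measure.count_singleton, mul_one]

end fib

section mulz

variable (ν : Measure (Circle × ℕ))

theorem mulz_mem (f : Lp ℂ 2 ν) (φ : Circle × ℕ → ℂ) (hφ : Measurable φ) (h1 : ∀ p, ‖φ p‖ = 1) :
    MemLp (fun p => φ p * (f : Circle × ℕ → ℂ) p) 2 ν := by
  refine MemLp.of_le (Lp.memLp f) (hφ.aestronglyMeasurable.mul (Lp.aestronglyMeasurable f))
    (Eventually.of_forall fun p => ?_)
  rw [norm_mul, h1, one_mul]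

/-- multiplication by a unimodular function -/
theorem exists_mulz (φ : Circle × ℕ → ℂ) (hφ : Measurable φ) (h1 : ∀ p, ‖φ p‖ = 1) :
    ∃ U : Lp ℂ 2 ν ≃ₗᵢ[ℂ] Lp ℂ 2 ν, ∀ f : Lp ℂ 2 ν,
      (U f : Circle × ℕ → ℂ) =ᵐ[ν] fun p => φ p * (f : Circle × ℕ → ℂ) p := by
  let L : Lp ℂ 2 ν →ₗ[ℂ] Lp ℂ 2 ν :=
    { toFun := fun f => (mulz_mem ν f φ hφ h1).toLp _
      map_add' := by
        intro f g
        apply Lp.ext
        filter_upwards [(mulz_mem ν (f + g) φ hφ h1).coeFn_toLp,
          (mulz_mem ν f φ hφ h1).coeFn_toLp, (mulz_mem ν g φ hφ h1).coeFn_toLp,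
          Lp.coeFn_add f g, Lp.coeFn_add ((mulz_mem ν f φ hφ h1).toLp _)
            ((mulz_mem ν g φ hφ h1).toLp _)] with p e1 e2 e3 e4 e5
        rw [e1, e5, Pi.add_apply, e2, e3, e4, Pi.add_apply, mul_add]
      map_smul' := by
        intro a f
        apply Lp.ext
        filter_upwards [(mulz_mem ν (a • f) φ hφ h1).coeFn_toLp,
          (mulz_mem ν f φ hφ h1).coeFn_toLp, Lp.coeFn_smul a f,
          Lp.coeFn_smul a ((mulz_mem ν f φ hφ h1).toLp _)] with p e1 e2 e3 e4
        simp only [RingHom.id_apply]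
        rw [e1, e4, Pi.smul_apply, e2, e3, Pi.smul_apply, smul_eq_mul, smul_eq_mul]
        ring }
  have hL : ∀ f, (L f : Circle × ℕ → ℂ) =ᵐ[ν] fun p => φ p * (f : Circle × ℕ → ℂ) p :=
    fun f => (mulz_mem ν f φ hφ h1).coeFn_toLp
  let Li : Lp ℂ 2 ν →ₗᵢ[ℂ] Lp ℂ 2 ν :=
    { toLinearMap := L
      norm_map' := by
        intro f
        rw [Lp.norm_def, Lp.norm_def]
        congr 1
        refine eLpNorm_congr_norm_ae ?_
        filter_upwards [hL f] with p hp
        rw [hp, norm_mul, h1, one_mul] }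
  have hφc : Measurable fun p => (starRingEnd ℂ) (φ p) := Complex.continuous_conj.measurable.comp hφ
  have h1c : ∀ p, ‖(starRingEnd ℂ) (φ p)‖ = 1 := fun p => by rw [RCLike.norm_conj, h1]
  have hsurj : Function.Surjective Li := by
    intro g
    refine ⟨(mulz_mem ν g _ hφc h1c).toLp _, ?_⟩
    apply Lp.ext
    filter_upwards [hL ((mulz_mem ν g _ hφc h1c).toLp _), (mulz_mem ν g _ hφc h1c).coeFn_toLp]
      with p e1 e2
    show (L _ : Circle × ℕ → ℂ) p = _
    rw [e1, e2, ← mul_assoc, Complex.mul_conj', h1]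
    simp
  exact ⟨LinearIsometryEquiv.ofSurjective Li hsurj, fun f => hL f⟩

end mulz

section slice

variable (σ : Measure Circle) [IsFiniteMeasure σ] (m : Circle → ℕ∞)
  (hm : ∀ k, MeasurableSet (m ⁻¹' {k})) (E : Set Circle) (hE : MeasurableSet E) (l : ℕ)
  (hEl : ∀ z ∈ E, (l : ℕ∞) < m z)

include hm hE hEl in
theorem mp_fst : MeasurePreserving (Prod.fst : Circle × ℕ → Circle)
    ((fibred σ m).restrict (E ×ˢ {l})) (σ.restrict E) := by
  refine ⟨measurable_fst, ?_⟩
  refine Measure.ext fun A hA => ?_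
  rw [Measure.map_apply measurable_fst hA, Measure.restrict_apply (measurable_fst hA),
    Measure.restrict_apply hA]
  have : Prod.fst ⁻¹' A ∩ E ×ˢ {l} = (A ∩ E) ×ˢ ({l} : Set ℕ) := by
    ext p
    simp only [Set.mem_inter_iff, Set.mem_preimage, Set.mem_prod, Set.mem_singleton_iff]
    tauto
  rw [this]
  exact fibred_slice σ m hm (A ∩ E) (hA.inter hE) l fun z hz => hEl z hz.2

include hm hE hEl in
theorem mp_mk : MeasurePreserving (fun z : Circle => ((z, l) : Circle × ℕ))
    (σ.restrict E) ((fibred σ m).restrict (E ×ˢ {l})) := by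
  have hmk : Measurable (fun z : Circle => ((z, l) : Circle × ℕ)) := by fun_prop
  refine ⟨hmk, ?_⟩
  refine Measure.ext fun A hA => ?_
  rw [Measure.map_apply hmk hA, Measure.restrict_apply (hmk hA), Measure.restrict_apply hA]
  have hA' : MeasurableSet ((fun z : Circle => ((z, l) : Circle × ℕ)) ⁻¹' A ∩ E) :=
    (hmk hA).inter hE
  have : A ∩ E ×ˢ {l} = ((fun z : Circle => ((z, l) : Circle × ℕ)) ⁻¹' A ∩ E) ×ˢ ({l} : Set ℕ) := by
    ext p
    simp only [Set.mem_inter_iff, Set.mem_preimage, Set.mem_prod, Set.mem_singleton_iff]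
    constructor
    · rintro ⟨h1, h2, h3⟩
      refine ⟨⟨?_, h2⟩, h3⟩
      rw [← h3]
      exact h1
    · rintro ⟨⟨h1, h2⟩, h3⟩
      refine ⟨?_, h2, h3⟩
      rw [← h3] at h1
      exact h1
  rw [this]
  exact (fibred_slice σ m hm _ hA' l fun z hz => hEl z hz.2).symm

include hm hE hEl in
theorem slice_mem (f : Circle → ℂ) (hf : MemLp f 2 (σ.restrict E)) :
    MemLp ((E ×ˢ ({l} : Set ℕ)).indicator (fun p : Circle × ℕ => f p.1)) 2 (fibred σ m) := by
  rw [memLp_indicator_iff_restrict (hE.prod (measurableSet_singleton l))]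
  exact hf.comp_measurePreserving (mp_fst σ m hm E hE l hEl)

include hm hE hEl in
theorem slice_norm (f : Circle → ℂ) (hf : MemLp f 2 (σ.restrict E)) :
    eLpNorm ((E ×ˢ ({l} : Set ℕ)).indicator (fun p : Circle × ℕ => f p.1)) 2 (fibred σ m) =
      eLpNorm f 2 (σ.restrict E) := by
  rw [eLpNorm_indicator_eq_eLpNorm_restrict (hE.prod (measurableSet_singleton l))]
  exact eLpNorm_comp_measurePreserving hf.1 (mp_fst σ m hm E hE l hEl)

include hm hE hEl in
/-- the piece of the direct integral over a slice -/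
theorem exists_slice : ∃ V : Lp ℂ 2 (σ.restrict E) →ₗᵢ[ℂ] Lp ℂ 2 (fibred σ m),
    ∀ f, (V f : Circle × ℕ → ℂ) =ᵐ[fibred σ m]
      (E ×ˢ ({l} : Set ℕ)).indicator (fun p : Circle × ℕ => (f : Circle → ℂ) p.1) := by
  have hq : ∀ (p : Circle → Prop), (∀ᵐ z ∂(σ.restrict E), p z) →
      ∀ᵐ x ∂(fibred σ m), x ∈ E ×ˢ ({l} : Set ℕ) → p x.1 := by
    intro p hp
    have h1 := (mp_fst σ m hm E hE l hEl).quasiMeasurePreserving.ae hp
    rwa [ae_restrict_iff' (hE.prod (measurableSet_singleton l))] at h1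
  let L : Lp ℂ 2 (σ.restrict E) →ₗ[ℂ] Lp ℂ 2 (fibred σ m) :=
    { toFun := fun f => (slice_mem σ m hm E hE l hEl _ (Lp.memLp f)).toLp _
      map_add' := by
        intro f g
        apply Lp.ext
        filter_upwards [(slice_mem σ m hm E hE l hEl _ (Lp.memLp (f + g))).coeFn_toLp,
          (slice_mem σ m hm E hE l hEl _ (Lp.memLp f)).coeFn_toLp,
          (slice_mem σ m hm E hE l hEl _ (Lp.memLp g)).coeFn_toLp, hq _ (Lp.coeFn_add f g),
          Lp.coeFn_add ((slice_mem σ m hm E hE l hEl _ (Lp.memLp f)).toLp _)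
            ((slice_mem σ m hm E hE l hEl _ (Lp.memLp g)).toLp _)] with p e1 e2 e3 e4 e5
        rw [e1, e5, Pi.add_apply, e2, e3]
        by_cases hp : p ∈ E ×ˢ ({l} : Set ℕ)
        · rw [Set.indicator_of_mem hp, Set.indicator_of_mem hp, Set.indicator_of_mem hp, e4 hp]
          rfl
        · rw [Set.indicator_of_notMem hp, Set.indicator_of_notMem hp,
            Set.indicator_of_notMem hp, add_zero]
      map_smul' := by
        intro a f
        apply Lp.ext
        filter_upwards [(slice_mem σ m hm E hE l hEl _ (Lp.memLp (a • f))).coeFn_toLp,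
          (slice_mem σ m hm E hE l hEl _ (Lp.memLp f)).coeFn_toLp, hq _ (Lp.coeFn_smul a f),
          Lp.coeFn_smul a ((slice_mem σ m hm E hE l hEl _ (Lp.memLp f)).toLp _)]
          with p e1 e2 e4 e5
        simp only [RingHom.id_apply]
        rw [e1, e5, Pi.smul_apply, e2]
        by_cases hp : p ∈ E ×ˢ ({l} : Set ℕ)
        · rw [Set.indicator_of_mem hp, Set.indicator_of_mem hp, e4 hp]
          rfl
        · rw [Set.indicator_of_notMem hp, Set.indicator_of_notMem hp, smul_zero] }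
  have hL : ∀ f, (L f : Circle × ℕ → ℂ) =ᵐ[fibred σ m]
      (E ×ˢ ({l} : Set ℕ)).indicator (fun p : Circle × ℕ => (f : Circle → ℂ) p.1) :=
    fun f => (slice_mem σ m hm E hE l hEl _ (Lp.memLp f)).coeFn_toLp
  refine ⟨{ toLinearMap := L, norm_map' := ?_ }, hL⟩
  intro f
  rw [Lp.norm_def, Lp.norm_def, eLpNorm_congr_ae (hL f),
    slice_norm σ m hm E hE l hEl _ (Lp.memLp f)]

end slice

end MS723
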