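import Pool.Agent.H723R2.Ctx
import Pool.Agent.Helper345.SM.J_basic
import Pool.Agent.Helper345.SM.J_dense
import Pool.Agent.Helper345.SM.isLim_mul
import Pool.Agent.Helper345.SM.isLim_pow
import Pool.Agent.Helper345.SM.isLim_symm

/-! The subspaces of `L²` given by the characters of the fibre. -/

set_option autoImplicit false
set_option linter.unusedVariables false

open MeasureTheory Filter Topology
open scoped ENNReal NNReal

noncomputable section

namespace MS723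

open SM345 (XX UnifMeas errs J IsLim Koop)

variable {P : Par}

/-- sequences labelling characters (only finitely supported ones matter) -/
abbrev Dd (P : Par) : Type := ∀ j, ZMod (P.p j)

/-- `d` vanishes from `n` on -/
def supp (n : ℕ) (d : Dd P) : Prop := ∀ j, n ≤ j → d j = 0

theorem supp_mono {n m : ℕ} (h : n ≤ m) {d : Dd P} (hd : supp n d) : supp m d :=
  fun j hj => hd j (h.trans hj)

/-- the character -/
def ch (n : ℕ) (d : Dd P) (y : Fb P n) : ℂ := ∏ j : Fin n, ZMod.stdAddChar (d j * y j)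

theorem ch_add (n : ℕ) (d : Dd P) (y y' : Fb P n) :
    ch n d (fun j => y j + y' j) = ch n d y * ch n d y' := by
  unfold ch
  rw [← Finset.prod_mul_distrib]
  refine Finset.prod_congr rfl fun j _ => ?_
  rw [mul_add, AddChar.map_add_eq_mul]

theorem ch_norm (n : ℕ) (d : Dd P) (y : Fb P n) : ‖ch n d y‖ = 1 := by
  unfold ch
  rw [norm_prod]
  exact Finset.prod_eq_one fun j _ => AddChar.norm_apply _ _

theorem ch_zero (n : ℕ) (y : Fb P n) : ch n (0 : Dd P) y = 1 := by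
  unfold ch
  refine Finset.prod_eq_one fun j _ => ?_
  rw [Pi.zero_apply, zero_mul, AddChar.map_zero_eq_one]

theorem ch_zero' (n : ℕ) (d : Dd P) : ch n d (fun _ => 0) = 1 := by
  unfold ch
  refine Finset.prod_eq_one fun j _ => ?_
  rw [mul_zero, AddChar.map_zero_eq_one]

theorem ch_succ (n : ℕ) (d : Dd P) (hd : d n = 0) (y : Fb P (n + 1)) :
    ch (n + 1) d y = ch n d (fun j => y j.castSucc) := by
  unfold ch
  rw [Fin.prod_univ_castSucc]
  have h : (ZMod.stdAddChar (d (Fin.last n) * y (Fin.last n)) : ℂ) = 1 := by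
    have h1 : d (Fin.last n) = 0 := hd
    rw [h1, zero_mul, AddChar.map_zero_eq_one]
  rw [h, mul_one]
  rfl

theorem sum_char {N : ℕ} [NeZero N] (t : ZMod N) :
    ∑ x : ZMod N, (ZMod.stdAddChar (t * x) : ℂ) = if t = 0 then (N : ℂ) else 0 := by
  have h := AddChar.sum_mulShift (ψ := (ZMod.stdAddChar : AddChar (ZMod N) ℂ)) t
    (ZMod.isPrimitive_stdAddChar N)
  rw [ZMod.card] at h
  have h2 : ∑ x : ZMod N, (ZMod.stdAddChar (t * x) : ℂ) =
      ∑ x : ZMod N, (ZMod.stdAddChar (x * t) : ℂ) :=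
    Finset.sum_congr rfl fun x _ => by rw [mul_comm]
  rw [h2, h]
  split_ifs <;> simp

theorem star_char {N : ℕ} [NeZero N] (x : ZMod N) :
    (starRingEnd ℂ) (ZMod.stdAddChar x) = ZMod.stdAddChar (-x) :=
  (AddChar.map_neg_eq_conj _ _).symm

theorem ch_orth (n : ℕ) (d d' : Dd P) (j₀ : ℕ) (hj : j₀ < n) (h : d j₀ ≠ d' j₀) :
    ∑ y : Fb P n, (starRingEnd ℂ) (ch n d y) * ch n d' y = 0 := by
  have h1 : ∀ y : Fb P n, (starRingEnd ℂ) (ch n d y) * ch n d' y =
      ∏ j : Fin n, (ZMod.stdAddChar ((d' j - d j) * y j) : ℂ) := by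
    intro y
    unfold ch
    rw [map_prod, ← Finset.prod_mul_distrib]
    refine Finset.prod_congr rfl fun j _ => ?_
    rw [star_char, ← AddChar.map_add_eq_mul]
    congr 1
    ring
  simp only [h1]
  have h2 : ∑ y : Fb P n, ∏ j : Fin n, (ZMod.stdAddChar ((d' j - d j) * y j) : ℂ) =
      ∏ j : Fin n, ∑ t : ZMod (P.p j), (ZMod.stdAddChar ((d' j - d j) * t) : ℂ) := by
    rw [Finset.prod_univ_sum]
    simp
  rw [h2]
  refine Finset.prod_eq_zero (Finset.mem_univ (⟨j₀, hj⟩ : Fin n)) ?_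
  rw [sum_char, if_neg]
  intro h3
  exact h (sub_eq_zero.1 h3).symm

/-- extension of an element of the dual of the fibre by zero -/
def ext (n : ℕ) (b : Fb P n) : Dd P := fun j => if h : j < n then b ⟨j, h⟩ else 0

theorem ext_supp (n : ℕ) (b : Fb P n) : supp n (ext n b) := by
  intro j hj
  unfold ext
  rw [dif_neg (not_lt.2 hj)]

theorem ext_apply (n : ℕ) (b : Fb P n) (j : Fin n) : ext n b j = b j := by
  unfold ext
  rw [dif_pos j.2]

theorem ch_complete (n : ℕ) (z : Fb P n) :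
    ∑ b : Fb P n, ch n (ext n b) z = if z = 0 then (Fintype.card (Fb P n) : ℂ) else 0 := by
  have h1 : ∀ b : Fb P n, ch n (ext n b) z =
      ∏ j : Fin n, (ZMod.stdAddChar (z j * b j) : ℂ) := by
    intro b
    unfold ch
    refine Finset.prod_congr rfl fun j _ => ?_
    rw [ext_apply, mul_comm]
  simp only [h1]
  have h2 : ∑ b : Fb P n, ∏ j : Fin n, (ZMod.stdAddChar (z j * b j) : ℂ) =
      ∏ j : Fin n, ∑ t : ZMod (P.p j), (ZMod.stdAddChar (z j * t) : ℂ) := by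
    rw [Finset.prod_univ_sum]
    simp
  rw [h2]
  split_ifs with h
  · rw [h, Fintype.card_pi]
    push_cast
    refine Finset.prod_congr rfl fun j _ => ?_
    rw [sum_char, Pi.zero_apply, if_pos rfl, ZMod.card]
  · obtain ⟨j, hj⟩ := Function.ne_iff.1 h
    refine Finset.prod_eq_zero (Finset.mem_univ j) ?_
    rw [sum_char]
    exact if_neg hj

/-- a function of the base coordinate times a character of the fibre -/
def bf (n : ℕ) (d : Dd P) (f : ZMod (Nn P n) → ℂ) : Om P n → ℂ := fun z => f z.1 * ch n d z.2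

theorem bf_abs (n : ℕ) (d : Dd P) (f : ZMod (Nn P n) → ℂ) (z : Om P n) : ‖bf n d f z‖ = ‖f z.1‖ := by
  unfold bf
  rw [norm_mul, ch_norm, mul_one]

variable (c : Ctx P)

/-- the corresponding element of `L²` -/
def Jd (d : Dd P) (n : ℕ) (f : ZMod (Nn P n) → ℂ) : Lp ℂ 2 c.μ := J c.hμ n (bf n d f)

theorem Jd_add (d : Dd P) (n : ℕ) (f g : ZMod (Nn P n) → ℂ) :
    Jd c d n (fun u => f u + g u) = Jd c d n f + Jd c d n g := by
  unfold Jd
  rw [← (SM345.J_basic c.hμ).1]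
  congr 1
  funext z
  unfold bf
  ring

theorem Jd_smul (d : Dd P) (n : ℕ) (a : ℂ) (f : ZMod (Nn P n) → ℂ) :
    Jd c d n (fun u => a * f u) = a • Jd c d n f := by
  unfold Jd
  rw [← (SM345.J_basic c.hμ).2.1]
  congr 1
  funext z
  unfold bf
  ring

theorem Jd_zero (d : Dd P) (n : ℕ) : Jd c d n (fun _ => 0) = 0 := by
  have := Jd_smul c d n 0 (fun _ => 0)
  simpa using this

theorem Jd_sub (d : Dd P) (n : ℕ) (f g : ZMod (Nn P n) → ℂ) :
    Jd c d n f - Jd c d n g = Jd c d n (fun u => f u - g u) := by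
  have h1 := Jd_smul c d n (-1) g
  have h2 := Jd_add c d n f (fun u => -1 * g u)
  rw [h1, neg_one_smul, ← sub_eq_add_neg] at h2
  rw [← h2]
  congr 1
  funext u
  ring

theorem Jd_sum (d : Dd P) (n : ℕ) {ι : Type} (s : Finset ι) (f : ι → ZMod (Nn P n) → ℂ) :
    ∑ i ∈ s, Jd c d n (f i) = Jd c d n (fun u => ∑ i ∈ s, f i u) := by
  classical
  induction s using Finset.induction_on with
  | empty => simp [Jd_zero]
  | insert a s ha ih =>
    rw [Finset.sum_insert ha, ih, ← Jd_add]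
    congr 1
    funext u
    rw [Finset.sum_insert ha]

/-- lift of a function on the base by one level -/
def lf (n : ℕ) (f : ZMod (Nn P n) → ℂ) : ZMod (Nn P (n + 1)) → ℂ :=
  fun u => f ((St P n).pr u.val : ℕ)

theorem Jd_lf (d : Dd P) (n : ℕ) (hd : d n = 0) (f : ZMod (Nn P n) → ℂ) :
    Jd c d (n + 1) (lf n f) = Jd c d n f := by
  unfold Jd
  rw [← (SM345.J_basic c.hμ).2.2.1 n (bf n d f)]
  congr 1
  funext z
  unfold bf lf pP
  simp only [Function.comp_apply]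
  rw [ch_succ n d hd]

theorem sum_zmod {E : Type} [AddCommMonoid E] (N : ℕ) [NeZero N] (g : ℕ → E) :
    ∑ x : ZMod N, g x.val = ∑ i ∈ Finset.range N, g i := by
  rw [← Fin.sum_univ_eq_sum_range]
  cases N with
  | zero => exact absurd rfl (NeZero.ne 0)
  | succ N => rfl

theorem sum_lf {E : Type} [AddCommMonoid E] (n : ℕ) (g : ZMod (Nn P n) → E) :
    ∑ u : ZMod (Nn P (n + 1)), g ((St P n).pr u.val : ℕ) =
      ((St P n).low * (St P n).K') • ∑ y, g y := by
  have h1 := sum_zmod (Nn P (n + 1)) (fun u => g ((St P n).pr u : ℕ))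
  rw [h1]
  have h2 := (St P n).sum_M (fun (y : ZMod (Nn P n)) _ _ => g y)
  refine h2.trans ?_
  rw [Finset.sum_const, Finset.sum_const, Finset.card_range, Finset.card_range, smul_smul]
  rfl

theorem Jd_lift (d : Dd P) (n : ℕ) (hd : supp n d) (f : ZMod (Nn P n) → ℂ) (C : ℝ)
    (hf : ∀ u, ‖f u‖ ≤ C) (k : ℕ) : ∃ f' : ZMod (Nn P (n + k)) → ℂ, (∀ u, ‖f' u‖ ≤ C) ∧
      (∑ u, f u = 0 → ∑ u, f' u = 0) ∧ Jd c d (n + k) f' = Jd c d n f := by
  induction k with
  | zero => exact ⟨f, hf, fun h => h, rfl⟩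
  | succ k ih =>
    obtain ⟨f', h1, h2, h3⟩ := ih
    refine ⟨lf (n + k) f', fun u => h1 _, fun h => ?_, ?_⟩
    · have h4 := sum_lf (n + k) f'
      rw [h2 h, smul_zero] at h4
      exact h4
    · have := Jd_lf c d (n + k) (hd _ (by omega)) f'
      rw [← h3]
      exact this

theorem Jd_lift' (d : Dd P) (n m : ℕ) (hnm : n ≤ m) (hd : supp n d) (f : ZMod (Nn P n) → ℂ) (C : ℝ)
    (hf : ∀ u, ‖f u‖ ≤ C) : ∃ f' : ZMod (Nn P m) → ℂ, (∀ u, ‖f' u‖ ≤ C) ∧
      (∑ u, f u = 0 → ∑ u, f' u = 0) ∧ Jd c d m f' = Jd c d n f := by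
  obtain ⟨k, rfl⟩ := Nat.exists_eq_add_of_le hnm
  exact Jd_lift c d n hd f C hf k

theorem exists_bound {N : ℕ} [NeZero N] (f : ZMod N → ℂ) : ∃ C : ℝ, 0 ≤ C ∧ ∀ u, ‖f u‖ ≤ C :=
  ⟨∑ u, ‖f u‖, Finset.sum_nonneg fun u _ => norm_nonneg _,
    fun u => Finset.single_le_sum (f := fun u => ‖f u‖) (fun u _ => norm_nonneg _)
      (Finset.mem_univ u)⟩

theorem Jd_inner (d : Dd P) (n : ℕ) (f g : ZMod (Nn P n) → ℂ) :
    inner ℂ (Jd c d n f) (Jd c d n g) = (∑ u, (starRingEnd ℂ) (f u) * g u) / (Nn P n : ℂ) := by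
  unfold Jd
  rw [(SM345.J_basic c.hμ).2.2.2.1, cardOm]
  have h1 : ∑ z : Om P n, (starRingEnd ℂ) (bf n d f z) * bf n d g z =
      (Fintype.card (Fb P n) : ℂ) * ∑ u, (starRingEnd ℂ) (f u) * g u := by
    rw [Fintype.sum_prod_type, Finset.mul_sum]
    refine Finset.sum_congr rfl fun u _ => ?_
    have : ∀ y : Fb P n, (starRingEnd ℂ) (bf n d f (u, y)) * bf n d g (u, y) =
        (starRingEnd ℂ) (f u) * g u := by
      intro y
      unfold bf
      simp only
      rw [map_mul]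
      have h2 : (starRingEnd ℂ) (ch n d y) * ch n d y = 1 := by
        rw [Complex.conj_mul', ch_norm]
        norm_num
      calc _ = (starRingEnd ℂ) (f u) * g u * ((starRingEnd ℂ) (ch n d y) * ch n d y) := by ring
        _ = _ := by rw [h2, mul_one]
    simp only [this, Finset.sum_const, Finset.card_univ, nsmul_eq_mul]
  rw [h1]
  have hN : (Nn P n : ℂ) ≠ 0 := by exact_mod_cast (Nn_pos P n).ne'
  have hF : (Fintype.card (Fb P n) : ℂ) ≠ 0 := by exact_mod_cast Fintype.card_ne_zero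
  push_cast
  field_simp

theorem Jd_norm (d : Dd P) (n : ℕ) (f : ZMod (Nn P n) → ℂ) :
    ‖Jd c d n f‖ ^ 2 = (∑ u, ‖f u‖ ^ 2) / (Nn P n : ℝ) := by
  have h1 := Jd_inner c d n f f
  rw [inner_self_eq_norm_sq_to_K] at h1
  have h2 : ((‖Jd c d n f‖ ^ 2 : ℝ) : ℂ) = (((∑ u, ‖f u‖ ^ 2) / (Nn P n : ℝ) : ℝ) : ℂ) := by
    push_cast
    refine Eq.trans h1 ?_
    congr 1
    refine Finset.sum_congr rfl fun y _ => ?_
    rw [Complex.conj_mul']
  exact_mod_cast h2

theorem Jd_norm_le (d : Dd P) (n : ℕ) (f : ZMod (Nn P n) → ℂ) (C : ℝ) (hC : 0 ≤ C)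
    (hf : ∀ u, ‖f u‖ ≤ C) : ‖Jd c d n f‖ ≤ C := by
  have h1 := Jd_norm c d n f
  have hN : (0 : ℝ) < Nn P n := by exact_mod_cast Nn_pos P n
  have h2 : ∑ u, ‖f u‖ ^ 2 ≤ Nn P n * C ^ 2 := by
    calc ∑ u, ‖f u‖ ^ 2 ≤ ∑ u : ZMod (Nn P n), C ^ 2 := by
          refine Finset.sum_le_sum fun u _ => ?_
          exact pow_le_pow_left₀ (norm_nonneg _) (hf u) 2
      _ = _ := by rw [Finset.sum_const, Finset.card_univ, ZMod.card, nsmul_eq_mul]
  have h3 : ‖Jd c d n f‖ ^ 2 ≤ C ^ 2 := by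
    rw [h1, div_le_iff₀ hN]
    linarith
  exact (pow_le_pow_iff_left₀ (norm_nonneg _) hC (by norm_num)).1 h3

theorem Jd_orth (d d' : Dd P) (n : ℕ) (hd : supp n d) (hd' : supp n d') (h : d ≠ d')
    (f g : ZMod (Nn P n) → ℂ) : inner ℂ (Jd c d n f) (Jd c d' n g) = 0 := by
  obtain ⟨j, hj⟩ := Function.ne_iff.1 h
  have hjn : j < n := by
    by_contra hcon
    rw [hd j (not_lt.1 hcon), hd' j (not_lt.1 hcon)] at hj
    exact hj rfl
  unfold Jd
  rw [(SM345.J_basic c.hμ).2.2.2.1]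
  have h1 : ∑ z : Om P n, (starRingEnd ℂ) (bf n d f z) * bf n d' g z = 0 := by
    rw [Fintype.sum_prod_type]
    refine Finset.sum_eq_zero fun u _ => ?_
    have : ∀ y : Fb P n, (starRingEnd ℂ) (bf n d f (u, y)) * bf n d' g (u, y) =
        (starRingEnd ℂ) (f u) * g u * ((starRingEnd ℂ) (ch n d y) * ch n d' y) := by
      intro y
      unfold bf
      simp only
      rw [map_mul]
      ring
    simp only [this]
    rw [← Finset.mul_sum, ch_orth n d d' j hjn hj, mul_zero]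
  rw [h1, zero_div]

/-- the algebraic part of `Kd` -/
def Sd (d : Dd P) : Submodule ℂ (Lp ℂ 2 c.μ) where
  carrier := {F | F = 0 ∨ ∃ n, supp n d ∧ ∃ f, F = Jd c d n f}
  add_mem' := by
    rintro x y (rfl | ⟨n, hn, f, rfl⟩) (rfl | ⟨m, hm, g, rfl⟩)
    · left; simp
    · right; exact ⟨m, hm, g, by simp⟩
    · right; exact ⟨n, hn, f, by simp⟩
    · right
      obtain ⟨C, -, hC⟩ := exists_bound f
      obtain ⟨C', -, hC'⟩ := exists_bound g
      obtain ⟨f', -, -, hf'⟩ := Jd_lift' c d n (max n m) (le_max_left _ _) hn f C hC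
      obtain ⟨g', -, -, hg'⟩ := Jd_lift' c d m (max n m) (le_max_right _ _) hm g C' hC'
      refine ⟨max n m, supp_mono (le_max_left _ _) hn, fun u => f' u + g' u, ?_⟩
      rw [Jd_add, hf', hg']
  zero_mem' := Or.inl rfl
  smul_mem' := by
    rintro a x (rfl | ⟨n, hn, f, rfl⟩)
    · left; simp
    · right; exact ⟨n, hn, fun u => a * f u, (Jd_smul c d n a f).symm⟩

/-- the space of the character `d` -/
def Kd (d : Dd P) : Submodule ℂ (Lp ℂ 2 c.μ) := (Sd c d).topologicalClosure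

theorem Jd_mem (d : Dd P) (n : ℕ) (hd : supp n d) (f : ZMod (Nn P n) → ℂ) : Jd c d n f ∈ Kd c d :=
  Submodule.le_topologicalClosure _ (Or.inr ⟨n, hd, f, rfl⟩)

theorem Kd_closed (d : Dd P) : IsClosed (Kd c d : Set (Lp ℂ 2 c.μ)) :=
  Submodule.isClosed_topologicalClosure _

theorem Kd_approx (d : Dd P) (n₀ : ℕ) (hd : supp n₀ d) (F : Lp ℂ 2 c.μ) (hF : F ∈ Kd c d) (ε : ℝ)
    (hε : 0 < ε) : ∃ n, n₀ ≤ n ∧ ∃ f : ZMod (Nn P n) → ℂ, ‖F - Jd c d n f‖ < ε := by
  have hF' : F ∈ closure (Sd c d : Set (Lp ℂ 2 c.μ)) := hF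
  obtain ⟨G, hG, hd2⟩ := Metric.mem_closure_iff.1 hF' ε hε
  rw [dist_eq_norm] at hd2
  rcases hG with rfl | ⟨n, hn, f, rfl⟩
  · exact ⟨n₀, le_refl _, fun _ => 0, by rwa [Jd_zero]⟩
  · obtain ⟨C, -, hC⟩ := exists_bound f
    obtain ⟨f', -, -, hf'⟩ := Jd_lift' c d n (max n n₀) (le_max_left _ _) hn f C hC
    exact ⟨max n n₀, le_max_right _ _, f', by rwa [hf']⟩

/-- a closed property of elements of `Kd` only has to be checked on finite levels -/
theorem Kd_induction (d : Dd P) (n₀ : ℕ) (hd : supp n₀ d) (p : Lp ℂ 2 c.μ → Prop)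
    (hp : IsClosed {F | p F}) (h : ∀ n, n₀ ≤ n → ∀ f, p (Jd c d n f)) (F : Lp ℂ 2 c.μ)
    (hF : F ∈ Kd c d) : p F := by
  have hmem : F ∈ closure {F | p F} := by
    rw [Metric.mem_closure_iff]
    intro ε hε
    obtain ⟨n, hn, f, hf⟩ := Kd_approx c d n₀ hd F hF ε hε
    exact ⟨_, h n hn f, by rwa [dist_eq_norm]⟩
  rwa [hp.closure_eq] at hmem

theorem Kd_orth (d d' : Dd P) (n₀ : ℕ) (hd : supp n₀ d) (hd' : supp n₀ d') (h : d ≠ d')
    (F G : Lp ℂ 2 c.μ) (hF : F ∈ Kd c d) (hG : G ∈ Kd c d') : inner ℂ F G = 0 := by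
  refine Kd_induction c d n₀ hd (fun F => inner ℂ F G = 0) ?_ ?_ F hF
  · exact isClosed_eq (continuous_id.inner continuous_const) continuous_const
  intro n hn f
  refine Kd_induction c d' n (supp_mono hn hd') (fun G => inner ℂ (Jd c d n f) G = 0) ?_ ?_ G hG
  · exact isClosed_eq (continuous_const.inner continuous_id) continuous_const
  intro m hm g
  obtain ⟨C, -, hC⟩ := exists_bound f
  obtain ⟨f', -, -, hf'⟩ := Jd_lift' c d n m hm (supp_mono hn hd) f C hC
  rw [← hf']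
  exact Jd_orth c d d' m (supp_mono (hn.trans hm) hd) (supp_mono (hn.trans hm) hd') h f' g

end MS723
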