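import Mathlib
import Pool.Agent.H384R2.Fatou

/-!
The entire interpolation `f₀` of the `3x+1` function (Letherman, Schleicher, Wood): every integer is
in the Fatou set. Definitions and first lemmas follow helper384's hand-in `NonwanderingCount`.
-/

set_option autoImplicit false

open Filter Topology Metric Set

namespace Pool.Agent.H723R2.LSW

open Pool.Agent.H384R2.Fatou

/-- The entire function of Letherman, Schleicher and Wood interpolating the `3x+1` map. -/
noncomputable def f₀ (z : ℂ) : ℂ :=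
  z / 2 + (z + 1 / 2) * ((1 - Complex.cos (Real.pi * z)) / 2) +
    1 / Real.pi * (1 / 2 - Complex.cos (Real.pi * z)) * Complex.sin (Real.pi * z)

/-- The `3x+1` function: `n ↦ n/2` for even `n` and `n ↦ (3n+1)/2` for odd `n`. -/
def T (m : ℤ) : ℤ := if m % 2 = 0 then m / 2 else (3 * m + 1) / 2

theorem f₀_int (n : ℤ) : f₀ (n : ℂ) = (T n : ℂ) := by
  have hs : Complex.sin (Real.pi * (n : ℂ)) = 0 := by
    rw [mul_comm]; exact Complex.sin_int_mul_pi n
  unfold f₀ T
  rw [hs]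
  rcases Int.even_or_odd n with h | h
  · obtain ⟨m, rfl⟩ := h
    have hc : Complex.cos (Real.pi * ((m + m : ℤ) : ℂ)) = 1 := by
      have := Complex.cos_int_mul_two_pi m
      rw [← this]; congr 1; push_cast; ring
    rw [hc]
    have h1 : (m + m) % 2 = 0 := by omega
    have h2 : (m + m) / 2 = m := by omega
    simp only [h1, h2, if_true]
    push_cast; ring
  · obtain ⟨m, rfl⟩ := h
    have hc : Complex.cos (Real.pi * ((2 * m + 1 : ℤ) : ℂ)) = -1 := by
      have := Complex.cos_int_mul_two_pi m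
      have h3 : (Real.pi : ℂ) * ((2 * m + 1 : ℤ) : ℂ) = m * (2 * Real.pi) + Real.pi := by
        push_cast; ring
      rw [h3, Complex.cos_add_pi, this]
    rw [hc]
    have h1 : ¬ (2 * m + 1) % 2 = 0 := by omega
    have h2 : (3 * (2 * m + 1) + 1) / 2 = 3 * m + 2 := by omega
    simp only [h1, h2, if_false]
    push_cast; ring

theorem f₀_iter (n : ℤ) (k : ℕ) : f₀^[k] (n : ℂ) = ((T^[k] n : ℤ) : ℂ) := by
  induction k with
  | zero => rfl
  | succ k ih => rw [Function.iterate_succ_apply', Function.iterate_succ_apply', ih, f₀_int]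

theorem f₀_hasDerivAt (z : ℂ) : HasDerivAt f₀
    (1 / 2 + ((1 - Complex.cos (Real.pi * z)) / 2 +
      (z + 1 / 2) * ((Complex.sin (Real.pi * z) * Real.pi) / 2)) +
      (1 / Real.pi * (Complex.sin (Real.pi * z) * Real.pi) * Complex.sin (Real.pi * z) +
        1 / Real.pi * (1 / 2 - Complex.cos (Real.pi * z)) *
          (Complex.cos (Real.pi * z) * Real.pi))) z := by
  have hpi : HasDerivAt (fun z : ℂ => (Real.pi : ℂ) * z) Real.pi z := by
    simpa using (hasDerivAt_id z).const_mul (Real.pi : ℂ)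
  have hc : HasDerivAt (fun z : ℂ => Complex.cos (Real.pi * z))
      (-Complex.sin (Real.pi * z) * Real.pi) z :=
    (Complex.hasDerivAt_cos _).comp z hpi
  have hs : HasDerivAt (fun z : ℂ => Complex.sin (Real.pi * z))
      (Complex.cos (Real.pi * z) * Real.pi) z :=
    (Complex.hasDerivAt_sin _).comp z hpi
  have h1 : HasDerivAt (fun z : ℂ => z / 2) (1 / 2) z := (hasDerivAt_id z).div_const 2
  have h2 : HasDerivAt (fun z : ℂ => z + 1 / 2) 1 z := (hasDerivAt_id z).add_const _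
  have h3 := (hc.const_sub 1).div_const 2
  have h4 := h2.mul h3
  have h5 := ((hc.const_sub (1 / 2)).const_mul (1 / (Real.pi : ℂ))).mul hs
  have h6 := (h1.add h4).add h5
  have h7 := h6.congr_deriv (g' := 1 / 2 + ((1 - Complex.cos (Real.pi * z)) / 2 +
      (z + 1 / 2) * ((Complex.sin (Real.pi * z) * Real.pi) / 2)) +
      (1 / Real.pi * (Complex.sin (Real.pi * z) * Real.pi) * Complex.sin (Real.pi * z) +
        1 / Real.pi * (1 / 2 - Complex.cos (Real.pi * z)) *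
          (Complex.cos (Real.pi * z) * Real.pi))) (by ring)
  exact h7

theorem f₀_deriv_int (n : ℤ) : HasDerivAt f₀ 0 (n : ℂ) := by
  have h := f₀_hasDerivAt (n : ℂ)
  have hs : Complex.sin (Real.pi * (n : ℂ)) = 0 := by
    rw [mul_comm]; exact Complex.sin_int_mul_pi n
  have hc : Complex.cos (Real.pi * (n : ℂ)) ^ 2 = 1 := by
    have := Complex.sin_sq_add_cos_sq ((Real.pi : ℂ) * (n : ℂ))
    rw [hs] at this
    simpa using this
  have hpi : (Real.pi : ℂ) ≠ 0 := by exact_mod_cast Real.pi_ne_zero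
  convert h using 1
  rw [hs]
  field_simp
  linear_combination 4 * hc

theorem f₀_differentiable : Differentiable ℂ f₀ := fun z => (f₀_hasDerivAt z).differentiableAt

theorem f₀_iter_deriv (n : ℤ) (p : ℕ) (hp : 0 < p) : HasDerivAt (f₀^[p]) 0 (n : ℂ) := by
  obtain ⟨q, rfl⟩ : ∃ q, p = q + 1 := ⟨p - 1, by omega⟩
  have h1 : HasDerivAt (f₀^[q]) (deriv (f₀^[q]) (f₀ n)) (f₀ n) :=
    ((f₀_differentiable.iterate q) _).hasDerivAt
  have h2 := h1.comp (n : ℂ) (f₀_deriv_int n)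
  simpa using h2

/-! ### the quadratic estimate near the integers -/

/-- an entire function with a double zero at the origin is `O(h²)` on the unit disc -/
theorem quad {F : ℂ → ℂ} (hF : Differentiable ℂ F) (h0 : F 0 = 0) (h1 : HasDerivAt F 0 0) :
    ∃ C : ℝ, 0 ≤ C ∧ ∀ h : ℂ, ‖h‖ ≤ 1 → ‖F h‖ ≤ C * ‖h‖ ^ 2 := by
  have hG : DifferentiableOn ℂ (dslope F 0) univ :=
    (Complex.differentiableOn_dslope univ_mem).2 hF.differentiableOn
  have hH : DifferentiableOn ℂ (dslope (dslope F 0) 0) univ :=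
    (Complex.differentiableOn_dslope univ_mem).2 hG
  have hc : Continuous (dslope (dslope F 0) 0) :=
    continuousOn_univ.1 hH.continuousOn
  obtain ⟨C, hC⟩ := (isCompact_closedBall (0 : ℂ) 1).exists_bound_of_continuousOn
    hc.continuousOn
  refine ⟨max C 0, le_max_right _ _, fun h hh => ?_⟩
  have e1 : F h = h * dslope F 0 h := by
    have := sub_smul_dslope F 0 h
    rw [h0, sub_zero, sub_zero, smul_eq_mul] at this
    exact this.symm
  have e2 : dslope F 0 h = h * dslope (dslope F 0) 0 h := by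
    have := sub_smul_dslope (dslope F 0) 0 h
    rw [dslope_same, h1.deriv, sub_zero, sub_zero, smul_eq_mul] at this
    exact this.symm
  rw [e1, e2, norm_mul, norm_mul]
  have h3 := hC h (by simpa using hh)
  have h4 : ‖dslope (dslope F 0) 0 h‖ ≤ max C 0 := h3.trans (le_max_left _ _)
  calc ‖h‖ * (‖h‖ * ‖dslope (dslope F 0) 0 h‖) = ‖dslope (dslope F 0) 0 h‖ * ‖h‖ ^ 2 := by ring
    _ ≤ max C 0 * ‖h‖ ^ 2 := by gcongr

theorem f₀_near : ∃ C : ℝ, 1 ≤ C ∧ ∀ (m : ℤ) (z : ℂ), ‖z - m‖ ≤ 1 →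
    ‖f₀ z - (T m : ℂ)‖ ≤ C * (|(m : ℝ)| + 1) * ‖z - m‖ ^ 2 := by
  have hpi0 : (Real.pi : ℂ) ≠ 0 := by exact_mod_cast Real.pi_ne_zero
  have hpi : ∀ z : ℂ, HasDerivAt (fun z : ℂ => (Real.pi : ℂ) * z) Real.pi z := fun z => by
    simpa using (hasDerivAt_id z).const_mul (Real.pi : ℂ)
  have hc : ∀ z : ℂ, HasDerivAt (fun z : ℂ => Complex.cos (Real.pi * z))
      (-Complex.sin (Real.pi * z) * Real.pi) z := fun z =>
    (Complex.hasDerivAt_cos _).comp z (hpi z)
  have hs : ∀ z : ℂ, HasDerivAt (fun z : ℂ => Complex.sin (Real.pi * z))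
      (Complex.cos (Real.pi * z) * Real.pi) z := fun z =>
    (Complex.hasDerivAt_sin _).comp z (hpi z)
  -- three functions with a double zero
  set A : ℂ → ℂ := fun h => h - 1 / Real.pi * (Complex.cos (Real.pi * h) *
    Complex.sin (Real.pi * h)) with hA
  set B : ℂ → ℂ := fun h => 1 / Real.pi * Complex.sin (Real.pi * h) -
    h * Complex.cos (Real.pi * h) with hB
  set D : ℂ → ℂ := fun h => 1 - Complex.cos (Real.pi * h) with hD
  have dA : ∀ h, HasDerivAt A (1 - 1 / Real.pi * ((-Complex.sin (Real.pi * h) * Real.pi) *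
      Complex.sin (Real.pi * h) + Complex.cos (Real.pi * h) *
        (Complex.cos (Real.pi * h) * Real.pi))) h := fun h =>
    (hasDerivAt_id h).sub (((hc h).mul (hs h)).const_mul _)
  have dB : ∀ h, HasDerivAt B (1 / Real.pi * (Complex.cos (Real.pi * h) * Real.pi) -
      (1 * Complex.cos (Real.pi * h) + h * (-Complex.sin (Real.pi * h) * Real.pi))) h := fun h =>
    ((hs h).const_mul _).sub ((hasDerivAt_id h).mul (hc h))
  have dD : ∀ h, HasDerivAt D (-(-Complex.sin (Real.pi * h) * Real.pi)) h := fun h =>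
    (hc h).const_sub 1
  have dA0 : HasDerivAt A 0 0 := by
    convert dA 0 using 1
    simp
  have dB0 : HasDerivAt B 0 0 := by
    convert dB 0 using 1
    simp
  have dD0 : HasDerivAt D 0 0 := by
    convert dD 0 using 1
    simp
  obtain ⟨CA, hCA0, hCA⟩ := quad (fun h => (dA h).differentiableAt) (by simp [hA]) dA0
  obtain ⟨CB, hCB0, hCB⟩ := quad (fun h => (dB h).differentiableAt) (by simp [hB]) dB0
  obtain ⟨CD, hCD0, hCD⟩ := quad (fun h => (dD h).differentiableAt) (by simp [hD]) dD0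
  refine ⟨CA + CB + CD + 1, by linarith, fun m z hz => ?_⟩
  set h : ℂ := z - m with hh
  have hz' : z = m + h := by rw [hh]; ring
  have hsm : Complex.sin (Real.pi * (m : ℂ)) = 0 := by
    rw [mul_comm]; exact Complex.sin_int_mul_pi m
  obtain ⟨ε, hε, hcm⟩ : ∃ ε : ℂ, (ε = 1 ∨ ε = -1) ∧ Complex.cos (Real.pi * (m : ℂ)) = ε := by
    refine ⟨_, ?_, rfl⟩
    have := Complex.sin_sq_add_cos_sq ((Real.pi : ℂ) * (m : ℂ))
    rw [hsm] at this
    have h2 : Complex.cos (Real.pi * (m : ℂ)) ^ 2 = 1 := by simpa using this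
    have h3 : (Complex.cos (Real.pi * (m : ℂ)) - 1) * (Complex.cos (Real.pi * (m : ℂ)) + 1) = 0 := by
      linear_combination h2
    rcases mul_eq_zero.1 h3 with h4 | h4
    · exact Or.inl (by linear_combination h4)
    · exact Or.inr (by linear_combination h4)
  have hε2 : ε ^ 2 = 1 := by rcases hε with rfl | rfl <;> norm_num
  have hT : (T m : ℂ) = m / 2 + (m + 1 / 2) * ((1 - ε) / 2) := by
    rw [← f₀_int]; unfold f₀; rw [hsm, hcm]; ring
  have e1 : Complex.cos (Real.pi * z) = ε * Complex.cos (Real.pi * h) := by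
    rw [hz', mul_add, Complex.cos_add, hsm, hcm]; ring
  have e2 : Complex.sin (Real.pi * z) = ε * Complex.sin (Real.pi * h) := by
    rw [hz', mul_add, Complex.sin_add, hsm, hcm]; ring
  have key : f₀ z - (T m : ℂ) = A h + ε / 2 * B h + ε / 2 * ((m : ℂ) + 1 / 2) * D h := by
    unfold f₀
    rw [hT, e1, e2, hz']
    simp only [hA, hB, hD]
    linear_combination (-1 / (Real.pi : ℂ) * Complex.cos (Real.pi * h) *
      Complex.sin (Real.pi * h)) * hε2
  have hεn : ‖ε / 2‖ = 1 / 2 := by rcases hε with rfl | rfl <;> norm_num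
  have hm : ‖(m : ℂ) + 1 / 2‖ ≤ |(m : ℝ)| + 1 := by
    calc ‖(m : ℂ) + 1 / 2‖ ≤ ‖(m : ℂ)‖ + ‖(1 / 2 : ℂ)‖ := norm_add_le _ _
      _ ≤ |(m : ℝ)| + 1 := by
          rw [Complex.norm_intCast]; norm_num
  have hm0 : (0 : ℝ) ≤ |(m : ℝ)| := abs_nonneg _
  have bA := hCA h hz
  have bB := hCB h hz
  have bD := hCD h hz
  rw [key]
  have hn2 : 0 ≤ ‖h‖ ^ 2 := by positivity
  calc ‖A h + ε / 2 * B h + ε / 2 * ((m : ℂ) + 1 / 2) * D h‖
      ≤ ‖A h‖ + ‖ε / 2 * B h‖ + ‖ε / 2 * ((m : ℂ) + 1 / 2) * D h‖ := norm_add₃_le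
    _ = ‖A h‖ + 1 / 2 * ‖B h‖ + 1 / 2 * ‖(m : ℂ) + 1 / 2‖ * ‖D h‖ := by
        rw [norm_mul, norm_mul, norm_mul, hεn]
    _ ≤ CA * ‖h‖ ^ 2 + 1 / 2 * (CB * ‖h‖ ^ 2) + 1 / 2 * (|(m : ℝ)| + 1) * (CD * ‖h‖ ^ 2) := by
        gcongr
    _ ≤ (CA + CB + CD + 1) * (|(m : ℝ)| + 1) * ‖h‖ ^ 2 := by
        have : CA + 1 / 2 * CB + 1 / 2 * (|(m : ℝ)| + 1) * CD ≤
            (CA + CB + CD + 1) * (|(m : ℝ)| + 1) := by
          nlinarith [mul_nonneg hCA0 hm0, mul_nonneg hCB0 hm0, mul_nonneg hCD0 hm0]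
        nlinarith [mul_le_mul_of_nonneg_right this hn2]

/-! ### orbits near an integer -/

theorem T_growth (m : ℤ) : |((T m : ℤ) : ℝ)| + 1 ≤ 2 * (|(m : ℝ)| + 1) := by
  have h : |T m| + 1 ≤ 2 * (|m| + 1) := by
    unfold T
    split_ifs with h
    · rcases abs_cases (m / 2) with h1 | h1 <;> rcases abs_cases m with h2 | h2 <;> omega
    · rcases abs_cases ((3 * m + 1) / 2) with h1 | h1 <;> rcases abs_cases m with h2 | h2 <;> omega
  have h2 : ((|T m| + 1 : ℤ) : ℝ) ≤ ((2 * (|m| + 1) : ℤ) : ℝ) := by exact_mod_cast h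
  push_cast at h2
  exact h2

theorem T_iter_growth (n : ℤ) (k : ℕ) :
    |((T^[k] n : ℤ) : ℝ)| + 1 ≤ 2 ^ k * (|(n : ℝ)| + 1) := by
  induction k with
  | zero => simp
  | succ k ih =>
    rw [Function.iterate_succ_apply']
    have := T_growth (T^[k] n)
    calc _ ≤ 2 * (|((T^[k] n : ℤ) : ℝ)| + 1) := this
      _ ≤ 2 * (2 ^ k * (|(n : ℝ)| + 1)) := by gcongr
      _ = 2 ^ (k + 1) * (|(n : ℝ)| + 1) := by ring

/-- in a small disc around an integer all orbits follow the orbit of the integer -/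
theorem follow (n : ℤ) : ∃ r : ℝ, 0 < r ∧ r ≤ 1 ∧ ∀ z ∈ ball (n : ℂ) r, ∀ k : ℕ,
    ‖f₀^[k] z - ((T^[k] n : ℤ) : ℂ)‖ ≤ r / 4 ^ k := by
  obtain ⟨C, hC1, hC⟩ := f₀_near
  have hn0 : (0 : ℝ) ≤ |(n : ℝ)| := abs_nonneg _
  set r : ℝ := 1 / (4 * C * (|(n : ℝ)| + 1)) with hr
  have hden : 0 < 4 * C * (|(n : ℝ)| + 1) := by positivity
  have hr0 : 0 < r := by positivity
  have hr1 : r ≤ 1 := by
    rw [hr, div_le_one hden]
    nlinarith
  have hCr : C * (|(n : ℝ)| + 1) * r = 1 / 4 := by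
    rw [hr]; field_simp
  refine ⟨r, hr0, hr1, fun z hz k => ?_⟩
  induction k with
  | zero =>
    rw [mem_ball, dist_eq_norm] at hz
    simpa using hz.le
  | succ k ih =>
    rw [Function.iterate_succ_apply', Function.iterate_succ_apply']
    have h4 : (1 : ℝ) ≤ 4 ^ k := one_le_pow₀ (by norm_num)
    have hle1 : ‖f₀^[k] z - ((T^[k] n : ℤ) : ℂ)‖ ≤ 1 := by
      refine ih.trans ?_
      rw [div_le_one (by positivity)]
      linarith
    have h5 := hC (T^[k] n) (f₀^[k] z) hle1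
    have h6 := T_iter_growth n k
    calc ‖f₀ (f₀^[k] z) - ((T (T^[k] n) : ℤ) : ℂ)‖
        ≤ C * (|((T^[k] n : ℤ) : ℝ)| + 1) * ‖f₀^[k] z - ((T^[k] n : ℤ) : ℂ)‖ ^ 2 := h5
      _ ≤ C * (2 ^ k * (|(n : ℝ)| + 1)) * (r / 4 ^ k) ^ 2 := by gcongr
      _ = (C * (|(n : ℝ)| + 1) * r) * r / 8 ^ k := by
          have : (8 : ℝ) ^ k = 4 ^ k * 2 ^ k := by rw [← mul_pow]; norm_num
          rw [this]
          have h44 : (4 : ℝ) ^ k = 2 ^ k * 2 ^ k := by rw [← mul_pow]; norm_num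
          rw [h44]
          field_simp
      _ = r / 4 / 8 ^ k := by rw [hCr]; ring
      _ ≤ r / 4 / 4 ^ k := by
          gcongr
          norm_num
      _ = r / 4 ^ (k + 1) := by rw [pow_succ]; field_simp

/-- the trajectory of `n` is not eventually periodic -/
def Wild (n : ℤ) : Prop := ∀ i j : ℕ, T^[i] n = T^[j] n → i = j

theorem wild_tendsto {n : ℤ} (h : Wild n) :
    Tendsto (fun k => |((T^[k] n : ℤ) : ℝ)|) atTop atTop := by
  have h1 : Function.Injective (fun k : ℕ => T^[k] n) := fun i j hij => h i j hij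
  have h2 : Tendsto (fun k : ℕ => T^[k] n) atTop cofinite := by
    rw [← Nat.cofinite_eq_atTop]; exact h1.tendsto_cofinite
  rw [Filter.tendsto_atTop]
  intro B
  have h3 : {m : ℤ | |(m : ℝ)| < B}.Finite := by
    apply (Set.finite_Icc (-⌈B⌉) ⌈B⌉).subset
    intro m hm
    rw [Set.mem_setOf_eq, abs_lt] at hm
    have h5 := Int.le_ceil B
    rw [Set.mem_Icc]
    constructor
    · have : ((-⌈B⌉ : ℤ) : ℝ) < m := by push_cast; linarith
      exact_mod_cast this.le
    · have : (m : ℝ) < ((⌈B⌉ : ℤ) : ℝ) := by linarith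
      exact_mod_cast this.le
  have h4 := h2.eventually h3.compl_mem_cofinite
  filter_upwards [h4] with k hk
  simp only [Set.mem_compl_iff, Set.mem_setOf_eq, not_lt] at hk
  exact hk

/-- every sequence of naturals has a subsequence that is constant or tends to infinity -/
theorem exists_subseq' (φ : ℕ → ℕ) : ∃ ψ : ℕ → ℕ, StrictMono ψ ∧
    ((∃ c, ∀ j, φ (ψ j) = c) ∨ Tendsto (fun j => φ (ψ j)) atTop atTop) := by
  obtain ⟨ψ, hψ, h | ⟨i, hi, m, hm, hj⟩⟩ := exists_subseq 1 one_pos φ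
  · exact ⟨ψ, hψ, Or.inl h⟩
  · refine ⟨ψ, hψ, Or.inr ?_⟩
    have : (fun j => φ (ψ j)) = m := by
      funext j
      have := hj j
      omega
    rw [this]; exact hm

theorem tlu_const (g : ℂ → ℂ) (U : Set ℂ) :
    TendstoLocallyUniformlyOn (fun _ : ℕ => g) g atTop U := by
  intro u hu x _
  exact ⟨univ, Filter.univ_mem, Filter.Eventually.of_forall fun _ y _ => refl_mem_uniformity hu⟩

theorem wild_mem_fatou {n : ℤ} (h : Wild n) : (n : ℂ) ∈ FatouSet f₀ := by
  obtain ⟨r, hr, hr1, hfol⟩ := follow n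
  refine ⟨r, hr, fun φ => ?_⟩
  obtain ⟨ψ, hψ, ⟨c, hc⟩ | hinf⟩ := exists_subseq' φ
  · refine ⟨ψ, hψ, Or.inl ⟨f₀^[c], ?_⟩⟩
    have : (fun j => f₀^[φ (ψ j)]) = fun _ : ℕ => f₀^[c] := by
      funext j; rw [hc j]
    show TendstoLocallyUniformlyOn (fun j => f₀^[φ (ψ j)]) (f₀^[c]) atTop (ball (n : ℂ) r)
    rw [this]
    exact tlu_const _ _
  · refine ⟨ψ, hψ, Or.inr ?_⟩
    intro K hK _ R
    have h1 := (wild_tendsto h).comp hinf
    filter_upwards [h1.eventually (eventually_ge_atTop (R + 1))] with j hj z hz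
    have h2 := hfol z (hK hz) (φ (ψ j))
    have h3 : r / 4 ^ (φ (ψ j)) ≤ 1 := by
      rw [div_le_one (by positivity)]
      have : (1 : ℝ) ≤ 4 ^ (φ (ψ j)) := one_le_pow₀ (by norm_num)
      linarith
    have h4 : ‖((T^[φ (ψ j)] n : ℤ) : ℂ)‖ = |((T^[φ (ψ j)] n : ℤ) : ℝ)| := Complex.norm_intCast _
    have h5 : ‖((T^[φ (ψ j)] n : ℤ) : ℂ)‖ ≤
        ‖f₀^[φ (ψ j)] z‖ + ‖f₀^[φ (ψ j)] z - ((T^[φ (ψ j)] n : ℤ) : ℂ)‖ := by
      have := norm_sub_norm_le ((T^[φ (ψ j)] n : ℤ) : ℂ) (f₀^[φ (ψ j)] z)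
      rw [norm_sub_rev] at this
      linarith
    simp only [Function.comp_apply] at hj
    show R ≤ ‖f₀^[φ (ψ j)] z‖
    linarith

/-- an integer whose trajectory is eventually periodic hits a periodic integer -/
theorem tame_hits {n : ℤ} (h : ¬ Wild n) : ∃ (k p : ℕ) (a : ℤ), 0 < p ∧ T^[p] a = a ∧
    T^[k] n = a := by
  unfold Wild at h
  push Not at h
  obtain ⟨i, j, hij, hne⟩ := h
  wlog hlt : i < j generalizing i j
  · exact this j i hij.symm hne.symm (by omega)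
  refine ⟨i, j - i, T^[i] n, by omega, ?_, rfl⟩
  rw [← Function.iterate_add_apply, show j - i + i = j by omega, hij]

/-- every integer lies in the Fatou set -/
theorem int_mem_fatou (n : ℤ) : (n : ℂ) ∈ FatouSet f₀ := by
  by_cases h : Wild n
  · exact wild_mem_fatou h
  · obtain ⟨k, p, a, hp, ha, hk⟩ := tame_hits h
    exact mem_fatou_of_hits (f := f₀) (a := (a : ℂ)) (p := p) (k := k)
      f₀_differentiable.continuous hp (by rw [f₀_iter, ha]) (f₀_iter_deriv a p hp)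
      (by rw [f₀_iter, hk])

end Pool.Agent.H723R2.LSW
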