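import Mathlib
import Pool.Agent.H723R2.LSWBase

/-!
Forward invariance of the Fatou set, and a point outside the Fatou set of `f₀` in every interval
`[m, m+1]`, `m ≠ -2`.
-/

set_option autoImplicit false

open Filter Topology Metric Set

namespace Pool.Agent.H723R2.LSW

open Pool.Agent.H384R2.Fatou

theorem normalOn_mono {F : ℕ → ℂ → ℂ} {U V : Set ℂ} (h : NormalOn F U) (hV : V ⊆ U) :
    NormalOn F V := by
  intro φ
  obtain ⟨ψ, hψ, h1 | h1⟩ := h φ
  · obtain ⟨g, hg⟩ := h1
    exact ⟨ψ, hψ, Or.inl ⟨g, hg.mono hV⟩⟩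
  · exact ⟨ψ, hψ, Or.inr fun K hK hKc R => h1 K (hK.trans hV) hKc R⟩

theorem isOpen_fatou (f : ℂ → ℂ) : IsOpen (FatouSet f) := by
  rw [Metric.isOpen_iff]
  rintro z ⟨r, hr, h⟩
  refine ⟨r / 2, by linarith, fun w hw => ⟨r / 2, by linarith, normalOn_mono h ?_⟩⟩
  apply ball_subset_ball'
  rw [mem_ball] at hw
  linarith

theorem fatou_forward {f : ℂ → ℂ} (hopen : ∀ s : Set ℂ, IsOpen s → IsOpen (f '' s)) {z : ℂ}
    (hz : z ∈ FatouSet f) : f z ∈ FatouSet f := by
  classical
  obtain ⟨r, hr, hN⟩ := hz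
  have h1 : IsOpen (f '' ball z (r / 2)) := hopen _ isOpen_ball
  have h2 : f z ∈ f '' ball z (r / 2) := ⟨z, mem_ball_self (by linarith), rfl⟩
  obtain ⟨ρ, hρ, hsub⟩ := Metric.isOpen_iff.1 h1 _ h2
  refine ⟨ρ, hρ, fun φ => ?_⟩
  have hcl : closedBall z (r / 2) ⊆ ball z r := closedBall_subset_ball (by linarith)
  have hit : ∀ (j : ℕ) (x : ℂ), f^[j] (f x) = f^[j + 1] x := fun j x =>
    (Function.iterate_succ_apply f j x).symm
  obtain ⟨ψ, hψ, ⟨g, hg⟩ | hinf⟩ := hN (fun j => φ j + 1)
  · have hgu : TendstoUniformlyOn (fun j => f^[φ (ψ j) + 1]) g atTop (closedBall z (r / 2)) :=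
      (tendstoLocallyUniformlyOn_iff_tendstoUniformlyOn_of_compact
        (isCompact_closedBall z (r / 2))).1 (hg.mono hcl)
    refine ⟨ψ, hψ, Or.inl ⟨fun w => if h : ∃ x ∈ ball z (r / 2), f x = w then g h.choose else 0,
      TendstoUniformlyOn.tendstoLocallyUniformlyOn ?_⟩⟩
    rw [Metric.tendstoUniformlyOn_iff] at hgu ⊢
    intro ε hε
    filter_upwards [hgu ε hε] with j hj w hw
    have h : ∃ x ∈ ball z (r / 2), f x = w := hsub hw
    have hx := h.choose_spec
    have h3 := hj h.choose (ball_subset_closedBall hx.1)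
    rw [← hit, hx.2] at h3
    simp only [dif_pos h]
    exact h3
  · refine ⟨ψ, hψ, Or.inr fun K hK _ R => ?_⟩
    filter_upwards [hinf (closedBall z (r / 2)) hcl (isCompact_closedBall _ _) R] with j hj w hw
    obtain ⟨x, hx, hxw⟩ := hsub (hK hw)
    have h3 := hj x (ball_subset_closedBall hx)
    rw [← hit, hxw] at h3
    exact h3

theorem fatou_forward_iter {f : ℂ → ℂ} (hopen : ∀ s : Set ℂ, IsOpen s → IsOpen (f '' s)) {z : ℂ}
    (hz : z ∈ FatouSet f) (k : ℕ) : f^[k] z ∈ FatouSet f := by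
  induction k with
  | zero => exact hz
  | succ k ih =>
    rw [Function.iterate_succ_apply']
    exact fatou_forward hopen ih

theorem component_isOpen (f : ℂ → ℂ) (z : ℂ) : IsOpen (FatouComponent f z) :=
  (isOpen_fatou f).connectedComponentIn

theorem component_map {f : ℂ → ℂ} (hf : Continuous f)
    (hopen : ∀ s : Set ℂ, IsOpen s → IsOpen (f '' s)) {z : ℂ}
    (hz : z ∈ FatouSet f) (k : ℕ) :
    f^[k] '' FatouComponent f z ⊆ FatouComponent f (f^[k] z) := by
  apply IsPreconnected.subset_connectedComponentIn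
  · exact isPreconnected_connectedComponentIn.image _ (hf.iterate k).continuousOn
  · exact ⟨z, mem_connectedComponentIn hz, rfl⟩
  · rintro _ ⟨x, hx, rfl⟩
    exact fatou_forward_iter hopen (connectedComponentIn_subset _ _ hx) k

theorem f₀_open (s : Set ℂ) (hs : IsOpen s) : IsOpen (f₀ '' s) := by
  have h := (f₀_differentiable.differentiableOn.analyticOnNhd
    isOpen_univ).is_constant_or_isOpen isPreconnected_univ
  rcases h with ⟨w, hw⟩ | h
  · exfalso
    have h0 := hw 0 (mem_univ _)
    have h1 := hw 1 (mem_univ _)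
    have e0 : f₀ 0 = 0 := by
      have := f₀_int 0
      simpa [T] using this
    have e1 : f₀ 1 = 2 := by
      have := f₀_int 1
      simpa [T] using this
    rw [e0] at h0
    rw [e1, ← h0] at h1
    norm_num at h1
  · exact h s (subset_univ _) hs

/-- the restriction of `f₀` to the real line -/
noncomputable def F (x : ℝ) : ℝ :=
  x / 2 + (x + 1 / 2) * ((1 - Real.cos (Real.pi * x)) / 2) +
    1 / Real.pi * (1 / 2 - Real.cos (Real.pi * x)) * Real.sin (Real.pi * x)

theorem F_coe (x : ℝ) : ((F x : ℝ) : ℂ) = f₀ (x : ℂ) := by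
  unfold F f₀
  push_cast
  rfl

theorem F_cont : Continuous F := by
  unfold F
  fun_prop

theorem F_int (m : ℤ) : F (m : ℝ) = (T m : ℝ) := by
  have h1 : ((F (m : ℝ) : ℝ) : ℂ) = ((T m : ℝ) : ℂ) := by
    rw [F_coe]
    have := f₀_int m
    push_cast
    exact this
  exact_mod_cast h1

/-- there is a point of the interval `[m, m+1]` outside the Fatou set -/
def Jul (m : ℤ) : Prop := ∃ x : ℝ, (m : ℝ) ≤ x ∧ x ≤ m + 1 ∧ (x : ℂ) ∉ FatouSet f₀

theorem jul_step {m j : ℤ} (hj : Jul j) (h1 : min (T m) (T (m + 1)) ≤ j)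
    (h2 : j + 1 ≤ max (T m) (T (m + 1))) : Jul m := by
  obtain ⟨x, hx1, hx2, hx3⟩ := hj
  have hmem : x ∈ uIcc (F (m : ℝ)) (F ((m : ℝ) + 1)) := by
    have e : F ((m : ℝ) + 1) = (T (m + 1) : ℝ) := by
      have := F_int (m + 1)
      push_cast at this
      exact this
    rw [e, F_int, uIcc, mem_Icc]
    constructor
    · refine le_trans ?_ hx1
      have : ((min (T m) (T (m + 1)) : ℤ) : ℝ) ≤ (j : ℝ) := by exact_mod_cast h1
      rw [Int.cast_min] at this
      exact this
    · refine le_trans hx2 ?_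
      have : ((j + 1 : ℤ) : ℝ) ≤ ((max (T m) (T (m + 1)) : ℤ) : ℝ) := by exact_mod_cast h2
      rw [Int.cast_max] at this
      push_cast at this
      exact this
  obtain ⟨y, hy, hyx⟩ := intermediate_value_uIcc F_cont.continuousOn hmem
  rw [uIcc_of_le (by linarith : (m : ℝ) ≤ m + 1), mem_Icc] at hy
  refine ⟨y, hy.1, hy.2, fun hyF => hx3 ?_⟩
  have := fatou_forward f₀_open hyF
  rw [← F_coe, hyx] at this
  exact this

theorem seg_component {a b : ℝ} (h : ∀ x : ℝ, a ≤ x → x ≤ b → (x : ℂ) ∈ FatouSet f₀) {x y : ℝ}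
    (hx : x ∈ Icc a b) (hy : y ∈ Icc a b) : (x : ℂ) ∈ FatouComponent f₀ (y : ℂ) := by
  have h1 : (fun t : ℝ => (t : ℂ)) '' Icc a b ⊆ FatouComponent f₀ (y : ℂ) := by
    apply IsPreconnected.subset_connectedComponentIn
    · exact isPreconnected_Icc.image _ Complex.continuous_ofReal.continuousOn
    · exact ⟨y, hy, rfl⟩
    · rintro _ ⟨t, ht, rfl⟩
      exact h t ht.1 ht.2
  exact h1 ⟨x, hx, rfl⟩

/-- an interval with a fixed point and an end point attracted elsewhere -/
theorem jul_fixed {m e a : ℤ} {k p : ℕ} {x : ℝ} (hp : 0 < p) (ha : T^[p] a = a)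
    (hk : T^[k] e = a) (he : e = m ∨ e = m + 1) (hx1 : (m : ℝ) ≤ x) (hx2 : x ≤ m + 1)
    (hfix : F x = x) (hne : x ≠ a) : Jul m := by
  by_contra hcon
  have hall : ∀ y : ℝ, (m : ℝ) ≤ y → y ≤ m + 1 → (y : ℂ) ∈ FatouSet f₀ := by
    intro y h1 h2
    by_contra h3
    exact hcon ⟨y, h1, h2, h3⟩
  have hem : ((e : ℤ) : ℝ) ∈ Icc (m : ℝ) (m + 1) := by
    rcases he with rfl | rfl
    · exact ⟨le_refl _, by linarith⟩
    · push_cast; exact ⟨by linarith, le_refl _⟩
  have hmem : (x : ℂ) ∈ FatouComponent f₀ (e : ℂ) := by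
    have := seg_component hall (x := x) (y := (e : ℝ)) ⟨hx1, hx2⟩ hem
    simpa using this
  have hb := basin_of_hits (f := f₀) (a := (a : ℂ)) (p := p) (k := k) f₀_differentiable hp
    (by rw [f₀_iter, ha]) (f₀_iter_deriv a p hp) (by rw [f₀_iter, hk]) _ hmem
  have hxf : ∀ i : ℕ, f₀^[i] (x : ℂ) = x := by
    intro i
    have : f₀ (x : ℂ) = x := by rw [← F_coe, hfix]
    exact Function.iterate_fixed this i
  simp only [hxf] at hb
  have := tendsto_nhds_unique hb tendsto_const_nhds
  apply hne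
  exact_mod_cast this.symm

theorem jul_one : Jul 1 := by
  obtain ⟨x, hx, hxf⟩ : ∃ x ∈ Icc (1 : ℝ) 2, F x = x := by
    have hc : ContinuousOn (fun x : ℝ => F x - x) (Icc (1:ℝ) 2) :=
      (F_cont.sub continuous_id).continuousOn
    have h := intermediate_value_Icc' (by norm_num : (1 : ℝ) ≤ 2) hc
    have h0 : (0 : ℝ) ∈ Icc (F 2 - 2) (F 1 - 1) := by
      have e1 : F 1 = 2 := by have := F_int 1; simpa [T] using this
      have e2 : F 2 = 1 := by have := F_int 2; simpa [T] using this
      rw [e1, e2, mem_Icc]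
      norm_num
    obtain ⟨x, hx, hx0⟩ := h h0
    exact ⟨x, hx, by linarith⟩
  have e1 : F 1 = 2 := by have := F_int 1; simpa [T] using this
  refine jul_fixed (m := 1) (e := 1) (a := 1) (k := 0) (p := 2) (x := x) (by norm_num) (by decide)
    rfl (Or.inl rfl) (by simpa using hx.1) (by have := hx.2; push_cast; linarith) hxf ?_
  intro h
  have h' : x = 1 := by simpa using h
  rw [h', e1] at hxf
  norm_num at hxf

theorem jul_neg_three : Jul (-3) := by
  obtain ⟨x, hx, hxf⟩ : ∃ x ∈ Icc (-3 : ℝ) (-2), F x = x := by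
    have hc : ContinuousOn (fun x : ℝ => F x - x) (Icc (-3:ℝ) (-2)) :=
      (F_cont.sub continuous_id).continuousOn
    have h := intermediate_value_Icc (by norm_num : (-3 : ℝ) ≤ -2) hc
    have h0 : (0 : ℝ) ∈ Icc (F (-3) - (-3)) (F (-2) - (-2)) := by
      have e1 : F (-3) = -4 := by have := F_int (-3); simpa [T] using this
      have e2 : F (-2) = -1 := by have := F_int (-2); simpa [T] using this
      rw [e1, e2, mem_Icc]
      norm_num
    obtain ⟨x, hx, hx0⟩ := h h0
    exact ⟨x, hx, by linarith⟩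
  refine jul_fixed (m := -3) (e := -2) (a := -1) (k := 1) (p := 1) (x := x) (by norm_num)
    (by decide) (by decide) (Or.inr (by norm_num)) (by have := hx.1; push_cast; linarith)
    (by have := hx.2; push_cast; linarith) hxf ?_
  intro h
  have := hx.2
  rw [h] at this
  push_cast at this
  linarith

theorem jul_neg_one : Jul (-1) := by
  refine jul_fixed (m := -1) (e := -1) (a := -1) (k := 0) (p := 1) (x := 0) (by norm_num)
    (by decide) rfl (Or.inl rfl) (by push_cast; linarith) (by push_cast; linarith) ?_ ?_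
  · have := F_int 0; simpa [T] using this
  · push_cast; norm_num

theorem T_even (m : ℤ) : T (2 * m) = m := by unfold T; split_ifs <;> omega

theorem T_odd (m : ℤ) : T (2 * m + 1) = 3 * m + 2 := by unfold T; split_ifs <;> omega

theorem jul_pos (k : ℕ) : ∀ m : ℤ, 1 ≤ m → m ≤ k → Jul m := by
  induction k with
  | zero => intro m h1 h2; exfalso; push_cast at h2; omega
  | succ k ih =>
    intro m h1 h2
    rcases eq_or_lt_of_le h1 with h | h
    · rw [← h]; exact jul_one
    · rcases Int.even_or_odd' m with ⟨c, rfl | rfl⟩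
      · have e2 : T (2 * c + 1) = 3 * c + 2 := T_odd c
        refine jul_step (ih c (by omega) (by push_cast at h2; omega)) ?_ ?_
        · rw [T_even, e2]; exact min_le_left _ _
        · rw [T_even, e2]; exact le_trans (by omega) (le_max_right _ _)
      · have e2 : T (2 * c + 1 + 1) = c + 1 := by
          rw [show 2 * c + 1 + 1 = 2 * (c + 1) by ring, T_even]
        refine jul_step (ih (c + 1) (by omega) (by push_cast at h2; omega)) ?_ ?_
        · rw [T_odd, e2]; exact min_le_right _ _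
        · rw [T_odd, e2]; exact le_trans (by omega) (le_max_left _ _)

theorem jul_neg (k : ℕ) : ∀ m : ℤ, m ≤ -3 → -(k : ℤ) ≤ m → Jul m := by
  induction k with
  | zero => intro m h1 h2; exfalso; push_cast at h2; omega
  | succ k ih =>
    intro m h1 h2
    rcases eq_or_lt_of_le h1 with h | h
    · rw [h]; exact jul_neg_three
    · rcases Int.even_or_odd' m with ⟨c, rfl | rfl⟩
      · have e2 : T (2 * c + 1) = 3 * c + 2 := T_odd c
        refine jul_step (ih (c - 1) (by omega) (by push_cast at h2; omega)) ?_ ?_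
        · rw [T_even, e2]; exact le_trans (min_le_right _ _) (by omega)
        · rw [T_even, e2]; exact le_trans (by omega) (le_max_left _ _)
      · have e2 : T (2 * c + 1 + 1) = c + 1 := by
          rw [show 2 * c + 1 + 1 = 2 * (c + 1) by ring, T_even]
        refine jul_step (ih c (by omega) (by push_cast at h2; omega)) ?_ ?_
        · rw [T_odd, e2]; exact le_trans (min_le_left _ _) (by omega)
        · rw [T_odd, e2]; exact le_trans (by omega) (le_max_right _ _)

theorem jul_all {m : ℤ} (hm : m ≠ -2) : Jul m := by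
  rcases lt_trichotomy m 0 with h | h | h
  · by_cases h1 : m = -1
    · rw [h1]; exact jul_neg_one
    · exact jul_neg m.natAbs m (by omega) (by omega)
  · rw [h]
    refine jul_step jul_one ?_ ?_
    · have : T 0 = 0 := by decide
      rw [this]; exact le_trans (min_le_left _ _) (by norm_num)
    · have : T (0 + 1) = 2 := by decide
      rw [this]; exact le_max_right _ _
  · exact jul_pos m.natAbs m (by omega) (by omega)

end Pool.Agent.H723R2.LSW
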