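import Mathlib
import Pool.Agent.H723R2.LSWJulia
import Pool.Agent.Lev.J_schottky

/-!
The dichotomy of Letherman, Schleicher and Wood: the Fatou component of an integer is a wandering
domain of `f₀` iff the `3x+1` trajectory of the integer is not eventually periodic.
-/

set_option autoImplicit false

open Filter Topology Metric Set

namespace Pool.Agent.H723R2.LSW

open Pool.Agent.H384R2.Fatou

theorem T_iter_form (x : ℤ) (p : ℕ) : ∃ (o : ℕ) (c : ℤ), 0 ≤ c ∧ c ≤ 4 ^ p ∧
    2 ^ p * T^[p] x = 3 ^ o * x + c := by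
  induction p with
  | zero => exact ⟨0, 0, le_refl _, by norm_num, by simp⟩
  | succ p ih =>
    obtain ⟨o, c, h0, h1, h2⟩ := ih
    rw [Function.iterate_succ_apply']
    rcases Int.even_or_odd' (T^[p] x) with ⟨y, hy | hy⟩
    · refine ⟨o, c, h0, h1.trans (pow_le_pow_right₀ (by norm_num) (by omega)), ?_⟩
      rw [hy, T_even, ← h2, hy]; ring
    · refine ⟨o + 1, 3 * c + 2 ^ p, by positivity, ?_, ?_⟩
      · have h3 : (2 : ℤ) ^ p ≤ 4 ^ p := pow_le_pow_left₀ (by norm_num) (by norm_num) p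
        rw [pow_succ]; linarith
      · rw [hy] at h2
        rw [hy, T_odd]
        linear_combination 3 * h2

theorem T_iter_far (x : ℤ) {p : ℕ} (hp : 0 < p) : |x| ≤ 2 ^ p * |T^[p] x - x| + 4 ^ p := by
  obtain ⟨o, c, h0, h1, h2⟩ := T_iter_form x p
  have h3 : (2 : ℤ) ^ p * (T^[p] x - x) = (3 ^ o - 2 ^ p) * x + c := by
    linear_combination h2
  have h4 : (3 : ℤ) ^ o - 2 ^ p ≠ 0 := by
    intro h
    have h5 : Odd ((3 : ℤ) ^ o) := Odd.pow (by decide)
    have h6 : Even ((2 : ℤ) ^ p) := by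
      rw [Int.even_pow]; exact ⟨by decide, by omega⟩
    rw [show (3 : ℤ) ^ o = 2 ^ p by linarith] at h5
    exact (Int.not_even_iff_odd.2 h5) h6
  have h5 : 1 ≤ |(3 : ℤ) ^ o - 2 ^ p| := Int.one_le_abs h4
  have h6 : |(3 ^ o - 2 ^ p) * x| = |(3 : ℤ) ^ o - 2 ^ p| * |x| := abs_mul _ _
  have h7 : |(3 ^ o - 2 ^ p) * x| ≤ |(2 : ℤ) ^ p * (T^[p] x - x)| + |c| := by
    have : (3 ^ o - 2 ^ p) * x = (2 : ℤ) ^ p * (T^[p] x - x) - c := by linarith
    rw [this]; exact abs_sub _ _
  have h9 : |(2 : ℤ) ^ p * (T^[p] x - x)| = 2 ^ p * |T^[p] x - x| := by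
    rw [abs_mul, abs_of_pos (by positivity : (0 : ℤ) < 2 ^ p)]
  rw [h9, abs_of_nonneg h0, h6] at h7
  have h8 : |x| ≤ |(3 : ℤ) ^ o - 2 ^ p| * |x| := by
    nlinarith [abs_nonneg x]
  linarith

theorem wild_iter {n : ℤ} (h : Wild n) (k : ℕ) : Wild (T^[k] n) := by
  intro i j hij
  have := h (i + k) (j + k) (by rw [Function.iterate_add_apply, Function.iterate_add_apply, hij])
  omega

/-- Schottky step -/
theorem schottky_step {G : ℂ → ℂ} {c : ℂ} {r : ℝ} (hr : 0 < r) (hG : DifferentiableOn ℂ G (ball c r))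
    {A B : ℝ} (hA1 : 5 ≤ A) (hA2 : A ≤ 6) (hB1 : -6 ≤ B) (hB2 : B ≤ -5)
    (hGA : ∀ z ∈ ball c r, G z ≠ A) (hGB : ∀ z ∈ ball c r, G z ≠ B) {M : ℝ} (hM : ‖G c‖ ≤ M) :
    ∀ z ∈ ball c (r / 2),
      ‖G z‖ ≤ 6 * Real.exp (Real.pi * Real.exp (Real.pi * ((M + 1) + 386))) + 1 := by
  have hAB : ((A - B : ℝ) : ℂ) ≠ 0 := by
    have : (A - B : ℝ) ≠ 0 := by linarith
    exact_mod_cast this
  have hmaps : ∀ x ∈ ball (0:ℂ) 1, c + r * x ∈ ball c r := by
    intro x hx
    rw [mem_ball_zero_iff] at hx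
    rw [mem_ball, dist_eq_norm]
    have : c + r * x - c = r * x := by ring
    rw [this, norm_mul, Complex.norm_real, Real.norm_eq_abs, abs_of_pos hr]
    nlinarith
  set h : ℂ → ℂ := fun x => (2 * G (c + r * x) - ((A + B : ℝ) : ℂ)) / ((A - B : ℝ) : ℂ) with hh
  have hd : DifferentiableOn ℂ h (ball 0 1) := by
    have h1 : DifferentiableOn ℂ (fun x : ℂ => c + r * x) (ball 0 1) := by fun_prop
    exact (((hG.comp h1 hmaps).const_mul 2).sub_const _).div_const _
  have h1 : ∀ x ∈ ball (0:ℂ) 1, h x ≠ 1 := by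
    intro x hx he
    rw [hh] at he
    simp only at he
    rw [div_eq_one_iff_eq hAB] at he
    apply hGA _ (hmaps x hx)
    push_cast at he
    linear_combination he / 2
  have h2 : ∀ x ∈ ball (0:ℂ) 1, h x ≠ -1 := by
    intro x hx he
    rw [hh] at he
    simp only at he
    rw [div_eq_iff hAB] at he
    apply hGB _ (hmaps x hx)
    push_cast at he
    linear_combination he / 2
  have hnAB : ‖((A - B : ℝ) : ℂ)‖ = A - B := by
    rw [Complex.norm_real, Real.norm_eq_abs, abs_of_pos (by linarith)]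
  have hnApB : ‖((A + B : ℝ) : ℂ)‖ ≤ 1 := by
    rw [Complex.norm_real, Real.norm_eq_abs, abs_le]
    constructor <;> linarith
  have hM0 : 0 ≤ M := (norm_nonneg _).trans hM
  have h3 : ‖h 0‖ ≤ M + 1 := by
    rw [hh]
    simp only [mul_zero, add_zero]
    rw [norm_div, hnAB, div_le_iff₀ (by linarith)]
    calc ‖2 * G c - ((A + B : ℝ) : ℂ)‖ ≤ ‖2 * G c‖ + ‖((A + B : ℝ) : ℂ)‖ := norm_sub_le _ _
      _ ≤ 2 * M + 1 := by
          rw [norm_mul]
          have : ‖(2 : ℂ)‖ = 2 := by norm_num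
          rw [this]; linarith
      _ ≤ (M + 1) * (A - B) := by nlinarith
  intro z hz
  have hx : (z - c) / r ∈ ball (0:ℂ) (1/2) := by
    rw [mem_ball_zero_iff, norm_div, Complex.norm_real, Real.norm_eq_abs, abs_of_pos hr]
    rw [mem_ball, dist_eq_norm] at hz
    rw [div_lt_iff₀ hr]; linarith
  have h4 := Pool.Agent.Lev.J_schottky.schottky_unif hd h1 h2 h3 _ hx
  set E := Real.exp (Real.pi * Real.exp (Real.pi * ((M + 1) + 386))) with hE
  have hr' : (r : ℂ) ≠ 0 := by exact_mod_cast hr.ne'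
  have h5 : G z = (((A - B : ℝ) : ℂ) * h ((z - c) / r) + ((A + B : ℝ) : ℂ)) / 2 := by
    rw [hh]
    simp only
    rw [mul_div_cancel₀ _ hr', mul_div_cancel₀ _ hAB]
    have : c + (z - c) = z := by ring
    rw [this]; ring
  rw [h5, norm_div]
  have h6 : ‖(2 : ℂ)‖ = 2 := by norm_num
  rw [h6, div_le_iff₀ (by norm_num)]
  calc ‖((A - B : ℝ) : ℂ) * h ((z - c) / r) + ((A + B : ℝ) : ℂ)‖
      ≤ ‖((A - B : ℝ) : ℂ) * h ((z - c) / r)‖ + ‖((A + B : ℝ) : ℂ)‖ := norm_add_le _ _
    _ ≤ 12 * E + 1 := by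
        rw [norm_mul, hnAB]
        have hE0 : 0 ≤ E := (Real.exp_pos _).le
        have : (A - B) * ‖h ((z - c) / r)‖ ≤ 12 * E := by
          apply mul_le_mul (by linarith) h4 (norm_nonneg _) (by norm_num)
        linarith
    _ ≤ (6 * E + 1) * 2 := by linarith

/-- the Fatou component of an integer with an infinite trajectory is never revisited -/
theorem no_return {N : ℤ} {p : ℕ} (hw : Wild N) (hp : 0 < p)
    (hU : ((T^[p] N : ℤ) : ℂ) ∈ FatouComponent f₀ (N : ℂ)) : False := by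
  set U := FatouComponent f₀ (N : ℂ) with hUdef
  have hNF : (N : ℂ) ∈ FatouSet f₀ := int_mem_fatou N
  have hNU : (N : ℂ) ∈ U := mem_connectedComponentIn hNF
  have hUo : IsOpen U := component_isOpen f₀ N
  have hUF : U ⊆ FatouSet f₀ := connectedComponentIn_subset _ _
  -- invariance
  have hinv1 : ∀ z ∈ U, f₀^[p] z ∈ U := by
    intro z hz
    have h1 := component_map f₀_differentiable.continuous f₀_open hNF p ⟨z, hz, rfl⟩
    rw [f₀_iter] at h1
    have h2 : FatouComponent f₀ ((T^[p] N : ℤ) : ℂ) = U := (connectedComponentIn_eq hU).symm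
    rw [h2] at h1
    exact h1
  have hinv : ∀ (i : ℕ), ∀ z ∈ U, f₀^[p * i] z ∈ U := by
    intro i
    induction i with
    | zero => intro z hz; simpa using hz
    | succ i ih =>
      intro z hz
      rw [mul_add, mul_one, add_comm, Function.iterate_add_apply]
      exact hinv1 _ (ih z hz)
  set Ni : ℕ → ℤ := fun i => T^[p * i] N with hNi
  have htend : Tendsto (fun i => |((Ni i : ℤ) : ℝ)|) atTop atTop :=
    (wild_tendsto hw).comp (tendsto_id.const_mul_atTop' hp)
  set g : ℕ → ℂ → ℂ := fun i z => f₀^[p * i] z - ((Ni i : ℤ) : ℂ) with hg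
  have hgd : ∀ i, Differentiable ℂ (g i) := fun i =>
    (f₀_differentiable.iterate _).sub_const _
  -- omitted values
  have homit : ∀ᶠ i in atTop, ∃ A B : ℝ, 5 ≤ A ∧ A ≤ 6 ∧ -6 ≤ B ∧ B ≤ -5 ∧
      (∀ z ∈ U, g i z ≠ A) ∧ (∀ z ∈ U, g i z ≠ B) := by
    filter_upwards [htend.eventually (eventually_ge_atTop 10)] with i hi
    have hi' : 10 ≤ |Ni i| := by exact_mod_cast hi
    have hne1 : Ni i + 5 ≠ -2 := by
      intro h
      have : Ni i = -7 := by omega
      rw [this] at hi'; norm_num at hi'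
    have hne2 : Ni i - 6 ≠ -2 := by
      intro h
      have : Ni i = 4 := by omega
      rw [this] at hi'; norm_num at hi'
    obtain ⟨x, hx1, hx2, hx3⟩ := jul_all hne1
    obtain ⟨y, hy1, hy2, hy3⟩ := jul_all hne2
    push_cast at hx1 hx2 hy1 hy2
    refine ⟨x - Ni i, y - Ni i, by linarith, by linarith, by linarith, by linarith, ?_, ?_⟩
    · intro z hz h
      apply hx3
      have : f₀^[p * i] z = (x : ℂ) := by
        rw [hg] at h
        push_cast at h
        linear_combination h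
      rw [← this]
      exact hUF (hinv i z hz)
    · intro z hz h
      apply hy3
      have : f₀^[p * i] z = (y : ℂ) := by
        rw [hg] at h
        push_cast at h
        linear_combination h
      rw [← this]
      exact hUF (hinv i z hz)
  -- local boundedness
  have hloc : ∀ (c : ℂ) (r : ℝ), 0 < r → ball c r ⊆ U → ∀ M : ℝ, (∀ᶠ i in atTop, ‖g i c‖ ≤ M) →
      ∀ z ∈ ball c (r / 2), ∀ᶠ i in atTop,
        ‖g i z‖ ≤ 6 * Real.exp (Real.pi * Real.exp (Real.pi * ((M + 1) + 386))) + 1 := by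
    intro c r hr hsub M hM z hz
    filter_upwards [hM, homit] with i hi ⟨A, B, hA1, hA2, hB1, hB2, hA, hB⟩
    exact schottky_step hr (hgd i).differentiableOn hA1 hA2 hB1 hB2
      (fun w hw => hA w (hsub hw)) (fun w hw => hB w (hsub hw)) hi z hz
  set S : Set ℂ := {z | z ∈ U ∧ ∃ M : ℝ, ∀ᶠ i in atTop, ‖g i z‖ ≤ M} with hS
  have hSo : IsOpen S := by
    rw [Metric.isOpen_iff]
    rintro z ⟨hzU, M, hM⟩
    obtain ⟨r, hr, hsub⟩ := Metric.isOpen_iff.1 hUo z hzU
    refine ⟨r / 2, by linarith, fun w hw => ⟨hsub (ball_subset_ball (by linarith) hw), _,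
      hloc z r hr hsub M hM w hw⟩⟩
  have hNS : (N : ℂ) ∈ S := by
    refine ⟨hNU, 0, Filter.Eventually.of_forall fun i => ?_⟩
    have : g i (N : ℂ) = 0 := by
      rw [hg]
      simp only
      rw [f₀_iter, sub_self]
    rw [this, norm_zero]
  have hsubS : U ⊆ S := by
    have hpre : IsPreconnected U := isPreconnected_connectedComponentIn
    apply hpre.subset_of_closure_inter_subset hSo ⟨N, hNU, hNS⟩
    rintro z ⟨hzc, hzU⟩
    obtain ⟨r, hr, hsub⟩ := Metric.isOpen_iff.1 hUo z hzU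
    obtain ⟨w, ⟨hwU, M, hM⟩, hzw⟩ := Metric.mem_closure_iff.1 hzc (r / 4) (by linarith)
    refine ⟨hzU, _, hloc w (r / 2) (by linarith) ?_ M hM z ?_⟩
    · refine Subset.trans (ball_subset_ball' ?_) hsub
      rw [dist_comm] at hzw
      linarith
    · rw [mem_ball]; linarith
  obtain ⟨-, M, hM⟩ := hsubS hU
  have hcon : ∀ᶠ i in atTop, |((Ni i : ℤ) : ℝ)| ≤ 2 ^ p * M + 4 ^ p := by
    filter_upwards [hM] with i hi
    have h1 : g i ((T^[p] N : ℤ) : ℂ) = ((T^[p] (Ni i) - Ni i : ℤ) : ℂ) := by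
      rw [hg]
      simp only
      rw [f₀_iter, ← Function.iterate_add_apply, add_comm, Function.iterate_add_apply]
      push_cast; ring
    rw [h1, Complex.norm_intCast] at hi
    have h2 := T_iter_far (Ni i) hp
    have h3 : ((|Ni i| : ℤ) : ℝ) ≤ ((2 ^ p * |T^[p] (Ni i) - Ni i| + 4 ^ p : ℤ) : ℝ) := by
      exact_mod_cast h2
    push_cast at h3 hi
    have h4 : (2 : ℝ) ^ p * |((T^[p] (Ni i) : ℤ) : ℝ) - (Ni i : ℝ)| ≤ 2 ^ p * M := by
      gcongr
    linarith
  obtain ⟨i, hi1, hi2⟩ := (hcon.and (htend.eventually (eventually_gt_atTop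
    (2 ^ p * M + 4 ^ p)))).exists
  linarith

/-- the component of an integer with an infinite trajectory is a wandering domain -/
theorem wild_wandering {n : ℤ} (h : Wild n) : IsWanderingDomain f₀ (FatouComponent f₀ n) := by
  have hnF := int_mem_fatou n
  have key : ∀ j k : ℕ, j < k → FatouComponent f₀ (f₀^[j] (n : ℂ)) ≠
      FatouComponent f₀ (f₀^[k] (n : ℂ)) := by
    intro j k hjk he
    apply no_return (wild_iter h j) (p := k - j) (by omega)
    rw [← Function.iterate_add_apply, show k - j + j = k by omega]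
    rw [f₀_iter, f₀_iter] at he
    rw [he]
    exact mem_connectedComponentIn (int_mem_fatou _)
  refine ⟨fun k => FatouComponent f₀ (f₀^[k] (n : ℂ)), rfl, fun k => ⟨_, ?_, rfl⟩, fun k => ?_,
    fun j k hjk he => ?_⟩
  · exact fatou_forward_iter f₀_open hnF k
  · exact component_map f₀_differentiable.continuous f₀_open hnF k
  · rcases lt_or_gt_of_ne hjk with h1 | h1
    · exact key j k h1 he
    · exact key k j h1 he.symm

/-- **Letherman–Schleicher–Wood dichotomy** -/
theorem wandering_iff (n : ℤ) : IsWanderingDomain f₀ (FatouComponent f₀ n) ↔ Wild n := by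
  refine ⟨fun h => ?_, wild_wandering⟩
  by_contra hcon
  obtain ⟨k, p, a, hp, ha, hk⟩ := tame_hits hcon
  apply not_wandering_of_hits (int_mem_fatou n) hp (k := k) _ h
  rw [f₀_iter, f₀_iter, add_comm k p, Function.iterate_add_apply, hk, ha]

end Pool.Agent.H723R2.LSW
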