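import Mathlib
import Pool.Agent.H723R2.LSWWander
import Pool.Agent.H499R2.NDClass2

/-!
Natural densities of the superattracting basins and of the wandering integers of `f₀`.
-/

set_option autoImplicit false

open Filter Topology Metric Set

namespace Pool.Agent.H723R2.LSW

open Pool.Agent.H384R2.Fatou
open Pool.Agent.H499R2.ND (Ci)

/-- the `T`-trajectories of `a` and `b` merge -/
def Mer (a b : ℤ) : Prop := ∃ i j : ℕ, T^[i] a = T^[j] b

theorem Mer.refl (a : ℤ) : Mer a a := ⟨0, 0, rfl⟩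

theorem Mer.symm {a b : ℤ} (h : Mer a b) : Mer b a := by
  obtain ⟨i, j, h⟩ := h; exact ⟨j, i, h.symm⟩

theorem Mer.trans {a b c : ℤ} (h : Mer a b) (h' : Mer b c) : Mer a c := by
  obtain ⟨i, j, h⟩ := h
  obtain ⟨k, l, h'⟩ := h'
  refine ⟨k + i, j + l, ?_⟩
  rw [Function.iterate_add_apply, h, ← Function.iterate_add_apply, add_comm k j,
    Function.iterate_add_apply, h', ← Function.iterate_add_apply]

theorem T_Ci (x : ℤ) : T (Ci x) = T x ∨ Ci x = T x := by
  rcases Int.even_or_odd' x with ⟨c, rfl | rfl⟩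
  · right
    rw [T_even]; unfold Pool.Agent.H499R2.ND.Ci; split_ifs <;> omega
  · left
    have : Ci (2 * c + 1) = 2 * (3 * c + 2) := by
      unfold Pool.Agent.H499R2.ND.Ci; split_ifs <;> omega
    rw [this, T_even, T_odd]

theorem T_eq_Ci (x : ℤ) : T x = Ci x ∨ T x = Ci (Ci x) := by
  rcases Int.even_or_odd' x with ⟨c, rfl | rfl⟩
  · left
    rw [T_even]; unfold Pool.Agent.H499R2.ND.Ci; split_ifs <;> omega
  · right
    have : Ci (2 * c + 1) = 2 * (3 * c + 2) := by
      unfold Pool.Agent.H499R2.ND.Ci; split_ifs <;> omega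
    rw [this, T_odd]; unfold Pool.Agent.H499R2.ND.Ci; split_ifs <;> omega

theorem mer_Ci (x : ℤ) : Mer x (Ci x) := by
  rcases T_Ci x with h | h
  · exact ⟨1, 1, by simpa using h.symm⟩
  · exact ⟨1, 0, by simpa using h.symm⟩

theorem mer_Ci_iter (x : ℤ) (k : ℕ) : Mer x (Ci^[k] x) := by
  induction k with
  | zero => exact Mer.refl x
  | succ k ih =>
    rw [Function.iterate_succ_apply']
    exact ih.trans (mer_Ci _)

theorem T_iter_eq_Ci (x : ℤ) (k : ℕ) : ∃ l, T^[k] x = Ci^[l] x := by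
  induction k with
  | zero => exact ⟨0, rfl⟩
  | succ k ih =>
    obtain ⟨l, hl⟩ := ih
    rw [Function.iterate_succ_apply', hl]
    rcases T_eq_Ci (Ci^[l] x) with h | h
    · exact ⟨l + 1, by rw [h, Function.iterate_succ_apply']⟩
    · exact ⟨l + 2, by rw [h, Function.iterate_succ_apply', Function.iterate_succ_apply']⟩

theorem mer_iff (a b : ℤ) : Mer a b ↔ ∃ i j : ℕ, Ci^[i] a = Ci^[j] b := by
  constructor
  · rintro ⟨i, j, h⟩
    obtain ⟨i', hi⟩ := T_iter_eq_Ci a i
    obtain ⟨j', hj⟩ := T_iter_eq_Ci b j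
    exact ⟨i', j', by rw [← hi, ← hj, h]⟩
  · rintro ⟨i, j, h⟩
    have h1 := mer_Ci_iter a i
    rw [h] at h1
    exact h1.trans (mer_Ci_iter b j).symm

theorem mer_self_iter (a : ℤ) (k : ℕ) : Mer a (T^[k] a) := ⟨k, 0, rfl⟩

theorem wild_mer {a b : ℤ} (h : Mer a b) (ha : Wild a) : Wild b := by
  by_contra hcon
  obtain ⟨k, p, c, hp, hc, hk⟩ := tame_hits hcon
  obtain ⟨i, j, hij⟩ := h
  have hcp : ∀ m, T^[p * m] c = c := by
    intro m
    rw [Function.iterate_mul]
    exact Function.iterate_fixed hc m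
  -- `T^[i + k] a = T^[j] c`, `T^[i + k + p] a = T^[j] c`
  have h1 : T^[k + i] a = T^[j] c := by
    rw [Function.iterate_add_apply, hij, ← Function.iterate_add_apply, add_comm,
      Function.iterate_add_apply, hk]
  have h2 : T^[p + (k + i)] a = T^[j] c := by
    rw [Function.iterate_add_apply, h1, ← Function.iterate_add_apply, add_comm,
      Function.iterate_add_apply, hc]
  have := ha _ _ (h1.trans h2.symm)
  omega

theorem wild_Ci (x : ℤ) : Wild x ↔ Wild (Ci x) :=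
  ⟨wild_mer (mer_Ci x), wild_mer (mer_Ci x).symm⟩

theorem T_sign {s : ℤ} (hs : s = 1 ∨ s = -1) {a : ℤ} (ha : 0 < s * a) : 0 < s * T a := by
  rcases Int.even_or_odd' a with ⟨c, rfl | rfl⟩
  · rw [T_even]; rcases hs with rfl | rfl <;> omega
  · rw [T_odd]; rcases hs with rfl | rfl <;> omega

theorem T_iter_sign {s : ℤ} (hs : s = 1 ∨ s = -1) {a : ℤ} (ha : 0 < s * a) (k : ℕ) :
    0 < s * T^[k] a := by
  induction k with
  | zero => exact ha
  | succ k ih => rw [Function.iterate_succ_apply']; exact T_sign hs ih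

theorem exists_least {s : ℤ} (hs : s = 1 ∨ s = -1) (P : ℤ → Prop) (h : ∃ b, 0 < s * b ∧ P b) :
    ∃ b, 0 < s * b ∧ P b ∧ ∀ c, 0 < s * c → P c → s * b ≤ s * c := by
  classical
  have h1 : ∃ k : ℕ, ∃ b, 0 < s * b ∧ P b ∧ s * b = k := by
    obtain ⟨b, hb, hP⟩ := h
    exact ⟨(s * b).toNat, b, hb, hP, by omega⟩
  obtain ⟨b, hb, hP, hk⟩ := Nat.find_spec h1
  refine ⟨b, hb, hP, fun c hc hPc => ?_⟩
  have h2 := Nat.find_min' h1 (m := (s * c).toNat) ⟨c, hc, hPc, by omega⟩
  omega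

/-- the integer `n` lies in the Fatou component attracted to the cycle of `a` -/
theorem basin_iff {a n : ℤ} {p : ℕ} (hp : 0 < p) (ha : T^[p] a = a) :
    ((n : ℂ) ∈ FatouSet f₀ ∧ ¬ IsWanderingDomain f₀ (FatouComponent f₀ n) ∧
      ∃ k : ℕ, ∀ z ∈ FatouComponent f₀ n,
        Tendsto (fun m : ℕ => f₀^[k + p * m] z) atTop (𝓝 (a : ℂ))) ↔ Mer n a := by
  have hcp : ∀ m, T^[p * m] a = a := by
    intro m
    rw [Function.iterate_mul]
    exact Function.iterate_fixed ha m
  constructor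
  · rintro ⟨h2, -, k, h4⟩
    have h5 := h4 n (mem_connectedComponentIn h2)
    have h6 : ∀ᶠ m : ℕ in atTop, dist (f₀^[k + p * m] (n : ℂ)) (a : ℂ) < 1 :=
      h5.eventually (ball_mem_nhds _ one_pos)
    obtain ⟨m, hm⟩ := h6.exists
    refine ⟨k + p * m, 0, ?_⟩
    rw [f₀_iter, dist_eq_norm, ← Int.cast_sub, Complex.norm_intCast] at hm
    have h7 : |T^[k + p * m] n - a| < 1 := by exact_mod_cast hm
    have h8 := Int.abs_lt_one_iff.1 h7
    show T^[k + p * m] n = a
    omega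
  · rintro ⟨i, j, hij⟩
    -- move along the cycle back to `a`
    have hk : T^[p * j - j + i] n = a := by
      have hle : j ≤ p * j := Nat.le_mul_of_pos_left j hp
      rw [Function.iterate_add_apply, hij, ← Function.iterate_add_apply,
        Nat.sub_add_cancel hle, hcp]
    set k := p * j - j + i with hkdef
    have hk' : f₀^[k] (n : ℂ) = a := by rw [f₀_iter, hk]
    have hpa : f₀^[p] (a : ℂ) = a := by rw [f₀_iter, ha]
    refine ⟨int_mem_fatou n, ?_, k, ?_⟩
    · rw [wandering_iff]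
      intro hw
      have := hw (p + k) k (by rw [Function.iterate_add_apply, hk, ha])
      omega
    · exact basin_of_hits f₀_differentiable hp hpa (f₀_iter_deriv a p hp) hk'

/-- among the integers of sign `s` the set `S` has natural density `d` -/
def HasDensity (s : ℤ) (S : Set ℤ) (d : ℝ) : Prop :=
  Tendsto (fun N : ℕ => ({n : ℤ | 0 < s * n ∧ s * n ≤ N ∧ n ∈ S}.ncard : ℝ) / N) atTop (𝓝 d)

/-- the cycles of `T` in the integers of sign `s`, each represented by its element of least absolute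
value -/
def IsCycleRep (s a : ℤ) : Prop :=
  0 < s * a ∧ (∃ p : ℕ, 0 < p ∧ f₀^[p] (a : ℂ) = a) ∧
    ∀ (j : ℕ) (b : ℤ), f₀^[j] (a : ℂ) = b → s * a ≤ s * b

theorem cast_iter {a b : ℤ} {k : ℕ} : f₀^[k] (a : ℂ) = b ↔ T^[k] a = b := by
  rw [f₀_iter]; exact_mod_cast Iff.rfl

theorem main {s : ℤ} (hs : s = 1 ∨ s = -1) : ∃ (w : ℝ) (β : ℤ → ℝ),
    HasDensity s {n | IsWanderingDomain f₀ (FatouComponent f₀ n)} w ∧
    (w = 0 ↔ ∀ n : ℤ, 0 < s * n → ¬ IsWanderingDomain f₀ (FatouComponent f₀ n)) ∧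
    (∀ a : ℤ, 0 < s * a → 0 < β a ∧
      HasDensity s {n | ∃ i j : ℕ, f₀^[i] (n : ℂ) = f₀^[j] (a : ℂ)} (β a)) ∧
    (∀ (a : ℤ) (p : ℕ), 0 < s * a → 0 < p → f₀^[p] (a : ℂ) = a →
      HasDerivAt (f₀^[p]) 0 (a : ℂ) ∧
      HasDensity s {n | (n : ℂ) ∈ FatouSet f₀ ∧ ¬ IsWanderingDomain f₀ (FatouComponent f₀ n) ∧
        ∃ k : ℕ, ∀ z ∈ FatouComponent f₀ n,
          Tendsto (fun m : ℕ => f₀^[k + p * m] z) atTop (𝓝 (a : ℂ))} (β a)) ∧
    HasSum (fun a : {a : ℤ // IsCycleRep s a} => β a) (1 - w) := by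
  classical
  obtain ⟨δ, h1, h2, h3⟩ := Pool.Agent.H499R2.ND.structure_full hs
  have hclass : ∀ a : ℤ, {n : ℤ | ∃ i j : ℕ, Ci^[i] n = Ci^[j] a} = {n | Mer n a} := by
    intro a; ext n; exact (mer_iff n a).symm
  have hden : ∀ a : ℤ, 0 < s * a → HasDensity s {n | Mer n a} (δ a) := by
    intro a ha
    have h4 := (h1 a ha).2
    unfold HasDensity
    refine h4.congr fun N => ?_
    congr 3
    ext n
    simp only [Set.mem_ofPred_eq, mer_iff]
  have hWset : {n : ℤ | IsWanderingDomain f₀ (FatouComponent f₀ n)} = {n | Wild n} := by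
    ext n; exact wandering_iff n
  have hinv : ∀ x : ℤ, x ∈ {n : ℤ | Wild n} ↔ Ci x ∈ {n : ℤ | Wild n} := wild_Ci
  have hinv' : ∀ x : ℤ, x ∈ {n : ℤ | ¬ Wild n} ↔ Ci x ∈ {n : ℤ | ¬ Wild n} := fun x =>
    not_congr (wild_Ci x)
  set w : ℝ := ∑' a : {a : ℤ // Pool.Agent.H499R2.ND.IsRep s a ∧ a ∈ {n : ℤ | Wild n}}, δ a with hw
  have hsumm : Summable (fun a : {a : ℤ // Pool.Agent.H499R2.ND.IsRep s a} => δ a) := h3.summable
  have hδ0 : ∀ a : {a : ℤ // Pool.Agent.H499R2.ND.IsRep s a}, 0 ≤ δ a := fun a =>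
    (h1 a a.2.1).1.le
  -- representatives
  have hrep : ∀ x : ℤ, 0 < s * x → ∃ a, Pool.Agent.H499R2.ND.IsRep s a ∧ Mer x a := by
    intro x hx
    obtain ⟨b, hb, hP, hmin⟩ := exists_least hs (fun b => Mer x b) ⟨x, hx, Mer.refl x⟩
    refine ⟨b, ⟨hb, fun c hc hbc => hmin c hc ?_⟩, hP⟩
    exact hP.trans ((mer_iff b c).2 hbc)
  have hrepu : ∀ a b : ℤ, Pool.Agent.H499R2.ND.IsRep s a → Pool.Agent.H499R2.ND.IsRep s b →
      Mer a b → a = b := by
    intro a b ha hb hab
    have h5 := ha.2 b hb.1 ((mer_iff a b).1 hab)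
    have h6 := hb.2 a ha.1 ((mer_iff b a).1 hab.symm)
    rcases hs with rfl | rfl <;> omega
  have hδmer : ∀ a b : ℤ, 0 < s * a → 0 < s * b → Mer a b → δ a = δ b := by
    intro a b ha hb hab
    have h5 := hden a ha
    have h6 := hden b hb
    have : {n : ℤ | Mer n a} = {n | Mer n b} := by
      ext n
      exact ⟨fun h => h.trans hab, fun h => h.trans hab.symm⟩
    rw [this] at h5
    exact tendsto_nhds_unique h5 h6
  -- split the total mass
  have hsplitW : HasSum (fun a : {a : ℤ // Pool.Agent.H499R2.ND.IsRep s a ∧ a ∈ {n : ℤ | Wild n}} =>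
      δ a) w := by
    apply Summable.hasSum
    have hinj : Function.Injective (fun a : {a : ℤ // Pool.Agent.H499R2.ND.IsRep s a ∧
        a ∈ {n : ℤ | Wild n}} => (⟨a.1, a.2.1⟩ : {a : ℤ // Pool.Agent.H499R2.ND.IsRep s a})) := by
      intro a b hab
      apply Subtype.ext
      simpa using hab
    exact hsumm.comp_injective hinj
  have hsplitN : HasSum (fun a : {a : ℤ // Pool.Agent.H499R2.ND.IsRep s a ∧ a ∉ {n : ℤ | Wild n}} =>
      δ a) (1 - w) := by
    set A : Set {a : ℤ // Pool.Agent.H499R2.ND.IsRep s a} := {a | a.1 ∈ {n : ℤ | Wild n}} with hA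
    set f : {a : ℤ // Pool.Agent.H499R2.ND.IsRep s a} → ℝ := fun a => δ a with hf
    have hAs : HasSum (f ∘ (↑) : A → ℝ) w := by
      let e1 : A ≃ {a : ℤ // Pool.Agent.H499R2.ND.IsRep s a ∧ a ∈ {n : ℤ | Wild n}} :=
        Equiv.subtypeSubtypeEquivSubtypeInter (Pool.Agent.H499R2.ND.IsRep s)
          (fun a => a ∈ {n : ℤ | Wild n})
      have := e1.hasSum_iff.2 hsplitW
      exact this
    have hBs : Summable (f ∘ (↑) : (Aᶜ : Set _) → ℝ) := hsumm.subtype _
    have hsum := hAs.add_compl hBs.hasSum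
    have h5 := hsum.unique h3
    have h6 : ∑' (x : (Aᶜ : Set {a : ℤ // Pool.Agent.H499R2.ND.IsRep s a})), (f ∘ (↑)) x = 1 - w := by
      linarith
    have h7 := hBs.hasSum
    rw [h6] at h7
    let e2 : (Aᶜ : Set {a : ℤ // Pool.Agent.H499R2.ND.IsRep s a}) ≃
        {a : ℤ // Pool.Agent.H499R2.ND.IsRep s a ∧ a ∉ {n : ℤ | Wild n}} :=
      Equiv.subtypeSubtypeEquivSubtypeInter (Pool.Agent.H499R2.ND.IsRep s)
        (fun a => a ∉ {n : ℤ | Wild n})
    exact e2.hasSum_iff.1 h7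
  refine ⟨w, δ, ?_, ?_, ?_, ?_, ?_⟩
  · rw [hWset]; exact h2 _ hinv
  · constructor
    · intro hw0 n hn hcon
      rw [wandering_iff] at hcon
      obtain ⟨a, ha, hna⟩ := hrep n hn
      have haW : Wild a := wild_mer hna hcon
      have h5 := hsplitW.summable.le_tsum ⟨a, ha, haW⟩ (fun b _ => (h1 b b.2.1.1).1.le)
      have h6 := (h1 a ha.1).1
      rw [← hw, hw0] at h5
      exact absurd h5 (not_le.2 h6)
    · intro hno
      have : IsEmpty {a : ℤ // Pool.Agent.H499R2.ND.IsRep s a ∧ a ∈ {n : ℤ | Wild n}} := by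
        refine ⟨fun a => hno a a.2.1.1 ((wandering_iff _).2 a.2.2)⟩
      rw [hw, tsum_empty]
  · intro a ha
    refine ⟨(h1 a ha).1, ?_⟩
    have : {n : ℤ | ∃ i j : ℕ, f₀^[i] (n : ℂ) = f₀^[j] (a : ℂ)} = {n | Mer n a} := by
      ext n
      simp only [Set.mem_ofPred_eq, Mer]
      constructor
      · rintro ⟨i, j, h⟩
        rw [f₀_iter, f₀_iter] at h
        exact ⟨i, j, by exact_mod_cast h⟩
      · rintro ⟨i, j, h⟩
        exact ⟨i, j, by rw [f₀_iter, f₀_iter, h]⟩
    rw [this]; exact hden a ha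
  · intro a p ha hp hpa
    refine ⟨f₀_iter_deriv a p hp, ?_⟩
    have : {n : ℤ | (n : ℂ) ∈ FatouSet f₀ ∧ ¬ IsWanderingDomain f₀ (FatouComponent f₀ n) ∧
        ∃ k : ℕ, ∀ z ∈ FatouComponent f₀ n,
          Tendsto (fun m : ℕ => f₀^[k + p * m] z) atTop (𝓝 (a : ℂ))} = {n | Mer n a} := by
      ext n
      exact basin_iff hp (cast_iter.1 hpa)
    rw [this]; exact hden a ha
  · -- cycles correspond to the non-wild classes
    have hper : ∀ a, IsCycleRep s a → ∃ p : ℕ, 0 < p ∧ T^[p] a = a := by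
      rintro a ⟨_, ⟨p, hp, hpa⟩, _⟩
      exact ⟨p, hp, cast_iter.1 hpa⟩
    have hnw : ∀ a, IsCycleRep s a → ¬ Wild a := by
      intro a ha hcon
      obtain ⟨p, hp, hpa⟩ := hper a ha
      have := hcon p 0 (by simpa using hpa)
      omega
    choose! r hr1 hr2 using hrep
    have hmap : ∀ a, IsCycleRep s a → Pool.Agent.H499R2.ND.IsRep s (r a) ∧
        r a ∉ {n : ℤ | Wild n} := fun a ha =>
      ⟨hr1 a ha.1, fun hcon => hnw a ha (wild_mer (hr2 a ha.1).symm hcon)⟩
    let e : {a : ℤ // IsCycleRep s a} → {a : ℤ // Pool.Agent.H499R2.ND.IsRep s a ∧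
        a ∉ {n : ℤ | Wild n}} := fun a => ⟨r a, hmap a a.2⟩
    have hcyc : ∀ a b : ℤ, (∃ p : ℕ, 0 < p ∧ T^[p] a = a) → (∃ p : ℕ, 0 < p ∧ T^[p] b = b) →
        Mer a b → ∃ k, T^[k] a = b := by
      rintro a b ⟨p, hp, hpa⟩ ⟨q, hq, hqb⟩ ⟨i, j, hij⟩
      have hcp : ∀ m, T^[q * m] b = b := by
        intro m
        rw [Function.iterate_mul]
        exact Function.iterate_fixed hqb m
      refine ⟨q * j - j + i, ?_⟩
      have hle : j ≤ q * j := Nat.le_mul_of_pos_left j hq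
      rw [Function.iterate_add_apply, hij, ← Function.iterate_add_apply,
        Nat.sub_add_cancel hle, hcp]
    have he : Function.Bijective e := by
      constructor
      · rintro ⟨a, ha⟩ ⟨b, hb⟩ hab
        have hab' : r a = r b := by simpa [e] using hab
        have hm : Mer a b := by
          have := hr2 a ha.1
          rw [hab'] at this
          exact this.trans (hr2 b hb.1).symm
        obtain ⟨k, hk⟩ := hcyc a b (hper a ha) (hper b hb) hm
        obtain ⟨l, hl⟩ := hcyc b a (hper b hb) (hper a ha) hm.symm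
        have h5 := ha.2.2 k b (cast_iter.2 hk)
        have h6 := hb.2.2 l a (cast_iter.2 hl)
        apply Subtype.ext
        show a = b
        rcases hs with rfl | rfl <;> omega
      · rintro ⟨a, ha, haW⟩
        obtain ⟨k, p, c, hp, hc, hk⟩ := tame_hits haW
        have hcs : 0 < s * c := by rw [← hk]; exact T_iter_sign hs ha.1 k
        obtain ⟨b, hb, ⟨j, hj⟩, hmin⟩ := exists_least hs (fun b => ∃ j, T^[j] c = b)
          ⟨c, hcs, 0, rfl⟩
        have hbp : T^[p] b = b := by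
          rw [← hj, ← Function.iterate_add_apply, add_comm, Function.iterate_add_apply, hc]
        have hbrep : IsCycleRep s b := by
          refine ⟨hb, ⟨p, hp, cast_iter.2 hbp⟩, fun i d hd => ?_⟩
          have hd' := cast_iter.1 hd
          have hds : 0 < s * d := by rw [← hd']; exact T_iter_sign hs hb i
          apply hmin d hds
          exact ⟨i + j, by rw [Function.iterate_add_apply, hj, hd']⟩
        refine ⟨⟨b, hbrep⟩, ?_⟩
        apply Subtype.ext
        show r b = a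
        apply hrepu _ _ (hr1 b hb) ha
        have h5 : Mer b c := ⟨0, j, by simpa using hj.symm⟩
        have h6 : Mer c a := ⟨0, k, by simpa using hk.symm⟩
        exact (hr2 b hb).symm.trans (h5.trans h6)
    have h7 := (Equiv.ofBijective e he).hasSum_iff.2 hsplitN
    have h8 : ((fun a : {a : ℤ // Pool.Agent.H499R2.ND.IsRep s a ∧ a ∉ {n : ℤ | Wild n}} => δ a) ∘
        (Equiv.ofBijective e he)) = fun a : {a : ℤ // IsCycleRep s a} => δ a := by
      funext a
      show δ (r a) = δ a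
      exact (hδmer a (r a) a.2.1 (hr1 a a.2.1).1 (hr2 a a.2.1)).symm
    rw [h8] at h7
    exact h7

end Pool.Agent.H723R2.LSW
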