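import Pool.Agent.H723R2.Par

/-! Facts about the levels. -/

set_option autoImplicit false
set_option linter.unusedVariables false

namespace MS723

variable (P : Par)

/-! ### the cocycles -/

theorem dvd_W_div {n : ℕ} (ℓ : Lev P n) : ∃ q, ℓ.W = P.m * (ℓ.N * q) :=
  ⟨KK P (n + 1) * ℓ.B ^ (ℓ.B + 2), by unfold Lev.W; ring⟩

namespace Stp

/-- sums over blocks vanish -/
theorem sum_T0 (S : Stp) {E : Type} [AddCommGroup E] (f : ℕ → E) (r : ℕ) (hr : S.W = S.m * r)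
    (hf0 : ∀ v, ∑ t ∈ Finset.range r, f (v + S.m * t) = 0) (u q : ℕ) :
    ∑ h ∈ Finset.range (S.M * q), f (S.pr (u + S.m * h)) = 0 := by
  have hr0 : 0 < r := by
    rcases Nat.eq_zero_or_pos r with h | h
    · rw [h, mul_zero] at hr
      exact absurd hr S.hW.ne'
    · exact h
  set G : ℕ → E := fun h => f (S.pr (u % S.m + S.m * h)) with hG
  set R := r * (S.W ^ S.m * S.Q) with hR
  have hM : S.M = S.m * R := by
    unfold M low
    rw [hR, pow_succ]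
    calc S.W ^ S.m * S.W * S.Q = S.W ^ S.m * (S.m * r) * S.Q := by rw [← hr]
      _ = _ := by ring
  have hGper : ∀ s, G (s + R) = G s := by
    intro s
    simp only [hG]
    rw [mul_add, ← hM, ← add_assoc, S.per_pr]
  have hGu : ∀ h, f (S.pr (u + S.m * h)) = G (u / S.m + h) := by
    intro h
    simp only [hG]
    congr 2
    rw [mul_add]
    have := Nat.mod_add_div u S.m
    omega
  simp only [hGu]
  have h1 : ∑ h ∈ Finset.range R, G h = 0 := by
    rw [hR, sum_block]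
    refine Finset.sum_eq_zero fun b _ => ?_
    rw [← hf0 (S.pr (u % S.m + S.W * b))]
    refine Finset.sum_congr rfl fun t ht => ?_
    have ht' := Finset.mem_range.1 ht
    simp only [hG]
    congr 1
    have hlt : u % S.m < S.m := Nat.mod_lt _ S.hm
    have hlt2 : u % S.m + S.m * t < S.W := by
      have : S.m * (t + 1) ≤ S.m * r := Nat.mul_le_mul_left _ ht'
      rw [hr]
      calc u % S.m + S.m * t < S.m + S.m * t := by omega
        _ = S.m * (t + 1) := by ring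
        _ ≤ _ := this
    have hx : S.x0 (u % S.m + S.W * b) = u % S.m := by
      unfold x0
      rw [Nat.add_mul_mod_self_left, Nat.mod_eq_of_lt (by omega)]
    have := (S.shift_x0 (u % S.m + S.W * b) (S.m * t) (by rw [hx]; exact hlt2)).2.2.2.2.2
    rw [← this]
    congr 1
    calc u % S.m + S.m * (r * b + t) = u % S.m + (S.m * r) * b + S.m * t := by ring
      _ = _ := by rw [← hr]
  have h2 : S.M * q = R * (S.m * q) := by rw [hM]; ring
  rw [h2, sum_per_mul (fun h => G (u / S.m + h)) R (S.m * q), sum_shift G R hGper, h1, smul_zero]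
  intro s
  show G (u / S.m + (s + R)) = G (u / S.m + s)
  rw [← add_assoc, hGper]

end Stp

theorem tele {E : Type} [AddCommGroup E] (A : ℕ → E) (u m L : ℕ) :
    ∑ h ∈ Finset.range L, (A (u + m * h + m) - A (u + m * h)) = A (u + m * L) - A u := by
  induction L with
  | zero => simp
  | succ L ih =>
    rw [Finset.sum_range_succ, ih, show u + m * (L + 1) = u + m * L + m by ring]
    abel

theorem ph_sum (n u q j : ℕ) :
    ∑ h ∈ Finset.range (Nn P n * q), ph P n (u + P.m * h) j = 0 := by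
  induction n generalizing u q with
  | zero => exact Finset.sum_eq_zero fun h _ => rfl
  | succ n ih =>
    simp only [ph_succ]
    rw [Finset.sum_add_distrib]
    obtain ⟨r, hr⟩ := dvd_W_div P (lev P n)
    have h1 : ∑ h ∈ Finset.range (Nn P (n + 1) * q), ph P n ((St P n).pr (u + P.m * h)) j = 0 := by
      rw [Nn_succ]
      refine (St P n).sum_T0 (fun v => ph P n v j) ((lev P n).N * r) hr ?_ u q
      intro v
      exact ih v r
    have h2 : ∑ h ∈ Finset.range (Nn P (n + 1) * q),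
        ((lev P n).AA (u + P.m * h + P.m) j - (lev P n).AA (u + P.m * h) j) = 0 := by
      rw [tele (fun u => (lev P n).AA u j)]
      have : u + P.m * (Nn P (n + 1) * q) = u + (St P n).M * (P.m * q) := by
        rw [Nn_succ]; ring
      rw [this, per_mul (fun u => (lev P n).AA u j) _ (fun s => AA_per P (lev P n) s j)]
      simp
    rw [h1, h2, add_zero]

theorem shift_R {n : ℕ} (ℓ : Lev P n) (t : ℕ) :
    t * (ℓ.stp.M / KK P (n + 1)) = ℓ.stp.low * ℓ.N * t := by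
  have : ℓ.stp.M = KK P (n + 1) * (ℓ.stp.low * ℓ.N) := by
    unfold Stp.M Stp.Q
    rw [ℓ.stp_K']
    show ℓ.stp.low * (ℓ.N * KK P (n + 1)) = _
    ring
  rw [this, Nat.mul_div_cancel_left _ (KK_pos P _)]
  ring

theorem AA_R {n : ℕ} (ℓ : Lev P n) (u i : ℕ) :
    (∀ j, j < i → ℓ.AA (u + ℓ.stp.low * ℓ.N * KK P i) j = ℓ.AA u j) ∧
      ℓ.AA (u + ℓ.stp.low * ℓ.N * KK P i) i = P.a i * ℓ.AA u i := by
  obtain ⟨h1, h2, h3, -⟩ := ℓ.stp.shift_c u (KK P i)
  have hN : ℓ.stp.N = ℓ.N := rfl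
  rw [hN] at h1 h2 h3
  have hx : ℓ.stp.x0 (u + ℓ.stp.low * ℓ.N * KK P i) = ℓ.stp.x0 u := by
    rw [← ℓ.stp.x0_low, ← ℓ.stp.x0_low u, h1]
  rw [ℓ.stp_K'] at h3
  unfold Lev.AA
  rw [hx, h2, h3]
  constructor
  · intro j hj
    by_cases hjn : j < n
    · rw [if_pos hjn, if_pos hjn, AS_c_lt P n _ _ _ _ _ j i hjn hj]
    · rw [if_neg hjn, if_neg hjn]
  · by_cases hin : i < n
    · rw [if_pos hin, if_pos hin, AS_c_eq P n _ _ _ _ _ i hin]
    · rw [if_neg hin, if_neg hin, mul_zero]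

theorem ph_R (n u i : ℕ) :
    (∀ j, j < i → ph P n (u + KK P i * (Nn P n / KK P n)) j = ph P n u j) ∧
      ph P n (u + KK P i * (Nn P n / KK P n)) i = P.a i * ph P n u i := by
  induction n generalizing u with
  | zero => exact ⟨fun j _ => rfl, by rw [ph_zero, ph_zero, mul_zero]⟩
  | succ n ih =>
    have hs : KK P i * (Nn P (n + 1) / KK P (n + 1)) = (St P n).low * (lev P n).N * KK P i :=
      shift_R P (lev P n) (KK P i)
    rw [hs]
    obtain ⟨-, -, -, hpr⟩ := (St P n).shift_c u (KK P i)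
    have e : (lev P n).N / KK P n * KK P i = KK P i * (Nn P n / KK P n) := by ring
    have hpr' : (St P n).pr (u + (St P n).low * (lev P n).N * KK P i) ≡
        (St P n).pr u + KK P i * (Nn P n / KK P n) [MOD Nn P n] := by
      have : (St P n).pr (u + (St P n).low * (lev P n).N * KK P i) ≡
        (St P n).pr u + (lev P n).N / KK P n * KK P i [MOD Nn P n] := hpr
      rwa [e] at this
    obtain ⟨ih1, ih2⟩ := ih ((St P n).pr u)
    obtain ⟨a1, a2⟩ := AA_R P (lev P n) u i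
    obtain ⟨b1, b2⟩ := AA_R P (lev P n) (u + P.m) i
    have ec : u + (St P n).low * (lev P n).N * KK P i + P.m =
        u + P.m + (St P n).low * (lev P n).N * KK P i := by ring
    constructor
    · intro j hj
      rw [ph_succ, ph_succ, ph_congr P hpr', ih1 j hj, ec, a1 j hj, b1 j hj]
    · rw [ph_succ, ph_succ, ph_congr P hpr', ih2, ec, a2, b2]
      ring

/-! ### the transfer functions -/

theorem AA_same {n : ℕ} (ℓ : Lev P n) (u j : ℕ) (h : ℓ.stp.x0 u + P.m < ℓ.W)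
    (h2 : ∀ i < ℓ.B, ℓ.stp.x0 u % (P.m * LL ℓ.N ℓ.B i) + P.m < P.m * LL ℓ.N ℓ.B i) :
    ℓ.AA (u + P.m) j = ℓ.AA u j := by
  obtain ⟨h3, -, -, h4, h5, -⟩ := ℓ.stp.shift_x0 u P.m h
  unfold Lev.AA
  rw [h3, h4, h5]
  have e : (ℓ.stp.x0 u + P.m + ℓ.stp.da u) % P.m = (ℓ.stp.x0 u + ℓ.stp.da u) % P.m := by
    rw [show ℓ.stp.x0 u + P.m + ℓ.stp.da u = ℓ.stp.x0 u + ℓ.stp.da u + P.m by ring,
      Nat.add_mod_right]
  rw [e, AS_same P n ℓ.N ℓ.B _ _ _ _ ℓ.hN ℓ.B_pos h2]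

theorem LL_dvd {N B i l : ℕ} (h : i ≤ l) : LL N B i ∣ LL N B l := by
  unfold LL
  exact Nat.mul_dvd_mul_left _ (pow_dvd_pow _ (by omega))

theorem LL_pos {n : ℕ} (ℓ : Lev P n) (i : ℕ) : 0 < LL ℓ.N ℓ.B i :=
  Nat.mul_pos ℓ.hN (Nat.pow_pos ℓ.B_pos)

theorem LL_dvd_W {n : ℕ} (ℓ : Lev P n) {i : ℕ} (h : i ≤ ℓ.B) : P.m * LL ℓ.N ℓ.B i ∣ ℓ.W := by
  unfold LL Lev.W
  obtain ⟨r, hr⟩ : ∃ r, ℓ.B + 2 = i + 1 + r := ⟨ℓ.B + 2 - (i + 1), by omega⟩
  rw [hr, pow_add ℓ.B]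
  exact ⟨KK P (n + 1) * ℓ.B ^ r, by ring⟩

theorem mod_add_lt {x D k E : ℕ} (hD : 0 < D) (hE : 0 < E) (hDE : D ∣ E) (h : x % D + k < D) :
    x % E + k < E := by
  obtain ⟨q, rfl⟩ := hDE
  have hq : 0 < q := Nat.pos_of_mul_pos_left hE |> fun h => by
    rcases Nat.eq_zero_or_pos q with h' | h'
    · rw [h', mul_zero] at hE; exact absurd hE (lt_irrefl _)
    · exact h'
  have h1 : x % (D * q) % D = x % D := Nat.mod_mod_of_dvd _ (Dvd.intro _ rfl)
  have h2 := Nat.mod_add_div (x % (D * q)) D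
  have h3 : x % (D * q) / D < q := by
    rw [Nat.div_lt_iff_lt_mul hD, mul_comm q D]
    exact Nat.mod_lt _ hE
  have h4 : D * (x % (D * q) / D + 1) ≤ D * q := Nat.mul_le_mul_left _ h3
  rw [h1] at h2
  rw [mul_add, mul_one] at h4
  omega

/-- `i`-th difference of the transfer function at good points -/
theorem AA_diff {n : ℕ} (ℓ : Lev P n) (u i j : ℕ) (hj : j < n) (hi : i < ℓ.B)
    (h : ℓ.stp.x0 u % (P.m * LL ℓ.N ℓ.B (i + 1)) + P.m * LL ℓ.N ℓ.B i < P.m * LL ℓ.N ℓ.B (i + 1)) :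
    ℓ.stp.x0 u + P.m * LL ℓ.N ℓ.B i < ℓ.W ∧
    ℓ.AA (u + P.m * LL ℓ.N ℓ.B i) j - ℓ.AA u j =
      Del P n (P.β n) (P.fl n) (ℓ.stp.pr u % P.m) (ℓ.stp.x0 u / (P.m * LL ℓ.N ℓ.B i))
        (ℓ.stp.dc u) j := by
  have hpos : ∀ l, 0 < P.m * LL ℓ.N ℓ.B l := fun l => Nat.mul_pos P.hm (LL_pos P ℓ l)
  have hW : ℓ.stp.x0 u + P.m * LL ℓ.N ℓ.B i < ℓ.W := by
    have := mod_add_lt (hpos (i + 1)) ℓ.W_pos (LL_dvd_W P ℓ (show i + 1 ≤ ℓ.B by omega)) h
    rwa [Nat.mod_eq_of_lt (show ℓ.stp.x0 u < ℓ.W from Nat.mod_lt _ ℓ.W_pos)] at this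
  refine ⟨hW, ?_⟩
  obtain ⟨h3, -, -, h4, h5, -⟩ := ℓ.stp.shift_x0 u _ hW
  have hpm := ℓ.stp.pr_mod u
  have hpm' : ℓ.stp.pr u % P.m = (ℓ.stp.x0 u + ℓ.stp.da u) % P.m := hpm
  unfold Lev.AA
  rw [if_pos hj, if_pos hj, h3, h4, h5]
  have e : (ℓ.stp.x0 u + P.m * LL ℓ.N ℓ.B i + ℓ.stp.da u) % P.m = ℓ.stp.pr u % P.m := by
    rw [hpm', show ℓ.stp.x0 u + P.m * LL ℓ.N ℓ.B i + ℓ.stp.da u =
      ℓ.stp.x0 u + ℓ.stp.da u + P.m * LL ℓ.N ℓ.B i by ring, Nat.add_mul_mod_self_left]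
  rw [e, ← hpm', AS_diff P n ℓ.N ℓ.B _ _ _ j i ℓ.hN ℓ.B_pos (Dvd.intro _ rfl) hj
    (Nat.mod_lt _ P.hm) hi]
  intro l hl hil
  exact mod_add_lt (hpos (i + 1)) (hpos l)
    (Nat.mul_dvd_mul_left _ (LL_dvd (by omega))) h

/-- the cocycle over `L_i` steps at good points -/
theorem ph_LL (n u i j : ℕ) (hj : j < n) (hi : i < Bn P n)
    (h : (St P n).x0 u % (P.m * LL (Nn P n) (Bn P n) (i + 1)) + P.m * LL (Nn P n) (Bn P n) i <
      P.m * LL (Nn P n) (Bn P n) (i + 1)) :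
    ∑ k ∈ Finset.range (LL (Nn P n) (Bn P n) i), ph P (n + 1) (u + P.m * k) j =
      Del P n (P.β n) (P.fl n) ((St P n).pr u % P.m)
        ((St P n).x0 u / (P.m * LL (Nn P n) (Bn P n) i)) ((St P n).dc u) j := by
  obtain ⟨hW, hd⟩ := AA_diff P (lev P n) u i j hj hi h
  rw [← hd]
  simp only [ph_succ]
  rw [Finset.sum_add_distrib]
  set L := LL (Nn P n) (Bn P n) i with hL
  have h1 : ∑ k ∈ Finset.range L, ph P n ((St P n).pr (u + P.m * k)) j = 0 := by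
    have e : ∀ k ∈ Finset.range L, ph P n ((St P n).pr (u + P.m * k)) j =
        ph P n ((St P n).pr u + P.m * k) j := by
      intro k hk
      have hk' := Finset.mem_range.1 hk
      have : (St P n).x0 u + P.m * k < (St P n).W := by
        have h3 : P.m * k ≤ P.m * L := Nat.mul_le_mul_left _ hk'.le
        exact lt_of_le_of_lt (Nat.add_le_add_left h3 _) hW
      rw [((St P n).shift_x0 u _ this).2.2.2.2.2]
    rw [Finset.sum_congr rfl e]
    exact ph_sum P n _ (Bn P n ^ (i + 1)) j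
  rw [h1, zero_add]
  exact tele (fun u => (lev P n).AA u j) u P.m L

/-- the projection over `L_i` steps at good points -/
theorem pr_LL (n u i : ℕ) (h : (St P n).x0 u + P.m * LL (Nn P n) (Bn P n) i < (lev P n).W) :
    (St P n).pr (u + P.m * LL (Nn P n) (Bn P n) i) ≡ (St P n).pr u [MOD Nn P n] := by
  rw [((St P n).shift_x0 u _ h).2.2.2.2.2]
  have : P.m * LL (Nn P n) (Bn P n) i = Nn P n * (P.m * Bn P n ^ (i + 1)) := by
    unfold LL; ring
  rw [this]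
  unfold Nat.ModEq
  rw [Nat.add_mul_mod_self_left]

/-! ### growth -/

theorem le_W {n : ℕ} (ℓ : Lev P n) : P.m * (ℓ.N * ℓ.B) ≤ ℓ.W := by
  unfold Lev.W
  have h1 : ℓ.B ≤ ℓ.B ^ (ℓ.B + 2) := Nat.le_self_pow (by omega) _
  have h2 : 1 ≤ KK P (n + 1) := KK_pos P _
  calc P.m * (ℓ.N * ℓ.B) = P.m * 1 * ℓ.N * ℓ.B := by ring
    _ ≤ P.m * KK P (n + 1) * ℓ.N * ℓ.B ^ (ℓ.B + 2) := by gcongr

theorem m_le_W {n : ℕ} (ℓ : Lev P n) : P.m ≤ ℓ.W := Nat.le_of_dvd ℓ.W_pos ℓ.mW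

theorem W_sq_le (n : ℕ) : (lev P n).W ^ 2 ≤ Nn P (n + 1) := by
  rw [Nn_succ]
  unfold Stp.M Stp.low
  have h1 : (lev P n).W ^ 2 ≤ (lev P n).W ^ (P.m + 1) :=
    Nat.pow_le_pow_right (lev P n).W_pos (by have := P.hm; omega)
  have h2 : 1 ≤ (St P n).Q := (St P n).Q_pos
  calc (lev P n).W ^ 2 ≤ (lev P n).W ^ (P.m + 1) * 1 := by omega
    _ ≤ (lev P n).W ^ (P.m + 1) * (St P n).Q := Nat.mul_le_mul_left _ h2

theorem Nn_two (n : ℕ) : 2 ≤ Nn P n := by
  induction n with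
  | zero =>
    show 2 ≤ 2 * P.m
    have := P.hm
    omega
  | succ n ih =>
    refine le_trans ih ?_
    have h1 : Nn P n ∣ Nn P (n + 1) := by
      rw [Nn_succ]
      unfold Stp.M Stp.Q
      exact (Dvd.intro _ rfl : (St P n).N ∣ (St P n).N * (St P n).K').mul_left _
    exact Nat.le_of_dvd (Nn_pos P _) h1

theorem Bn_two (n : ℕ) : (Nn P n * (n + 1)) ^ 12 ≤ Bn P n :=
  Nat.le_mul_of_pos_left _ (Pd_pos P n)

theorem B_ge2 (n : ℕ) : 4096 ≤ Bn P n := by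
  refine le_trans ?_ (Bn_two P n)
  have h := Nn_two P n
  calc 4096 = 2 ^ 12 := by norm_num
    _ ≤ (Nn P n * (n + 1)) ^ 12 := by
        apply Nat.pow_le_pow_left
        calc 2 = 2 * 1 := rfl
          _ ≤ Nn P n * (n + 1) := Nat.mul_le_mul h (by omega)

theorem Nn_two_mul (n : ℕ) : 2 * Nn P n ≤ Nn P (n + 1) := by
  have h1 := W_sq_le P n
  have h2 := le_W P (lev P n)
  have h3 := B_ge2 P n
  have h4 := P.hm
  have h5 : 2 * Nn P n ≤ (lev P n).W := by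
    refine le_trans ?_ h2
    calc 2 * Nn P n = 1 * (Nn P n * 2) := by ring
      _ ≤ P.m * (Nn P n * Bn P n) := by gcongr <;> omega
  have h6 : (lev P n).W ≤ (lev P n).W ^ 2 := Nat.le_self_pow (by norm_num) _
  omega

theorem Nn_ge (n : ℕ) : n + 1 ≤ Nn P n := by
  induction n with
  | zero => have := Nn_two P 0; omega
  | succ n ih => have := Nn_two_mul P n; omega

end MS723
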