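import Pool.Agent.H723R2.Stmt

/-! The set of spectral multiplicities is nonempty and does not contain `0`. -/

set_option autoImplicit false

open MeasureTheory Filter Topology
open scoped ENNReal NNReal

noncomputable section

namespace MS723

theorem zeroOne_of_trivial {X : Type} [MeasurableSpace X] (μ : Measure X)
    [IsProbabilityMeasure μ]
    (h : ∀ f : X → ℂ, MemLp f 2 μ → ∫ x, f x ∂μ = 0 → f =ᵐ[μ] 0) : IsZeroOneMeasure μ := by
  refine ⟨fun A hA => ?_⟩
  by_contra hcon
  push Not at hcon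
  obtain ⟨hA0, hA1⟩ := hcon
  have hF : MemLp (fun x => A.indicator (fun _ => (1 : ℂ)) x - ((μ.real A : ℝ) : ℂ)) 2 μ :=
    ((memLp_const (1 : ℂ)).indicator hA).sub (memLp_const _)
  have hF0 : ∫ x, (A.indicator (fun _ => (1 : ℂ)) x - ((μ.real A : ℝ) : ℂ)) ∂μ = 0 := by
    rw [integral_sub, integral_indicator_const _ hA, integral_const]
    · simp
    · exact (integrable_const (1 : ℂ)).indicator hA
    · exact integrable_const _
  have e2 : ∀ᵐ x ∂μ, x ∈ A → μ.real A = 1 := by
    filter_upwards [h _ hF hF0] with x x1 hx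
    rw [Set.indicator_of_mem hx] at x1
    have x5 : ((μ.real A : ℝ) : ℂ) = 1 := (sub_eq_zero.1 x1).symm
    exact_mod_cast x5
  have e3 : ∃ᵐ x ∂μ, x ∈ A := by
    rw [Filter.Frequently, ae_iff]
    simpa using hA0
  obtain ⟨x, hx, hx'⟩ := (e3.and_eventually e2).exists
  have h5 := hx' hx
  apply hA1
  rw [Measure.real, ENNReal.toReal_eq_one_iff] at h5
  exact h5

theorem mult_ne {X : Type} [MeasurableSpace X] [StandardBorelSpace X] (μ : Measure X)
    [IsProbabilityMeasure μ] (hna : ∀ y, μ {y} = 0) (T : X → X) (M : Set ℕ∞)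
    (h : HasMultiplicitySet μ T M) : M.Nonempty ∧ 0 ∉ M := by
  obtain ⟨σ, m, ⟨hfin, hmm, h1, V, ⟨hV1, hV2, hV3⟩, hV4⟩, hM⟩ := h
  constructor
  · by_contra hcon
    rw [Set.not_nonempty_iff_eq_empty] at hcon
    have h2 : ∀ k, σ (m ⁻¹' {k}) = 0 := by
      intro k
      by_contra h3
      have h4 : k ∈ M := by rw [hM]; exact h3
      rw [hcon] at h4
      exact h4
    have hσ : σ = 0 := by
      rw [← Measure.measure_univ_eq_zero]
      have h5 : (Set.univ : Set Circle) = ⋃ k : ℕ∞, m ⁻¹' {k} := by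
        ext z; simp
      rw [h5, measure_iUnion_null_iff]
      exact h2
    have hfib : fibred σ m = 0 := by
      unfold fibred
      rw [hσ]
      simp
    have htriv : ∀ f : X → ℂ, MemLp f 2 μ → ∫ x, f x ∂μ = 0 → f =ᵐ[μ] 0 := by
      intro f hf hf0
      obtain ⟨h, hh, hVh⟩ := hV3 f hf hf0
      have e := hV2 h h hh hh
      rw [hfib, integral_zero_measure] at e
      have e1 : ∫ x, ‖V h x‖ ^ 2 ∂μ = 0 := by
        have e2 : (∫ x, ((‖V h x‖ ^ 2 : ℝ) : ℂ) ∂μ) = 0 := by
          rw [← e]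
          refine integral_congr_ae (Eventually.of_forall fun x => ?_)
          show ((‖V h x‖ ^ 2 : ℝ) : ℂ) = (starRingEnd ℂ) (V h x) * V h x
          rw [mul_comm, Complex.mul_conj, Complex.normSq_eq_norm_sq]
        have e4 : (∫ x, ((‖V h x‖ ^ 2 : ℝ) : ℂ) ∂μ) = ((∫ x, ‖V h x‖ ^ 2 ∂μ : ℝ) : ℂ) :=
          integral_ofReal
        rw [e4] at e2
        exact_mod_cast e2
      have e3 := (integral_eq_zero_iff_of_nonneg (fun x => by positivity)
        ((hV1 h hh).1.norm.integrable_sq)).1 e1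
      filter_upwards [e3, hVh] with x x1 x2
      rw [← x2]
      have x3 : ‖V h x‖ ^ 2 = 0 := x1
      exact norm_eq_zero.1 (pow_eq_zero_iff two_ne_zero |>.1 x3)
    have hz := zeroOne_of_trivial μ htriv
    obtain ⟨x, hx⟩ := IsZeroOneMeasure.exists_eq_dirac (μ := μ)
    have h6 := hna x
    rw [hx, Measure.dirac_apply' _ (measurableSet_singleton x)] at h6
    simp at h6
  · rw [hM]
    show ¬ (σ (m ⁻¹' {0}) ≠ 0)
    rw [not_not]
    have h5 : m ⁻¹' {0} = ∅ := by
      rw [Set.eq_empty_iff_forall_notMem]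
      intro z hz
      have h6 : m z = 0 := hz
      have h7 := h1 z
      rw [h6] at h7
      exact absurd h7 (by simp)
    rw [h5, measure_empty]

end MS723
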