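import Pool.Agent.H723R2.LevFacts
import Pool.Agent.Helper345.SM.Defs
import Pool.Agent.Helper345.SM.digit_count

/-! The finite spaces and their permutations. -/

set_option autoImplicit false
set_option linter.unusedVariables false

open MeasureTheory Filter Topology
open scoped ENNReal NNReal

noncomputable section

namespace MS723

open SM345 (XX UnifMeas errs)

variable (P : Par)

/-- fibre at level `n` -/
abbrev Fb (n : ℕ) : Type := ∀ j : Fin n, ZMod (P.p j)
/-- the finite space at level `n` -/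
abbrev Om (n : ℕ) : Type := ZMod (Nn P n) × Fb P n

instance instMSOm (n : ℕ) : MeasurableSpace (Om P n) := ⊤
instance instDMSOm (n : ℕ) : DiscreteMeasurableSpace (Om P n) := ⟨fun _ => trivial⟩

/-- the projections -/
def pP (n : ℕ) (z : Om P (n + 1)) : Om P n :=
  (((St P n).pr z.1.val : ℕ), fun j => z.2 j.castSucc)

def sF (n : ℕ) (z : Om P n) : Om P n := (z.1 + 1, z.2)
def tF (j n : ℕ) (z : Om P n) : Om P n :=
  (z.1 + (((lev P n).w ^ ((z.1.val + j) % P.m + 1) : ℕ) : ZMod (Nn P n)), z.2)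
def TF (n : ℕ) (z : Om P n) : Om P n :=
  (z.1 + (P.m : ZMod (Nn P n)), fun j => z.2 j + ph P n z.1.val j)
def rF (i n : ℕ) (z : Om P n) : Om P n :=
  (z.1 + ((KK P i * (Nn P n / KK P n) : ℕ) : ZMod (Nn P n)),
    fun j => if (j : ℕ) = i then P.a j * z.2 j else z.2 j)

theorem val_add_mod {N m : ℕ} [NeZero N] (h : m ∣ N) (x : ZMod N) (t : ℕ) :
    (x + (t : ZMod N)).val % m = (x.val + t) % m := by
  rw [ZMod.val_add, ZMod.val_natCast, Nat.add_mod_mod, Nat.mod_mod_of_dvd _ h]

theorem val_add_modEq {N : ℕ} [NeZero N] (x : ZMod N) (t : ℕ) :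
    (x + (t : ZMod N)).val ≡ x.val + t [MOD N] := by
  rw [ZMod.val_add, ZMod.val_natCast, Nat.add_mod_mod]
  exact Nat.mod_modEq _ _

theorem sF_inj (n : ℕ) : Function.Injective (sF P n) := by
  rintro ⟨a, b⟩ ⟨c, d⟩ h
  simp only [sF, Prod.mk.injEq] at h
  exact Prod.ext (add_right_cancel h.1) h.2

theorem tF_inj (j n : ℕ) : Function.Injective (tF P j n) := by
  rintro ⟨u, c⟩ ⟨v, d⟩ h
  simp only [tF, Prod.mk.injEq] at h
  obtain ⟨h1, h2⟩ := h
  have hm := m_dvd_Nn P n
  have hw : ∀ e : ℕ, P.m ∣ (lev P n).w ^ (e + 1) := fun e =>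
    (lev P n).mw.trans (dvd_pow_self _ (Nat.succ_ne_zero e))
  have hc : u.val % P.m = v.val % P.m := by
    have h3 := congrArg (fun x : ZMod (Nn P n) => x.val % P.m) h1
    rw [val_add_mod hm, val_add_mod hm, Nat.add_mod, Nat.mod_eq_zero_of_dvd (hw _), add_zero,
      Nat.mod_mod, Nat.add_mod v.val, Nat.mod_eq_zero_of_dvd (hw _), add_zero, Nat.mod_mod] at h3
    exact h3
  have h5 : (u.val + j) % P.m = (v.val + j) % P.m := by
    rw [Nat.add_mod, hc, ← Nat.add_mod]
  rw [h5] at h1
  rw [add_right_cancel h1, h2]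

theorem TF_inj (n : ℕ) : Function.Injective (TF P n) := by
  rintro ⟨u, c⟩ ⟨v, d⟩ h
  simp only [TF, Prod.mk.injEq] at h
  obtain ⟨h1, h2⟩ := h
  have h3 := add_right_cancel h1
  subst h3
  refine Prod.ext rfl ?_
  funext j
  have := congrFun h2 j
  exact add_right_cancel this

theorem a_inj (j : ℕ) (x y : ZMod (P.p j)) (h : P.a j * x = P.a j * y) : x = y := by
  have h1 : P.a j ≠ 0 := by
    intro h0
    have := P.ha j
    rw [h0, zero_pow (P.hk j).ne'] at this
    exact zero_ne_one this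
  exact mul_left_cancel₀ h1 h

theorem rF_inj (i n : ℕ) : Function.Injective (rF P i n) := by
  rintro ⟨u, c⟩ ⟨v, d⟩ h
  simp only [rF, Prod.mk.injEq] at h
  obtain ⟨h1, h2⟩ := h
  refine Prod.ext (add_right_cancel h1) ?_
  funext j
  have h3 := congrFun h2 j
  split_ifs at h3 with h4
  · exact a_inj P j _ _ h3
  · exact h3

def sP (n : ℕ) : Equiv.Perm (Om P n) :=
  Equiv.ofBijective _ (Finite.injective_iff_bijective.mp (sF_inj P n))
def tP (j n : ℕ) : Equiv.Perm (Om P n) :=
  Equiv.ofBijective _ (Finite.injective_iff_bijective.mp (tF_inj P j n))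
def TP (n : ℕ) : Equiv.Perm (Om P n) :=
  Equiv.ofBijective _ (Finite.injective_iff_bijective.mp (TF_inj P n))
def rP (i n : ℕ) : Equiv.Perm (Om P n) :=
  Equiv.ofBijective _ (Finite.injective_iff_bijective.mp (rF_inj P i n))

theorem sP_apply (n : ℕ) (z : Om P n) : sP P n z = (z.1 + 1, z.2) := rfl
theorem tP_apply (j n : ℕ) (z : Om P n) : tP P j n z =
    (z.1 + (((lev P n).w ^ ((z.1.val + j) % P.m + 1) : ℕ) : ZMod (Nn P n)), z.2) := rfl
theorem TP_apply (n : ℕ) (z : Om P n) : TP P n z =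
    (z.1 + (P.m : ZMod (Nn P n)), fun j => z.2 j + ph P n z.1.val j) := rfl
theorem rP_apply (i n : ℕ) (z : Om P n) : rP P i n z =
    (z.1 + ((KK P i * (Nn P n / KK P n) : ℕ) : ZMod (Nn P n)),
    fun j : Fin n => if (j : ℕ) = i then P.a j * z.2 j else z.2 j) := rfl

/-! ### errors -/

theorem pr_val_congr (n : ℕ) {u v : ℕ} (h : u ≡ v [MOD Nn P (n + 1)]) :
    (St P n).pr u = (St P n).pr v := by
  have h1 := per_mod (St P n).pr (St P n).M (St P n).per_pr u
  have h2 := per_mod (St P n).pr (St P n).M (St P n).per_pr v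
  rw [← h1, ← h2]
  exact congrArg _ h

/-- error bound -/
def ee (n : ℕ) : ℝ := 4 / (Nn P n * Bn P n)

theorem cardOm (n : ℕ) : Fintype.card (Om P n) = Nn P n * Fintype.card (Fb P n) := by
  rw [Fintype.card_prod, ZMod.card]

theorem errs_le (g : ∀ n, Equiv.Perm (Om P n)) (n : ℕ) (bad : Finset ℕ)
    (h : ∀ z : Om P (n + 1), pP P n (g (n + 1) z) ≠ g n (pP P n z) → z.1.val ∈ bad) :
    errs (pP P) g n ≤ (bad.card : ℝ) / (Nn P (n + 1) : ℝ) := by
  classical
  unfold errs
  have h1 : ((Finset.univ.filter (fun z : Om P (n+1) =>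
      pP P n (g (n+1) z) ≠ g n (pP P n z))).card) ≤
      (bad ×ˢ (Finset.univ : Finset (Fb P (n + 1)))).card := by
    refine Finset.card_le_card_of_injOn (fun z => (z.1.val, z.2)) ?_ ?_
    · intro z hz
      have hz' : pP P n (g (n+1) z) ≠ g n (pP P n z) := by simpa using hz
      have := h z hz'
      simpa using this
    · intro z _ z' _ hh
      simp only [Prod.mk.injEq] at hh
      exact Prod.ext (ZMod.val_injective _ hh.1) hh.2
  rw [Finset.card_product, Finset.card_univ] at h1
  rw [cardOm]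
  have hF : (0 : ℝ) < Fintype.card (Fb P (n + 1)) := by
    exact_mod_cast Fintype.card_pos
  have hN : (0 : ℝ) < Nn P (n + 1) := by exact_mod_cast Nn_pos P (n + 1)
  have h1R : ((Finset.univ.filter (fun z : Om P (n+1) =>
      pP P n (g (n+1) z) ≠ g n (pP P n z))).card : ℝ) ≤ bad.card * Fintype.card (Fb P (n + 1)) := by
    exact_mod_cast h1
  rw [div_le_div_iff₀ (by push_cast; positivity) hN]
  push_cast
  calc _ ≤ ((bad.card : ℝ) * Fintype.card (Fb P (n + 1))) * Nn P (n + 1) :=
        mul_le_mul_of_nonneg_right h1R hN.le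
    _ = _ := by ring

/-- number of points near the end of a block -/
theorem cnt (M D k : ℕ) (hD : 0 < D) (hk : k ≤ D) (hDM : D ∣ M) :
    (((Finset.range M).filter (fun u => D ≤ u % D + k)).card : ℝ) = (k : ℝ) * M / D := by
  obtain ⟨Q, rfl⟩ := hDM
  have h := SM345.dcount Q D 1 k hD one_pos hk
  simp only [mul_one, Nat.div_one] at h
  rw [show D * Q = Q * D by ring, h]
  have : (D : ℝ) ≠ 0 := by exact_mod_cast hD.ne'
  push_cast
  field_simp

theorem cnt_e (S : Stp) (e : ℕ) (he : e ≤ S.m) :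
    (((Finset.range S.M).filter (fun u => S.W ≤ u / S.W ^ e % S.W + 1)).card : ℝ) =
      (S.M : ℝ) / S.W := by
  obtain ⟨r, hr⟩ : ∃ r, S.m + 1 = e + 1 + r := ⟨S.m + 1 - (e + 1), by omega⟩
  have hM : S.M = (S.W ^ r * S.Q) * S.W * S.W ^ e := by
    unfold Stp.M Stp.low
    rw [hr]; ring
  have h := SM345.dcount (S.W ^ r * S.Q) S.W (S.W ^ e) 1 S.hW (Nat.pow_pos S.hW) S.hW
  rw [hM, h]
  have : (S.W : ℝ) ≠ 0 := by exact_mod_cast S.hW.ne'
  push_cast
  field_simp

theorem W_dvd_M (S : Stp) : S.W ∣ S.M := S.W_dvd_low.trans (Dvd.intro _ rfl)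

theorem div_W_le (n : ℕ) : (P.m : ℝ) / (lev P n).W ≤ 1 / (Nn P n * Bn P n) := by
  have h1 := le_W P (lev P n)
  have hW : (0 : ℝ) < (lev P n).W := by exact_mod_cast (lev P n).W_pos
  have hN : (0 : ℝ) < Nn P n := by exact_mod_cast Nn_pos P n
  have hB : (0 : ℝ) < Bn P n := by exact_mod_cast Bn_pos P n
  rw [div_le_div_iff₀ hW (by positivity), one_mul]
  exact_mod_cast h1

theorem errs_s (n : ℕ) : errs (pP P) (sP P) n ≤ ee P n := by
  have hm : (1 : ℝ) ≤ P.m := by exact_mod_cast P.hm
  refine (errs_le P _ n ((Finset.range (Nn P (n+1))).filter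
    (fun u => (St P n).W ≤ u % (St P n).W + 1)) ?_).trans ?_
  · intro z hz
    rw [Finset.mem_filter, Finset.mem_range]
    refine ⟨ZMod.val_lt z.1, ?_⟩
    by_contra hcon
    apply hz
    obtain ⟨-, -, -, -, -, h6⟩ := (St P n).shift_x0 z.1.val 1 (not_le.1 hcon)
    rw [sP_apply, sP_apply]
    unfold pP
    refine Prod.ext ?_ rfl
    simp only
    have h7 := pr_val_congr P n (val_add_modEq z.1 1)
    rw [Nat.cast_one] at h7
    rw [h7, h6]
    push_cast
    rfl
  · have h1 := cnt (St P n).M (St P n).W 1 (St P n).hW (St P n).hW (W_dvd_M _)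
    rw [Nn_succ, h1]
    have hM : (0 : ℝ) < (St P n).M := by exact_mod_cast (St P n).M_pos
    have hW : (0 : ℝ) < (lev P n).W := by exact_mod_cast (lev P n).W_pos
    have hW' : (0 : ℝ) < (St P n).W := hW
    have hNB : (0 : ℝ) < (Nn P n : ℝ) * Bn P n := by
      have hN : (0 : ℝ) < Nn P n := by exact_mod_cast Nn_pos P n
      have hB : (0 : ℝ) < Bn P n := by exact_mod_cast Bn_pos P n
      positivity
    have e : ((1 : ℕ) : ℝ) * (St P n).M / (St P n).W / (St P n).M = 1 / (lev P n).W := by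
      have : ((St P n).W : ℝ) = (lev P n).W := rfl
      rw [this]
      field_simp
      simp
    rw [e]
    calc (1 : ℝ) / (lev P n).W ≤ P.m / (lev P n).W := div_le_div_of_nonneg_right hm hW.le
      _ ≤ 1 / (Nn P n * Bn P n) := div_W_le P n
      _ ≤ ee P n := by
        unfold ee
        exact div_le_div_of_nonneg_right (by norm_num) hNB.le

theorem errs_t (j n : ℕ) : errs (pP P) (tP P j) n ≤ ee P n := by
  classical
  refine (errs_le P _ n ((Finset.range P.m).biUnion fun e => (Finset.range (Nn P (n+1))).filter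
    (fun u => (St P n).W ≤ u / (St P n).W ^ (e + 1) % (St P n).W + 1)) ?_).trans ?_
  · intro z hz
    rw [Finset.mem_biUnion]
    refine ⟨(z.1.val + j) % P.m, Finset.mem_range.2 (Nat.mod_lt _ P.hm), ?_⟩
    rw [Finset.mem_filter, Finset.mem_range]
    refine ⟨ZMod.val_lt z.1, ?_⟩
    by_contra hcon
    apply hz
    have hlt : (z.1.val + j) % P.m < P.m := Nat.mod_lt _ P.hm
    obtain ⟨h6, -⟩ := (St P n).shift_e z.1.val ((z.1.val + j) % P.m + 1) (by omega)
      (show (z.1.val + j) % P.m + 1 ≤ P.m from hlt) (not_le.1 hcon)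
    rw [tP_apply, tP_apply]
    unfold pP
    refine Prod.ext ?_ rfl
    simp only
    have hw : (lev P (n + 1)).w = (St P n).W := rfl
    have h7 := pr_val_congr P n (val_add_modEq z.1 ((St P n).W ^ ((z.1.val + j) % P.m + 1)))
    rw [hw, h7, h6]
    push_cast
    congr 2
    have h8 : ((St P n).pr z.1.val : ZMod (Nn P n)).val % P.m = (St P n).pr z.1.val % P.m := by
      rw [ZMod.val_natCast, Nat.mod_mod_of_dvd _ (m_dvd_Nn P n)]
    have h9 : (((St P n).pr z.1.val : ZMod (Nn P n)).val + j) % P.m =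
        ((z.1.val + j) % P.m + (St P n).da z.1.val) % P.m := by
      have h10 := (St P n).pr_mod z.1.val
      have h11 := (St P n).x0_mod z.1.val
      have hmm : (St P n).m = P.m := rfl
      rw [hmm] at h10 h11
      rw [Nat.add_mod, h8, h10, ← Nat.add_mod, Nat.mod_add_mod, Nat.add_assoc, Nat.add_mod, h11,
        ← Nat.add_mod]
      congr 1
      ring
    rw [h9]
    congr 2
  · have hm : (0 : ℝ) < P.m := by exact_mod_cast P.hm
    have hM : (0 : ℝ) < (St P n).M := by exact_mod_cast (St P n).M_pos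
    have hW : (0 : ℝ) < (lev P n).W := by exact_mod_cast (lev P n).W_pos
    have hNB : (0 : ℝ) < (Nn P n : ℝ) * Bn P n := by
      have hN : (0 : ℝ) < Nn P n := by exact_mod_cast Nn_pos P n
      have hB : (0 : ℝ) < Bn P n := by exact_mod_cast Bn_pos P n
      positivity
    have h1 : (((Finset.range P.m).biUnion fun e => (Finset.range (Nn P (n+1))).filter
        (fun u => (St P n).W ≤ u / (St P n).W ^ (e + 1) % (St P n).W + 1)).card : ℝ) ≤
        P.m * ((St P n).M / (St P n).W) := by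
      calc _ ≤ ((∑ e ∈ Finset.range P.m, ((Finset.range (Nn P (n+1))).filter
            (fun u => (St P n).W ≤ u / (St P n).W ^ (e + 1) % (St P n).W + 1)).card : ℕ) : ℝ) := by
            exact_mod_cast Finset.card_biUnion_le
        _ = ∑ e ∈ Finset.range P.m, (((Finset.range (Nn P (n+1))).filter
            (fun u => (St P n).W ≤ u / (St P n).W ^ (e + 1) % (St P n).W + 1)).card : ℝ) := by
            push_cast; rfl
        _ = ∑ e ∈ Finset.range P.m, ((St P n).M : ℝ) / (St P n).W := by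
            refine Finset.sum_congr rfl fun e he => ?_
            rw [Nn_succ]
            exact cnt_e (St P n) (e + 1) (Finset.mem_range.1 he)
        _ = _ := by rw [Finset.sum_const, Finset.card_range, nsmul_eq_mul]
    have hWW : ((St P n).W : ℝ) = (lev P n).W := rfl
    rw [hWW] at h1
    have hNs : (Nn P (n + 1) : ℝ) = (St P n).M := rfl
    rw [hNs]
    calc _ ≤ P.m * ((St P n).M / (lev P n).W : ℝ) / ((St P n).M : ℝ) :=
          div_le_div_of_nonneg_right h1 hM.le
      _ = P.m / (lev P n).W := by field_simp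
      _ ≤ 1 / (Nn P n * Bn P n) := div_W_le P n
      _ ≤ ee P n := by
        unfold ee
        exact div_le_div_of_nonneg_right (by norm_num) hNB.le

theorem errs_r (i n : ℕ) : errs (pP P) (rP P i) n ≤ ee P n := by
  refine (errs_le P _ n ∅ ?_).trans ?_
  · intro z hz
    exfalso
    apply hz
    rw [rP_apply, rP_apply]
    unfold pP
    refine Prod.ext ?_ rfl
    simp only
    have hs : KK P i * (Nn P (n + 1) / KK P (n + 1)) = (St P n).low * (lev P n).N * KK P i :=
      shift_R P (lev P n) (KK P i)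
    have h7 := pr_val_congr P n (val_add_modEq z.1 (KK P i * (Nn P (n + 1) / KK P (n + 1))))
    rw [h7, hs]
    obtain ⟨-, -, -, hpr⟩ := (St P n).shift_c z.1.val (KK P i)
    have h8 : (((St P n).pr (z.1.val + (St P n).low * (lev P n).N * KK P i) : ℕ) : ZMod (Nn P n)) =
        (((St P n).pr z.1.val + (lev P n).N / KK P n * KK P i : ℕ) : ZMod (Nn P n)) :=
      (ZMod.natCast_eq_natCast_iff _ _ _).2 hpr
    rw [h8, Nat.cast_add]
    congr 2
    ring
  · simp only [Finset.card_empty, Nat.cast_zero, zero_div]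
    unfold ee
    positivity

theorem sum_inv_LL (n : ℕ) : ∑ i ∈ Finset.range (Bn P n), (1 : ℝ) / LL (Nn P n) (Bn P n) i ≤
    2 / (Nn P n * Bn P n) := by
  have hN : (0 : ℝ) < Nn P n := by exact_mod_cast Nn_pos P n
  have hB : (2 : ℝ) ≤ Bn P n := by
    have := B_ge2 P n
    exact_mod_cast (show 2 ≤ Bn P n by omega)
  set b : ℝ := ((Bn P n : ℕ) : ℝ) with hb
  have key : ∀ k : ℕ, ∑ i ∈ Finset.range k, (1 : ℝ) / LL (Nn P n) (Bn P n) i ≤
      2 / (Nn P n * b) - 2 / (Nn P n * b ^ (k + 1)) := by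
    intro k
    induction k with
    | zero => simp
    | succ k ih =>
      rw [Finset.sum_range_succ]
      have e : (LL (Nn P n) (Bn P n) k : ℝ) = Nn P n * b ^ (k + 1) := by
        unfold LL; push_cast; rfl
      rw [e]
      have hbk : (0 : ℝ) < b ^ (k + 1) := by positivity
      have h2 : (2 : ℝ) / (Nn P n * b ^ (k + 1 + 1)) ≤ 1 / (Nn P n * b ^ (k + 1)) := by
        rw [div_le_div_iff₀ (by positivity) (by positivity), pow_succ b (k + 1)]
        have : (0 : ℝ) ≤ Nn P n * b ^ (k + 1) := by positivity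
        nlinarith
      have h3 : (2 : ℝ) / (Nn P n * b ^ (k + 1)) = 1 / (Nn P n * b ^ (k + 1)) +
          1 / (Nn P n * b ^ (k + 1)) := by ring
      linarith
  refine (key _).trans ?_
  have : (0 : ℝ) ≤ 2 / (Nn P n * b ^ (Bn P n + 1)) := by positivity
  linarith

theorem errs_T (n : ℕ) : errs (pP P) (TP P) n ≤ ee P n := by
  classical
  set ℓ := lev P n with hℓ
  set bad1 := (Finset.range (Nn P (n+1))).filter (fun u => ℓ.W ≤ u % ℓ.W + P.m) with hb1
  set bad2 := (Finset.range ℓ.B).biUnion fun i => (Finset.range (Nn P (n+1))).filter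
    (fun u => P.m * LL ℓ.N ℓ.B i ≤ u % (P.m * LL ℓ.N ℓ.B i) + P.m) with hb2
  refine (errs_le P _ n (bad1 ∪ bad2) ?_).trans ?_
  · intro z hz
    by_contra hcon
    rw [Finset.mem_union, not_or] at hcon
    obtain ⟨hc1, hc2⟩ := hcon
    apply hz
    have hzlt : z.1.val < Nn P (n + 1) := ZMod.val_lt z.1
    have hx : ℓ.stp.x0 z.1.val + P.m < ℓ.W := by
      by_contra h
      apply hc1
      rw [hb1, Finset.mem_filter, Finset.mem_range]
      exact ⟨hzlt, not_lt.1 h⟩
    have hA : ∀ j, ℓ.AA (z.1.val + P.m) j = ℓ.AA z.1.val j := by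
      intro j
      refine AA_same P ℓ z.1.val j hx ?_
      intro i hi
      by_contra h
      apply hc2
      rw [hb2, Finset.mem_biUnion]
      refine ⟨i, Finset.mem_range.2 hi, ?_⟩
      rw [Finset.mem_filter, Finset.mem_range]
      refine ⟨hzlt, ?_⟩
      have h2 : ℓ.stp.x0 z.1.val % (P.m * LL ℓ.N ℓ.B i) = z.1.val % (P.m * LL ℓ.N ℓ.B i) :=
        Nat.mod_mod_of_dvd _ (LL_dvd_W P ℓ hi.le)
      rw [h2] at h
      exact not_lt.1 h
    obtain ⟨-, -, -, -, -, h6⟩ := ℓ.stp.shift_x0 z.1.val P.m hx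
    rw [TP_apply, TP_apply]
    unfold pP
    refine Prod.ext ?_ ?_
    · simp only
      have h7 := pr_val_congr P n (val_add_modEq z.1 P.m)
      rw [h7]
      have h6' : (St P n).pr (z.1.val + P.m) = (St P n).pr z.1.val + P.m := h6
      rw [h6', Nat.cast_add]
    · funext j
      simp only
      congr 1
      have h8 := ph_succ P n z.1.val j
      have h9 := hA j
      rw [← hℓ, h9, sub_self, add_zero] at h8
      refine h8.trans ?_
      refine (ph_congr P ?_ j).symm
      rw [ZMod.val_natCast]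
      exact Nat.mod_modEq _ _
  · have hm : (0 : ℝ) < P.m := by exact_mod_cast P.hm
    have hM : (0 : ℝ) < (St P n).M := by exact_mod_cast (St P n).M_pos
    have hW : (0 : ℝ) < ℓ.W := by exact_mod_cast ℓ.W_pos
    have hN : (0 : ℝ) < Nn P n := by exact_mod_cast Nn_pos P n
    have hB : (0 : ℝ) < Bn P n := by exact_mod_cast Bn_pos P n
    have hNB : (0 : ℝ) < (Nn P n : ℝ) * Bn P n := by positivity
    have c1 : (bad1.card : ℝ) = P.m * (St P n).M / ℓ.W :=
      cnt (St P n).M ℓ.W P.m ℓ.W_pos (m_le_W P ℓ) (W_dvd_M _)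
    have c2 : (bad2.card : ℝ) ≤ ∑ i ∈ Finset.range ℓ.B, (St P n).M * (1 / (LL ℓ.N ℓ.B i : ℝ)) := by
      calc _ ≤ ((∑ i ∈ Finset.range ℓ.B, ((Finset.range (Nn P (n+1))).filter
            (fun u => P.m * LL ℓ.N ℓ.B i ≤ u % (P.m * LL ℓ.N ℓ.B i) + P.m)).card : ℕ) : ℝ) := by
            exact_mod_cast Finset.card_biUnion_le
        _ = ∑ i ∈ Finset.range ℓ.B, (((Finset.range (Nn P (n+1))).filter
            (fun u => P.m * LL ℓ.N ℓ.B i ≤ u % (P.m * LL ℓ.N ℓ.B i) + P.m)).card : ℝ) := by
            push_cast; rfl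
        _ = _ := by
            refine Finset.sum_congr rfl fun i hi => ?_
            have hL := LL_pos P ℓ i
            rw [Nn_succ, cnt (St P n).M (P.m * LL ℓ.N ℓ.B i) P.m (Nat.mul_pos P.hm hL)
              (Nat.le_mul_of_pos_right _ hL)
              ((LL_dvd_W P ℓ (Finset.mem_range.1 hi).le).trans (W_dvd_M (St P n)))]
            have hL' : (0 : ℝ) < LL ℓ.N ℓ.B i := by exact_mod_cast hL
            push_cast
            field_simp
    have c3 : ((bad1 ∪ bad2).card : ℝ) ≤ bad1.card + bad2.card := by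
      exact_mod_cast Finset.card_union_le _ _
    have c4 := sum_inv_LL P n
    have c5 := div_W_le P n
    rw [← Finset.mul_sum] at c2
    have hNs : (Nn P (n + 1) : ℝ) = (St P n).M := rfl
    rw [hNs, div_le_iff₀ hM]
    have e1 : (P.m : ℝ) * (St P n).M / ℓ.W ≤ (St P n).M * (1 / (Nn P n * Bn P n)) := by
      calc (P.m : ℝ) * (St P n).M / ℓ.W = (St P n).M * (P.m / ℓ.W) := by ring
        _ ≤ _ := mul_le_mul_of_nonneg_left c5 hM.le
    have e2 : (bad2.card : ℝ) ≤ (St P n).M * (2 / (Nn P n * Bn P n)) :=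
      c2.trans (mul_le_mul_of_nonneg_left c4 hM.le)
    have e3 : (0 : ℝ) ≤ (St P n).M * (1 / (Nn P n * Bn P n)) := by positivity
    calc ((bad1 ∪ bad2).card : ℝ) ≤ bad1.card + bad2.card := c3
      _ ≤ (St P n).M * (1 / (Nn P n * Bn P n)) + (St P n).M * (2 / (Nn P n * Bn P n)) := by
          rw [c1]; exact add_le_add e1 e2
      _ ≤ ee P n * (St P n).M := by
          unfold ee
          have : (4 : ℝ) / (Nn P n * Bn P n) * (St P n).M =
            (St P n).M * (1 / (Nn P n * Bn P n)) + (St P n).M * (2 / (Nn P n * Bn P n)) +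
            (St P n).M * (1 / (Nn P n * Bn P n)) := by ring
          linarith

/-- the fibres of the projections have constant cardinality -/
theorem fiber_card (n : ℕ) (y : Om P n) :
    (Finset.univ.filter (fun z : Om P (n+1) => pP P n z = y)).card =
      (St P n).low * (St P n).K' * P.p n := by
  obtain ⟨y1, y2⟩ := y
  have h1 : (Finset.univ.filter (fun z : Om P (n+1) => pP P n z = (y1, y2))) =
      (Finset.univ.filter (fun x : ZMod (Nn P (n+1)) => (((St P n).pr x.val : ℕ) : ZMod (Nn P n)) = y1)) ×ˢ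
      (Finset.univ.filter (fun f : Fb P (n+1) => (fun j : Fin n => f j.castSucc) = y2)) := by
    ext z
    simp only [Finset.mem_filter, Finset.mem_univ, true_and, Finset.mem_product]
    unfold pP
    exact Prod.mk.injEq _ _ _ _ ▸ Iff.rfl
  rw [h1, Finset.card_product]
  congr 1
  · have h2 : (Finset.univ.filter (fun x : ZMod (Nn P (n+1)) =>
        (((St P n).pr x.val : ℕ) : ZMod (Nn P n)) = y1)).card =
        ∑ u ∈ Finset.range (St P n).M, (if (((St P n).pr u : ℕ) : ZMod (Nn P n)) = y1 then 1 else 0) := by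
      rw [Finset.card_filter]
      rw [← Fin.sum_univ_eq_sum_range (fun u => if (((St P n).pr u : ℕ) : ZMod (Nn P n)) = y1 then 1 else 0)]
      have : ∀ (N : ℕ) [NeZero N] (g : ℕ → ℕ), ∑ x : ZMod N, g x.val = ∑ i : Fin N, g i := by
        intro N hN g
        cases N with
        | zero => exact absurd rfl hN.ne
        | succ N => rfl
      exact this (Nn P (n + 1)) (fun u => if (((St P n).pr u : ℕ) : ZMod (Nn P n)) = y1 then 1 else 0)
    rw [h2]
    have h3 := (St P n).sum_M (fun (y : ZMod (Nn P n)) _ _ => if y = y1 then (1 : ℕ) else 0)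
    refine h3.trans ?_
    have h4 : ∑ y : ZMod (Nn P n), (if y = y1 then 1 else 0) = 1 := by
      rw [Finset.sum_ite_eq' Finset.univ y1]
      simp
    show ∑ z ∈ Finset.range (St P n).low, ∑ c ∈ Finset.range (St P n).K',
      ∑ y : ZMod (Nn P n), (if y = y1 then 1 else 0) = _
    simp only [h4, Finset.sum_const, Finset.card_range, smul_eq_mul, mul_one]
  · have h5 : (Finset.univ.filter (fun f : Fb P (n+1) => (fun j : Fin n => f j.castSucc) = y2)).card =
        Fintype.card (ZMod (P.p n)) := by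
      rw [← Finset.card_univ]
      refine Finset.card_nbij' (fun f => f (Fin.last n)) (fun c => Fin.snoc (α := fun j : Fin (n+1) => ZMod (P.p j)) y2 c) ?_ ?_ ?_ ?_
      · intro f _
        exact Finset.mem_coe.2 (Finset.mem_univ _)
      · intro c _
        rw [Finset.mem_coe, Finset.mem_filter]
        refine ⟨Finset.mem_univ _, ?_⟩
        funext j
        exact Fin.snoc_castSucc (α := fun j : Fin (n+1) => ZMod (P.p j)) _ _ _
      · intro f hf
        rw [Finset.mem_coe, Finset.mem_filter] at hf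
        obtain ⟨-, hf⟩ := hf
        simp only
        rw [← hf]
        exact Fin.snoc_init_self (α := fun j : Fin (n+1) => ZMod (P.p j)) f
      · intro c _
        exact Fin.snoc_last (α := fun j : Fin (n+1) => ZMod (P.p j)) _ _
    rw [h5, ZMod.card]

end MS723
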