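import Pool.Agent.H723R2.Avg

/-! Action of the limit operators on the spaces `Kd`. -/

set_option autoImplicit false
set_option linter.unusedVariables false

open MeasureTheory Filter Topology
open scoped ENNReal NNReal

noncomputable section

namespace MS723

open SM345 (XX UnifMeas errs J IsLim Koop opP)

variable {P : Par} (c : Ctx P)

theorem bf_bound (n : ℕ) (d : Dd P) (f : ZMod (Nn P n) → ℂ) (C : ℝ) (hf : ∀ u, ‖f u‖ ≤ C)
    (z : Om P n) : ‖bf n d f z‖ ≤ C := by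
  rw [bf_abs]
  exact hf _

/-- images of `Kd` under limit operators -/
theorem map_Kd (U : Lp ℂ 2 c.μ ≃ₗᵢ[ℂ] Lp ℂ 2 c.μ) (g : ∀ n, Equiv.Perm (Om P n)) (δ : ℕ → ℝ)
    (hδ : Tendsto δ atTop (𝓝 0)) (h : IsLim c.hμ g δ U) (d : Dd P) (n₀ : ℕ) (hd : supp n₀ d)
    (K' : Submodule ℂ (Lp ℂ 2 c.μ)) (hK' : IsClosed (K' : Set (Lp ℂ 2 c.μ)))
    (hg : ∀ n, n₀ ≤ n → ∀ f : ZMod (Nn P n) → ℂ, J c.hμ n (bf n d f ∘ g n) ∈ K')
    (F : Lp ℂ 2 c.μ) (hF : F ∈ Kd c d) : U F ∈ K' := by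
  refine Kd_induction c d n₀ hd (fun F => U F ∈ K') (hK'.preimage U.continuous) ?_ F hF
  intro n hn f
  obtain ⟨C, hC0, hC⟩ := exists_bound f
  have hcl : U (Jd c d n f) ∈ closure (K' : Set (Lp ℂ 2 c.μ)) := by
    rw [Metric.mem_closure_iff]
    intro ε hε
    have hlim : Tendsto (fun m => C * δ m) atTop (𝓝 0) := by
      have := hδ.const_mul C
      rwa [mul_zero] at this
    obtain ⟨m, hm1, hm2⟩ := ((hlim.eventually (gt_mem_nhds hε)).and
      (eventually_ge_atTop n)).exists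
    obtain ⟨f', h1, -, h3⟩ := Jd_lift' c d n m hm2 (supp_mono hn hd) f C hC
    refine ⟨J c.hμ m (bf m d f' ∘ g m), hg m (hn.trans hm2) f', ?_⟩
    rw [dist_eq_norm, ← h3]
    exact lt_of_le_of_lt (h m (bf m d f') C (bf_bound m d f' C h1)) hm1
  rwa [hK'.closure_eq] at hcl

/-- two limit operators that agree on finite levels agree on `Kd` -/
theorem ext_Kd (U₁ U₂ : Lp ℂ 2 c.μ ≃ₗᵢ[ℂ] Lp ℂ 2 c.μ) (g₁ g₂ : ∀ n, Equiv.Perm (Om P n))
    (δ₁ δ₂ : ℕ → ℝ) (hδ₁ : Tendsto δ₁ atTop (𝓝 0)) (hδ₂ : Tendsto δ₂ atTop (𝓝 0))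
    (h₁ : IsLim c.hμ g₁ δ₁ U₁) (h₂ : IsLim c.hμ g₂ δ₂ U₂) (d : Dd P) (n₀ : ℕ) (hd : supp n₀ d)
    (hg : ∀ n, n₀ ≤ n → ∀ f : ZMod (Nn P n) → ℂ, bf n d f ∘ g₁ n = bf n d f ∘ g₂ n)
    (F : Lp ℂ 2 c.μ) (hF : F ∈ Kd c d) : U₁ F = U₂ F := by
  refine Kd_induction c d n₀ hd (fun F => U₁ F = U₂ F)
    (isClosed_eq U₁.continuous U₂.continuous) ?_ F hF
  intro n hn f
  obtain ⟨C, hC0, hC⟩ := exists_bound f
  rw [← sub_eq_zero, ← norm_le_zero_iff]
  have hlim : Tendsto (fun m => C * δ₁ m + C * δ₂ m) atTop (𝓝 0) := by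
    have := (hδ₁.const_mul C).add (hδ₂.const_mul C)
    rwa [mul_zero, add_zero] at this
  refine ge_of_tendsto hlim ?_
  filter_upwards [eventually_ge_atTop n] with m hm
  obtain ⟨f', h1, -, h3⟩ := Jd_lift' c d n m hm (supp_mono hn hd) f C hC
  rw [← h3]
  have e1 := h₁ m (bf m d f') C (bf_bound m d f' C h1)
  have e2 := h₂ m (bf m d f') C (bf_bound m d f' C h1)
  rw [hg m (hn.trans hm)] at e1
  calc ‖U₁ (Jd c d m f') - U₂ (Jd c d m f')‖ =
      ‖(U₁ (J c.hμ m (bf m d f')) - J c.hμ m (bf m d f' ∘ g₂ m)) -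
        (U₂ (J c.hμ m (bf m d f')) - J c.hμ m (bf m d f' ∘ g₂ m))‖ := by
        congr 1
        unfold Jd
        abel
    _ ≤ C * δ₁ m + C * δ₂ m := (norm_sub_le _ _).trans (add_le_add e1 e2)

/-! ### the operator `UT` -/

theorem bf_TP (n : ℕ) (d : Dd P) (f : ZMod (Nn P n) → ℂ) :
    bf n d f ∘ TP P n = bf n d (fun u => f (u + (P.m : ZMod (Nn P n))) *
      ch n d (fun j => ph P n u.val j)) := by
  funext z
  simp only [Function.comp_apply, TP_apply]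
  unfold bf
  simp only
  rw [ch_add n d z.2 (fun j => ph P n z.1.val j)]
  ring

theorem bf_TP' (n : ℕ) (d : Dd P) (f : ZMod (Nn P n) → ℂ) : ∃ f' : ZMod (Nn P n) → ℂ,
    bf n d f ∘ ((TP P n)⁻¹ : Equiv.Perm (Om P n)) = bf n d f' := by
  refine ⟨fun u => f (u - (P.m : ZMod (Nn P n))) *
    (starRingEnd ℂ) (ch n d (fun j => ph P n (u - (P.m : ZMod (Nn P n))).val j)), ?_⟩
  funext z
  obtain ⟨y, rfl⟩ := (TP P n).surjective z
  simp only [Function.comp_apply]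
  have e : (TP P n)⁻¹ ((TP P n) y) = y := (TP P n).symm_apply_apply y
  rw [e, TP_apply]
  unfold bf
  simp only [add_sub_cancel_right]
  rw [ch_add n d y.2 (fun j => ph P n y.1.val j)]
  have h2 : (starRingEnd ℂ) (ch n d (fun j => ph P n y.1.val j)) *
      ch n d (fun j => ph P n y.1.val j) = 1 := by
    rw [Complex.conj_mul', ch_norm]
    norm_num
  linear_combination (-(f y.1 * ch n d y.2)) * h2

theorem UT_Kd (d : Dd P) (n₀ : ℕ) (hd : supp n₀ d) (F : Lp ℂ 2 c.μ) (hF : F ∈ Kd c d) :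
    c.UT F ∈ Kd c d := by
  refine map_Kd c c.UT (TP P) (dd P) (lim_dd0 P) c.lT d n₀ hd (Kd c d) (Kd_closed c d) ?_ F hF
  intro n hn f
  rw [bf_TP]
  exact Jd_mem c d n (supp_mono hn hd) _

theorem UT_Kd' (d : Dd P) (n₀ : ℕ) (hd : supp n₀ d) (F : Lp ℂ 2 c.μ) (hF : F ∈ Kd c d) :
    c.UT⁻¹ F ∈ Kd c d := by
  refine map_Kd c c.UT⁻¹ (fun n => (TP P n)⁻¹) (dd P) (lim_dd0 P)
    (SM345.isLim_symm c.hμ (TP P) (dd P) c.UT c.lT) d n₀ hd (Kd c d) (Kd_closed c d) ?_ F hF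
  intro n hn f
  obtain ⟨f', hf'⟩ := bf_TP' n d f
  rw [hf']
  exact Jd_mem c d n (supp_mono hn hd) _

/-! ### the operators `US`, `Ut` -/

theorem bf_sP (n : ℕ) (d : Dd P) (f : ZMod (Nn P n) → ℂ) :
    bf n d f ∘ sP P n = bf n d (fun u => f (u + 1)) := by
  funext z
  simp only [Function.comp_apply, sP_apply]
  rfl

theorem bf_sP' (n : ℕ) (d : Dd P) (f : ZMod (Nn P n) → ℂ) :
    bf n d f ∘ ((sP P n)⁻¹ : Equiv.Perm (Om P n)) = bf n d (fun u => f (u - 1)) := by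
  funext z
  obtain ⟨y, rfl⟩ := (sP P n).surjective z
  simp only [Function.comp_apply]
  have e : (sP P n)⁻¹ ((sP P n) y) = y := (sP P n).symm_apply_apply y
  rw [e, sP_apply]
  unfold bf
  simp only [add_sub_cancel_right]

theorem US_Kd (d : Dd P) (n₀ : ℕ) (hd : supp n₀ d) (F : Lp ℂ 2 c.μ) (hF : F ∈ Kd c d) :
    c.US F ∈ Kd c d := by
  refine map_Kd c c.US (sP P) (dd P) (lim_dd0 P) c.lS d n₀ hd (Kd c d) (Kd_closed c d) ?_ F hF
  intro n hn f
  rw [bf_sP]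
  exact Jd_mem c d n (supp_mono hn hd) _

theorem US_Kd' (d : Dd P) (n₀ : ℕ) (hd : supp n₀ d) (F : Lp ℂ 2 c.μ) (hF : F ∈ Kd c d) :
    c.US⁻¹ F ∈ Kd c d := by
  refine map_Kd c c.US⁻¹ (fun n => (sP P n)⁻¹) (dd P) (lim_dd0 P)
    (SM345.isLim_symm c.hμ (sP P) (dd P) c.US c.lS) d n₀ hd (Kd c d) (Kd_closed c d) ?_ F hF
  intro n hn f
  rw [bf_sP']
  exact Jd_mem c d n (supp_mono hn hd) _

theorem bf_tP (j n : ℕ) (d : Dd P) (f : ZMod (Nn P n) → ℂ) :
    bf n d f ∘ tP P j n = bf n d (fun u => f (u +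
      (((lev P n).w ^ ((u.val + j) % P.m + 1) : ℕ) : ZMod (Nn P n)))) := by
  funext z
  simp only [Function.comp_apply, tP_apply]
  rfl

theorem Ut_Kd (j : ℕ) (d : Dd P) (n₀ : ℕ) (hd : supp n₀ d) (F : Lp ℂ 2 c.μ) (hF : F ∈ Kd c d) :
    c.Ut j F ∈ Kd c d := by
  refine map_Kd c (c.Ut j) (tP P j) (dd P) (lim_dd0 P) (c.lt j) d n₀ hd (Kd c d)
    (Kd_closed c d) ?_ F hF
  intro n hn f
  rw [bf_tP]
  exact Jd_mem c d n (supp_mono hn hd) _

/-! ### the operators `UR` -/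

/-- the action on the characters -/
def upd (i : ℕ) (d : Dd P) : Dd P := Function.update d i (P.a i * d i)

theorem upd_supp (i : ℕ) (d : Dd P) (n : ℕ) (hd : supp n d) : supp n (upd i d) := by
  intro j hj
  unfold upd
  by_cases h : j = i
  · subst h
    rw [Function.update_self, hd j hj, mul_zero]
  · rw [Function.update_of_ne h, hd j hj]

theorem bf_rP (i n : ℕ) (d : Dd P) (f : ZMod (Nn P n) → ℂ) :
    bf n d f ∘ rP P i n = bf n (upd i d) (fun u => f (u +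
      ((KK P i * (Nn P n / KK P n) : ℕ) : ZMod (Nn P n)))) := by
  funext z
  simp only [Function.comp_apply, rP_apply]
  unfold bf
  simp only
  congr 1
  unfold ch
  refine Finset.prod_congr rfl fun j _ => ?_
  congr 1
  dsimp only
  by_cases h : (j : ℕ) = i
  · rw [if_pos h]
    unfold upd
    subst h
    rw [Function.update_self]
    ring
  · rw [if_neg h]
    unfold upd
    rw [Function.update_of_ne h]

theorem bf_rP' (i n : ℕ) (d : Dd P) (f : ZMod (Nn P n) → ℂ) :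
    bf n (upd i d) f ∘ ((rP P i n)⁻¹ : Equiv.Perm (Om P n)) = bf n d (fun u => f (u -
      ((KK P i * (Nn P n / KK P n) : ℕ) : ZMod (Nn P n)))) := by
  have h := bf_rP i n d (fun u => f (u - ((KK P i * (Nn P n / KK P n) : ℕ) : ZMod (Nn P n))))
  simp only [add_sub_cancel_right] at h
  rw [← h]
  funext z
  simp only [Function.comp_apply]
  have e : (rP P i n) ((rP P i n)⁻¹ z) = z := (rP P i n).apply_symm_apply z
  rw [e]

theorem UR_Kd (i : ℕ) (d : Dd P) (n₀ : ℕ) (hd : supp n₀ d) (F : Lp ℂ 2 c.μ) (hF : F ∈ Kd c d) :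
    c.UR i F ∈ Kd c (upd i d) := by
  refine map_Kd c (c.UR i) (rP P i) (dd P) (lim_dd0 P) (c.lR i) d n₀ hd (Kd c (upd i d))
    (Kd_closed c _) ?_ F hF
  intro n hn f
  rw [bf_rP]
  exact Jd_mem c _ n (supp_mono hn (upd_supp i d n₀ hd)) _

theorem UR_Kd' (i : ℕ) (d : Dd P) (n₀ : ℕ) (hd : supp n₀ d) (F : Lp ℂ 2 c.μ)
    (hF : F ∈ Kd c (upd i d)) : (c.UR i)⁻¹ F ∈ Kd c d := by
  refine map_Kd c (c.UR i)⁻¹ (fun n => (rP P i n)⁻¹) (dd P) (lim_dd0 P)
    (SM345.isLim_symm c.hμ (rP P i) (dd P) (c.UR i) (c.lR i)) (upd i d) n₀ (upd_supp i d n₀ hd)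
    (Kd c d) (Kd_closed c d) ?_ F hF
  intro n hn f
  rw [bf_rP']
  exact Jd_mem c d n (supp_mono hn hd) _

/-! ### relations -/

theorem rel_RT (i : ℕ) (d : Dd P) (hd : supp (i + 1) d) (F : Lp ℂ 2 c.μ) (hF : F ∈ Kd c d) :
    c.UR i (c.UT F) = c.UT (c.UR i F) := by
  have hδ : Tendsto (fun n => dd P n + dd P n) atTop (𝓝 0) := by
    have := (lim_dd0 P).add (lim_dd0 P)
    rwa [add_zero] at this
  refine ext_Kd c (c.UR i * c.UT) (c.UT * c.UR i) (fun n => TP P n * rP P i n)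
    (fun n => rP P i n * TP P n) (fun n => dd P n + dd P n) (fun n => dd P n + dd P n) hδ hδ
    (SM345.isLim_mul c.hμ (rP P i) (TP P) (dd P) (dd P) _ _ (c.lR i) c.lT)
    (SM345.isLim_mul c.hμ (TP P) (rP P i) (dd P) (dd P) _ _ c.lT (c.lR i)) d (i + 1) hd ?_ F hF
  intro n hn f
  funext z
  simp only [Function.comp_apply, Equiv.Perm.mul_apply]
  rw [TP_apply, rP_apply, rP_apply, TP_apply]
  unfold bf
  simp only
  congr 1
  · congr 1
    ring
  · unfold ch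
    refine Finset.prod_congr rfl fun j _ => ?_
    congr 1
    dsimp only
    rcases lt_trichotomy (j : ℕ) i with h | h | h
    · rw [if_neg h.ne, if_neg h.ne]
      congr 2
      have := (ph_R P n z.1.val i).1 j h
      rw [← this]
      refine ph_congr P ?_ j
      exact val_add_modEq z.1 _
    · rw [if_pos h, if_pos h]
      have := (ph_R P n z.1.val i).2
      have e : ph P n (z.1 + ((KK P i * (Nn P n / KK P n) : ℕ) : ZMod (Nn P n))).val j =
          P.a j * ph P n z.1.val j := by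
        subst h
        rw [← this]
        refine ph_congr P ?_ j
        exact val_add_modEq z.1 _
      rw [e]
      ring
    · rw [hd j (by omega), zero_mul, zero_mul]

theorem rel_TS (F : Lp ℂ 2 c.μ) (hF : F ∈ Kd c 0) : c.UT F = (c.US ^ P.m) F := by
  have hpow : ∀ k : ℕ, IsLim c.hμ (fun n => (sP P n) ^ k) (fun n => k * dd P n) (c.US ^ k) := by
    intro k n f C hf
    have := SM345.isLim_pow c.hμ (sP P) (dd P) c.US c.lS n k f C hf
    refine this.trans (le_of_eq ?_)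
    ring
  have hδ : Tendsto (fun n => (P.m : ℝ) * dd P n) atTop (𝓝 0) := by
    have := (lim_dd0 P).const_mul (P.m : ℝ)
    rwa [mul_zero] at this
  refine ext_Kd c c.UT (c.US ^ P.m) (TP P) (fun n => (sP P n) ^ P.m) (dd P)
    (fun n => P.m * dd P n) (lim_dd0 P) hδ c.lT (hpow P.m) 0 0 (fun j _ => rfl) ?_ F hF
  intro n hn f
  have hs : ∀ (k : ℕ) (z : Om P n), ((sP P n) ^ k) z = (z.1 + (k : ZMod (Nn P n)), z.2) := by
    intro k z
    induction k with
    | zero => simp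
    | succ k ih =>
      rw [pow_succ', Equiv.Perm.mul_apply, ih, sP_apply]
      refine Prod.ext ?_ rfl
      simp only
      push_cast
      ring
  funext z
  simp only [Function.comp_apply]
  rw [hs, TP_apply]
  unfold bf
  simp only [ch_zero]

end MS723
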