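import Pool.Agent.H723R2.Dig

/-! Parameters of the construction, the test functions, and the recursion of the levels. -/

set_option autoImplicit false
set_option linter.unusedVariables false

namespace MS723

/-- the data of the construction -/
structure Par where
  m : ℕ
  hm : 0 < m
  k : ℕ → ℕ
  hk : ∀ j, 0 < k j
  p : ℕ → ℕ
  hp : ∀ j, (p j).Prime
  a : ∀ j, ZMod (p j)
  ha : ∀ j, a j ^ k j = 1
  ha' : ∀ j t, 0 < t → t < k j → a j ^ t ≠ 1
  β : ℕ → ℕ → ℕ → ℕ
  fl : ℕ → Bool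

variable (P : Par)

instance instFactP (j : ℕ) : Fact (P.p j).Prime := ⟨P.hp j⟩

def KK (n : ℕ) : ℕ := ∏ j ∈ Finset.range n, P.k j
def EE (n : ℕ) : ℕ := ∏ j ∈ Finset.range n, P.p j
/-- period of the tests of step `n` -/
def Pd (n : ℕ) : ℕ := P.m * (KK P n * EE P n)

theorem KK_succ (n : ℕ) : KK P (n + 1) = KK P n * P.k n := Finset.prod_range_succ _ _

theorem KK_pos (n : ℕ) : 0 < KK P n := Finset.prod_pos fun j _ => P.hk j
theorem EE_pos (n : ℕ) : 0 < EE P n := Finset.prod_pos fun j _ => (P.hp j).pos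
theorem Pd_pos (n : ℕ) : 0 < Pd P n :=
  Nat.mul_pos P.hm (Nat.mul_pos (KK_pos P n) (EE_pos P n))

theorem KK_dvd {i n : ℕ} (h : i ≤ n) : KK P i ∣ KK P n :=
  Finset.prod_dvd_prod_of_subset _ _ _ (Finset.range_mono h)

theorem EE_cast {j n : ℕ} (h : j < n) : ((EE P n : ℕ) : ZMod (P.p j)) = 0 := by
  rw [ZMod.natCast_eq_zero_iff]
  exact Finset.dvd_prod_of_mem _ (Finset.mem_range.2 h)

/-- the equivariant test functions -/
def kap (β : ℕ → ℕ → ℕ) (c j : ℕ) : ZMod (P.p j) :=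
  P.a j ^ (c / KK P j) * ((β j (c % KK P j) : ℕ) : ZMod (P.p j))

theorem kap_add (β : ℕ → ℕ → ℕ) (c t j : ℕ) :
    kap P β (c + KK P j * t) j = P.a j ^ t * kap P β c j := by
  unfold kap
  rw [Nat.add_mul_div_left _ _ (KK_pos P j), Nat.add_mul_mod_self_left, pow_add]
  ring

theorem kap_per (β : ℕ → ℕ → ℕ) {j n : ℕ} (h : j < n) (c t : ℕ) :
    kap P β (c + KK P n * t) j = kap P β c j := by
  obtain ⟨r, hr⟩ := KK_dvd P (Nat.succ_le_of_lt h)
  rw [hr, Nat.succ_eq_add_one, KK_succ, show KK P j * P.k j * r * t = KK P j * (P.k j * (r * t)) by ring,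
    kap_add, pow_mul, P.ha, one_pow, one_mul]

theorem kap_mod (β : ℕ → ℕ → ℕ) {j n : ℕ} (h : j < n) (c s : ℕ) :
    kap P β (c % KK P n + s) j = kap P β (c + s) j := by
  have e : c + s = (c % KK P n + s) + KK P n * (c / KK P n) := by
    have := Nat.mod_add_div c (KK P n)
    omega
  rw [e, kap_per P β h]

def wt (fl : Bool) (ξ : ℕ) : ℕ := if fl then P.m else ξ + 1

theorem wt_le (fl : Bool) (ξ : ℕ) (h : ξ < P.m) : wt P fl ξ ≤ P.m := by
  unfold wt; split_ifs
  · exact le_refl _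
  · exact h

/-- differences of the tests -/
def Del (n : ℕ) (β : ℕ → ℕ → ℕ) (fl : Bool) (ξ s c j : ℕ) : ZMod (P.p j) :=
  if s % Pd P n < KK P n * EE P n * wt P fl ξ then kap P β (c + s) j else 0

theorem Del_per (n : ℕ) (β : ℕ → ℕ → ℕ) (fl : Bool) (ξ s c j : ℕ) (h : j < n) :
    Del P n β fl ξ (s + Pd P n) c j = Del P n β fl ξ s c j := by
  unfold Del
  rw [Nat.add_mod_right]
  have : c + (s + Pd P n) = c + s + KK P n * (P.m * EE P n) := by unfold Pd; ring
  rw [this, kap_per P β h]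

theorem Del_sum0 (n : ℕ) (β : ℕ → ℕ → ℕ) (fl : Bool) (ξ c j : ℕ) (h : j < n) (hξ : ξ < P.m) :
    ∑ s ∈ Finset.range (Pd P n), Del P n β fl ξ s c j = 0 := by
  have hle : KK P n * EE P n * wt P fl ξ ≤ Pd P n := by
    unfold Pd
    calc KK P n * EE P n * wt P fl ξ ≤ KK P n * EE P n * P.m :=
          Nat.mul_le_mul_left _ (wt_le P fl ξ hξ)
      _ = P.m * (KK P n * EE P n) := by ring
  obtain ⟨r, hr⟩ := Nat.exists_eq_add_of_le hle
  have h1 : ∀ s ∈ Finset.range (Pd P n), Del P n β fl ξ s c j =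
      if s < KK P n * EE P n * wt P fl ξ then kap P β (c + s) j else 0 := by
    intro s hs
    unfold Del
    rw [Nat.mod_eq_of_lt (Finset.mem_range.1 hs)]
  rw [Finset.sum_congr rfl h1, ← Finset.sum_filter]
  have h2 : (Finset.range (Pd P n)).filter (fun s => s < KK P n * EE P n * wt P fl ξ) =
      Finset.range (KK P n * (EE P n * wt P fl ξ)) := by
    ext s
    simp only [Finset.mem_filter, Finset.mem_range]
    rw [← mul_assoc]
    constructor
    · exact fun h => h.2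
    · exact fun h => ⟨lt_of_lt_of_le h hle, h⟩
  rw [h2, sum_per_mul (fun s => kap P β (c + s) j) (KK P n) (EE P n * wt P fl ξ)]
  · rw [mul_comm (EE P n), mul_smul, nsmul_eq_mul, nsmul_eq_mul, EE_cast P h]
    simp
  · intro s
    show kap P β (c + (s + KK P n)) j = kap P β (c + s) j
    have := kap_per P β h (c + s) 1
    rw [mul_one] at this
    rw [← add_assoc, this]

theorem Del_sum (n : ℕ) (β : ℕ → ℕ → ℕ) (fl : Bool) (ξ c j s₀ q : ℕ) (h : j < n) (hξ : ξ < P.m) :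
    ∑ s ∈ Finset.range (Pd P n * q), Del P n β fl ξ (s₀ + s) c j = 0 := by
  have hper : ∀ s, Del P n β fl ξ (s + Pd P n) c j = Del P n β fl ξ s c j := fun s =>
    Del_per P n β fl ξ s c j h
  rw [sum_per_mul (fun s => Del P n β fl ξ (s₀ + s) c j),
    sum_shift (fun s => Del P n β fl ξ s c j) (Pd P n) hper,
    Del_sum0 P n β fl ξ c j h hξ, smul_zero]
  intro s
  show Del P n β fl ξ (s₀ + (s + Pd P n)) c j = Del P n β fl ξ (s₀ + s) c j
  rw [← add_assoc, hper]

/-- time scales -/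
def LL (N B i : ℕ) : ℕ := N * B ^ (i + 1)

/-- the transfer function, in terms of the digits -/
def AS (n N B x ξ c j : ℕ) : ZMod (P.p j) :=
  ∑ i ∈ Finset.range B, ∑ s ∈ Finset.range (x / (P.m * LL N B i)),
    Del P n (P.β n) (P.fl n) ξ s c j

theorem AS_same (n N B x ξ c j : ℕ) (hN : 0 < N) (hB : 0 < B)
    (h : ∀ i < B, x % (P.m * LL N B i) + P.m < P.m * LL N B i) :
    AS P n N B (x + P.m) ξ c j = AS P n N B x ξ c j := by
  unfold AS
  refine Finset.sum_congr rfl fun i hi => ?_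
  have h1 := h i (Finset.mem_range.1 hi)
  have hpos : 0 < P.m * LL N B i := by omega
  have : (x + P.m) / (P.m * LL N B i) = x / (P.m * LL N B i) := by
    conv_lhs => rw [← Nat.mod_add_div x (P.m * LL N B i)]
    rw [show x % (P.m * LL N B i) + P.m * LL N B i * (x / (P.m * LL N B i)) + P.m =
      (x % (P.m * LL N B i) + P.m) + P.m * LL N B i * (x / (P.m * LL N B i)) by ring,
      Nat.add_mul_div_left _ _ hpos, Nat.div_eq_of_lt h1, zero_add]
  rw [this]

theorem AS_diff (n N B x ξ c j i : ℕ) (hN : 0 < N) (hB : 0 < B) (hPB : Pd P n ∣ B)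
    (hj : j < n) (hξ : ξ < P.m) (hi : i < B)
    (h : ∀ l < B, i < l → x % (P.m * LL N B l) + P.m * LL N B i < P.m * LL N B l) :
    AS P n N B (x + P.m * LL N B i) ξ c j - AS P n N B x ξ c j =
      Del P n (P.β n) (P.fl n) ξ (x / (P.m * LL N B i)) c j := by
  have hLpos : ∀ l, 0 < P.m * LL N B l := fun l =>
    Nat.mul_pos P.hm (Nat.mul_pos hN (Nat.pow_pos hB))
  unfold AS
  rw [← Finset.sum_sub_distrib]
  have key : ∀ l ∈ Finset.range B,
      (∑ s ∈ Finset.range ((x + P.m * LL N B i) / (P.m * LL N B l)),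
        Del P n (P.β n) (P.fl n) ξ s c j - ∑ s ∈ Finset.range (x / (P.m * LL N B l)),
        Del P n (P.β n) (P.fl n) ξ s c j) =
      if l = i then Del P n (P.β n) (P.fl n) ξ (x / (P.m * LL N B i)) c j else 0 := by
    intro l hl
    have hl' := Finset.mem_range.1 hl
    rcases lt_trichotomy l i with h1 | h1 | h1
    · rw [if_neg (by omega)]
      obtain ⟨r, hr⟩ : ∃ r, i = l + 1 + r := ⟨i - (l + 1), by omega⟩
      have e1 : P.m * LL N B i = P.m * LL N B l * (B * B ^ r) := by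
        unfold LL; rw [hr]; ring
      rw [e1, Nat.add_mul_div_left _ _ (hLpos l), Finset.sum_range_add, add_sub_cancel_left]
      obtain ⟨q, hq⟩ := hPB
      have e2 : B * B ^ r = Pd P n * (q * B ^ r) := by
        calc B * B ^ r = (Pd P n * q) * B ^ r := by rw [← hq]
          _ = Pd P n * (q * B ^ r) := by ring
      rw [e2]
      exact Del_sum P n (P.β n) (P.fl n) ξ c j _ _ hj hξ
    · subst h1
      rw [if_pos rfl, Nat.add_div_right _ (hLpos l), Finset.sum_range_succ, add_sub_cancel_left]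
    · rw [if_neg (by omega)]
      have e1 := h l hl' h1
      have : (x + P.m * LL N B i) / (P.m * LL N B l) = x / (P.m * LL N B l) := by
        conv_lhs => rw [← Nat.mod_add_div x (P.m * LL N B l)]
        rw [show x % (P.m * LL N B l) + P.m * LL N B l * (x / (P.m * LL N B l)) + P.m * LL N B i =
          (x % (P.m * LL N B l) + P.m * LL N B i) + P.m * LL N B l * (x / (P.m * LL N B l)) by ring,
          Nat.add_mul_div_left _ _ (hLpos l), Nat.div_eq_of_lt e1, zero_add]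
      rw [this, sub_self]
  rw [Finset.sum_congr rfl key, Finset.sum_ite_eq' , if_pos (Finset.mem_range.2 hi)]

theorem AS_c_lt (n N B x ξ c j i : ℕ) (hj : j < n) (hji : j < i) :
    AS P n N B x ξ ((c + KK P i) % KK P (n + 1)) j = AS P n N B x ξ c j := by
  unfold AS Del
  refine Finset.sum_congr rfl fun l _ => Finset.sum_congr rfl fun s _ => ?_
  rw [kap_mod P _ (show j < n + 1 by omega)]
  have : c + KK P i + s = (c + s) + KK P i * 1 := by ring
  rw [this, kap_per P _ hji]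

theorem AS_c_eq (n N B x ξ c i : ℕ) (hi : i < n) :
    AS P n N B x ξ ((c + KK P i) % KK P (n + 1)) i = P.a i * AS P n N B x ξ c i := by
  unfold AS Del
  rw [Finset.mul_sum]
  refine Finset.sum_congr rfl fun l _ => ?_
  rw [Finset.mul_sum]
  refine Finset.sum_congr rfl fun s _ => ?_
  rw [kap_mod P _ (show i < n + 1 by omega)]
  have : c + KK P i + s = (c + s) + KK P i * 1 := by ring
  rw [this, kap_add, pow_one, mul_ite, mul_zero]

/-- a level of the construction -/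
structure Lev (n : ℕ) where
  N : ℕ
  w : ℕ
  φ : ℕ → ∀ j, ZMod (P.p j)
  hN : 0 < N
  mw : P.m ∣ w
  mKN : P.m * KK P n ∣ N

namespace Lev

variable {P} {n : ℕ} (ℓ : Lev P n)

def B : ℕ := Pd P n * (ℓ.N * (n + 1)) ^ 12
def W : ℕ := P.m * KK P (n + 1) * ℓ.N * ℓ.B ^ (ℓ.B + 2)

theorem B_pos : 0 < ℓ.B :=
  Nat.mul_pos (Pd_pos P n) (Nat.pow_pos (Nat.mul_pos ℓ.hN (Nat.succ_pos n)))

theorem W_pos : 0 < ℓ.W :=
  Nat.mul_pos (Nat.mul_pos (Nat.mul_pos P.hm (KK_pos P _)) ℓ.hN) (Nat.pow_pos ℓ.B_pos)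

theorem mW : P.m ∣ ℓ.W := by
  unfold W
  rw [mul_assoc, mul_assoc]
  exact Dvd.intro _ rfl

def stp : Stp where
  m := P.m
  N := ℓ.N
  w := ℓ.w
  W := ℓ.W
  K := KK P n
  k := P.k n
  hm := P.hm
  hN := ℓ.hN
  hW := ℓ.W_pos
  hK := KK_pos P n
  hk := P.hk n
  mw := ℓ.mw
  mW := ℓ.mW
  mKN := ℓ.mKN

theorem stp_K' : ℓ.stp.K' = KK P (n + 1) := (KK_succ P n).symm

/-- the transfer function -/
def AA (u j : ℕ) : ZMod (P.p j) :=
  if j < n then AS P n ℓ.N ℓ.B (ℓ.stp.x0 u) ((ℓ.stp.x0 u + ℓ.stp.da u) % P.m) (ℓ.stp.dc u) j else 0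

def next : Lev P (n + 1) where
  N := ℓ.stp.M
  w := ℓ.W
  φ := fun u j => ℓ.φ (ℓ.stp.pr u) j + (ℓ.AA (u + P.m) j - ℓ.AA u j)
  hN := ℓ.stp.M_pos
  mw := ℓ.mW
  mKN := by
    have h1 : P.m ∣ ℓ.stp.low := ℓ.stp.m_dvd_low
    have h2 : KK P (n + 1) ∣ ℓ.stp.Q := by
      rw [← ℓ.stp_K']
      exact Dvd.intro_left _ rfl
    exact mul_dvd_mul h1 h2

end Lev

def lev0 : Lev P 0 where
  N := 2 * P.m
  w := P.m
  φ := fun _ _ => 0
  hN := Nat.mul_pos two_pos P.hm
  mw := dvd_refl _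
  mKN := by
    have : KK P 0 = 1 := rfl
    rw [this, mul_one]
    exact Dvd.intro_left _ rfl

/-- the levels -/
def lev : ∀ n, Lev P n
  | 0 => lev0 P
  | (n + 1) => (lev n).next

abbrev Nn (n : ℕ) : ℕ := (lev P n).N
abbrev Bn (n : ℕ) : ℕ := (lev P n).B
abbrev St (n : ℕ) : Stp := (lev P n).stp
/-- the cocycle of level `n` -/
abbrev ph (n : ℕ) : ℕ → ∀ j, ZMod (P.p j) := (lev P n).φ

theorem Nn_pos (n : ℕ) : 0 < Nn P n := (lev P n).hN
theorem Bn_pos (n : ℕ) : 0 < Bn P n := (lev P n).B_pos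
theorem Nn_succ (n : ℕ) : Nn P (n + 1) = (St P n).M := rfl
theorem St_w (n : ℕ) : (St P (n + 1)).w = (St P n).W := rfl
theorem ph_succ (n u j : ℕ) : ph P (n + 1) u j =
    ph P n ((St P n).pr u) j + ((lev P n).AA (u + P.m) j - (lev P n).AA u j) := rfl
theorem ph_zero (u j : ℕ) : ph P 0 u j = 0 := rfl

instance instNeNn (n : ℕ) : NeZero (Nn P n) := ⟨(Nn_pos P n).ne'⟩

theorem Pd_dvd_B (n : ℕ) : Pd P n ∣ Bn P n := Dvd.intro _ rfl

theorem m_dvd_Nn (n : ℕ) : P.m ∣ Nn P n := (Dvd.intro _ rfl).trans (lev P n).mKN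

theorem ph_ge {n j : ℕ} (h : n ≤ j) (u : ℕ) : ph P n u j = 0 := by
  induction n generalizing u with
  | zero => rfl
  | succ n ih =>
    rw [ph_succ, ih (by omega)]
    unfold Lev.AA
    rw [if_neg (by omega), if_neg (by omega)]
    simp

theorem AA_per {n : ℕ} (ℓ : Lev P n) (u j : ℕ) : ℓ.AA (u + ℓ.stp.M) j = ℓ.AA u j := by
  unfold Lev.AA
  rw [ℓ.stp.per_x0, ℓ.stp.per_da, ℓ.stp.per_dc]

theorem ph_per (n u j : ℕ) : ph P n (u + Nn P n) j = ph P n u j := by
  induction n generalizing u with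
  | zero => rfl
  | succ n ih =>
    rw [ph_succ, ph_succ, Nn_succ, Stp.per_pr, add_right_comm, AA_per, AA_per]

theorem ph_congr {n u v : ℕ} (h : u ≡ v [MOD Nn P n]) (j : ℕ) : ph P n u j = ph P n v j := by
  have h1 := per_mod (fun u => ph P n u j) (Nn P n) (fun s => ph_per P n s j) u
  have h2 := per_mod (fun u => ph P n u j) (Nn P n) (fun s => ph_per P n s j) v
  rw [← h1, ← h2, h]

end MS723
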