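import Pool.Agent.H723R2.Avg

/-! Inequivalent characters are separated by the means of test functions. -/

set_option autoImplicit false
set_option linter.unusedVariables false

noncomputable section

namespace MS723

variable {P : Par}

/-- `eta` does not depend on the level -/
theorem eta_const (r n : ℕ) (hrn : r ≤ n) (β : ℕ → ℕ → ℕ) (d : Dd P) (hd : supp r d) :
    eta n β d = eta r β d := by
  have hch : ∀ s, ch n d (fun j => kap P β s j) = ch r d (fun j => kap P β s j) := by
    intro s
    induction n, hrn using Nat.le_induction with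
    | base => rfl
    | succ n hn ih =>
      rw [ch_succ n d (hd n hn)]
      exact ih
  obtain ⟨q, hq⟩ := KK_dvd P hrn
  have hq0 : 0 < q := by
    have := KK_pos P n
    rw [hq] at this
    exact Nat.pos_of_mul_pos_left this |> fun _ => by
      rcases Nat.eq_zero_or_pos q with h | h
      · rw [h, mul_zero] at this; exact absurd this (lt_irrefl _)
      · exact h
  have h1 := ch_kap_sum r β d 0 q
  unfold eta at h1 ⊢
  simp only [Nat.zero_add] at h1
  rw [hq]
  rw [Finset.sum_congr rfl fun s _ => hch s, h1]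
  have hK : (KK P r : ℂ) ≠ 0 := by exact_mod_cast (KK_pos P r).ne'
  have hqC : (q : ℂ) ≠ 0 := by exact_mod_cast hq0.ne'
  push_cast
  field_simp

/-- only finitely many values of the code matter -/
theorem eta_congr (r : ℕ) (β β' : ℕ → ℕ → ℕ) (d : Dd P)
    (h : ∀ j < r, ∀ c < KK P j, β j c = β' j c) : eta r β d = eta r β' d := by
  unfold eta
  congr 1
  refine Finset.sum_congr rfl fun s _ => ?_
  congr 1
  funext j
  unfold kap
  rw [h j j.2 _ (Nat.mod_lt _ (KK_pos P j))]

theorem eta_zero (r : ℕ) (β : ℕ → ℕ → ℕ) : eta r β (0 : Dd P) = 1 := by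
  unfold eta
  have hK : (KK P r : ℂ) ≠ 0 := by exact_mod_cast (KK_pos P r).ne'
  simp only [ch_zero, Finset.sum_const, Finset.card_range, nsmul_eq_mul, mul_one]
  field_simp

/-! ### orthogonality on the group of tests -/

abbrev GG (P : Par) (r : ℕ) : Type := ∀ j : Fin r, Fin (KK P j) → ZMod (P.p j)

/-- the code of an element of the finite group of tests -/
def code (r : ℕ) (γ : GG P r) : ℕ → ℕ → ℕ := fun j c =>
  if h : j < r then (if h' : c < KK P j then (γ ⟨j, h⟩ ⟨c, h'⟩).val else 0) else 0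

/-- coefficients -/
def co (s : ℕ) (d : Dd P) (j c : ℕ) : ZMod (P.p j) :=
  if c = s % KK P j then P.a j ^ (s / KK P j) * d j else 0

/-- characters of the group of tests -/
def psi (r : ℕ) (e : ∀ j, ℕ → ZMod (P.p j)) (γ : GG P r) : ℂ :=
  ∏ j : Fin r, ∏ c : Fin (KK P j), (ZMod.stdAddChar (e j c * γ j c) : ℂ)

theorem kap_code (r : ℕ) (γ : GG P r) (s : ℕ) (j : Fin r) :
    kap P (code r γ) s j = P.a j ^ (s / KK P j) *
      γ j ⟨s % KK P j, Nat.mod_lt _ (KK_pos P j)⟩ := by
  unfold kap code
  rw [dif_pos j.2, dif_pos (Nat.mod_lt _ (KK_pos P j)), ZMod.natCast_zmod_val]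

theorem ch_psi (r : ℕ) (γ : GG P r) (s : ℕ) (d : Dd P) :
    ch r d (fun j => kap P (code r γ) s j) = psi r (co s d) γ := by
  unfold ch psi
  refine Finset.prod_congr rfl fun j _ => ?_
  dsimp only
  rw [kap_code]
  rw [Finset.prod_eq_single (⟨s % KK P j, Nat.mod_lt _ (KK_pos P j)⟩ : Fin (KK P j))]
  · unfold co
    rw [if_pos rfl]
    congr 1
    ring
  · intro c _ hc
    unfold co
    rw [if_neg, zero_mul, AddChar.map_zero_eq_one]
    intro h
    exact hc (Fin.ext h)
  · intro h
    exact absurd (Finset.mem_univ _) h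

theorem psi_orth (r : ℕ) (e e' : ∀ j, ℕ → ZMod (P.p j)) :
    ∑ γ : GG P r, (starRingEnd ℂ) (psi r e γ) * psi r e' γ =
      ∏ j : Fin r, ∏ c : Fin (KK P j), (if e' j c - e j c = 0 then (P.p j : ℂ) else 0) := by
  have h1 : ∀ γ : GG P r, (starRingEnd ℂ) (psi r e γ) * psi r e' γ =
      ∏ j : Fin r, ∏ c : Fin (KK P j), (ZMod.stdAddChar ((e' j c - e j c) * γ j c) : ℂ) := by
    intro γ
    unfold psi
    rw [map_prod, ← Finset.prod_mul_distrib]
    refine Finset.prod_congr rfl fun j _ => ?_
    rw [map_prod, ← Finset.prod_mul_distrib]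
    refine Finset.prod_congr rfl fun c _ => ?_
    rw [star_char, ← AddChar.map_add_eq_mul]
    congr 1
    ring
  simp only [h1]
  have h2 : ∑ γ : GG P r, ∏ j : Fin r, ∏ c : Fin (KK P j),
      (ZMod.stdAddChar ((e' j c - e j c) * γ j c) : ℂ) =
      ∏ j : Fin r, ∑ g : Fin (KK P j) → ZMod (P.p j), ∏ c : Fin (KK P j),
        (ZMod.stdAddChar ((e' j c - e j c) * g c) : ℂ) := by
    rw [Finset.prod_univ_sum]
    simp
  rw [h2]
  refine Finset.prod_congr rfl fun j _ => ?_
  have h3 : ∑ g : Fin (KK P j) → ZMod (P.p j), ∏ c : Fin (KK P j),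
        (ZMod.stdAddChar ((e' j c - e j c) * g c) : ℂ) =
      ∏ c : Fin (KK P j), ∑ x : ZMod (P.p j), (ZMod.stdAddChar ((e' j c - e j c) * x) : ℂ) := by
    rw [Finset.prod_univ_sum]
    simp
  rw [h3]
  refine Finset.prod_congr rfl fun c _ => ?_
  rw [sum_char]

/-- if the means agree on all tests then a shifted character coincides -/
theorem exists_shift (r : ℕ) (d d' : Dd P) (h : ∀ β, eta r β d = eta r β d') :
    ∃ s, ∀ (j : Fin r) (c : Fin (KK P j)), co s d' j c = co 0 d j c := by
  by_contra hcon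
  push Not at hcon
  have hK : (KK P r : ℂ) ≠ 0 := by exact_mod_cast (KK_pos P r).ne'
  have h0 : ∀ γ : GG P r, ∑ s ∈ Finset.range (KK P r), psi r (co s d) γ =
      ∑ s ∈ Finset.range (KK P r), psi r (co s d') γ := by
    intro γ
    have h1 := h (code r γ)
    unfold eta at h1
    have h2 := mul_left_cancel₀ (one_div_ne_zero hK) h1
    simp only [ch_psi] at h2
    exact h2
  have h1 : ∑ γ : GG P r, (starRingEnd ℂ) (psi r (co 0 d) γ) *
      ∑ s ∈ Finset.range (KK P r), psi r (co s d) γ =
      ∑ s ∈ Finset.range (KK P r), ∑ γ : GG P r,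
        (starRingEnd ℂ) (psi r (co 0 d) γ) * psi r (co s d) γ := by
    rw [Finset.sum_comm]
    exact Finset.sum_congr rfl fun γ _ => Finset.mul_sum _ _ _
  have h2 : ∑ γ : GG P r, (starRingEnd ℂ) (psi r (co 0 d) γ) *
      ∑ s ∈ Finset.range (KK P r), psi r (co s d') γ =
      ∑ s ∈ Finset.range (KK P r), ∑ γ : GG P r,
        (starRingEnd ℂ) (psi r (co 0 d) γ) * psi r (co s d') γ := by
    rw [Finset.sum_comm]
    exact Finset.sum_congr rfl fun γ _ => Finset.mul_sum _ _ _
  simp only [h0] at h1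
  rw [h1] at h2
  simp only [psi_orth] at h2
  -- the right side vanishes
  have h3 : ∑ s ∈ Finset.range (KK P r), ∏ j : Fin r, ∏ c : Fin (KK P j),
      (if co s d' j c - co 0 d j c = 0 then (P.p j : ℂ) else 0) = 0 := by
    refine Finset.sum_eq_zero fun s _ => ?_
    obtain ⟨j, c, hjc⟩ := hcon s
    refine Finset.prod_eq_zero (Finset.mem_univ j) (Finset.prod_eq_zero (Finset.mem_univ c) ?_)
    rw [if_neg (sub_ne_zero.2 hjc)]
  rw [h3] at h2
  -- the left side is positive
  have h4 : (((∑ s ∈ Finset.range (KK P r), ∏ j : Fin r, ∏ c : Fin (KK P j),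
      (if co s d j c - co 0 d j c = 0 then (P.p j : ℕ) else 0) : ℕ)) : ℂ) = 0 := by
    rw [← h2]
    push_cast
    rfl
  have h5 : (∑ s ∈ Finset.range (KK P r), ∏ j : Fin r, ∏ c : Fin (KK P j),
      (if co s d j c - co 0 d j c = 0 then (P.p j : ℕ) else 0) : ℕ) = 0 := by exact_mod_cast h4
  have h6 := (Finset.sum_eq_zero_iff.1 h5) 0 (Finset.mem_range.2 (KK_pos P r))
  have h7 : (∏ j : Fin r, ∏ c : Fin (KK P j),
      (if co 0 d j c - co 0 d j c = 0 then (P.p j : ℕ) else 0)) ≠ 0 := by
    refine Finset.prod_ne_zero_iff.2 fun j _ => Finset.prod_ne_zero_iff.2 fun c _ => ?_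
    rw [sub_self, if_pos rfl]
    exact (P.hp j).ne_zero
  exact h7 h6

theorem a_ne_zero (j : ℕ) : P.a j ≠ 0 := by
  intro h
  have h1 := P.ha j
  rw [h, zero_pow (P.hk j).ne'] at h1
  exact zero_ne_one h1

/-- characters with the same means on all tests are equal up to a power of the top coordinate -/
theorem sep (r : ℕ) (d d' : Dd P) (hd : supp r d) (hd' : supp r d')
    (h : ∀ β, eta r β d = eta r β d') :
    d = d' ∨ ∃ i t, i < r ∧ d i ≠ 0 ∧ supp (i + 1) d ∧ d = Function.update d' i (P.a i ^ t * d' i) := by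
  classical
  obtain ⟨s, hs⟩ := exists_shift r d d' h
  have hA : ∀ j, j < r → d j = 0 → d' j = 0 := by
    intro j hj hdj
    have h1 := hs ⟨j, hj⟩ ⟨s % KK P j, Nat.mod_lt _ (KK_pos P j)⟩
    unfold co at h1
    simp only [if_true, Nat.zero_mod, Nat.zero_div, pow_zero, one_mul] at h1
    rw [hdj] at h1
    have h2 : P.a j ^ (s / KK P j) * d' j = 0 := by
      rw [h1]
      split_ifs <;> rfl
    exact (mul_eq_zero.1 h2).resolve_left (pow_ne_zero _ (a_ne_zero j))
  have hB : ∀ j, j < r → d j ≠ 0 → s % KK P j = 0 ∧ d j = P.a j ^ (s / KK P j) * d' j := by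
    intro j hj hdj
    have h1 := hs ⟨j, hj⟩ ⟨0, KK_pos P j⟩
    unfold co at h1
    simp only [Nat.zero_mod, if_true, Nat.zero_div, pow_zero, one_mul] at h1
    by_cases h2 : 0 = s % KK P j
    · rw [if_pos h2] at h1
      exact ⟨h2.symm, h1.symm⟩
    · rw [if_neg h2] at h1
      exact absurd h1.symm hdj
  by_cases hz : ∀ j, d j = 0
  · left
    funext j
    by_cases hj : j < r
    · rw [hz j, hA j hj (hz j)]
    · rw [hz j, hd' j (not_lt.1 hj)]
  · right
    push Not at hz
    obtain ⟨j₀, hj₀⟩ := hz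
    have hj₀r : j₀ < r := by
      by_contra hcon
      exact hj₀ (hd j₀ (not_lt.1 hcon))
    have hne : ((Finset.range r).filter (fun j => d j ≠ 0)).Nonempty :=
      ⟨j₀, Finset.mem_filter.2 ⟨Finset.mem_range.2 hj₀r, hj₀⟩⟩
    set i := ((Finset.range r).filter (fun j => d j ≠ 0)).max' hne with hi
    have him := Finset.max'_mem _ hne
    rw [← hi, Finset.mem_filter, Finset.mem_range] at him
    have htop : ∀ j, i < j → d j = 0 := by
      intro j hj
      by_contra hcon
      have hjr : j < r := by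
        by_contra h'
        exact hcon (hd j (not_lt.1 h'))
      have hjm : j ∈ (Finset.range r).filter (fun j => d j ≠ 0) :=
        Finset.mem_filter.2 ⟨Finset.mem_range.2 hjr, hcon⟩
      have := Finset.le_max' _ j hjm
      rw [← hi] at this
      omega
    obtain ⟨hB1, hB2⟩ := hB i him.1 him.2
    refine ⟨i, s / KK P i, him.1, him.2, fun j hj => htop j (by omega), ?_⟩
    funext j
    by_cases hji : j = i
    · subst hji
      rw [Function.update_self]
      exact hB2
    · rw [Function.update_of_ne hji]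
      rcases lt_or_gt_of_ne hji with hlt | hgt
      · have hjr : j < r := hlt.trans him.1
        by_cases hdj : d j = 0
        · rw [hdj, hA j hjr hdj]
        · obtain ⟨h1, h2⟩ := hB j hjr hdj
          obtain ⟨q, hq⟩ := KK_dvd P (Nat.succ_le_of_lt hlt)
          rw [Nat.succ_eq_add_one, KK_succ] at hq
          obtain ⟨q', hq'⟩ := Nat.dvd_of_mod_eq_zero hB1
          have e : s / KK P j = P.k j * (q * q') := by
            rw [hq', hq]
            rw [show KK P j * P.k j * q * q' = KK P j * (P.k j * (q * q')) by ring]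
            exact Nat.mul_div_cancel_left _ (KK_pos P j)
          rw [e, pow_mul, P.ha, one_pow, one_mul] at h2
          exact h2
      · rw [htop j hgt]
        by_cases hjr : j < r
        · exact (hA j hjr (htop j hgt)).symm
        · exact (hd' j (not_lt.1 hjr)).symm

end MS723
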