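import Pool.Agent.H723R2.Cyc
import Pool.Agent.H723R2.Sep
import Pool.Agent.H723R2.Piece

/-! Rich parameters, spectral pieces on `Kd`, mutual singularity. -/

set_option autoImplicit false
set_option linter.unusedVariables false

open MeasureTheory Filter Topology
open scoped ENNReal NNReal

noncomputable section

namespace MS723

open SM345 (XX UnifMeas errs J IsLim Koop opP cyc)

/-- every test occurs infinitely often -/
def Rich (P : Par) : Prop := ∀ (r : ℕ) (β : ℕ → ℕ → ℕ) (b : Bool),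
  ∃ᶠ n in atTop, (∀ j < r, ∀ t < KK P j, P.β n j t = β j t) ∧ P.fl n = b

variable {P : Par}

theorem rich_eta (hR : Rich P) (r : ℕ) (β : ℕ → ℕ → ℕ) (b : Bool) :
    ∃ᶠ n in atTop, P.fl n = b ∧ ∀ d : Dd P, supp r d → eta n (P.β n) d = eta r β d := by
  refine ((hR r β b).and_eventually (eventually_ge_atTop r)).mono ?_
  rintro n ⟨⟨h1, h2⟩, h3⟩
  refine ⟨h2, fun d hd => ?_⟩
  rw [eta_const r n h3 _ d hd, eta_congr r _ β d h1]

theorem exists_ne_one (r : ℕ) (d : Dd P) (hd : supp r d) (hne : d ≠ 0) : ∃ β, eta r β d ≠ 1 := by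
  by_contra hcon
  push Not at hcon
  rcases sep r d 0 hd (fun _ _ => rfl) (fun β => by rw [hcon β, eta_zero]) with h | ⟨i, t, h1, h2, h3, h4⟩
  · exact hne h
  · apply h2
    rw [h4, Function.update_self]
    simp

variable (c : Ctx P)

theorem lim_QQ (d : Dd P) (r : ℕ) (hd : supp r d) (F : Lp ℂ 2 c.μ) (hF : F ∈ Kd c d) (ε : ℝ)
    (hε : 0 < ε) : ∀ᶠ n in atTop, P.fl n = true →
      ‖opP c.UT (QQ P n) F - eta n (P.β n) d • F‖ < ε := by
  obtain ⟨m, hm, f, hf⟩ := Kd_approx c d r hd F hF (ε / 4) (by linarith)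
  obtain ⟨C, hC0, hC⟩ := exists_bound f
  have hlim : Tendsto (fun n => C * th P n) atTop (𝓝 0) := by
    have := (lim_th P).const_mul C
    rwa [mul_zero] at this
  filter_upwards [hlim.eventually (gt_mem_nhds (show (0:ℝ) < ε / 4 by linarith)),
    eventually_ge_atTop m] with n hn hmn hfl
  obtain ⟨g, hg1, -, hg2⟩ := Jd_lift' c d m n hmn (supp_mono hm hd) f C hC
  have h1 := avg c n d (supp_mono (hm.trans hmn) hd) g C hg1
  have hm0 : (P.m : ℂ) ≠ 0 := by exact_mod_cast P.hm.ne'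
  have h2 : (fun u : ZMod (Nn P n) => ccv n d (u.val % P.m) * g u) =
      fun u => eta n (P.β n) d * g u := by
    funext u
    congr 1
    unfold ccv wt
    rw [hfl]
    simp only [if_true]
    field_simp
    ring
  rw [h2, Jd_smul, hg2] at h1
  set G := Jd c d m f with hG
  set η := eta n (P.β n) d with hη
  have hη1 : ‖η‖ ≤ 1 := eta_norm n (P.β n) d
  have hsub : opP c.UT (QQ P n) F = opP c.UT (QQ P n) (F - G) + opP c.UT (QQ P n) G := by
    rw [← (SM345.opP_basic c.UT).2.2.2.2.1, sub_add_cancel]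
  have e : opP c.UT (QQ P n) F - η • F = opP c.UT (QQ P n) (F - G) +
      (opP c.UT (QQ P n) G - η • G) - η • (F - G) := by
    rw [hsub, smul_sub]
    abel
  rw [e]
  have k1 := QQ_contr c n (F - G)
  have k2 : ‖η • (F - G)‖ ≤ ‖F - G‖ := by
    rw [norm_smul]
    exact mul_le_of_le_one_left (norm_nonneg _) hη1
  calc _ ≤ ‖opP c.UT (QQ P n) (F - G) + (opP c.UT (QQ P n) G - η • G)‖ + ‖η • (F - G)‖ :=
        norm_sub_le _ _
    _ ≤ (‖opP c.UT (QQ P n) (F - G)‖ + ‖opP c.UT (QQ P n) G - η • G‖) + ‖η • (F - G)‖ :=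
        add_le_add_left (norm_add_le _ _) _
    _ < ε := by linarith

theorem Kd_ne (d : Dd P) (r : ℕ) (hd : supp r d) : ∃ F ∈ Kd c d, F ≠ 0 := by
  refine ⟨Jd c d r (fun _ => 1), Jd_mem c d r hd _, ?_⟩
  intro h
  have h1 := Jd_norm c d r (fun _ => 1)
  rw [h, norm_zero] at h1
  simp only [norm_one, one_pow, Finset.sum_const, Finset.card_univ, ZMod.card, nsmul_eq_mul,
    mul_one] at h1
  have hN : (Nn P r : ℝ) ≠ 0 := by exact_mod_cast (Nn_pos P r).ne'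
  rw [div_self hN] at h1
  norm_num at h1

/-- the spectral piece of `Kd` -/
theorem Kd_spec (hR : Rich P) (d : Dd P) (r : ℕ) (hd : supp r d) (hne : d ≠ 0) :
    ∃ σ : Measure Circle, IsFiniteMeasure σ ∧ σ ≠ 0 ∧ ∃ V : Lp ℂ 2 σ →ₗᵢ[ℂ] Lp ℂ 2 c.μ,
      Intw c.UT σ V ∧ (∀ h, V h ∈ Kd c d) ∧ (∀ F ∈ Kd c d, ∃ h, V h = F) := by
  obtain ⟨β, hβ⟩ := exists_ne_one r d hd hne
  obtain ⟨g, hg, hgc⟩ := Kd_cyc c d r hd (eta r β d) hβ
    ((rich_eta hR r β false).mono fun n hn => ⟨hn.1, hn.2 d hd⟩)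
  obtain ⟨σ, hσ, W, hWg, hW⟩ := SM345.spec c.UT (Kd c d) g hg hgc
  refine ⟨σ, hσ, ?_, (Kd c d).subtypeₗᵢ.comp W.symm.toLinearIsometry, ?_, ?_, ?_⟩
  · rintro rfl
    obtain ⟨F, hF, hF0⟩ := Kd_ne c d r hd
    apply hF0
    have h1 : W ⟨F, hF⟩ = 0 := by
      apply Lp.ext
      simp only [ae_zero]
      exact Filter.eventually_bot
    have h2 : (⟨F, hF⟩ : Kd c d) = 0 := (W.map_eq_zero_iff).1 h1
    exact congrArg Subtype.val h2
  · intro h k hk
    set F : Kd c d := W.symm h with hF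
    have h1 := hW F ⟨c.UT F, UT_Kd c d r hd F F.2⟩ rfl
    have h2 : W ⟨c.UT F, UT_Kd c d r hd F F.2⟩ = k := by
      apply Lp.ext
      refine h1.trans ?_
      rw [hF, W.apply_symm_apply]
      exact hk.symm
    show ((W.symm k : Kd c d) : Lp ℂ 2 c.μ) = c.UT (F : Lp ℂ 2 c.μ)
    rw [← h2, W.symm_apply_apply]
  · intro h
    exact (W.symm h).2
  · intro F hF
    refine ⟨W ⟨F, hF⟩, ?_⟩
    show ((W.symm (W ⟨F, hF⟩) : Kd c d) : Lp ℂ 2 c.μ) = F
    rw [W.symm_apply_apply]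

/-- mutual singularity of pieces in `Kd` and `Kd'` for separated characters -/
theorem sing_dd (hR : Rich P) (d d' : Dd P) (r : ℕ) (hd : supp r d) (hd' : supp r d')
    (β : ℕ → ℕ → ℕ) (hne : eta r β d ≠ eta r β d') (σ σ' : Measure Circle) [IsFiniteMeasure σ]
    [IsFiniteMeasure σ'] (V : Lp ℂ 2 σ →ₗᵢ[ℂ] Lp ℂ 2 c.μ) (hV : Intw c.UT σ V)
    (V' : Lp ℂ 2 σ' →ₗᵢ[ℂ] Lp ℂ 2 c.μ) (hV' : Intw c.UT σ' V') (hVK : ∀ h, V h ∈ Kd c d)
    (hVK' : ∀ h, V' h ∈ Kd c d') : σ ⟂ₘ σ' := by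
  obtain ⟨ns, hns, hp⟩ := Filter.extraction_of_frequently_atTop (rich_eta hR r β true)
  have key : ∀ (e : Dd P) (he : supp r e) (F : Lp ℂ 2 c.μ) (hF : F ∈ Kd c e),
      Tendsto (fun k => ‖opP c.UT (QQ P (ns k)) F - eta r β e • F‖) atTop (𝓝 0) := by
    intro e he F hF
    rw [Metric.tendsto_atTop]
    intro ε hε
    have h1 := hns.tendsto_atTop.eventually (lim_QQ c e r he F hF ε hε)
    obtain ⟨K, hK⟩ := eventually_atTop.1 h1
    refine ⟨K, fun k hk => ?_⟩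
    have h2 := hK k hk (hp k).1
    rw [(hp k).2 e he] at h2
    rw [dist_zero_right, norm_norm]
    exact h2
  exact sing c.UT σ σ' V hV V' hV' (fun k => QQ P (ns k)) _ _ hne (key d hd _ (hVK _))
    (key d' hd' _ (hVK' _))

end MS723
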