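import Pool.Agent.Helper345.SM.Stmt

/-! The definitions used in the statement: the maximal spectral type and the multiplicity function
of the Koopman operator of an automorphism of a probability space.  (The imported file is used only
for the Borel sigma-algebra on the circle.) -/

set_option autoImplicit false

open MeasureTheory

noncomputable section

namespace MS723

/-- The product of `σ` and the counting measure on `ℕ`, restricted to
`{(z, j) : j < m z}`.  The space `L²(fibred σ m)` is the direct integral over `σ` of Hilbert spaces
of dimension `m z` (with `m z = ⊤` meaning countably infinite dimension). -/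
def fibred (σ : Measure Circle) (m : Circle → ℕ∞) : Measure (Circle × ℕ) :=
  (σ.prod Measure.count).restrict {p | (p.2 : ℕ∞) < m p.1}

/-- `V` induces a unitary map of `L²(ν)` onto `L²₀(μ)`, the space of the functions in `L²(μ)` with
integral zero: `V` sends square integrable functions to square integrable functions with integral
zero, preserves inner products, and every element of `L²₀(μ)` is in its range. -/
def IsUnitary0 {X Y : Type} [MeasurableSpace X] [MeasurableSpace Y] (ν : Measure Y) (μ : Measure X)
    (V : (Y → ℂ) → X → ℂ) : Prop :=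
  (∀ h, MemLp h 2 ν → MemLp (V h) 2 μ ∧ ∫ x, V h x ∂μ = 0) ∧
  (∀ h k, MemLp h 2 ν → MemLp k 2 ν →
    ∫ x, (starRingEnd ℂ) (V h x) * V k x ∂μ = ∫ y, (starRingEnd ℂ) (h y) * k y ∂ν) ∧
  (∀ f, MemLp f 2 μ → ∫ x, f x ∂μ = 0 → ∃ h, MemLp h 2 ν ∧ V h =ᵐ[μ] f)

/-- `σ` (a finite Borel measure on the circle) is the maximal spectral type, and `m`
(a measurable function with `1 ≤ m`) is the multiplicity function, of the Koopman operator
`f ↦ f ∘ T` on `L²₀(μ)`: this operator is unitarily equivalent, through some `V`, to
multiplication by `z` on the direct integral over `σ` of Hilbert spaces of dimension `m z`. -/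
def IsSpectralData {X : Type} [MeasurableSpace X] (μ : Measure X) (T : X → X)
    (σ : Measure Circle) (m : Circle → ℕ∞) : Prop :=
  IsFiniteMeasure σ ∧ (∀ k, MeasurableSet (m ⁻¹' {k})) ∧ (∀ z, 1 ≤ m z) ∧
  ∃ V : (Circle × ℕ → ℂ) → X → ℂ, IsUnitary0 (fibred σ m) μ V ∧
    ∀ h, MemLp h 2 (fibred σ m) → (fun x => V h (T x)) =ᵐ[μ] V (fun p => (p.1 : ℂ) * h p)

/-- `M` is the set of spectral multiplicities of `T`: the set of essential values of the
multiplicity function with respect to the maximal spectral type. -/
def HasMultiplicitySet {X : Type} [MeasurableSpace X] (μ : Measure X) (T : X → X)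
    (M : Set ℕ∞) : Prop :=
  ∃ (σ : Measure Circle) (m : Circle → ℕ∞), IsSpectralData μ T σ m ∧
    M = {k | σ (m ⁻¹' {k}) ≠ 0}

end MS723
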