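import Pool.Agent.H723R2.Stmt

/-! From a linear isometry of `Lp` spaces to a map of functions. -/

set_option autoImplicit false

open MeasureTheory Filter Topology
open scoped ENNReal NNReal

noncomputable section

namespace MS723

/-- `L²₀(μ)`: the closed subspace of the functions in `L²(μ)` with integral zero -/
def L20 {X : Type} [MeasurableSpace X] (μ : Measure X) [IsFiniteMeasure μ] :
    Submodule ℂ (Lp ℂ 2 μ) :=
  (Submodule.span ℂ {Lp.const 2 μ (1 : ℂ)})ᗮ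

theorem mem_L20 {X : Type} [MeasurableSpace X] (μ : Measure X) [IsFiniteMeasure μ]
    (F : Lp ℂ 2 μ) : F ∈ L20 μ ↔ ∫ x, (F : X → ℂ) x ∂μ = 0 := by
  unfold L20
  rw [Submodule.mem_orthogonal_singleton_iff_inner_right, L2.inner_def]
  have e : (fun x => inner ℂ ((Lp.const 2 μ (1 : ℂ) : Lp ℂ 2 μ) x) (F x)) =ᵐ[μ]
      fun x => (F : X → ℂ) x := by
    filter_upwards [Lp.coeFn_const 2 μ (1 : ℂ)] with x x1
    rw [x1]
    simp
  rw [integral_congr_ae e]

theorem inner_conj {X : Type} [MeasurableSpace X] (μ : Measure X) (F G : Lp ℂ 2 μ) :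
    inner ℂ F G = ∫ x, (starRingEnd ℂ) ((F : X → ℂ) x) * (G : X → ℂ) x ∂μ := by
  rw [L2.inner_def]
  refine integral_congr_ae (Eventually.of_forall fun x => ?_)
  show inner ℂ ((F : X → ℂ) x) ((G : X → ℂ) x) = _
  rw [RCLike.inner_apply]
  ring

theorem spectral_of_lp {X : Type} [MeasurableSpace X] (μ : Measure X) [IsFiniteMeasure μ]
    (T : X → X) (hT : MeasurePreserving T μ μ) (σ : Measure Circle) (m : Circle → ℕ∞)
    (hfin : IsFiniteMeasure σ) (hmm : ∀ k, MeasurableSet (m ⁻¹' {k})) (h1 : ∀ z, 1 ≤ m z)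
    (W : L20 μ ≃ₗᵢ[ℂ] Lp ℂ 2 (fibred σ m))
    (hW : ∀ f f' : L20 μ, (f' : X → ℂ) =ᵐ[μ] (fun x => (f : X → ℂ) (T x)) →
      (W f' : Circle × ℕ → ℂ) =ᵐ[fibred σ m] fun p => (p.1 : ℂ) * (W f : Circle × ℕ → ℂ) p) :
    IsSpectralData μ T σ m := by
  classical
  refine ⟨hfin, hmm, h1, ?_⟩
  let V : (Circle × ℕ → ℂ) → X → ℂ := fun h =>
    if hh : MemLp h 2 (fibred σ m) then ((W.symm (hh.toLp h) : L20 μ) : Lp ℂ 2 μ) else 0
  have hV : ∀ h (hh : MemLp h 2 (fibred σ m)),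
      V h = ((W.symm (hh.toLp h) : L20 μ) : Lp ℂ 2 μ) := by
    intro h hh
    show (if hh : MemLp h 2 (fibred σ m) then
      (((W.symm (hh.toLp h) : L20 μ) : Lp ℂ 2 μ) : X → ℂ) else 0) = _
    rw [dif_pos hh]
  refine ⟨V, ⟨?_, ?_, ?_⟩, ?_⟩
  · intro h hh
    rw [hV h hh]
    exact ⟨Lp.memLp _, (mem_L20 μ _).1 (W.symm (hh.toLp h)).2⟩
  · intro h k hh hk
    rw [hV h hh, hV k hk]
    rw [← inner_conj μ]
    have e1 : inner ℂ ((W.symm (hh.toLp h) : L20 μ) : Lp ℂ 2 μ)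
        ((W.symm (hk.toLp k) : L20 μ) : Lp ℂ 2 μ) = inner ℂ (hh.toLp h) (hk.toLp k) := by
      rw [← Submodule.coe_inner]
      exact W.symm.inner_map_map _ _
    rw [e1, inner_conj]
    refine integral_congr_ae ?_
    filter_upwards [hh.coeFn_toLp, hk.coeFn_toLp] with p p1 p2
    rw [p1, p2]
  · intro f hf hf0
    have hF : hf.toLp f ∈ L20 μ := by
      rw [mem_L20, integral_congr_ae hf.coeFn_toLp]
      exact hf0
    refine ⟨(W ⟨hf.toLp f, hF⟩ : Circle × ℕ → ℂ), Lp.memLp _, ?_⟩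
    rw [hV _ (Lp.memLp _)]
    have e : (Lp.memLp (W ⟨hf.toLp f, hF⟩)).toLp (W ⟨hf.toLp f, hF⟩ : Circle × ℕ → ℂ) =
        W ⟨hf.toLp f, hF⟩ := Lp.toLp_coeFn _ _
    rw [e, LinearIsometryEquiv.symm_apply_apply]
    exact hf.coeFn_toLp
  · intro h hh
    have hzm : AEStronglyMeasurable (fun p : Circle × ℕ => (p.1 : ℂ) * h p) (fibred σ m) := by
      have hc : Continuous (fun w : Circle => (w : ℂ)) := by fun_prop
      exact ((hc.measurable.comp measurable_fst).aestronglyMeasurable).mul hh.1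
    have hz : MemLp (fun p : Circle × ℕ => (p.1 : ℂ) * h p) 2 (fibred σ m) := by
      refine hh.congr_norm hzm (Eventually.of_forall fun p => ?_)
      show ‖h p‖ = ‖(p.1 : ℂ) * h p‖
      rw [norm_mul, Circle.norm_coe, one_mul]
    rw [hV h hh, hV _ hz]
    set F : L20 μ := W.symm (hh.toLp h) with hF
    have hFT : MemLp (fun x => ((F : Lp ℂ 2 μ) : X → ℂ) (T x)) 2 μ :=
      (Lp.memLp (F : Lp ℂ 2 μ)).comp_measurePreserving hT
    have hF' : hFT.toLp _ ∈ L20 μ := by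
      rw [mem_L20, integral_congr_ae hFT.coeFn_toLp]
      have e1 : ∫ x, ((F : Lp ℂ 2 μ) : X → ℂ) (T x) ∂μ = ∫ x, ((F : Lp ℂ 2 μ) : X → ℂ) x ∂μ := by
        have e2 := integral_map (μ := μ) (φ := T) hT.measurable.aemeasurable
          (f := ((F : Lp ℂ 2 μ) : X → ℂ)) (by
            rw [hT.map_eq]; exact (Lp.memLp (F : Lp ℂ 2 μ)).1)
        rw [← e2, hT.map_eq]
      rw [e1]
      exact (mem_L20 μ _).1 F.2
    have e3 := hW F ⟨hFT.toLp _, hF'⟩ hFT.coeFn_toLp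
    have e4 : W ⟨hFT.toLp _, hF'⟩ = hz.toLp _ := by
      apply Lp.ext
      have e5 : (W F : Circle × ℕ → ℂ) =ᵐ[fibred σ m] h := by
        rw [hF, LinearIsometryEquiv.apply_symm_apply]
        exact hh.coeFn_toLp
      filter_upwards [e3, e5, hz.coeFn_toLp] with p p1 p2 p3
      rw [p1, p2, p3]
    have e6 : W.symm (hz.toLp _) = ⟨hFT.toLp _, hF'⟩ := by
      rw [← e4, LinearIsometryEquiv.symm_apply_apply]
    rw [e6]
    exact hFT.coeFn_toLp.symm

end MS723
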