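import Pool.Agent.H723R2.Base
import Pool.Agent.H723R2.QI

/-! The operators `V n` intertwining `US` with a multiple of itself. -/

set_option autoImplicit false
set_option linter.unusedVariables false

open MeasureTheory Filter Topology
open scoped ENNReal NNReal

noncomputable section

namespace MS723

open SM345 (XX UnifMeas errs J IsLim Koop opP cyc)

section gen

variable {H : Type} [NormedAddCommGroup H] [InnerProductSpace ℂ H]

/-- `opP` as a linear map -/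
def opL (U : H ≃ₗᵢ[ℂ] H) (R : Polynomial ℂ) : H →ₗ[ℂ] H where
  toFun := opP U R
  map_add' := (SM345.opP_basic U).2.2.2.2.1 R
  map_smul' := fun a f => (SM345.opP_basic U).2.2.2.2.2.1 R a f

theorem opL_apply (U : H ≃ₗᵢ[ℂ] H) (R : Polynomial ℂ) (f : H) : opL U R f = opP U R f := rfl

/-- averaging polynomial -/
def avp (Q k : ℕ) : Polynomial ℂ :=
  ∑ r ∈ Finset.range Q, Polynomial.C (1 / (Q : ℂ)) * Polynomial.X ^ (k * r)

theorem opP_avp (U : H ≃ₗᵢ[ℂ] H) (Q k : ℕ) (f : H) :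
    opP U (avp Q k) f = ∑ r ∈ Finset.range Q, (1 / (Q : ℂ)) • (U ^ (k * r)) f := by
  obtain ⟨o1, o2, o3, o4, -⟩ := SM345.opP_basic U
  have hopsum : ∀ (s : Finset ℕ) (R : ℕ → Polynomial ℂ) (f : H),
      opP U (∑ i ∈ s, R i) f = ∑ i ∈ s, opP U (R i) f := by
    intro s R f
    refine Finset.induction_on s (by simp [opP]) fun a s ha ih => ?_
    rw [Finset.sum_insert ha, Finset.sum_insert ha, o2, ih]
  unfold avp
  rw [hopsum]
  refine Finset.sum_congr rfl fun r _ => ?_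
  rw [o1, o3, o4]

theorem avp_norm (U : H ≃ₗᵢ[ℂ] H) (Q k : ℕ) (f : H) : ‖opP U (avp Q k) f‖ ≤ ‖f‖ := by
  rw [opP_avp]
  rcases Nat.eq_zero_or_pos Q with h | h
  · subst h
    simp
  have hQ : (Q : ℝ) ≠ 0 := by exact_mod_cast h.ne'
  refine (norm_sum_le _ _).trans ?_
  have h1 : ∀ r ∈ Finset.range Q, ‖(1 / (Q : ℂ)) • (U ^ (k * r)) f‖ = (1 / (Q : ℝ)) * ‖f‖ := by
    intro r _
    rw [norm_smul, LinearIsometryEquiv.norm_map, norm_div, norm_one, Complex.norm_natCast]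
  rw [Finset.sum_congr rfl h1, Finset.sum_const, Finset.card_range, nsmul_eq_mul, ← mul_assoc,
    mul_one_div_cancel hQ, one_mul]

theorem inner_inv_pow (U : H ≃ₗᵢ[ℂ] H) (k : ℕ) (f g : H) :
    inner ℂ (((U⁻¹) ^ k) f) g = inner ℂ f ((U ^ k) g) := by
  rw [← (U ^ k).inner_map_map]
  congr 1
  have h : (U ^ k) * (U⁻¹) ^ k = 1 := by
    rw [inv_pow, mul_inv_cancel]
  exact DFunLike.congr_fun h f

theorem inner_avp (U : H ≃ₗᵢ[ℂ] H) (Q k : ℕ) (f g : H) :
    inner ℂ (opP U⁻¹ (avp Q k) f) g = inner ℂ f (opP U (avp Q k) g) := by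
  rw [opP_avp, opP_avp, sum_inner, inner_sum]
  refine Finset.sum_congr rfl fun r _ => ?_
  rw [inner_smul_left, inner_smul_right, inner_inv_pow]
  congr 1
  simp

end gen

variable {P : Par} (c : Ctx P)

/-- the root of unity -/
def zt (P : Par) : Circle := Circle.exp (2 * Real.pi / P.m)

theorem zt_prim : IsPrimitiveRoot ((zt P : Circle) : ℂ) P.m := by
  have h := Complex.isPrimitiveRoot_exp P.m P.hm.ne'
  have e : ((zt P : Circle) : ℂ) = Complex.exp (2 * Real.pi * Complex.I / P.m) := by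
    unfold zt
    rw [Circle.coe_exp]
    congr 1
    push_cast
    ring
  rw [e]
  exact h

theorem zt_pow : (zt P) ^ P.m = 1 := by
  apply Circle.ext
  rw [Circle.coe_pow, zt_prim.pow_eq_one, Circle.coe_one]

/-- averaging over the top digits -/
def Av (P : Par) (n : ℕ) : Polynomial ℂ := avp (St P n).Q ((lev P n).W ^ P.m)

/-- the intertwining operators -/
def V (n : ℕ) : Lp ℂ 2 c.μ →ₗ[ℂ] Lp ℂ 2 c.μ :=
  ∑ j ∈ Finset.range P.m, ((zt P : Circle) : ℂ) ^ j •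
    (LinearMap.id - opL (c.Ut j)⁻¹ (Av P n))

/-- the adjoints -/
def V' (n : ℕ) : Lp ℂ 2 c.μ →ₗ[ℂ] Lp ℂ 2 c.μ :=
  ∑ j ∈ Finset.range P.m, (starRingEnd ℂ) (((zt P : Circle) : ℂ) ^ j) •
    (LinearMap.id - opL (c.Ut j) (Av P n))

theorem V_apply (n : ℕ) (F : Lp ℂ 2 c.μ) : V c n F = ∑ j ∈ Finset.range P.m,
    ((zt P : Circle) : ℂ) ^ j • (F - opP (c.Ut j)⁻¹ (Av P n) F) := by
  unfold V
  rw [LinearMap.sum_apply]
  rfl

theorem V'_apply (n : ℕ) (F : Lp ℂ 2 c.μ) : V' c n F = ∑ j ∈ Finset.range P.m,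
    (starRingEnd ℂ) (((zt P : Circle) : ℂ) ^ j) • (F - opP (c.Ut j) (Av P n) F) := by
  unfold V'
  rw [LinearMap.sum_apply]
  rfl

theorem V_adj (n : ℕ) (F G : Lp ℂ 2 c.μ) : inner ℂ (V c n F) G = inner ℂ F (V' c n G) := by
  rw [V_apply, V'_apply, sum_inner, inner_sum]
  refine Finset.sum_congr rfl fun j _ => ?_
  rw [inner_smul_left, inner_smul_right, inner_sub_left, inner_sub_right]
  unfold Av
  rw [inner_avp]

theorem zt_norm (j : ℕ) : ‖((zt P : Circle) : ℂ) ^ j‖ = 1 := by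
  rw [norm_pow, Circle.norm_coe, one_pow]

theorem V_norm (n : ℕ) (F : Lp ℂ 2 c.μ) : ‖V c n F‖ ≤ (2 * P.m : ℝ) * ‖F‖ := by
  rw [V_apply]
  refine (norm_sum_le _ _).trans ?_
  have h1 : ∀ j ∈ Finset.range P.m, ‖((zt P : Circle) : ℂ) ^ j •
      (F - opP (c.Ut j)⁻¹ (Av P n) F)‖ ≤ 2 * ‖F‖ := by
    intro j _
    rw [norm_smul, zt_norm, one_mul]
    have := avp_norm (c.Ut j)⁻¹ (St P n).Q ((lev P n).W ^ P.m) F
    calc _ ≤ ‖F‖ + ‖opP (c.Ut j)⁻¹ (Av P n) F‖ := norm_sub_le _ _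
      _ ≤ _ := by unfold Av; linarith
  refine (Finset.sum_le_sum h1).trans ?_
  rw [Finset.sum_const, Finset.card_range, nsmul_eq_mul]
  apply le_of_eq
  ring

theorem V'_norm (n : ℕ) (F : Lp ℂ 2 c.μ) : ‖V' c n F‖ ≤ (2 * P.m : ℝ) * ‖F‖ := by
  rw [V'_apply]
  refine (norm_sum_le _ _).trans ?_
  have h1 : ∀ j ∈ Finset.range P.m, ‖(starRingEnd ℂ) (((zt P : Circle) : ℂ) ^ j) •
      (F - opP (c.Ut j) (Av P n) F)‖ ≤ 2 * ‖F‖ := by
    intro j _
    rw [norm_smul, RCLike.norm_conj, zt_norm, one_mul]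
    have := avp_norm (c.Ut j) (St P n).Q ((lev P n).W ^ P.m) F
    calc _ ≤ ‖F‖ + ‖opP (c.Ut j) (Av P n) F‖ := norm_sub_le _ _
      _ ≤ _ := by unfold Av; linarith
  refine (Finset.sum_le_sum h1).trans ?_
  rw [Finset.sum_const, Finset.card_range, nsmul_eq_mul]
  apply le_of_eq
  ring

/-! ### finite level permutations -/

theorem w_class (n j : ℕ) (x : ZMod (Nn P n)) (k : ℕ) (e : ℕ) :
    ((x + ((k * (lev P n).w ^ (e + 1) : ℕ) : ZMod (Nn P n))).val + j) % P.m =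
      (x.val + j) % P.m := by
  have hw : P.m ∣ (lev P n).w ^ (e + 1) := (lev P n).mw.trans (dvd_pow_self _ (Nat.succ_ne_zero e))
  rw [Nat.add_mod, val_add_mod (m_dvd_Nn P n), Nat.add_mod x.val,
    Nat.mod_eq_zero_of_dvd (hw.mul_left k), add_zero, Nat.mod_mod, ← Nat.add_mod]

theorem tP_pow (j n k : ℕ) (z : Om P n) : ((tP P j n) ^ k) z =
    (z.1 + ((k * (lev P n).w ^ ((z.1.val + j) % P.m + 1) : ℕ) : ZMod (Nn P n)), z.2) := by
  induction k with
  | zero => simp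
  | succ k ih =>
    rw [pow_succ', Equiv.Perm.mul_apply, ih, tP_apply]
    refine Prod.ext ?_ rfl
    simp only
    rw [w_class]
    push_cast
    ring

theorem bf_tP' (j n : ℕ) (d : Dd P) (f : ZMod (Nn P n) → ℂ) :
    bf n d f ∘ ((tP P j n)⁻¹ : Equiv.Perm (Om P n)) = bf n d (fun u => f (u -
      (((lev P n).w ^ ((u.val + j) % P.m + 1) : ℕ) : ZMod (Nn P n)))) := by
  funext z
  obtain ⟨y, rfl⟩ := (tP P j n).surjective z
  simp only [Function.comp_apply]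
  have e : (tP P j n)⁻¹ ((tP P j n) y) = y := (tP P j n).symm_apply_apply y
  rw [e, tP_apply]
  unfold bf
  simp only
  have h := w_class n j y.1 1 ((y.1.val + j) % P.m)
  rw [one_mul] at h
  rw [h, add_sub_cancel_right]

theorem Ut_Kd' (j : ℕ) (d : Dd P) (n₀ : ℕ) (hd : supp n₀ d) (F : Lp ℂ 2 c.μ) (hF : F ∈ Kd c d) :
    (c.Ut j)⁻¹ F ∈ Kd c d := by
  refine map_Kd c (c.Ut j)⁻¹ (fun n => (tP P j n)⁻¹) (dd P) (lim_dd0 P)
    (SM345.isLim_symm c.hμ (tP P j) (dd P) (c.Ut j) (c.lt j)) d n₀ hd (Kd c d)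
    (Kd_closed c d) ?_ F hF
  intro n hn f
  rw [bf_tP']
  exact Jd_mem c d n (supp_mono hn hd) _

theorem Ut_K0' (j : ℕ) (F : Lp ℂ 2 c.μ) (hF : F ∈ K0 c) : (c.Ut j)⁻¹ F ∈ K0 c :=
  K0_map c (c.Ut j)⁻¹ (fun n => (tP P j n)⁻¹) (dd P) (lim_dd0 P)
    (SM345.isLim_symm c.hμ (tP P j) (dd P) (c.Ut j) (c.lt j))
    (Ut_Kd' c j 0 0 (supp_zero 0)) F hF

theorem pow_K0 (U : Lp ℂ 2 c.μ ≃ₗᵢ[ℂ] Lp ℂ 2 c.μ) (hU : ∀ F ∈ K0 c, U F ∈ K0 c) (k : ℕ)
    (F : Lp ℂ 2 c.μ) (hF : F ∈ K0 c) : (U ^ k) F ∈ K0 c := by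
  induction k with
  | zero => exact hF
  | succ k ih =>
    rw [pow_succ']
    exact hU _ ih

theorem opP_K0 (U : Lp ℂ 2 c.μ ≃ₗᵢ[ℂ] Lp ℂ 2 c.μ) (hU : ∀ F ∈ K0 c, U F ∈ K0 c)
    (R : Polynomial ℂ) (F : Lp ℂ 2 c.μ) (hF : F ∈ K0 c) : opP U R F ∈ K0 c := by
  unfold opP
  exact Submodule.sum_mem _ (fun k _ => Submodule.smul_mem _ _ (pow_K0 c U hU k F hF))

theorem V_K0 (n : ℕ) (F : Lp ℂ 2 c.μ) (hF : F ∈ K0 c) : V c n F ∈ K0 c := by
  rw [V_apply]
  refine Submodule.sum_mem _ fun j _ => Submodule.smul_mem _ _ (Submodule.sub_mem _ hF ?_)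
  exact opP_K0 c _ (Ut_K0' c j) _ F hF

theorem V'_K0 (n : ℕ) (F : Lp ℂ 2 c.μ) (hF : F ∈ K0 c) : V' c n F ∈ K0 c := by
  rw [V'_apply]
  refine Submodule.sum_mem _ fun j _ => Submodule.smul_mem _ _ (Submodule.sub_mem _ hF ?_)
  exact opP_K0 c _ (Ut_K0 c j) _ F hF

/-! ### intertwining -/

theorem rel_St (j : ℕ) (F : Lp ℂ 2 c.μ) (hF : F ∈ Kd c 0) :
    c.US (c.Ut j F) = c.Ut (j + 1) (c.US F) := by
  have hδ : Tendsto (fun n => dd P n + dd P n) atTop (𝓝 0) := by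
    have := (lim_dd0 P).add (lim_dd0 P)
    rwa [add_zero] at this
  refine ext_Kd c (c.US * c.Ut j) (c.Ut (j + 1) * c.US) (fun n => tP P j n * sP P n)
    (fun n => sP P n * tP P (j + 1) n) (fun n => dd P n + dd P n) (fun n => dd P n + dd P n) hδ hδ
    (SM345.isLim_mul c.hμ (sP P) (tP P j) (dd P) (dd P) _ _ c.lS (c.lt j))
    (SM345.isLim_mul c.hμ (tP P (j + 1)) (sP P) (dd P) (dd P) _ _ (c.lt (j + 1)) c.lS) 0 0
    (supp_zero 0) ?_ F hF
  intro n hn f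
  funext z
  simp only [Function.comp_apply, Equiv.Perm.mul_apply]
  rw [tP_apply, sP_apply, sP_apply, tP_apply]
  unfold bf
  simp only
  congr 1
  congr 1
  have h := val_add_mod (m_dvd_Nn P n) z.1 1
  have e : ((z.1 + 1).val + j) % P.m = (z.1.val + (j + 1)) % P.m := by
    rw [Nat.cast_one] at h
    rw [Nat.add_mod, h, ← Nat.add_mod]
    congr 1
    ring
  rw [e]
  ring

theorem Ut_per (j : ℕ) (F : Lp ℂ 2 c.μ) (hF : F ∈ Kd c 0) : c.Ut (j + P.m) F = c.Ut j F := by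
  refine ext_Kd c (c.Ut (j + P.m)) (c.Ut j) (tP P (j + P.m)) (tP P j) (dd P) (dd P) (lim_dd0 P)
    (lim_dd0 P) (c.lt _) (c.lt _) 0 0 (supp_zero 0) ?_ F hF
  intro n hn f
  rw [bf_tP, bf_tP]
  congr 1
  funext u
  rw [← add_assoc, Nat.add_mod_right]

theorem rel_St' (j : ℕ) (F : Lp ℂ 2 c.μ) (hF : F ∈ Kd c 0) :
    (c.Ut (j + 1))⁻¹ (c.US F) = c.US ((c.Ut j)⁻¹ F) := by
  have h1 := rel_St c j ((c.Ut j)⁻¹ F) (Ut_Kd' c j 0 0 (supp_zero 0) F hF)
  have e1 : c.Ut j ((c.Ut j)⁻¹ F) = F := (c.Ut j).apply_symm_apply F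
  rw [e1] at h1
  rw [h1]
  exact (c.Ut (j + 1)).symm_apply_apply _

theorem Ut_per' (j : ℕ) (F : Lp ℂ 2 c.μ) (hF : F ∈ Kd c 0) :
    (c.Ut (j + P.m))⁻¹ F = (c.Ut j)⁻¹ F := by
  have h1 := Ut_per c j ((c.Ut j)⁻¹ F) (Ut_Kd' c j 0 0 (supp_zero 0) F hF)
  have e1 : c.Ut j ((c.Ut j)⁻¹ F) = F := (c.Ut j).apply_symm_apply F
  rw [e1] at h1
  have h2 : (c.Ut (j + P.m))⁻¹ (c.Ut (j + P.m) ((c.Ut j)⁻¹ F)) = (c.Ut j)⁻¹ F :=
    (c.Ut (j + P.m)).symm_apply_apply _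
  rw [h1] at h2
  exact h2

theorem pow_Kd0 (U : Lp ℂ 2 c.μ ≃ₗᵢ[ℂ] Lp ℂ 2 c.μ) (hU : ∀ F ∈ Kd c 0, U F ∈ Kd c 0) (k : ℕ)
    (F : Lp ℂ 2 c.μ) (hF : F ∈ Kd c 0) : (U ^ k) F ∈ Kd c 0 := by
  induction k with
  | zero => exact hF
  | succ k ih =>
    rw [pow_succ']
    exact hU _ ih

theorem V_US (n : ℕ) (F : Lp ℂ 2 c.μ) (hF : F ∈ Kd c 0) :
    V c n (c.US F) = ((zt P : Circle) : ℂ) • c.US (V c n F) := by
  -- powers
  have hpow : ∀ j k, (((c.Ut (j + 1))⁻¹) ^ k) (c.US F) = c.US ((((c.Ut j)⁻¹) ^ k) F) := by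
    intro j k
    induction k with
    | zero => rfl
    | succ k ih =>
      have e1 : (((c.Ut (j + 1))⁻¹) ^ (k + 1)) (c.US F) =
          (c.Ut (j + 1))⁻¹ ((((c.Ut (j + 1))⁻¹) ^ k) (c.US F)) := by
        rw [pow_succ']; rfl
      have e2 : (((c.Ut j)⁻¹) ^ (k + 1)) F = (c.Ut j)⁻¹ ((((c.Ut j)⁻¹) ^ k) F) := by
        rw [pow_succ']; rfl
      rw [e1, ih, e2]
      exact rel_St' c j _ (pow_Kd0 c _ (Ut_Kd' c j 0 0 (supp_zero 0)) k F hF)
  have hper : ∀ j k, ∀ G ∈ Kd c 0, (((c.Ut (j + P.m))⁻¹) ^ k) G = (((c.Ut j)⁻¹) ^ k) G := by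
    intro j k G hG
    induction k with
    | zero => rfl
    | succ k ih =>
      have e1 : (((c.Ut (j + P.m))⁻¹) ^ (k + 1)) G =
          (c.Ut (j + P.m))⁻¹ ((((c.Ut (j + P.m))⁻¹) ^ k) G) := by
        rw [pow_succ']; rfl
      have e2 : (((c.Ut j)⁻¹) ^ (k + 1)) G = (c.Ut j)⁻¹ ((((c.Ut j)⁻¹) ^ k) G) := by
        rw [pow_succ']; rfl
      rw [e1, ih, e2]
      exact Ut_per' c j _ (pow_Kd0 c _ (Ut_Kd' c j 0 0 (supp_zero 0)) k G hG)
  have hUSF : c.US F ∈ Kd c 0 := US_Kd c 0 0 (supp_zero 0) F hF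
  set g : ℕ → Lp ℂ 2 c.μ := fun j => ((zt P : Circle) : ℂ) ^ j •
    (c.US F - opP (c.Ut j)⁻¹ (Av P n) (c.US F)) with hg
  have hgper : ∀ j, g (j + P.m) = g j := by
    intro j
    simp only [hg]
    congr 1
    · rw [pow_add, zt_prim.pow_eq_one, mul_one]
    · congr 1
      unfold Av
      rw [opP_avp, opP_avp]
      refine Finset.sum_congr rfl fun r _ => ?_
      rw [hper j _ _ hUSF]
  rw [V_apply, V_apply]
  have h1 : ∑ j ∈ Finset.range P.m, g j = ∑ j ∈ Finset.range P.m, g (1 + j) :=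
    (sum_shift g P.m hgper 1).symm
  refine h1.trans ?_
  rw [map_sum, Finset.smul_sum]
  refine Finset.sum_congr rfl fun j _ => ?_
  simp only [hg]
  rw [map_smul, smul_smul, pow_add, pow_one]
  congr 1
  rw [map_sub]
  congr 1
  unfold Av
  rw [opP_avp, opP_avp, map_sum]
  refine Finset.sum_congr rfl fun r _ => ?_
  rw [map_smul, add_comm 1 j, hpow]

/-! ### the estimate -/

theorem Av_est (j n : ℕ) (f : ZMod (Nn P n) → ℂ) (C : ℝ) (hf : ∀ u, ‖f u‖ ≤ C)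
    (hf0 : ∑ u, f u = 0) :
    ‖opP (c.Ut j) (Av P n) (Jd c 0 n f) -
      Jd c 0 (n + 1) (fun u => if (u.val + j) % P.m = 0 then 0 else lf n f u)‖ ≤
      C * ((Nn P (n + 1) : ℝ) * dd P (n + 1)) := by
  have hC : 0 ≤ C := (norm_nonneg _).trans (hf 0)
  set Q := (St P n).Q with hQ
  set Wm := (lev P n).W ^ P.m with hWm
  have hQpos : 0 < Q := (St P n).Q_pos
  have hQC : (Q : ℂ) ≠ 0 := by exact_mod_cast hQpos.ne'
  have hWmle : ∀ r < Q, ((Wm * r : ℕ) : ℝ) ≤ Nn P (n + 1) := by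
    intro r hr
    have h1 : Wm * r ≤ Nn P (n + 1) := by
      rw [Nn_succ]
      unfold Stp.M Stp.low
      have h2 : Wm ≤ (lev P n).W ^ (P.m + 1) :=
        Nat.pow_le_pow_right (lev P n).W_pos (Nat.le_succ _)
      exact Nat.mul_le_mul h2 hr.le
    exact_mod_cast h1
  have hJF : Jd c 0 n f = J c.hμ (n + 1) (bf (n + 1) 0 (lf n f)) := (Jd_lf c 0 n rfl f).symm
  have hlb : ∀ u, ‖lf n f u‖ ≤ C := fun u => hf _
  -- value of the averages at finite level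
  have hval : (fun z : Om P (n + 1) => ∑ r ∈ Finset.range Q, (1 / (Q : ℂ)) *
      bf (n + 1) 0 (lf n f) (((tP P j (n + 1)) ^ (Wm * r)) z)) =
      bf (n + 1) 0 (fun u => if (u.val + j) % P.m = 0 then 0 else lf n f u) := by
    funext z
    have e0 : ∀ r, bf (n + 1) 0 (lf n f) (((tP P j (n + 1)) ^ (Wm * r)) z) =
        f ((St P n).pr (z.1.val + Wm * r * (lev P n).W ^ ((z.1.val + j) % P.m + 1)) : ℕ) := by
      intro r
      rw [tP_pow]
      unfold bf lf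
      simp only [ch_zero, mul_one]
      congr 2
      have hw : (lev P (n + 1)).w = (lev P n).W := rfl
      rw [hw]
      exact pr_val_congr P n (val_add_modEq z.1 _)
    simp only [e0]
    unfold bf
    simp only [ch_zero, mul_one]
    rw [← Finset.mul_sum]
    by_cases h : (z.1.val + j) % P.m = 0
    · rw [if_pos h, h]
      have h1 : ∑ r ∈ Finset.range (St P n).Q,
          f ((St P n).pr (z.1.val + (St P n).low * r) : ℕ) =
          (St P n).K' • ∑ y : ZMod (Nn P n), f y := (St P n).sum_top z.1.val f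
      rw [hf0, smul_zero] at h1
      have e1 : ∀ r, Wm * r * (lev P n).W ^ (0 + 1) = (St P n).low * r := by
        intro r
        show (lev P n).W ^ P.m * r * (lev P n).W ^ (0 + 1) = (lev P n).W ^ (P.m + 1) * r
        ring
      simp only [e1]
      rw [h1, mul_zero]
    · rw [if_neg h]
      obtain ⟨e, he⟩ : ∃ e, (z.1.val + j) % P.m = e + 1 := ⟨(z.1.val + j) % P.m - 1, by omega⟩
      rw [he]
      have e1 : ∀ r, (St P n).pr (z.1.val + Wm * r * (lev P n).W ^ (e + 1 + 1)) =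
          (St P n).pr z.1.val := by
        intro r
        have e2 : Wm * r * (lev P n).W ^ (e + 1 + 1) =
            (St P n).M * (P.m * (lev P n).B ^ ((lev P n).B + 2) * r * (lev P n).W ^ e) := by
          have e3 : (St P n).M = (lev P n).W ^ (P.m + 1) * (Nn P n * KK P (n + 1)) := by
            have : (St P n).K' = KK P (n + 1) := (lev P n).stp_K'
            rw [← this]
            rfl
          have e4 : (lev P n).W = P.m * KK P (n + 1) * Nn P n * (lev P n).B ^ ((lev P n).B + 2) :=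
            rfl
          rw [e3, hWm]
          calc (lev P n).W ^ P.m * r * (lev P n).W ^ (e + 1 + 1) =
              (lev P n).W ^ (P.m + 1) * ((lev P n).W * r * (lev P n).W ^ e) := by ring
            _ = (lev P n).W ^ (P.m + 1) * ((P.m * KK P (n + 1) * Nn P n *
                (lev P n).B ^ ((lev P n).B + 2)) * r * (lev P n).W ^ e) := by
                congr 2
            _ = _ := by ring
        rw [e2, per_mul (St P n).pr (St P n).M (St P n).per_pr]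
      simp only [e1, Finset.sum_const, Finset.card_range, nsmul_eq_mul]
      rw [← mul_assoc, one_div, inv_mul_cancel₀ hQC, one_mul]
      rfl
  have hsum : ∑ r ∈ Finset.range Q, (1 / (Q : ℂ)) • J c.hμ (n + 1) (fun z =>
      bf (n + 1) 0 (lf n f) (((tP P j (n + 1)) ^ (Wm * r)) z)) =
      Jd c 0 (n + 1) (fun u => if (u.val + j) % P.m = 0 then 0 else lf n f u) := by
    rw [J_smul_sum]
    unfold Jd
    rw [← hval]
  rw [← hsum, hJF]
  have hop : opP (c.Ut j) (Av P n) (J c.hμ (n + 1) (bf (n + 1) 0 (lf n f))) =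
      ∑ r ∈ Finset.range Q, (1 / (Q : ℂ)) •
        ((c.Ut j) ^ (Wm * r)) (J c.hμ (n + 1) (bf (n + 1) 0 (lf n f))) := by
    unfold Av
    rw [opP_avp]
  rw [hop, ← Finset.sum_sub_distrib]
  have hterm : ∀ r ∈ Finset.range Q, ‖(1 / (Q : ℂ)) •
        ((c.Ut j) ^ (Wm * r)) (J c.hμ (n + 1) (bf (n + 1) 0 (lf n f))) -
        (1 / (Q : ℂ)) • J c.hμ (n + 1) (fun z =>
      bf (n + 1) 0 (lf n f) (((tP P j (n + 1)) ^ (Wm * r)) z))‖ ≤
      (1 / (Q : ℝ)) * (C * ((Nn P (n + 1) : ℝ) * dd P (n + 1))) := by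
    intro r hr
    rw [← smul_sub, norm_smul, norm_div, norm_one, Complex.norm_natCast]
    refine mul_le_mul_of_nonneg_left ?_ (by positivity)
    have h1 := SM345.isLim_pow c.hμ (tP P j) (dd P) (c.Ut j) (c.lt j) (n + 1) (Wm * r)
      (bf (n + 1) 0 (lf n f)) C (bf_bound (n + 1) 0 _ C hlb)
    refine h1.trans ?_
    have h2 := hWmle r (Finset.mem_range.1 hr)
    have h3 := dd_nonneg P (n + 1)
    calc ((Wm * r : ℕ) : ℝ) * (C * dd P (n + 1)) ≤ Nn P (n + 1) * (C * dd P (n + 1)) :=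
          mul_le_mul_of_nonneg_right h2 (by positivity)
      _ = _ := by ring
  refine (norm_sum_le _ _).trans ((Finset.sum_le_sum hterm).trans ?_)
  rw [Finset.sum_const, Finset.card_range, nsmul_eq_mul]
  have hQR : (Q : ℝ) ≠ 0 := by exact_mod_cast hQpos.ne'
  apply le_of_eq
  field_simp

/-- the weight -/
def wgt (P : Par) (u : ℕ) : ℂ := ∑ j ∈ Finset.range P.m,
  (starRingEnd ℂ) (((zt P : Circle) : ℂ) ^ j) * (if (u + j) % P.m = 0 then 1 else 0)

theorem wgt_norm (u : ℕ) : ‖wgt P u‖ = 1 := by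
  have hm := P.hm
  set j₀ := (P.m - u % P.m) % P.m with hj₀
  have hj₀lt : j₀ < P.m := Nat.mod_lt _ hm
  have hul : u % P.m < P.m := Nat.mod_lt _ hm
  have hiff : ∀ j < P.m, (u + j) % P.m = 0 ↔ j = j₀ := by
    intro j hj
    have e1 : (u + j) % P.m = (u % P.m + j) % P.m := by rw [Nat.mod_add_mod]
    rw [e1]
    by_cases hu : u % P.m = 0
    · have : j₀ = 0 := by rw [hj₀, hu, Nat.sub_zero, Nat.mod_self]
      rw [this, hu, zero_add, Nat.mod_eq_of_lt hj]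
    · have : j₀ = P.m - u % P.m := by
        rw [hj₀]; exact Nat.mod_eq_of_lt (by omega)
      rw [this]
      constructor
      · intro h
        rcases lt_or_ge (u % P.m + j) P.m with h1 | h1
        · rw [Nat.mod_eq_of_lt h1] at h
          omega
        · have e2 : (u % P.m + j) % P.m = u % P.m + j - P.m := by
            rw [Nat.mod_eq_sub_mod h1, Nat.mod_eq_of_lt (by omega)]
          omega
      · intro h
        rw [h, Nat.add_sub_cancel' hul.le, Nat.mod_self]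
  unfold wgt
  rw [Finset.sum_eq_single j₀]
  · rw [if_pos ((hiff j₀ hj₀lt).2 rfl), mul_one, RCLike.norm_conj, zt_norm]
  · intro j hj hne
    rw [if_neg (fun h => hne ((hiff j (Finset.mem_range.1 hj)).1 h)), mul_zero]
  · intro h
    exact absurd (Finset.mem_range.2 hj₀lt) h

theorem V'_est (n : ℕ) (f : ZMod (Nn P n) → ℂ) (C : ℝ) (hf : ∀ u, ‖f u‖ ≤ C)
    (hf0 : ∑ u, f u = 0) :
    ‖Jd c 0 n f‖ ≤ ‖V' c n (Jd c 0 n f)‖ + P.m * (C * ((Nn P (n + 1) : ℝ) * dd P (n + 1))) := by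
  have e1 : Jd c 0 (n + 1) (fun u => wgt P u.val * lf n f u) =
      ∑ j ∈ Finset.range P.m, (starRingEnd ℂ) (((zt P : Circle) : ℂ) ^ j) •
        (Jd c 0 n f - Jd c 0 (n + 1) (fun u => if (u.val + j) % P.m = 0 then 0 else lf n f u)) := by
    have e2 : ∀ j ∈ Finset.range P.m, (starRingEnd ℂ) (((zt P : Circle) : ℂ) ^ j) •
        (Jd c 0 n f - Jd c 0 (n + 1) (fun u => if (u.val + j) % P.m = 0 then 0 else lf n f u)) =
        Jd c 0 (n + 1) (fun u => (starRingEnd ℂ) (((zt P : Circle) : ℂ) ^ j) *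
          (lf n f u - (if (u.val + j) % P.m = 0 then 0 else lf n f u))) := by
      intro j _
      rw [← Jd_lf c 0 n rfl f, Jd_sub, ← Jd_smul]
    rw [Finset.sum_congr rfl e2, Jd_sum]
    congr 1
    funext u
    unfold wgt
    rw [Finset.sum_mul]
    refine Finset.sum_congr rfl fun j _ => ?_
    split_ifs <;> ring
  have e3 : ‖Jd c 0 (n + 1) (fun u => wgt P u.val * lf n f u)‖ = ‖Jd c 0 n f‖ := by
    rw [← Jd_lf c 0 n rfl f]
    have h1 := Jd_norm c 0 (n + 1) (fun u => wgt P u.val * lf n f u)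
    have h2 := Jd_norm c 0 (n + 1) (lf n f)
    have h3 : ∀ u : ZMod (Nn P (n + 1)), ‖wgt P u.val * lf n f u‖ ^ 2 = ‖lf n f u‖ ^ 2 := by
      intro u
      rw [norm_mul, wgt_norm, one_mul]
    rw [Finset.sum_congr rfl fun u _ => h3 u, ← h2] at h1
    exact (pow_left_inj₀ (norm_nonneg _) (norm_nonneg _) two_ne_zero).1 h1
  have e4 : ‖V' c n (Jd c 0 n f) - Jd c 0 (n + 1) (fun u => wgt P u.val * lf n f u)‖ ≤
      P.m * (C * ((Nn P (n + 1) : ℝ) * dd P (n + 1))) := by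
    rw [V'_apply, e1, ← Finset.sum_sub_distrib]
    have h1 : ∀ j ∈ Finset.range P.m, ‖(starRingEnd ℂ) (((zt P : Circle) : ℂ) ^ j) •
        (Jd c 0 n f - opP (c.Ut j) (Av P n) (Jd c 0 n f)) -
        (starRingEnd ℂ) (((zt P : Circle) : ℂ) ^ j) •
        (Jd c 0 n f - Jd c 0 (n + 1) (fun u => if (u.val + j) % P.m = 0 then 0 else lf n f u))‖ ≤
        C * ((Nn P (n + 1) : ℝ) * dd P (n + 1)) := by
      intro j _
      rw [← smul_sub, norm_smul, RCLike.norm_conj, zt_norm, one_mul]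
      have h2 := Av_est c j n f C hf hf0
      calc _ = ‖opP (c.Ut j) (Av P n) (Jd c 0 n f) -
            Jd c 0 (n + 1) (fun u => if (u.val + j) % P.m = 0 then 0 else lf n f u)‖ := by
            rw [norm_sub_rev]
            congr 1
            abel
        _ ≤ _ := h2
    refine (norm_sum_le _ _).trans ((Finset.sum_le_sum h1).trans ?_)
    rw [Finset.sum_const, Finset.card_range, nsmul_eq_mul]
  rw [← e3]
  calc ‖Jd c 0 (n + 1) (fun u => wgt P u.val * lf n f u)‖ =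
      ‖V' c n (Jd c 0 n f) - (V' c n (Jd c 0 n f) -
        Jd c 0 (n + 1) (fun u => wgt P u.val * lf n f u))‖ := by congr 1; abel
    _ ≤ ‖V' c n (Jd c 0 n f)‖ + ‖V' c n (Jd c 0 n f) -
        Jd c 0 (n + 1) (fun u => wgt P u.val * lf n f u)‖ := norm_sub_le _ _
    _ ≤ _ := by linarith

theorem V'_inj (G : Lp ℂ 2 c.μ) (hG : G ∈ K0 c) (h : ∀ n, V' c n G = 0) : G = 0 := by
  have key : ∀ ε : ℝ, 0 < ε → ‖G‖ ≤ (2 * P.m + 1) * ε := by
    intro ε hε
    obtain ⟨m, f, hf0, hf⟩ := K0_approx c G hG ε hε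
    obtain ⟨C, hC0, hC⟩ := exists_bound f
    have h1 : ∀ᶠ n in atTop, ‖Jd c 0 m f‖ ≤ 2 * P.m * ε +
        P.m * (C * ((Nn P (n + 1) : ℝ) * dd P (n + 1))) := by
      filter_upwards [eventually_ge_atTop m] with n hn
      obtain ⟨g, hg1, hg2, hg3⟩ := Jd_lift' c 0 m n hn (supp_zero m) f C hC
      have h2 := V'_est c n g C hg1 (hg2 hf0)
      rw [hg3] at h2
      have h3 : ‖V' c n (Jd c 0 m f)‖ ≤ 2 * P.m * ε := by
        have e : V' c n (Jd c 0 m f) = - V' c n (G - Jd c 0 m f) := by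
          rw [map_sub, h n]
          abel
        rw [e, norm_neg]
        refine (V'_norm c n _).trans ?_
        have := P.hm
        exact mul_le_mul_of_nonneg_left hf.le (by positivity)
      linarith
    have hlim : Tendsto (fun n => 2 * (P.m : ℝ) * ε +
        P.m * (C * ((Nn P (n + 1) : ℝ) * dd P (n + 1)))) atTop (𝓝 (2 * P.m * ε + P.m * (C * 0))) := by
      refine Tendsto.add tendsto_const_nhds ((Tendsto.const_mul _ ?_).const_mul _)
      have h4 : Tendsto (fun n => (Nn P n : ℝ) * dd P n) atTop (𝓝 0) := by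
        refine squeeze_zero (fun n => mul_nonneg (by positivity) (dd_nonneg P n)) (fun n => ?_)
          (lim_N2 (P := P))
        refine mul_le_mul_of_nonneg_right ?_ (dd_nonneg P n)
        have : (1:ℝ) ≤ (Nn P n : ℝ) := by exact_mod_cast (Nn_pos P n)
        nlinarith
      exact h4.comp (tendsto_add_atTop_nat 1)
    rw [mul_zero, mul_zero, add_zero] at hlim
    have h5 : ‖Jd c 0 m f‖ ≤ 2 * P.m * ε := ge_of_tendsto hlim h1
    calc ‖G‖ = ‖(G - Jd c 0 m f) + Jd c 0 m f‖ := by congr 1; abel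
      _ ≤ ‖G - Jd c 0 m f‖ + ‖Jd c 0 m f‖ := norm_add_le _ _
      _ ≤ ε + 2 * P.m * ε := add_le_add hf.le h5
      _ = _ := by ring
  rw [← norm_le_zero_iff]
  have hlim : Tendsto (fun ε : ℝ => (2 * (P.m : ℝ) + 1) * ε) (𝓝[>] 0) (𝓝 ((2 * P.m + 1) * 0)) :=
    ((continuous_const.mul continuous_id).tendsto 0).mono_left nhdsWithin_le_nhds
  rw [mul_zero] at hlim
  refine ge_of_tendsto hlim ?_
  filter_upwards [self_mem_nhdsWithin] with ε hε
  exact key ε hε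

end MS723
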